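import Mathlib

/-!
# The algorithm
-/

set_option autoImplicit false

namespace Pool.Agent.H586R2.AF

open Real Finset

/-- codes of nonnegative angles: `(k, cos β, sin β)` stands for `k π + β` with `0 ≤ β < π` -/
abbrev Ang := ℕ × ℝ × ℝ

/-- `x` is the code of the angle `v` -/
def AngOK (x : Ang) (v : ℝ) : Prop :=
  ∃ β : ℝ, 0 ≤ β ∧ β < π ∧ v = x.1 * π + β ∧ x.2.1 = Real.cos β ∧ x.2.2 = Real.sin β

open Classical in
/-- normal form of the angle `k π + γ`, `0 ≤ γ < 2π`, given `cos γ` and `sin γ` -/
noncomputable def angNorm (k : ℕ) (c s : ℝ) : Ang :=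
  if 0 < s ∨ (s = 0 ∧ 0 < c) then (k, c, s) else (k + 1, -c, -s)

/-- addition of angles -/
noncomputable def angAdd (x y : Ang) : Ang :=
  angNorm (x.1 + y.1) (x.2.1 * y.2.1 - x.2.2 * y.2.2) (x.2.1 * y.2.2 + x.2.2 * y.2.1)

open Classical in
/-- comparison of angles -/
noncomputable def angLe (x y : Ang) : Bool :=
  decide (x.1 < y.1 ∨ (x.1 = y.1 ∧ y.2.1 ≤ x.2.1))

/-- codes of `0`, `π`, `2π` -/
def ang0 : Ang := (0, 1, 0)
def angPi : Ang := (1, 1, 0)
def ang2Pi : Ang := (2, 1, 0)

/-- minimum of optional angles (`none` = infinity) -/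
noncomputable def oMin (x y : Option Ang) : Option Ang :=
  match x, y with
  | none, y => y
  | some a, none => some a
  | some a, some b => if angLe a b then some a else some b

/-- sum of an optional angle and an angle -/
noncomputable def oAdd (x : Option Ang) (y : Ang) : Option Ang := x.map (fun a => angAdd a y)

/-- comparison of an optional angle with an angle -/
noncomputable def oLe (x : Option Ang) (y : Ang) : Bool :=
  match x with
  | none => false
  | some a => angLe a y

/-- finite unions of closed intervals -/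
abbrev IS := List (ℝ × ℝ)

open Classical in
/-- clip the translate of an interval to `[A, B]`, dropping it if it misses the open interval -/
noncomputable def ivClip1 (A B sh : ℝ) (x : ℝ × ℝ) : Option (ℝ × ℝ) :=
  if max (x.1 + sh) A ≤ min (x.2 + sh) B ∧ max (x.1 + sh) A < B ∧ A < min (x.2 + sh) B then
    some (max (x.1 + sh) A, min (x.2 + sh) B)
  else none

/-- clip the translate of a union of intervals -/
noncomputable def ivClip (A B sh : ℝ) (L : IS) : IS := L.filterMap (ivClip1 A B sh)

open Classical in
/-- two closed intervals are disjoint -/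
noncomputable def ivDisj (x y : ℝ × ℝ) : Bool := decide (x.2 < y.1 ∨ y.2 < x.1)

/-- insert an interval into a disjoint union, merging it with the intervals it meets -/
noncomputable def ivIns (x : ℝ × ℝ) (L : IS) : IS :=
  (L.filter (fun y => !(ivDisj x y))).foldl (fun h y => (min h.1 y.1, max h.2 y.2)) x ::
    L.filter (fun y => ivDisj x y)

/-- union -/
noncomputable def ivUnion (L M : IS) : IS := M.foldl (fun acc x => ivIns x acc) L

open Classical in
/-- membership -/
noncomputable def ivMem (c : ℝ) (L : IS) : Bool := L.any (fun y => decide (y.1 ≤ c ∧ c ≤ y.2))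

open Classical in
/-- do the two unions have a common point in the open interval `(A, B)`? -/
noncomputable def ivMeet (A B : ℝ) (L M : IS) : Bool :=
  L.any (fun x => M.any (fun y =>
    decide (max x.1 y.1 ≤ min x.2 y.2 ∧ max x.1 y.1 < B ∧ A < min x.2 y.2)))

/-- rows of the table: pair of indices, minimal angle sum of a chain, glued sums -/
abbrev Row := (ℕ × ℕ) × (Option Ang × IS)

/-- look up -/
def look (T : List Row) (i j : ℕ) : Option Ang × IS :=
  match T.find? (fun r => decide (r.1.1 = i) && decide (r.1.2 = j)) with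
  | some r => r.2
  | none => (none, [])

/-- `[i, i+1, ..., j-1]` -/
def seg (i j : ℕ) : List ℕ := (List.range (j - i)).map (fun t => i + t)

/-- can vertex `r` be linked to a flat point of edge `e` linked to vertex `j`? -/
noncomputable def flatLink (S : List ℝ) (T : List Row) (j r e : ℕ) : Bool :=
  ivMeet (S.getD e 0) (S.getD (e + 1) 0)
    (ivClip (S.getD e 0) (S.getD (e + 1) 0) (-(S.getD r 0)) (look T r e).2)
    (ivClip (S.getD e 0) (S.getD (e + 1) 0) (-(S.getD j 0)) (look T e (j - 1)).2)

/-- candidates for the minimal angle sum of a chain from `i` to `j` with last vertex before `j`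
equal to `r` -/
noncomputable def candA (S : List ℝ) (al : List Ang) (T : List Row) (i j r : ℕ) : Option Ang :=
  oMin
    (if ivMem (S.getD r 0 + S.getD j 0) (look T r (j - 1)).2 then
      oAdd (look T i r).1 (al.getD j ang0) else none)
    (if (seg r j).any (fun e => flatLink S T j r e) then
      oAdd (oAdd (look T i r).1 angPi) (al.getD j ang0) else none)

/-- drop angles `≥ 3π` -/
def oCap (x : Option Ang) : Option Ang :=
  match x with
  | none => none
  | some a => if a.1 < 3 then some a else none

/-- minimal angle sum of a chain from vertex `i` to vertex `j` (`none` if it is at least `3π`) -/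
noncomputable def entryA (S : List ℝ) (al : List Ang) (T : List Row) (i j : ℕ) : Option Ang :=
  oCap (if i = j then some (al.getD j ang0)
    else (seg i j).foldl (fun acc r => oMin acc (candA S al T i j r)) none)

/-- sum of the angles of the vertices `i+1, ..., j` -/
noncomputable def sumA (al : List Ang) (i j : ℕ) : Ang :=
  (seg (i + 1) (j + 1)).foldl (fun acc k => angAdd acc (al.getD k ang0)) ang0

/-- intervals obtained from the edge pair `(p, j)` -/
noncomputable def rightI (S : List ℝ) (T : List Row) (i j p : ℕ) : IS :=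
  if oLe (look T (i + 1) p).1 angPi then
    ivClip (S.getD (i + 1) 0 + S.getD j 0) (S.getD (i + 1) 0 + S.getD (j + 1) 0)
      (S.getD (i + 1) 0 - S.getD p 0) (look T p j).2
  else []

/-- intervals obtained from the edge pair `(i, p)` -/
noncomputable def leftI (S : List ℝ) (T : List Row) (i j p : ℕ) : IS :=
  if oLe (look T (p + 1) j).1 angPi then
    ivClip (S.getD i 0 + S.getD j 0) (S.getD (i + 1) 0 + S.getD j 0)
      (S.getD j 0 - S.getD (p + 1) 0) (look T i p).2
  else []

/-- the node with two vertices -/
noncomputable def termI (S : List ℝ) (T : List Row) (i j : ℕ) : IS :=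
  if oLe (look T (i + 1) j).1 ang2Pi then
    [(S.getD (i + 1) 0 + S.getD j 0, S.getD (i + 1) 0 + S.getD j 0)]
  else []

/-- the sums `c` for which the edge pair `(i, j)` can be glued -/
noncomputable def entryI (n cap : ℕ) (S : List ℝ) (al : List Ang) (T : List Row) (i j : ℕ) : IS :=
  if n ≤ j then []
  else if i = j then [(2 * S.getD i 0, 2 * S.getD (i + 1) 0)]
  else if (sumA al i j).1 + 3 < j - i then []
  else
    ((seg i j).foldl (fun acc p => ivUnion acc (leftI S T i j p))
      ((seg (i + 1) (j + 1)).foldl (fun acc p => ivUnion acc (rightI S T i j p))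
        (termI S T i j))).take cap

/-- all pairs `i ≤ j ≤ n` in the order of increasing `j - i` -/
def pairs (n : ℕ) : List (ℕ × ℕ) :=
  (List.range (n + 1)).flatMap (fun d => (List.range (n + 1 - d)).map (fun i => (i, i + d)))

/-- one step of the dynamic programme -/
noncomputable def stepT (n cap : ℕ) (S : List ℝ) (al : List Ang) (T : List Row) (x : ℕ × ℕ) :
    List Row :=
  ((x.1, x.2), (entryA S al T x.1 x.2, entryI n cap S al T x.1 x.2)) :: T

/-- the table -/
noncomputable def table (n cap : ℕ) (S : List ℝ) (al : List Ang) : List Row :=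
  (pairs n).foldl (stepT n cap S al) []

/-- bound for the number of intervals -/
def capN (n : ℕ) : ℕ := (n + 1) ^ 25 + 1

/-- decision from positions and angles -/
noncomputable def decideDat (n : ℕ) (S : List ℝ) (al : List Ang) : Bool :=
  oLe (look (table n (capN n) S al) 0 n).1 ang2Pi

/-- next and previous vertex -/
def nxt (P : List (ℝ × ℝ)) (k : ℕ) : ℝ × ℝ := P.getD (k + 1) (P.getD 0 (0, 0))
def prv (P : List (ℝ × ℝ)) (k : ℕ) : ℝ × ℝ :=
  if k = 0 then P.getD (P.length - 1) (0, 0) else P.getD (k - 1) (0, 0)

/-- length of a vector -/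
noncomputable def vlen (x y : ℝ) : ℝ := Real.sqrt (x * x + y * y)

/-- length of edge `k` -/
noncomputable def elen (P : List (ℝ × ℝ)) (k : ℕ) : ℝ :=
  vlen ((nxt P k).1 - (P.getD k (0, 0)).1) ((nxt P k).2 - (P.getD k (0, 0)).2)

/-- positions of the vertices: the list `[s 0, ..., s n]` -/
noncomputable def posL (P : List (ℝ × ℝ)) : List ℝ :=
  ((List.range P.length).foldl (fun (acc : ℝ × List ℝ) k =>
    (acc.1 + elen P k, acc.2 ++ [acc.1 + elen P k])) (0, [0])).2

/-- code of the interior angle at vertex `k` -/
noncomputable def angC (P : List (ℝ × ℝ)) (k : ℕ) : Ang :=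
  let w := ((nxt P k).1 - (P.getD k (0, 0)).1, (nxt P k).2 - (P.getD k (0, 0)).2)
  let u := ((prv P k).1 - (P.getD k (0, 0)).1, (prv P k).2 - (P.getD k (0, 0)).2)
  angNorm 0 ((w.1 * u.1 + w.2 * u.2) / (vlen w.1 w.2 * vlen u.1 u.2))
    ((w.1 * u.2 - w.2 * u.1) / (vlen w.1 w.2 * vlen u.1 u.2))

/-- codes of the angles: the list `[α 0, ..., α (n-1), 0]` -/
noncomputable def angL (P : List (ℝ × ℝ)) : List Ang :=
  (List.range P.length).map (angC P) ++ [ang0]

/-- the algorithm -/
noncomputable def algo (P : List (ℝ × ℝ)) : Bool := decideDat P.length (posL P) (angL P)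

end Pool.Agent.H586R2.AF
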