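import Pool.Agent.H586R2.AF.Model
import Pool.Agent.H586R2.AF.Algo

/-!
# Statements about polynomial time
-/

set_option autoImplicit false

namespace Pool.Agent.H586R2.AF

open Real

/-- the basic closure properties of polynomial time -/
structure PTLib : Prop where
  id : ∀ {α : Type} [Enc α], PT (fun x : α => x)
  comp : ∀ {α β γ : Type} [Enc α] [Enc β] [Enc γ] {f : α → β} {g : β → γ},
    PT f → PT g → PT (fun x => g (f x))
  pair : ∀ {α β γ : Type} [Enc α] [Enc β] [Enc γ] {f : α → β} {g : α → γ},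
    PT f → PT g → PT (fun x => (f x, g x))
  fst : ∀ {α β : Type} [Enc α] [Enc β], PT (fun x : α × β => x.1)
  snd : ∀ {α β : Type} [Enc α] [Enc β], PT (fun x : α × β => x.2)
  ite : ∀ {α β : Type} [Enc α] [Enc β] {b : α → Bool} {f g : α → β},
    PT b → PT f → PT g → PT (fun x => if b x = true then f x else g x)
  cNat : ∀ {α : Type} [Enc α] (k : ℕ), PT (fun _ : α => k)
  cInt : ∀ {α : Type} [Enc α] (z : ℤ), PT (fun _ : α => (z : ℝ))
  cBool : ∀ {α : Type} [Enc α] (b : Bool), PT (fun _ : α => b)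
  cUnit : ∀ {α : Type} [Enc α], PT (fun _ : α => ())
  cNil : ∀ {α β : Type} [Enc α] [Enc β], PT (fun _ : α => ([] : List β))
  cNone : ∀ {α β : Type} [Enc α] [Enc β], PT (fun _ : α => (none : Option β))
  add : PT (fun x : ℝ × ℝ => x.1 + x.2)
  sub : PT (fun x : ℝ × ℝ => x.1 - x.2)
  mul : PT (fun x : ℝ × ℝ => x.1 * x.2)
  div : PT (fun x : ℝ × ℝ => x.1 / x.2)
  sqrt : PT (fun x : ℝ => Real.sqrt x)
  pos : ∀ (b : ℝ → Bool), (∀ x, b x = true ↔ 0 < x) → PT b
  cons : ∀ {α : Type} [Enc α], PT (fun x : α × List α => x.1 :: x.2)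
  casesList : ∀ {α β γ : Type} [Enc α] [Enc β] [Enc γ] {f : α → List β} {g : α → γ}
    {h : α × β × List β → γ}, PT f → PT g → PT h →
    PT (fun x => match f x with | [] => g x | b :: l => h (x, b, l))
  some : ∀ {α : Type} [Enc α], PT (fun x : α => some x)
  casesOpt : ∀ {α β γ : Type} [Enc α] [Enc β] [Enc γ] {f : α → Option β} {g : α → γ}
    {h : α × β → γ}, PT f → PT g → PT h →
    PT (fun x => match f x with | Option.none => g x | Option.some b => h (x, b))
  succ : PT (fun x : ℕ => x + 1)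
  casesNat : ∀ {α γ : Type} [Enc α] [Enc γ] {f : α → ℕ} {g : α → γ} {h : α × ℕ → γ},
    PT f → PT g → PT h → PT (fun x => match f x with | 0 => g x | k + 1 => h (x, k))
  foldl : ∀ {α β γ : Type} [Enc α] [Enc β] [Enc γ] {l : α → List γ} {init : α → β}
    {g : α × β × γ → β}, PT l → PT init → PT g →
    (∃ C k : ℕ, ∀ (x : α) (pre : List γ), pre <+: l x →
      sz (pre.foldl (fun b c => g (x, b, c)) (init x)) ≤ C * (sz x + 1) ^ k) →
    PT (fun x => (l x).foldl (fun b c => g (x, b, c)) (init x))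

/-- derived closure properties -/
structure PTLib2 : Prop where
  map : ∀ {α β γ : Type} [Enc α] [Enc β] [Enc γ] {f : α → List β} {g : α × β → γ},
    PT f → PT g → PT (fun x => (f x).map (fun b => g (x, b)))
  filterMap : ∀ {α β γ : Type} [Enc α] [Enc β] [Enc γ] {f : α → List β} {g : α × β → Option γ},
    PT f → PT g → PT (fun x => (f x).filterMap (fun b => g (x, b)))
  filter : ∀ {α β : Type} [Enc α] [Enc β] {f : α → List β} {g : α × β → Bool},
    PT f → PT g → PT (fun x => (f x).filter (fun b => g (x, b)))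
  flatMap : ∀ {α β γ : Type} [Enc α] [Enc β] [Enc γ] {f : α → List β} {g : α × β → List γ},
    PT f → PT g → PT (fun x => (f x).flatMap (fun b => g (x, b)))
  any : ∀ {α β : Type} [Enc α] [Enc β] {f : α → List β} {g : α × β → Bool},
    PT f → PT g → PT (fun x => (f x).any (fun b => g (x, b)))
  find : ∀ {α β : Type} [Enc α] [Enc β] {f : α → List β} {g : α × β → Bool},
    PT f → PT g → PT (fun x => (f x).find? (fun b => g (x, b)))
  append : ∀ {α : Type} [Enc α], PT (fun x : List α × List α => x.1 ++ x.2)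
  reverse : ∀ {α : Type} [Enc α], PT (fun x : List α => x.reverse)
  length : ∀ {α : Type} [Enc α], PT (fun x : List α => x.length)
  getD : ∀ {α : Type} [Enc α], PT (fun x : List α × ℕ × α => x.1.getD x.2.1 x.2.2)
  take : ∀ {α : Type} [Enc α], PT (fun x : ℕ × List α => x.2.take x.1)
  range : PT (fun x : ℕ => List.range x)
  nadd : PT (fun x : ℕ × ℕ => x.1 + x.2)
  nsub : PT (fun x : ℕ × ℕ => x.1 - x.2)
  nmul : PT (fun x : ℕ × ℕ => x.1 * x.2)
  npow : ∀ k : ℕ, PT (fun x : ℕ => x ^ k)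
  neq : PT (fun x : ℕ × ℕ => decide (x.1 = x.2))
  nle : PT (fun x : ℕ × ℕ => decide (x.1 ≤ x.2))
  nlt : PT (fun x : ℕ × ℕ => decide (x.1 < x.2))
  neg : PT (fun x : ℝ => -x)
  rlt : ∀ (b : ℝ × ℝ → Bool), (∀ x, b x = true ↔ x.1 < x.2) → PT b
  rle : ∀ (b : ℝ × ℝ → Bool), (∀ x, b x = true ↔ x.1 ≤ x.2) → PT b
  rmin : PT (fun x : ℝ × ℝ => min x.1 x.2)
  rmax : PT (fun x : ℝ × ℝ => max x.1 x.2)
  and : PT (fun x : Bool × Bool => x.1 && x.2)
  or : PT (fun x : Bool × Bool => x.1 || x.2)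
  not : PT (fun x : Bool => !x)

def S_lib1 : Prop := PTLib
def S_lib2 : Prop := PTLib → PTLib2

/-- angle operations -/
def S_ptAng : Prop := PTLib → PTLib2 →
  PT (fun x : ℕ × ℝ × ℝ => angNorm x.1 x.2.1 x.2.2) ∧ PT (fun x : Ang × Ang => angAdd x.1 x.2) ∧
  PT (fun x : Ang × Ang => angLe x.1 x.2) ∧ PT (fun x : Option Ang × Option Ang => oMin x.1 x.2) ∧
  PT (fun x : Option Ang × Ang => oAdd x.1 x.2) ∧ PT (fun x : Option Ang × Ang => oLe x.1 x.2) ∧
  PT (fun x : Option Ang => oCap x)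

/-- interval operations -/
def S_ptIv : Prop := PTLib → PTLib2 →
  PT (fun x : ℝ × ℝ × ℝ × IS => ivClip x.1 x.2.1 x.2.2.1 x.2.2.2) ∧
  PT (fun x : IS × IS => ivUnion x.1 x.2) ∧
  PT (fun x : ℝ × IS => ivMem x.1 x.2) ∧
  PT (fun x : ℝ × ℝ × IS × IS => ivMeet x.1 x.2.1 x.2.2.1 x.2.2.2) ∧
  (∀ L M : IS, (ivUnion L M).length ≤ L.length + M.length) ∧
  (∀ A B sh L, (ivClip A B sh L).length ≤ L.length)

/-- look-up and link tests -/
def S_ptLook : Prop := PTLib → PTLib2 →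
  PT (fun x : List Row × ℕ × ℕ => look x.1 x.2.1 x.2.2) ∧
  PT (fun x : ℕ × ℕ => seg x.1 x.2)

/-- arguments of the entry functions: `(n, cap), S, al, T, i, j` -/
abbrev Arg := (ℕ × ℕ) × List ℝ × List Ang × List Row × ℕ × ℕ

/-- first component of a table entry -/
def S_ptEntryA : Prop := PTLib → PTLib2 → S_ptAng → S_ptIv → S_ptLook →
  PT (fun x : Arg => entryA x.2.1 x.2.2.1 x.2.2.2.1 x.2.2.2.2.1 x.2.2.2.2.2)

/-- second component of a table entry -/
def S_ptEntryI : Prop := PTLib → PTLib2 → S_ptAng → S_ptIv → S_ptLook →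
  PT (fun x : Arg =>
    entryI x.1.1 x.1.2 x.2.1 x.2.2.1 x.2.2.2.1 x.2.2.2.2.1 x.2.2.2.2.2)

/-- the table (the entries have size `O(cap + 1)`, so all intermediate tables are small) -/
def S_ptTable : Prop := PTLib → PTLib2 →
  PT (fun x : Arg => entryA x.2.1 x.2.2.1 x.2.2.2.1 x.2.2.2.2.1 x.2.2.2.2.2) →
  PT (fun x : Arg =>
    entryI x.1.1 x.1.2 x.2.1 x.2.2.1 x.2.2.2.1 x.2.2.2.2.1 x.2.2.2.2.2) →
  PT (fun x : (ℕ × ℕ) × List ℝ × List Ang => table x.1.1 x.1.2 x.2.1 x.2.2)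

/-- positions and angles from the coordinates -/
def S_ptInput : Prop := PTLib → PTLib2 → S_ptAng → PT posL ∧ PT angL

/-- the whole algorithm -/
def S_ptAlgo : Prop := PTLib → PTLib2 → S_ptAng → S_ptLook →
  PT (fun x : (ℕ × ℕ) × List ℝ × List Ang => table x.1.1 x.1.2 x.2.1 x.2.2) →
  PT posL → PT angL → PT algo

end Pool.Agent.H586R2.AF
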