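import Pool.Agent.H586R2.AF.Stm
import Pool.Agent.H586R2.AF.PTStm

/-!
# Assembly
-/

set_option autoImplicit false

namespace Pool.Agent.H586R2.AF

open Real Finset

theorem foldable_iff_der (h1 : S_sphere) (h2 : S_glu2der) (h3 : S_der2glu) (P : List (ℝ × ℝ))
    (hP : IsPolygon P) :
    Foldable P ↔ ∃ θ, Der (datOf P) All (.ch 0 P.length θ) ∧ θ ≤ 2 * π := by
  constructor
  · rintro ⟨N, G, hN, hs, ha⟩
    exact h2 P hP N G hN ((h1 P N G hN).1 hs) ha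
  · rintro ⟨θ, hd, hθ⟩
    obtain ⟨N, G, hN, hc, ha⟩ := h3 P hP θ hd hθ
    exact ⟨N, G, hN, (h1 P N G hN).2 hc, ha⟩

theorem der_mono {X : Dat} {A B : ℕ → ℕ → Prop} (hAB : ∀ i j, A i j → B i j) {it : Item}
    (h : Der X A it) : Der X B it := by
  induction h with
  | fold i c h1 h2 h3 h4 => exact .fold i c h1 (hAB _ _ h2) h3 h4
  | term i j θ h1 h2 h3 _ h5 ih => exact .term i j θ h1 h2 (hAB _ _ h3) ih h5
  | right i j p c θ h1 h2 h3 h4 h5 h6 _ h8 _ ih1 ih2 =>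
    exact .right i j p c θ h1 h2 h3 (hAB _ _ h4) h5 h6 ih1 h8 ih2
  | left i j p c θ h1 h2 h3 h4 h5 h6 _ h8 _ ih1 ih2 =>
    exact .left i j p c θ h1 h2 h3 (hAB _ _ h4) h5 h6 ih1 h8 ih2
  | refl p h => exact .refl p h
  | vv p r q θ h1 h2 _ _ ih1 ih2 => exact .vv p r q θ h1 h2 ih1 ih2
  | fl p r e q x θ h1 h2 h3 h4 h5 _ _ _ ih1 ih2 ih3 =>
    exact .fl p r e q x θ h1 h2 h3 h4 h5 ih1 ih2 ih3

theorem der_bd_iff (hp : S_prune) (X : Dat) (hX : X.Good) :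
    (∃ θ, Der X All (.ch 0 X.n θ) ∧ θ ≤ 2 * π) ↔
      ∃ θ, Der X (Bd X) (.ch 0 X.n θ) ∧ θ ≤ 2 * π := by
  constructor
  · rintro ⟨θ, hd, hθ⟩
    refine ⟨θ, (hp X hX).2 0 X.n θ hd ?_, hθ⟩
    have h1 : ∑ k ∈ Icc 0 X.n, (π - X.al k) = 3 * π := by
      have h2 : Icc 0 X.n = range (X.n + 1) := by
        ext k; simp [Nat.lt_succ_iff]
      rw [h2, sum_range_succ, hX.turn, hX.al_n]; ring
    unfold Kch
    rw [h1]; linarith
  · rintro ⟨θ, hd, hθ⟩
    exact ⟨θ, der_mono (fun _ _ _ => trivial) hd, hθ⟩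

theorem algo_correct (h1 : S_sphere) (h2 : S_glu2der) (h3 : S_der2glu) (h4 : S_prune)
    (h5 : S_table) (h6 : S_input) (h7 : S_datGood) (P : List (ℝ × ℝ)) (hP : IsPolygon P) :
    algo P = true ↔ Foldable P := by
  rw [foldable_iff_der h1 h2 h3 P hP]
  have hG := h7 P hP
  have h8 := h5 (datOf P) hG (posL P) (angL P) (h6 P hP)
  have h9 := der_bd_iff h4 (datOf P) hG
  unfold algo
  exact h8.trans h9.symm

theorem sz_poly (P : List (ℝ × ℝ)) : sz P = 4 * P.length + 1 := by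
  induction P with
  | nil => rfl
  | cons a l ih =>
    have h : sz (a :: l) = sz a + sz l + 1 := rfl
    have h2 : sz a = 3 := rfl
    rw [h, h2, ih, List.length_cons]; ring

theorem main (h0 : PTLib) (h0' : S_lib2) (a1 : S_ptAng) (a2 : S_ptIv) (a3 : S_ptLook)
    (a4 : S_ptEntryA) (a5 : S_ptEntryI) (a6 : S_ptTable) (a7 : S_ptInput) (a8 : S_ptAlgo)
    (h1 : S_sphere) (h2 : S_glu2der) (h3 : S_der2glu) (h4 : S_prune)
    (h5 : S_table) (h6 : S_input) (h7 : S_datGood) :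
    ∃ (p : Prog) (C k : ℕ), ∀ P : List (ℝ × ℝ), IsPolygon P →
      ∃ t, t ≤ C * P.length ^ k ∧
        ((Foldable P ∧ Ev p (enc P) D.tt t) ∨ (¬ Foldable P ∧ Ev p (enc P) D.nil t)) := by
  have l2 := h0' h0
  have b4 := a4 h0 l2 a1 a2 a3
  have b5 := a5 h0 l2 a1 a2 a3
  have b6 := a6 h0 l2 b4 b5
  have b7 := a7 h0 l2 a1
  obtain ⟨p, C, k, hp⟩ := a8 h0 l2 a1 a3 b6 b7.1 b7.2
  refine ⟨p, C * 6 ^ k, k, fun P hP => ?_⟩
  obtain ⟨⟨t, ht, he⟩, -⟩ := hp P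
  refine ⟨t, ?_, ?_⟩
  · have h3P := hP.three
    have hs : sz P + 1 ≤ 6 * P.length := by rw [sz_poly]; omega
    calc t ≤ C * (sz P + 1) ^ k := ht
      _ ≤ C * (6 * P.length) ^ k := Nat.mul_le_mul_left _ (Nat.pow_le_pow_left hs k)
      _ = C * 6 ^ k * P.length ^ k := by rw [Nat.mul_pow]; ring
  · have hc := algo_correct h1 h2 h3 h4 h5 h6 h7 P hP
    by_cases hf : Foldable P
    · left
      refine ⟨hf, ?_⟩
      have : algo P = true := hc.2 hf
      rw [this] at he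
      exact he
    · right
      refine ⟨hf, ?_⟩
      have : algo P = false := by
        cases h : algo P with
        | false => rfl
        | true => exact absurd (hc.1 h) hf
      rw [this] at he
      exact he

end Pool.Agent.H586R2.AF
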