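import Mathlib

/-!
# Combinatorial core: derivations of glued arcs
-/

set_option autoImplicit false

namespace Pool.Agent.H586R2.AF

open Real Finset

/-- abstract boundary data: `n` edges, vertex positions `s 0 < ... < s n` (vertex `n` is vertex `0`
again), interior angles `al k` for `k < n`, and `al n = 0` -/
structure Dat where
  n : ℕ
  s : ℕ → ℝ
  al : ℕ → ℝ

/-- the hypotheses on the data -/
structure Dat.Good (X : Dat) : Prop where
  three : 3 ≤ X.n
  s_zero : X.s 0 = 0
  s_lt : ∀ k, k < X.n → X.s k < X.s (k + 1)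
  al_pos : ∀ k, k < X.n → 0 < X.al k
  al_lt : ∀ k, k < X.n → X.al k < 2 * π
  al_n : X.al X.n = 0
  turn : ∑ k ∈ range X.n, (π - X.al k) = 2 * π

/-- items: `sg i j c` says that for points `a` of edge `i` and `b` of edge `j` with `a + b = c` the
boundary arc from `a` to `b` can be glued with `a` identified to `b` and to nothing in between;
`ch p q θ` says that the arc from vertex `p` to vertex `q` can be glued with `p` identified to
`q`, the polygon angles of this class (both ends included) having sum `θ` -/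
inductive Item
  | sg (i j : ℕ) (c : ℝ)
  | ch (p q : ℕ) (θ : ℝ)

/-- derivations; `A` is the set of allowed pairs of edges -/
inductive Der (X : Dat) (A : ℕ → ℕ → Prop) : Item → Prop
  | fold (i : ℕ) (c : ℝ) : i < X.n → A i i → 2 * X.s i < c → c < 2 * X.s (i + 1) →
      Der X A (.sg i i c)
  | term (i j : ℕ) (θ : ℝ) : i < j → j < X.n → A i j → Der X A (.ch (i + 1) j θ) → θ ≤ 2 * π →
      Der X A (.sg i j (X.s (i + 1) + X.s j))
  | right (i j p : ℕ) (c θ : ℝ) : i < p → p ≤ j → j < X.n → A i j →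
      X.s (i + 1) + X.s j < c → c < X.s (i + 1) + X.s (j + 1) →
      Der X A (.ch (i + 1) p θ) → θ ≤ π → Der X A (.sg p j (c - X.s (i + 1) + X.s p)) →
      Der X A (.sg i j c)
  | left (i j p : ℕ) (c θ : ℝ) : i ≤ p → p < j → j < X.n → A i j →
      X.s i + X.s j < c → c < X.s (i + 1) + X.s j →
      Der X A (.ch (p + 1) j θ) → θ ≤ π → Der X A (.sg i p (c - X.s j + X.s (p + 1))) →
      Der X A (.sg i j c)
  | refl (p : ℕ) : p ≤ X.n → Der X A (.ch p p (X.al p))
  | vv (p r q : ℕ) (θ : ℝ) : r ≤ q → q < X.n → Der X A (.ch p r θ) →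
      Der X A (.sg r q (X.s r + X.s (q + 1))) → Der X A (.ch p (q + 1) (θ + X.al (q + 1)))
  | fl (p r e q : ℕ) (x θ : ℝ) : r ≤ e → e ≤ q → q < X.n → X.s e < x → x < X.s (e + 1) →
      Der X A (.ch p r θ) → Der X A (.sg r e (X.s r + x)) →
      Der X A (.sg e q (x + X.s (q + 1))) → Der X A (.ch p (q + 1) (θ + π + X.al (q + 1)))

/-- the curvature enclosed by an arc from edge `i` to edge `j` -/
noncomputable def Kap (X : Dat) (i j : ℕ) : ℝ := π + ∑ k ∈ Ioc i j, (π - X.al k)

/-- the total curvature enclosed by the links of a chain from `p` to `q` with angle sum `θ` -/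
noncomputable def Kch (X : Dat) (p q : ℕ) (θ : ℝ) : ℝ := ∑ k ∈ Icc p q, (π - X.al k) - π + θ

/-- all pairs allowed -/
def All : ℕ → ℕ → Prop := fun _ _ => True

/-- pairs enclosing curvature at most `4π` -/
def Bd (X : Dat) : ℕ → ℕ → Prop := fun i j => Kap X i j ≤ 4 * π

/-- rigid derivations: the walk along flat corners ends at a node with two vertices -/
inductive Rg (X : Dat) (A : ℕ → ℕ → Prop) : ℕ → ℕ → ℝ → Prop
  | term (i j : ℕ) (θ : ℝ) : i < j → j < X.n → A i j → Der X A (.ch (i + 1) j θ) → θ ≤ 2 * π →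
      Rg X A i j (X.s (i + 1) + X.s j)
  | right (i j p : ℕ) (c θ : ℝ) : i < p → p ≤ j → j < X.n → A i j →
      X.s (i + 1) + X.s j < c → c < X.s (i + 1) + X.s (j + 1) →
      Der X A (.ch (i + 1) p θ) → θ ≤ π → Rg X A p j (c - X.s (i + 1) + X.s p) → Rg X A i j c
  | left (i j p : ℕ) (c θ : ℝ) : i ≤ p → p < j → j < X.n → A i j →
      X.s i + X.s j < c → c < X.s (i + 1) + X.s j →
      Der X A (.ch (p + 1) j θ) → θ ≤ π → Rg X A i p (c - X.s j + X.s (p + 1)) → Rg X A i j c

/-- flexible derivations: the walk along flat corners ends at a fold inside an edge -/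
inductive Fx (X : Dat) (A : ℕ → ℕ → Prop) : ℕ → ℕ → ℝ → Prop
  | fold (i : ℕ) (c : ℝ) : i < X.n → A i i → 2 * X.s i < c → c < 2 * X.s (i + 1) → Fx X A i i c
  | right (i j p : ℕ) (c θ : ℝ) : i < p → p ≤ j → j < X.n → A i j →
      X.s (i + 1) + X.s j < c → c < X.s (i + 1) + X.s (j + 1) →
      Der X A (.ch (i + 1) p θ) → θ ≤ π → Fx X A p j (c - X.s (i + 1) + X.s p) → Fx X A i j c
  | left (i j p : ℕ) (c θ : ℝ) : i ≤ p → p < j → j < X.n → A i j →
      X.s i + X.s j < c → c < X.s (i + 1) + X.s j →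
      Der X A (.ch (p + 1) j θ) → θ ≤ π → Fx X A i p (c - X.s j + X.s (p + 1)) → Fx X A i j c

/-- walks along flat corners: from `(i, j, c)` inwards to `(i', j', c')` -/
inductive Pth (X : Dat) (A : ℕ → ℕ → Prop) (i' j' : ℕ) (c' : ℝ) : ℕ → ℕ → ℝ → Prop
  | refl : Pth X A i' j' c' i' j' c'
  | right (i j p : ℕ) (c θ : ℝ) : i < p → p ≤ j → j < X.n → A i j →
      X.s (i + 1) + X.s j < c → c < X.s (i + 1) + X.s (j + 1) →
      Der X A (.ch (i + 1) p θ) → θ ≤ π →
      Pth X A i' j' c' p j (c - X.s (i + 1) + X.s p) → Pth X A i' j' c' i j c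
  | left (i j p : ℕ) (c θ : ℝ) : i ≤ p → p < j → j < X.n → A i j →
      X.s i + X.s j < c → c < X.s (i + 1) + X.s j →
      Der X A (.ch (p + 1) j θ) → θ ≤ π →
      Pth X A i' j' c' i p (c - X.s j + X.s (p + 1)) → Pth X A i' j' c' i j c

end Pool.Agent.H586R2.AF
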