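import Pool.Agent.H586R2.AF.Stm

set_option autoImplicit false

namespace Pool.Agent.H586R2.AF

open Real Finset

namespace TA2

theorem norm_ok (k : ℕ) (γ : ℝ) (h0 : 0 ≤ γ) (h1 : γ < 2 * π) :
    AngOK (angNorm k (Real.cos γ) (Real.sin γ)) (k * π + γ) := by
  by_cases hg : γ < π
  · have hc : 0 < Real.sin γ ∨ (Real.sin γ = 0 ∧ 0 < Real.cos γ) := by
      rcases h0.eq_or_lt with h | h
      · right
        rw [← h]
        simp
      · left
        exact Real.sin_pos_of_pos_of_lt_pi h hg
    unfold angNorm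
    rw [if_pos hc]
    exact ⟨γ, h0, hg, rfl, rfl, rfl⟩
  · push Not at hg
    have hc : ¬ (0 < Real.sin γ ∨ (Real.sin γ = 0 ∧ 0 < Real.cos γ)) := by
      have hs : Real.sin γ = -Real.sin (γ - π) := by rw [Real.sin_sub_pi, neg_neg]
      have hcc : Real.cos γ = -Real.cos (γ - π) := by rw [Real.cos_sub_pi, neg_neg]
      rintro (h | ⟨h, h'⟩)
      · have h2 : 0 ≤ Real.sin (γ - π) :=
          Real.sin_nonneg_of_nonneg_of_le_pi (by linarith) (by linarith)
        linarith
      · rcases hg.eq_or_lt with h3 | h3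
        · rw [← h3] at h'
          simp at h'
          linarith
        · have h2 : 0 < Real.sin (γ - π) :=
            Real.sin_pos_of_pos_of_lt_pi (by linarith) (by linarith)
          linarith
    unfold angNorm
    rw [if_neg hc]
    refine ⟨γ - π, by linarith, by linarith, ?_, ?_, ?_⟩
    · push_cast
      ring
    · rw [Real.cos_sub_pi]
    · rw [Real.sin_sub_pi]

theorem add_ok (x y : Ang) (v w : ℝ) (hx : AngOK x v) (hy : AngOK y w) :
    AngOK (angAdd x y) (v + w) := by
  obtain ⟨β, h0, h1, hv, hc, hs⟩ := hx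
  obtain ⟨β', h0', h1', hw, hc', hs'⟩ := hy
  unfold angAdd
  rw [hc, hs, hc', hs']
  have e1 : Real.cos β * Real.cos β' - Real.sin β * Real.sin β' = Real.cos (β + β') := by
    rw [Real.cos_add]
  have e2 : Real.cos β * Real.sin β' + Real.sin β * Real.cos β' = Real.sin (β + β') := by
    rw [Real.sin_add]; ring
  rw [e1, e2]
  have h := norm_ok (x.1 + y.1) (β + β') (by linarith) (by linarith)
  have e3 : v + w = ((x.1 + y.1 : ℕ) : ℝ) * π + (β + β') := by
    rw [hv, hw]
    push_cast
    ring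
  rw [e3]
  exact h

theorem floor_ok (x : Ang) (v : ℝ) (hx : AngOK x v) (m : ℕ) : m ≤ x.1 ↔ m * π ≤ v := by
  obtain ⟨β, h0, h1, hv, -, -⟩ := hx
  have hp := Real.pi_pos
  constructor
  · intro h
    have : (m : ℝ) ≤ x.1 := by exact_mod_cast h
    rw [hv]
    nlinarith
  · intro h
    rw [hv] at h
    have h2 : (m : ℝ) * π < ((x.1 : ℝ) + 1) * π := by linarith
    have h3 : (m : ℝ) < (x.1 : ℝ) + 1 := lt_of_mul_lt_mul_right h2 hp.le
    have h4 : m < x.1 + 1 := by exact_mod_cast h3
    omega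

theorem le_ok (x y : Ang) (v w : ℝ) (hx : AngOK x v) (hy : AngOK y w) :
    angLe x y = true ↔ v ≤ w := by
  have hfx := floor_ok x v hx
  have hfy := floor_ok y w hy
  obtain ⟨β, h0, h1, hv, hc, hs⟩ := hx
  obtain ⟨β', h0', h1', hw, hc', hs'⟩ := hy
  have hp := Real.pi_pos
  unfold angLe
  rw [decide_eq_true_iff, hc, hc']
  constructor
  · rintro (h | ⟨h, h'⟩)
    · have h2 : (x.1 : ℝ) + 1 ≤ y.1 := by exact_mod_cast h
      rw [hv, hw]
      nlinarith
    · have h2 : (x.1 : ℝ) = y.1 := by exact_mod_cast h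
      have h3 : β ≤ β' := by
        by_contra hcon
        push Not at hcon
        have := Real.cos_lt_cos_of_nonneg_of_le_pi h0' h1.le hcon
        linarith
      rw [hv, hw, h2]
      linarith
  · intro h
    have h2 : x.1 ≤ y.1 := by
      rw [hfy]
      refine le_trans ?_ h
      rw [hv]
      linarith
    rcases h2.eq_or_lt with h3 | h3
    · right
      refine ⟨h3, ?_⟩
      rw [hv, hw, h3] at h
      exact Real.cos_le_cos_of_nonneg_of_le_pi h0 h1'.le (by linarith)
    · left
      exact h3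

end TA2

theorem t_ang : S_ang := by
  have hp := Real.pi_pos
  refine ⟨TA2.add_ok, TA2.le_ok, TA2.floor_ok, ?_, ?_, ?_⟩
  · exact ⟨0, le_rfl, hp, by simp [ang0], by simp [ang0], by simp [ang0]⟩
  · exact ⟨0, le_rfl, hp, by simp [angPi], by simp [angPi], by simp [angPi]⟩
  · exact ⟨0, le_rfl, hp, by simp [ang2Pi], by simp [ang2Pi], by simp [ang2Pi]⟩

end Pool.Agent.H586R2.AF
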