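import Pool.Agent.H586R2.AF.Stm

/-!
Unions and clippings of finite unions of closed intervals.
-/

set_option autoImplicit false

namespace Pool.Agent.H586R2.AF

namespace ZA3

/-- one step of the hull -/
noncomputable def hst (h y : ℝ × ℝ) : ℝ × ℝ := (min h.1 y.1, max h.2 y.2)

theorem hull_spec (K : IS) : ∀ h : ℝ × ℝ, h.1 ≤ h.2 →
    (K.foldl hst h).1 ≤ h.1 ∧ h.2 ≤ (K.foldl hst h).2 ∧
    (∀ y ∈ K, (K.foldl hst h).1 ≤ y.1 ∧ y.2 ≤ (K.foldl hst h).2) ∧
    ((K.foldl hst h).1 = h.1 ∨ ∃ y ∈ K, (K.foldl hst h).1 = y.1) ∧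
    ((K.foldl hst h).2 = h.2 ∨ ∃ y ∈ K, (K.foldl hst h).2 = y.2) := by
  induction K with
  | nil =>
    intro h _
    refine ⟨le_rfl, le_rfl, ?_, Or.inl rfl, Or.inl rfl⟩
    intro y hy
    simp at hy
  | cons k K ih =>
    intro h hh
    have h0 : (hst h k).1 ≤ (hst h k).2 :=
      (min_le_left h.1 k.1).trans (hh.trans (le_max_left h.2 k.2))
    obtain ⟨i1, i2, i3, i4, i5⟩ := ih (hst h k) h0
    rw [List.foldl_cons]
    refine ⟨i1.trans (min_le_left _ _), (le_max_left _ _).trans i2, ?_, ?_, ?_⟩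
    · intro y hy
      rcases List.mem_cons.1 hy with rfl | hy
      · exact ⟨i1.trans (min_le_right _ _), (le_max_right _ _).trans i2⟩
      · exact i3 y hy
    · rcases i4 with i4 | ⟨y, hy, i4⟩
      · rcases min_choice h.1 k.1 with h1 | h1
        · left
          rw [i4]
          exact h1
        · right
          exact ⟨k, List.mem_cons_self, by rw [i4]; exact h1⟩
      · right
        exact ⟨y, List.mem_cons_of_mem _ hy, i4⟩
    · rcases i5 with i5 | ⟨y, hy, i5⟩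
      · rcases max_choice h.2 k.2 with h1 | h1
        · left
          rw [i5]
          exact h1
        · right
          exact ⟨k, List.mem_cons_self, by rw [i5]; exact h1⟩
      · right
        exact ⟨y, List.mem_cons_of_mem _ hy, i5⟩

theorem disj_iff (x y : ℝ × ℝ) : ivDisj x y = true ↔ x.2 < y.1 ∨ y.2 < x.1 := by
  unfold ivDisj
  simp

/-- the intervals of `L` which meet `x` -/
noncomputable def meetL (x : ℝ × ℝ) (L : IS) : IS := L.filter (fun y => !(ivDisj x y))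

theorem mem_meetL {x y : ℝ × ℝ} {L : IS} : y ∈ meetL x L ↔ y ∈ L ∧ y.1 ≤ x.2 ∧ x.1 ≤ y.2 := by
  unfold meetL
  rw [List.mem_filter, Bool.not_eq_true']
  constructor
  · rintro ⟨h1, h2⟩
    have h3 : ¬ (x.2 < y.1 ∨ y.2 < x.1) := by
      rw [← disj_iff, h2]
      simp
    rw [not_or, not_lt, not_lt] at h3
    exact ⟨h1, h3.1, h3.2⟩
  · rintro ⟨h1, h2, h3⟩
    refine ⟨h1, ?_⟩
    rw [Bool.eq_false_iff]
    intro h4
    rw [disj_iff] at h4
    rcases h4 with h | h <;> linarith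

theorem mem_far {x y : ℝ × ℝ} {L : IS} : y ∈ L.filter (fun y => ivDisj x y) ↔
    y ∈ L ∧ (x.2 < y.1 ∨ y.2 < x.1) := by
  rw [List.mem_filter, disj_iff]

theorem ivIns_eq (x : ℝ × ℝ) (L : IS) :
    ivIns x L = (meetL x L).foldl hst x :: L.filter (fun y => ivDisj x y) := rfl

theorem hull_mem {x : ℝ × ℝ} {L : IS} (hx : x.1 ≤ x.2) (c : ℝ) :
    (((meetL x L).foldl hst x).1 ≤ c ∧ c ≤ ((meetL x L).foldl hst x).2) ↔
      (x.1 ≤ c ∧ c ≤ x.2) ∨ ∃ y ∈ meetL x L, y.1 ≤ c ∧ c ≤ y.2 := by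
  obtain ⟨i1, i2, i3, i4, i5⟩ := hull_spec (meetL x L) x hx
  constructor
  · rintro ⟨h1, h2⟩
    by_cases c1 : x.1 ≤ c
    · by_cases c2 : c ≤ x.2
      · exact Or.inl ⟨c1, c2⟩
      · right
        rcases i5 with i5 | ⟨y, hy, i5⟩
        · rw [i5] at h2
          exact absurd h2 c2
        · have hy' := mem_meetL.1 hy
          exact ⟨y, hy, by linarith [hy'.2.1, not_le.1 c2], by rw [← i5]; exact h2⟩
    · right
      rcases i4 with i4 | ⟨y, hy, i4⟩
      · rw [i4] at h1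
        exact absurd h1 c1
      · have hy' := mem_meetL.1 hy
        exact ⟨y, hy, by rw [← i4]; exact h1, by linarith [hy'.2.2, not_le.1 c1]⟩
  · rintro (⟨h1, h2⟩ | ⟨y, hy, h1, h2⟩)
    · exact ⟨i1.trans h1, h2.trans i2⟩
    · exact ⟨(i3 y hy).1.trans h1, h2.trans (i3 y hy).2⟩

theorem ins_mem {x : ℝ × ℝ} {L : IS} (hx : x.1 ≤ x.2) (c : ℝ) :
    InL c (ivIns x L) ↔ InL c L ∨ (x.1 ≤ c ∧ c ≤ x.2) := by
  rw [ivIns_eq]
  constructor
  · rintro ⟨y, hy, h1, h2⟩
    rcases List.mem_cons.1 hy with rfl | hy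
    · rcases (hull_mem hx c).1 ⟨h1, h2⟩ with h | ⟨y, hy, h⟩
      · exact Or.inr h
      · exact Or.inl ⟨y, (mem_meetL.1 hy).1, h⟩
    · exact Or.inl ⟨y, (mem_far.1 hy).1, h1, h2⟩
  · rintro (⟨y, hy, h⟩ | h)
    · by_cases hd : x.2 < y.1 ∨ y.2 < x.1
      · exact ⟨y, List.mem_cons_of_mem _ (mem_far.2 ⟨hy, hd⟩), h⟩
      · rw [not_or, not_lt, not_lt] at hd
        exact ⟨_, List.mem_cons_self, (hull_mem hx c).2
          (Or.inr ⟨y, mem_meetL.2 ⟨hy, hd.1, hd.2⟩, h⟩)⟩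
    · exact ⟨_, List.mem_cons_self, (hull_mem hx c).2 (Or.inl h)⟩

theorem ins_disj {x : ℝ × ℝ} {L : IS} (hx : x.1 ≤ x.2) (hL : DisjL L) : DisjL (ivIns x L) := by
  rw [ivIns_eq]
  obtain ⟨i1, i2, i3, i4, i5⟩ := hull_spec (meetL x L) x hx
  constructor
  · intro y hy
    rcases List.mem_cons.1 hy with rfl | hy
    · linarith
    · exact hL.1 y (mem_far.1 hy).1
  · rw [List.pairwise_cons]
    refine ⟨?_, hL.2.filter _⟩
    intro z hz
    obtain ⟨hz1, hz2⟩ := mem_far.1 hz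
    by_contra hcon
    rw [not_or, not_lt, not_lt] at hcon
    have hz3 := hL.1 z hz1
    have hc : ((meetL x L).foldl hst x).1 ≤ max ((meetL x L).foldl hst x).1 z.1 ∧
        max ((meetL x L).foldl hst x).1 z.1 ≤ ((meetL x L).foldl hst x).2 :=
      ⟨le_max_left _ _, max_le (by linarith) hcon.1⟩
    have hc1 : z.1 ≤ max ((meetL x L).foldl hst x).1 z.1 := le_max_right _ _
    have hc2 : max ((meetL x L).foldl hst x).1 z.1 ≤ z.2 := max_le hcon.2 hz3
    rcases (hull_mem hx _).1 hc with ⟨h1, h2⟩ | ⟨y, hy, h1, h2⟩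
    · rcases hz2 with h | h <;> linarith
    · obtain ⟨hy1, hy2, hy3⟩ := mem_meetL.1 hy
      have hne : y ≠ z := by
        rintro rfl
        rcases hz2 with h | h <;> linarith
      haveI hsym : Std.Symm (fun x y : ℝ × ℝ => x.2 < y.1 ∨ y.2 < x.1) :=
        ⟨fun a b h => h.symm⟩
      have h3 := hL.2.forall hy1 hz1 hne
      rcases h3 with h | h <;> linarith

theorem ins_win {x : ℝ × ℝ} {L : IS} (hx : x.1 ≤ x.2) {A B : ℝ} (hL : WinL A B L)
    (hxw : A ≤ x.1 ∧ x.2 ≤ B ∧ x.1 < B ∧ A < x.2) : WinL A B (ivIns x L) := by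
  rw [ivIns_eq]
  obtain ⟨i1, i2, i3, i4, i5⟩ := hull_spec (meetL x L) x hx
  intro y hy
  rcases List.mem_cons.1 hy with rfl | hy
  · refine ⟨?_, ?_, by linarith, by linarith⟩
    · rcases i4 with i4 | ⟨y, hy, i4⟩
      · rw [i4]
        exact hxw.1
      · rw [i4]
        exact (hL y (mem_meetL.1 hy).1).1
    · rcases i5 with i5 | ⟨y, hy, i5⟩
      · rw [i5]
        exact hxw.2.1
      · rw [i5]
        exact (hL y (mem_meetL.1 hy).1).2.1
  · exact hL y (mem_far.1 hy).1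

theorem ins_len (x : ℝ × ℝ) (L : IS) : (ivIns x L).length ≤ L.length + 1 := by
  rw [ivIns_eq, List.length_cons]
  have := List.length_filter_le (fun y => ivDisj x y) L
  omega

theorem clip1_some {A B sh : ℝ} {x y : ℝ × ℝ} (h : ivClip1 A B sh x = some y) :
    y = (max (x.1 + sh) A, min (x.2 + sh) B) ∧ max (x.1 + sh) A ≤ min (x.2 + sh) B ∧
      max (x.1 + sh) A < B ∧ A < min (x.2 + sh) B := by
  unfold ivClip1 at h
  split_ifs at h with h1
  exact ⟨(Option.some.inj h).symm, h1⟩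

theorem clip1_pos {A B sh : ℝ} {x : ℝ × ℝ} (h : max (x.1 + sh) A ≤ min (x.2 + sh) B ∧
      max (x.1 + sh) A < B ∧ A < min (x.2 + sh) B) :
    ivClip1 A B sh x = some (max (x.1 + sh) A, min (x.2 + sh) B) := by
  unfold ivClip1
  rw [if_pos h]

end ZA3

open ZA3

theorem t_ivUnion : S_ivUnion := by
  intro L M
  induction M generalizing L with
  | nil =>
    intro hL _
    refine ⟨hL, fun c => ⟨fun h => Or.inl h, fun h => ?_⟩, fun A B h _ => h, le_rfl⟩
    rcases h with h | ⟨x, hx, -⟩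
    · exact h
    · simp at hx
  | cons x M ih =>
    intro hL hM
    have hx := hM x List.mem_cons_self
    obtain ⟨j1, j2, j3, j4⟩ := ih (ivIns x L) (ins_disj hx hL)
      (fun y hy => hM y (List.mem_cons_of_mem _ hy))
    have e : ivUnion L (x :: M) = ivUnion (ivIns x L) M := rfl
    rw [e]
    refine ⟨j1, fun c => ?_, fun A B h1 h2 => ?_, ?_⟩
    · rw [j2, ins_mem hx]
      constructor
      · rintro ((h | h) | ⟨y, hy, h⟩)
        · exact Or.inl h
        · exact Or.inr ⟨x, List.mem_cons_self, h⟩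
        · exact Or.inr ⟨y, List.mem_cons_of_mem _ hy, h⟩
      · rintro (h | ⟨y, hy, h⟩)
        · exact Or.inl (Or.inl h)
        · rcases List.mem_cons.1 hy with rfl | hy
          · exact Or.inl (Or.inr h)
          · exact Or.inr ⟨y, hy, h⟩
    · exact j3 A B (ins_win hx h1 (h2 x List.mem_cons_self))
        (fun y hy => h2 y (List.mem_cons_of_mem _ hy))
    · have h1 := ins_len x L
      rw [List.length_cons]
      omega

theorem t_ivClip : S_ivClip := by
  intro A B sh L _ _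
  refine ⟨?_, ?_, ?_, List.length_filterMap_le _ _⟩
  · intro y hy
    obtain ⟨x, hx, h⟩ := List.mem_filterMap.1 hy
    obtain ⟨rfl, h1, -⟩ := clip1_some h
    exact h1
  · intro y hy
    obtain ⟨x, hx, h⟩ := List.mem_filterMap.1 hy
    obtain ⟨rfl, h1, h2, h3⟩ := clip1_some h
    exact ⟨le_max_right _ _, min_le_right _ _, h2, h3⟩
  · intro c hA hB
    constructor
    · rintro ⟨y, hy, h4, h5⟩
      obtain ⟨x, hx, h⟩ := List.mem_filterMap.1 hy
      obtain ⟨rfl, h1, h2, h3⟩ := clip1_some h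
      have h6 : x.1 + sh ≤ c := (le_max_left _ _).trans h4
      have h7 : c ≤ x.2 + sh := h5.trans (min_le_left _ _)
      exact ⟨x, hx, by linarith, by linarith⟩
    · rintro ⟨x, hx, h1, h2⟩
      have h3 : max (x.1 + sh) A ≤ c := max_le (by linarith) hA.le
      have h4 : c ≤ min (x.2 + sh) B := le_min (by linarith) hB.le
      exact ⟨_, List.mem_filterMap.2 ⟨x, hx, clip1_pos ⟨h3.trans h4, by linarith, by linarith⟩⟩,
        h3, h4⟩

end Pool.Agent.H586R2.AF
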