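import Pool.Agent.H586R2.AF.Stm

set_option autoImplicit false

namespace Pool.Agent.H586R2.AF

open Real Finset

namespace A5

theorem exists_gap (c : ℝ) (L : IS) : ∃ δ, 0 < δ ∧ ∀ z ∈ L, c < z.1 → c + δ ≤ z.1 := by
  induction L with
  | nil => exact ⟨1, one_pos, fun z hz => absurd hz (by simp)⟩
  | cons a L ih =>
    obtain ⟨δ, hδ, h⟩ := ih
    by_cases ha : c < a.1
    · refine ⟨min δ (a.1 - c), lt_min hδ (by linarith), fun z hz hcz => ?_⟩
      rcases List.mem_cons.1 hz with rfl | hz
      · have := min_le_right δ (z.1 - c)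
        linarith
      · have := min_le_left δ (a.1 - c)
        have := h z hz hcz
        linarith
    · refine ⟨δ, hδ, fun z hz hcz => ?_⟩
      rcases List.mem_cons.1 hz with rfl | hz
      · exact absurd hcz ha
      · exact h z hz hcz

theorem rg_lt {X : Dat} {A : ℕ → ℕ → Prop} {i j : ℕ} {c : ℝ} (h : Rg X A i j c) : i < j := by
  cases h <;> omega

theorem disj {L : IS} (hd : DisjL L) {x y : ℝ × ℝ} (hx : x ∈ L) (hy : y ∈ L) (hxy : x ≠ y) :
    x.2 < y.1 ∨ y.2 < x.1 := by
  haveI : Std.Symm (fun x y : ℝ × ℝ => x.2 < y.1 ∨ y.2 < x.1) := ⟨fun a b h => h.symm⟩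
  exact List.Pairwise.forall hd.2 hx hy hxy

theorem rg_of (h1 : S_split) (h2 : S_open) {X : Dat} (hX : X.Good) {i j : ℕ} {L : IS}
    (hL : IOK X i j L) {x y : ℝ × ℝ} (hx : x ∈ L) (hy : y ∈ L) (hxy : x.2 < y.1) :
    Rg X (Bd X) i j x.2 := by
  obtain ⟨hd, hw, hder⟩ := hL
  obtain ⟨-, -, -, w1⟩ := hw x hx
  obtain ⟨-, -, w2, -⟩ := hw y hy
  have hB : x.2 < X.s (i + 1) + X.s (j + 1) := lt_trans hxy w2
  have hDer : Der X (Bd X) (.sg i j x.2) :=
    (hder x.2 w1 hB).2 ⟨x, hx, hd.1 x hx, le_rfl⟩
  rcases (h1 X hX (Bd X) i j x.2).1 hDer with h | h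
  · exact h
  · exfalso
    obtain ⟨ε, hε, hop⟩ := h2 X hX (Bd X) i j x.2 h
    obtain ⟨δ, hδ, hgap⟩ := exists_gap x.2 L
    have hm : 0 < min (min ε δ) (X.s (i + 1) + X.s (j + 1) - x.2) :=
      lt_min (lt_min hε hδ) (by linarith)
    set μ := min (min ε δ) (X.s (i + 1) + X.s (j + 1) - x.2) with hμ
    have m1 : μ ≤ ε := le_trans (min_le_left _ _) (min_le_left _ _)
    have m2 : μ ≤ δ := le_trans (min_le_left _ _) (min_le_right _ _)
    have m3 : μ ≤ X.s (i + 1) + X.s (j + 1) - x.2 := min_le_right _ _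
    have hfx : Fx X (Bd X) i j (x.2 + μ / 2) := by
      apply hop
      rw [show x.2 + μ / 2 - x.2 = μ / 2 by ring, abs_of_pos (by linarith)]
      linarith
    have hDer' : Der X (Bd X) (.sg i j (x.2 + μ / 2)) := (h1 X hX (Bd X) i j _).2 (Or.inr hfx)
    obtain ⟨z, hz, z1, z2⟩ := (hder (x.2 + μ / 2) (by linarith) (by linarith)).1 hDer'
    by_cases hzx : z = x
    · subst hzx
      linarith
    · rcases disj hd hz hx hzx with h' | h'
      · have := hd.1 x hx
        linarith
      · have := hgap z hz h'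
        linarith

end A5

open Classical in
theorem t_len (h1 : S_split) (h2 : S_open) (h3 : S_count) : S_len := by
  intro X hX i j L hij hj hL
  have hd := hL.1
  have hnd : (L.map Prod.snd).Nodup := by
    rw [List.Nodup, List.pairwise_map]
    refine List.Pairwise.imp_of_mem ?_ hd.2
    intro a b ha hb hab
    have a1 := hd.1 a ha
    have b1 := hd.1 b hb
    rcases hab with h | h
    · exact ne_of_lt (lt_of_lt_of_le h b1)
    · exact ne_of_gt (lt_of_lt_of_le h a1)
  set F : Finset ℝ := (L.map Prod.snd).toFinset with hF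
  have hcard : F.card = L.length := by
    rw [hF, List.toFinset_card_of_nodup hnd, List.length_map]
  rcases F.eq_empty_or_nonempty with hne | hne
  · rw [← hcard, hne]
    simp
  · set M := F.max' hne with hM
    have hMF : M ∈ F := F.max'_mem hne
    have hsub : ∀ c ∈ F.erase M, Rg X (Bd X) i j c := by
      intro c hc
      obtain ⟨hc1, hc2⟩ := Finset.mem_erase.1 hc
      have hcM : c ≤ M := F.le_max' c hc2
      rw [hF, List.mem_toFinset, List.mem_map] at hc2 hMF
      obtain ⟨x, hx, rfl⟩ := hc2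
      obtain ⟨y, hy, hyM⟩ := hMF
      have hxy : x ≠ y := by
        rintro rfl
        exact hc1 hyM
      rcases A5.disj hd hx hy hxy with h | h
      · exact A5.rg_of h1 h2 hX hL hx hy h
      · have := hd.1 x hx
        linarith
    have hle : (F.erase M).card ≤ (X.n + 1) ^ 25 := by
      rcases Nat.lt_or_ge i j with hij' | hij'
      · obtain ⟨f1, f2⟩ := h3 X hX i j hij' hj
        refine le_trans ?_ f2
        rw [← Set.ncard_coe_finset]
        exact Set.ncard_le_ncard (fun c hc => hsub c (Finset.mem_coe.1 hc)) f1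
      · have : F.erase M = ∅ := by
          rw [Finset.eq_empty_iff_forall_notMem]
          intro c hc
          have := A5.rg_lt (hsub c hc)
          omega
        rw [this]
        simp
    rw [Finset.card_erase_of_mem hMF, hcard] at hle
    unfold capN
    omega

end Pool.Agent.H586R2.AF
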