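import Pool.Agent.H586R2.AF.Stm

/-!
# Task A6: correctness of `entryA`
-/

set_option autoImplicit false

namespace Pool.Agent.H586R2.AF

open Real Finset

namespace TA6

/-- inversion of derivations of chains -/
lemma ch_inv {X : Dat} {A : ℕ → ℕ → Prop} {i j : ℕ} {θ : ℝ} (h : Der X A (.ch i j θ)) :
    (i = j ∧ θ = X.al i) ∨
    (∃ (r q : ℕ) (θ0 : ℝ), j = q + 1 ∧ r ≤ q ∧ q < X.n ∧ Der X A (.ch i r θ0) ∧
      Der X A (.sg r q (X.s r + X.s (q + 1))) ∧ θ = θ0 + X.al (q + 1)) ∨
    (∃ (r e q : ℕ) (x θ0 : ℝ), j = q + 1 ∧ r ≤ e ∧ e ≤ q ∧ q < X.n ∧ X.s e < x ∧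
      x < X.s (e + 1) ∧ Der X A (.ch i r θ0) ∧ Der X A (.sg r e (X.s r + x)) ∧
      Der X A (.sg e q (x + X.s (q + 1))) ∧ θ = θ0 + π + X.al (q + 1)) := by
  generalize hI : Item.ch i j θ = I at h
  cases h with
  | fold => cases hI
  | term => cases hI
  | right => cases hI
  | left => cases hI
  | refl p hp => cases hI; exact Or.inl ⟨rfl, rfl⟩
  | vv p r q θ0 h1 h2 h3 h4 =>
    cases hI
    exact Or.inr (Or.inl ⟨r, q, θ0, rfl, h1, h2, h3, h4, rfl⟩)
  | fl p r e q x θ0 h1 h2 h3 h4 h5 h6 h7 h8 =>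
    cases hI
    exact Or.inr (Or.inr ⟨r, e, q, x, θ0, rfl, h1, h2, h3, h4, h5, h6, h7, h8, rfl⟩)

/-- `oa` is the minimum of `D` up to values `≥ 3π` -/
def Q (oa : Option Ang) (D : ℝ → Prop) : Prop :=
  (∀ a, oa = some a → ∃ v, AngOK a v ∧ D v ∧ ∀ θ, D θ → v ≤ θ ∨ 3 * π ≤ θ) ∧
  (oa = none → ∀ θ, D θ → 3 * π ≤ θ)

lemma Q_congr {oa : Option Ang} {D D' : ℝ → Prop} (h : ∀ θ, D θ ↔ D' θ) (hq : Q oa D) :
    Q oa D' := by
  have : D = D' := funext fun θ => propext (h θ)
  rwa [← this]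

lemma Q_none : Q none (fun _ => False) := by
  refine ⟨fun a ha => (by cases ha), fun _ θ h => h.elim⟩

lemma Q_oMin (h2 : S_ang) {x y : Option Ang} {D D' : ℝ → Prop} (hx : Q x D) (hy : Q y D') :
    Q (oMin x y) (fun θ => D θ ∨ D' θ) := by
  obtain ⟨hx1, hx2⟩ := hx
  obtain ⟨hy1, hy2⟩ := hy
  cases x with
  | none =>
    have e : oMin none y = y := rfl
    rw [e]
    refine ⟨fun a ha => ?_, fun ha θ h => ?_⟩
    · obtain ⟨v, hv, hD, hm⟩ := hy1 a ha
      refine ⟨v, hv, Or.inr hD, fun θ h => ?_⟩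
      rcases h with h | h
      · exact Or.inr (hx2 rfl θ h)
      · exact hm θ h
    · rcases h with h | h
      · exact hx2 rfl θ h
      · exact hy2 ha θ h
  | some a =>
    obtain ⟨v, hv, hD, hm⟩ := hx1 a rfl
    cases y with
    | none =>
      have e : oMin (some a) none = some a := rfl
      rw [e]
      refine ⟨fun a' ha => ?_, fun ha => by cases ha⟩
      cases ha
      refine ⟨v, hv, Or.inl hD, fun θ h => ?_⟩
      rcases h with h | h
      · exact hm θ h
      · exact Or.inr (hy2 rfl θ h)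
    | some b =>
      obtain ⟨w, hw, hD', hm'⟩ := hy1 b rfl
      have e : oMin (some a) (some b) = if angLe a b then some a else some b := rfl
      rw [e]
      have hle := h2.2.1 a b v w hv hw
      by_cases hab : angLe a b = true
      · rw [if_pos hab]
        have hvw : v ≤ w := hle.1 hab
        refine ⟨fun a' ha => ?_, fun ha => by cases ha⟩
        cases ha
        refine ⟨v, hv, Or.inl hD, fun θ h => ?_⟩
        rcases h with h | h
        · exact hm θ h
        · rcases hm' θ h with h' | h'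
          · exact Or.inl (hvw.trans h')
          · exact Or.inr h'
      · rw [if_neg hab]
        have hvw : w ≤ v := by
          have := mt hle.2 hab
          exact (not_le.1 this).le
        refine ⟨fun a' ha => ?_, fun ha => by cases ha⟩
        cases ha
        refine ⟨w, hw, Or.inr hD', fun θ h => ?_⟩
        rcases h with h | h
        · rcases hm θ h with h' | h'
          · exact Or.inl (hvw.trans h')
          · exact Or.inr h'
        · exact hm' θ h

lemma Q_foldl (h2 : S_ang) (f : ℕ → Option Ang) (Dr : ℕ → ℝ → Prop) :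
    ∀ (l : List ℕ) (acc : Option Ang) (D0 : ℝ → Prop), Q acc D0 → (∀ r ∈ l, Q (f r) (Dr r)) →
      Q (l.foldl (fun acc r => oMin acc (f r)) acc) (fun θ => D0 θ ∨ ∃ r ∈ l, Dr r θ) := by
  intro l
  induction l with
  | nil =>
    intro acc D0 h _
    refine Q_congr (fun θ => ?_) h
    simp
  | cons r l ih =>
    intro acc D0 h hl
    rw [List.foldl_cons]
    have h1 : Q (oMin acc (f r)) (fun θ => D0 θ ∨ Dr r θ) :=
      Q_oMin h2 h (hl r (by simp))
    refine Q_congr (fun θ => ?_) (ih _ _ h1 (fun r' hr' => hl r' (by simp [hr'])))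
    simp only [List.mem_cons, exists_eq_or_imp]
    tauto

lemma Q_oCap (h2 : S_ang) {oa : Option Ang} {D : ℝ → Prop} (h : Q oa D) :
    (∀ a, oCap oa = some a → ∃ v, AngOK a v ∧ D v ∧ ∀ θ, D θ → v ≤ θ) ∧
    (oCap oa = none → ∀ θ, D θ → 3 * π ≤ θ) := by
  obtain ⟨h1, h3⟩ := h
  cases oa with
  | none =>
    have e : oCap none = none := rfl
    rw [e]
    exact ⟨fun a ha => (by cases ha), fun _ => h3 rfl⟩
  | some a =>
    obtain ⟨v, hv, hD, hm⟩ := h1 a rfl
    have e : oCap (some a) = if a.1 < 3 then some a else none := rfl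
    rw [e]
    have h4 := h2.2.2.1 a v hv 3
    by_cases h5 : a.1 < 3
    · rw [if_pos h5]
      have h6 : v < 3 * π := by
        by_contra hc
        have := h4.2 (by push_cast; linarith)
        omega
      refine ⟨fun a' ha => ?_, fun ha => by cases ha⟩
      cases ha
      refine ⟨v, hv, hD, fun θ h => ?_⟩
      rcases hm θ h with h | h
      · exact h
      · linarith
    · rw [if_neg h5]
      have h6 : 3 * π ≤ v := by
        have := h4.1 (by omega)
        push_cast at this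
        exact this
      refine ⟨fun a' ha => (by cases ha), fun _ θ h => ?_⟩
      rcases hm θ h with h | h
      · linarith
      · exact h

lemma angOK_nonneg {a : Ang} {v : ℝ} (h : AngOK a v) : 0 ≤ v := by
  obtain ⟨β, h0, _, h1, _⟩ := h
  rw [h1]
  have : (0 : ℝ) ≤ a.1 * π := by positivity
  linarith

/-- adding a fixed angle -/
lemma Q_oAdd (h2 : S_ang) {oa : Option Ang} {D : ℝ → Prop} (h : Q oa D) {b : Ang} {w : ℝ}
    (hb : AngOK b w) : Q (oAdd oa b) (fun θ => ∃ θ0, D θ0 ∧ θ = θ0 + w) := by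
  have hw := angOK_nonneg hb
  obtain ⟨h1, h3⟩ := h
  cases oa with
  | none =>
    have e : oAdd none b = none := rfl
    rw [e]
    refine ⟨fun a ha => (by cases ha), fun _ θ h => ?_⟩
    obtain ⟨θ0, h0, rfl⟩ := h
    have := h3 rfl θ0 h0
    linarith
  | some a =>
    obtain ⟨v, hv, hD, hm⟩ := h1 a rfl
    have e : oAdd (some a) b = some (angAdd a b) := rfl
    rw [e]
    refine ⟨fun a' ha => ?_, fun ha => by cases ha⟩
    cases ha
    refine ⟨v + w, h2.1 a b v w hv hb, ⟨v, hD, rfl⟩, fun θ h => ?_⟩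
    obtain ⟨θ0, h0, rfl⟩ := h
    rcases hm θ0 h0 with h | h
    · left; linarith
    · right; linarith

/-- conditional candidates -/
lemma Q_ite {oa : Option Ang} {D : ℝ → Prop} (h : Q oa D) {b : Bool} {P : Prop}
    (hb : b = true ↔ P) : Q (if b then oa else none) (fun θ => P ∧ D θ) := by
  by_cases hP : P
  · rw [if_pos (hb.2 hP)]
    exact Q_congr (fun θ => by simp [hP]) h
  · rw [if_neg (mt hb.1 hP)]
    exact Q_congr (fun θ => by simp [hP]) Q_none

lemma ivMem_iff (c : ℝ) (L : IS) : ivMem c L = true ↔ InL c L := by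
  unfold ivMem InL
  simp [List.any_eq_true]

lemma ivMeet_iff (A B : ℝ) (L M : IS) (hL : WinL A B L) (hM : WinL A B M) :
    ivMeet A B L M = true ↔ ∃ c, A < c ∧ c < B ∧ InL c L ∧ InL c M := by
  unfold ivMeet
  simp only [List.any_eq_true, decide_eq_true_eq]
  constructor
  · rintro ⟨x, hx, y, hy, h1, h2, h3⟩
    obtain ⟨a1, a2, a3, a4⟩ := hL x hx
    obtain ⟨b1, b2, b3, b4⟩ := hM y hy
    have m1 : x.1 ≤ max x.1 y.1 := le_max_left _ _
    have m2 : y.1 ≤ max x.1 y.1 := le_max_right _ _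
    have m3 : min x.2 y.2 ≤ x.2 := min_le_left _ _
    have m4 : min x.2 y.2 ≤ y.2 := min_le_right _ _
    refine ⟨(max x.1 y.1 + min x.2 y.2) / 2, by linarith, by linarith,
      ⟨x, hx, by linarith, by linarith⟩, ⟨y, hy, by linarith, by linarith⟩⟩
  · rintro ⟨c, h1, h2, ⟨x, hx, a1, a2⟩, ⟨y, hy, b1, b2⟩⟩
    refine ⟨x, hx, y, hy, ?_, ?_, ?_⟩
    · exact (max_le a1 b1).trans (le_min a2 b2)
    · exact lt_of_le_of_lt (max_le a1 b1) h2
    · exact lt_of_lt_of_le h1 (le_min a2 b2)

lemma mem_seg (i j r : ℕ) : r ∈ seg i j ↔ i ≤ r ∧ r < j := by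
  unfold seg
  simp only [List.mem_map, List.mem_range]
  constructor
  · rintro ⟨t, h1, rfl⟩
    omega
  · rintro ⟨h1, h2⟩
    exact ⟨r - i, by omega, by omega⟩

end TA6

open TA6

theorem t_entryA (h1 : S_range) (h2 : S_ang) (h3 : S_ivClip) : S_entryA := by
  intro X hX S al hR T i j hij hjn hT
  obtain ⟨hS, hal⟩ := hR
  have hrange := (h1 X hX (Bd X)).2
  unfold entryA AOK
  by_cases hi : i = j
  · subst hi
    rw [if_pos rfl]
    refine Q_oCap h2 (D := fun θ => Der X (Bd X) (.ch i i θ)) ⟨fun a ha => ?_, fun ha => by cases ha⟩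
    cases ha
    refine ⟨X.al i, hal i hjn, Der.refl i hjn, fun θ h => Or.inl ?_⟩
    rcases ch_inv h with h | ⟨r, q, θ0, e1, e2, e3, e4, _⟩ | ⟨r, e, q, x, θ0, e1, e2, e3, e4, e5, e6, e7, _⟩
    · exact h.2.ge
    · have := (hrange i r θ0 e4).1
      omega
    · have := (hrange i r θ0 e7).1
      omega
  · rw [if_neg hi]
    have hij' : i < j := lt_of_le_of_ne hij hi
    obtain ⟨q, rfl⟩ : ∃ q, j = q + 1 := ⟨j - 1, by omega⟩
    have hqn : q < X.n := by omega
    -- the sets of values with last vertex `r`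
    let Dr : ℕ → ℝ → Prop := fun r θ =>
      (Der X (Bd X) (.sg r q (X.s r + X.s (q + 1))) ∧
        ∃ θ0, Der X (Bd X) (.ch i r θ0) ∧ θ = θ0 + X.al (q + 1)) ∨
      ((∃ e x, r ≤ e ∧ e ≤ q ∧ X.s e < x ∧ x < X.s (e + 1) ∧
          Der X (Bd X) (.sg r e (X.s r + x)) ∧ Der X (Bd X) (.sg e q (x + X.s (q + 1)))) ∧
        ∃ θ1, (∃ θ0, Der X (Bd X) (.ch i r θ0) ∧ θ1 = θ0 + π) ∧ θ = θ1 + X.al (q + 1))
    have hcand : ∀ r ∈ seg i (q + 1), Q (candA S al T i (q + 1) r) (Dr r) := by
      intro r hr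
      rw [mem_seg] at hr
      obtain ⟨hr1, hr2⟩ := hr
      have hA : Q (look T i r).1 (fun θ => Der X (Bd X) (.ch i r θ)) := by
        obtain ⟨g1, g2⟩ := (hT i r hr1 (by omega) (by omega)).1
        refine ⟨fun a ha => ?_, g2⟩
        obtain ⟨v, hv, hD, hm⟩ := g1 a ha
        exact ⟨v, hv, hD, fun θ h => Or.inl (hm θ h)⟩
      have haq := hal (q + 1) hjn
      unfold candA
      refine Q_oMin h2 (Q_ite (Q_oAdd h2 hA haq) ?_) (Q_ite (Q_oAdd h2 (Q_oAdd h2 hA h2.2.2.2.2.1) haq) ?_)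
      · rw [ivMem_iff, hS r (by omega), hS (q + 1) hjn, Nat.add_sub_cancel]
        have hI := (hT r q (by omega) (by omega) (by omega)).2 hqn
        exact (hI.2.2 (X.s r + X.s (q + 1)) (by linarith [hX.s_lt q hqn])
          (by linarith [hX.s_lt r (by omega)])).symm
      · rw [List.any_eq_true]
        have hfl : ∀ e, r ≤ e → e ≤ q → (flatLink S T (q + 1) r e = true ↔
            ∃ x, X.s e < x ∧ x < X.s (e + 1) ∧
          Der X (Bd X) (.sg r e (X.s r + x)) ∧ Der X (Bd X) (.sg e q (x + X.s (q + 1)))) := by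
          intro e he1 he2
          unfold flatLink
          rw [Nat.add_sub_cancel, hS e (by omega), hS (e + 1) (by omega), hS r (by omega),
            hS (q + 1) hjn]
          have hI1 := (hT r e he1 (by omega) (by omega)).2 (by omega)
          have hI2 := (hT e q he2 (by omega) (by omega)).2 hqn
          have hlt : X.s e < X.s (e + 1) := hX.s_lt e (by omega)
          obtain ⟨_, c2, c3, _⟩ := h3 (X.s e) (X.s (e + 1)) (-(X.s r)) (look T r e).2 hlt hI1.1.1
          obtain ⟨_, d2, d3, _⟩ := h3 (X.s e) (X.s (e + 1)) (-(X.s (q + 1))) (look T e q).2 hlt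
            hI2.1.1
          rw [ivMeet_iff _ _ _ _ c2 d2]
          refine exists_congr fun x => ?_
          constructor
          · rintro ⟨x1, x2, x3, x4⟩
            refine ⟨x1, x2, ?_, ?_⟩
            · rw [c3 x x1 x2, ← hI1.2.2 _ (by linarith) (by linarith [hX.s_lt r (by omega)])] at x3
              rw [show X.s r + x = x - -(X.s r) by ring]
              exact x3
            · rw [d3 x x1 x2, ← hI2.2.2 _ (by linarith [hX.s_lt q hqn]) (by linarith)] at x4
              rw [show x + X.s (q + 1) = x - -(X.s (q + 1)) by ring]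
              exact x4
          · rintro ⟨x1, x2, x3, x4⟩
            refine ⟨x1, x2, ?_, ?_⟩
            · rw [c3 x x1 x2, ← hI1.2.2 _ (by linarith) (by linarith [hX.s_lt r (by omega)])]
              rw [show X.s r + x = x - -(X.s r) by ring] at x3
              exact x3
            · rw [d3 x x1 x2, ← hI2.2.2 _ (by linarith [hX.s_lt q hqn]) (by linarith)]
              rw [show x + X.s (q + 1) = x - -(X.s (q + 1)) by ring] at x4
              exact x4
        constructor
        · rintro ⟨e, he, hf⟩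
          rw [mem_seg] at he
          obtain ⟨x, hx⟩ := (hfl e he.1 (by omega)).1 hf
          exact ⟨e, x, he.1, by omega, hx⟩
        · rintro ⟨e, x, he1, he2, hx⟩
          exact ⟨e, (mem_seg _ _ _).2 ⟨he1, by omega⟩, (hfl e he1 he2).2 ⟨x, hx⟩⟩
    have hfold := Q_foldl h2 (candA S al T i (q + 1)) Dr (seg i (q + 1)) none (fun _ => False)
      Q_none hcand
    refine Q_oCap h2 (Q_congr (fun θ => ?_) hfold)
    constructor
    · rintro (h | ⟨r, hr, h⟩)
      · exact h.elim
      · rw [mem_seg] at hr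
        rcases h with ⟨a1, θ0, a2, rfl⟩ | ⟨⟨e, x, a1, a2, a3, a4, a5, a6⟩, θ1, ⟨θ0, a7, rfl⟩, rfl⟩
        · exact Der.vv i r q θ0 (by omega) hqn a2 a1
        · exact Der.fl i r e q x θ0 a1 a2 hqn a3 a4 a7 a5 a6
    · intro h
      right
      rcases ch_inv h with h | ⟨r, q', θ0, e1, e2, e3, e4, e5, rfl⟩ |
        ⟨r, e, q', x, θ0, e1, e2, e3, e4, e5, e6, e7, e8, e9, rfl⟩
      · exact absurd h.1 hi
      · have hq : q' = q := by omega
        subst hq
        have := (hrange i r θ0 e4).1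
        exact ⟨r, (mem_seg _ _ _).2 ⟨this, by omega⟩, Or.inl ⟨e5, θ0, e4, rfl⟩⟩
      · have hq : q' = q := by omega
        subst hq
        have := (hrange i r θ0 e7).1
        exact ⟨r, (mem_seg _ _ _).2 ⟨this, by omega⟩,
          Or.inr ⟨⟨e, x, e2, e3, e5, e6, e8, e9⟩, θ0 + π, ⟨θ0, e7, rfl⟩, rfl⟩⟩

end Pool.Agent.H586R2.AF
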