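import Pool.Agent.H586R2.AF.Stm

/-!
# Task A7: correctness of the second component of a table entry
-/

set_option autoImplicit false

namespace Pool.Agent.H586R2.AF

open Real Finset

namespace A7

theorem mem_seg {i j k : ℕ} (h : i ≤ j) : k ∈ seg i j ↔ i ≤ k ∧ k < j := by
  unfold seg
  simp only [List.mem_map, List.mem_range]
  constructor
  · rintro ⟨t, ht, rfl⟩
    omega
  · rintro ⟨h1, h2⟩
    exact ⟨k - i, by omega, by omega⟩

theorem seg_succ {i j : ℕ} (h : i ≤ j) : seg i (j + 1) = seg i j ++ [j] := by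
  unfold seg
  have : j + 1 - i = (j - i) + 1 := by omega
  rw [this, List.range_succ, List.map_append]
  simp
  omega

theorem sumA_ok (h2 : S_ang) (X : Dat) (S : List ℝ) (al : List Ang) (hR : Rep X S al) (i : ℕ) :
    ∀ j, i ≤ j → j ≤ X.n → AngOK (sumA al i j) (∑ k ∈ Ioc i j, X.al k) := by
  intro j hij
  induction j, hij using Nat.le_induction with
  | base =>
      intro _
      have : sumA al i i = ang0 := by simp [sumA, seg]
      rw [this]
      simpa using h2.2.2.2.1
  | succ j hij ih =>
      intro hj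
      have e1 : sumA al i (j + 1) = angAdd (sumA al i j) (al.getD (j + 1) ang0) := by
        unfold sumA
        rw [seg_succ (show i + 1 ≤ j + 1 by omega), List.foldl_append]
        rfl
      have e2 : ∑ k ∈ Ioc i (j + 1), X.al k = ∑ k ∈ Ioc i j, X.al k + X.al (j + 1) := by
        rw [← Finset.insert_Ioc_right_eq_Ioc_add_one hij, Finset.sum_insert (by simp)]
        ring
      rw [e1, e2]
      exact h2.1 _ _ _ _ (ih (by omega)) (hR.2 _ hj)

theorem prune_iff (h2 : S_ang) (X : Dat) (S : List ℝ) (al : List Ang) (hR : Rep X S al)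
    (i j : ℕ) (hij : i ≤ j) (hj : j ≤ X.n) :
    (sumA al i j).1 + 3 < j - i ↔ ¬ Bd X i j := by
  have h := sumA_ok h2 X S al hR i j hij hj
  have h3 := h2.2.2.1 _ _ h
  unfold Bd Kap
  rw [Finset.sum_sub_distrib]
  simp only [Finset.sum_const, Nat.card_Ioc, nsmul_eq_mul]
  set v := ∑ k ∈ Ioc i j, X.al k with hv
  have hv0 : 0 ≤ v := by
    have := (h3 0).1 (Nat.zero_le _)
    simpa using this
  have hpi := Real.pi_pos
  constructor
  · intro hlt hle
    have h4 := (h3 (j - i - 3)).2 (by
      have hc : ((j - i - 3 : ℕ) : ℝ) = ((j - i : ℕ) : ℝ) - 3 := by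
        rw [Nat.cast_sub (by omega)]; norm_num
      rw [hc]
      nlinarith)
    omega
  · intro hnot
    by_contra hcon
    apply hnot
    have h4 : j - i - 3 ≤ (sumA al i j).1 := by omega
    have h5 := (h3 (j - i - 3)).1 h4
    by_cases h6 : 3 ≤ j - i
    · have hc : ((j - i - 3 : ℕ) : ℝ) = ((j - i : ℕ) : ℝ) - 3 := by
        rw [Nat.cast_sub (by omega)]; norm_num
      rw [hc] at h5
      nlinarith
    · have h7 : ((j - i : ℕ) : ℝ) ≤ 3 := by
        have : j - i ≤ 3 := by omega
        exact_mod_cast this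
      nlinarith

theorem oLe_iff (h2 : S_ang) (X : Dat) (p q : ℕ) (oa : Option Ang) (hA : AOK X p q oa)
    (y : Ang) (w : ℝ) (hy : AngOK y w) (hw : w < 3 * π) :
    oLe oa y = true ↔ ∃ θ, Der X (Bd X) (.ch p q θ) ∧ θ ≤ w := by
  cases oa with
  | none =>
      simp only [oLe, Bool.false_eq_true, false_iff, not_exists, not_and, not_le]
      intro θ hθ
      have := hA.2 rfl θ hθ
      linarith
  | some a =>
      obtain ⟨v, hv, hd, hmin⟩ := hA.1 a rfl
      simp only [oLe]
      rw [h2.2.1 _ _ _ _ hv hy]
      constructor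
      · intro h
        exact ⟨v, hd, h⟩
      · rintro ⟨θ, hθ, hle⟩
        exact (hmin θ hθ).trans hle

theorem foldl_union (h3 : S_ivUnion) (A B : ℝ) (f : ℕ → IS) :
    ∀ (ps : List ℕ) (L : IS), (∀ p ∈ ps, ∀ x ∈ f p, x.1 ≤ x.2) → (∀ p ∈ ps, WinL A B (f p)) →
      DisjL L → WinL A B L →
      DisjL (ps.foldl (fun acc p => ivUnion acc (f p)) L) ∧
      WinL A B (ps.foldl (fun acc p => ivUnion acc (f p)) L) ∧
      ∀ c, InL c (ps.foldl (fun acc p => ivUnion acc (f p)) L) ↔
        InL c L ∨ ∃ p ∈ ps, InL c (f p) := by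
  intro ps
  induction ps with
  | nil =>
      intro L _ _ hd hw
      refine ⟨hd, hw, fun c => ?_⟩
      simp
  | cons q ps ih =>
      intro L h1 h2 hd hw
      obtain ⟨u1, u2, u3, _⟩ := h3 L (f q) hd (h1 q (by simp))
      obtain ⟨v1, v2, v3⟩ := ih (ivUnion L (f q)) (fun p hp => h1 p (by simp [hp]))
        (fun p hp => h2 p (by simp [hp])) u1 (u3 A B hw (h2 q (by simp)))
      refine ⟨v1, v2, fun c => ?_⟩
      rw [List.foldl_cons, v3 c, u2 c]
      simp only [List.mem_cons, exists_eq_or_imp]
      tauto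

end A7

theorem t_entryI (h1 : S_range) (h2 : S_ang) (h3 : S_ivUnion) (h4 : S_ivClip) (h5 : S_closed)
    (h6 : S_len) : S_entryI := by
  intro X hX S al hR T i j hij hj hT
  have hpi := Real.pi_pos
  unfold entryI
  rw [if_neg (by omega)]
  by_cases hij' : i = j
  · subst hij'
    rw [if_pos rfl]
    have hs := hX.s_lt i hj
    rw [hR.1 i (by omega), hR.1 (i + 1) (by omega)]
    refine ⟨⟨?_, ?_⟩, ?_, ?_⟩
    · intro x hx
      simp only [List.mem_singleton] at hx
      subst hx
      simp only
      linarith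
    · simp
    · intro x hx
      simp only [List.mem_singleton] at hx
      subst hx
      simp only
      refine ⟨by linarith, by linarith, by linarith, by linarith⟩
    · intro c hc1 hc2
      constructor
      · intro _
        exact ⟨_, List.mem_singleton.2 rfl, by simp only; linarith, by simp only; linarith⟩
      · intro _
        refine Der.fold i c hj ?_ (by linarith) (by linarith)
        unfold Bd Kap
        simp
        linarith
  rw [if_neg hij']
  have hlt : i < j := by omega
  have hpr := A7.prune_iff h2 X S al hR i j hij hj.le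
  by_cases hp : (sumA al i j).1 + 3 < j - i
  · rw [if_pos hp]
    refine ⟨⟨by simp, by simp⟩, by intro x hx; simp at hx, ?_⟩
    intro c _ _
    constructor
    · intro hd
      exact absurd ((h1 X hX _).1 i j c hd).2.2.1 (hpr.1 hp)
    · rintro ⟨x, hx, _⟩
      simp at hx
  rw [if_neg hp]
  have hBd : Bd X i j := by
    by_contra h
    exact hp (hpr.2 h)
  -- names
  have si := hX.s_lt i (by omega)
  have sj := hX.s_lt j hj
  have gi := hR.1 i (by omega)
  have gi1 := hR.1 (i + 1) (by omega)
  have gj := hR.1 j (by omega)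
  have gj1 := hR.1 (j + 1) (by omega)
  set A := X.s i + X.s j with hA
  set B := X.s (i + 1) + X.s (j + 1) with hB
  set cs := X.s (i + 1) + X.s j with hcs
  have hAcs : A < cs := by simp only [hA, hcs]; linarith
  have hcsB : cs < B := by simp only [hB, hcs]; linarith
  -- right lists
  have hright : ∀ p, i < p → p ≤ j →
      (∀ x ∈ rightI S T i j p, x.1 ≤ x.2) ∧ WinL cs B (rightI S T i j p) ∧
      ∀ c, cs < c → c < B → (InL c (rightI S T i j p) ↔
        (∃ θ, Der X (Bd X) (.ch (i + 1) p θ) ∧ θ ≤ π) ∧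
          Der X (Bd X) (.sg p j (c - X.s (i + 1) + X.s p))) := by
    intro p hp1 hp2
    have hAp := (hT (i + 1) p (by omega) (by omega) (by omega)).1
    have hIp := (hT p j hp2 (by omega) (by omega)).2 hj
    have ho := A7.oLe_iff h2 X (i + 1) p _ hAp angPi π h2.2.2.2.2.1 (by linarith)
    have gp := hR.1 p (by omega)
    have sp := hX.s_lt p (by omega)
    unfold rightI
    by_cases hch : oLe (look T (i + 1) p).1 angPi = true
    · rw [if_pos hch, gi1, gj, gj1, gp]
      obtain ⟨c1, c2, c3, _⟩ := h4 (X.s (i + 1) + X.s j) (X.s (i + 1) + X.s (j + 1))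
        (X.s (i + 1) - X.s p) (look T p j).2 hcsB hIp.1.1
      refine ⟨c1, c2, ?_⟩
      intro c hc1 hc2
      rw [c3 c hc1 hc2]
      have e : c - (X.s (i + 1) - X.s p) = c - X.s (i + 1) + X.s p := by ring
      rw [e, ← hIp.2.2 (c - X.s (i + 1) + X.s p) (by simp only [hcs] at hc1; linarith)
        (by simp only [hB] at hc2; linarith)]
      constructor
      · intro h
        exact ⟨ho.1 hch, h⟩
      · intro h
        exact h.2
    · rw [if_neg hch]
      refine ⟨by simp, by intro x hx; simp at hx, ?_⟩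
      intro c _ _
      constructor
      · rintro ⟨x, hx, _⟩
        simp at hx
      · intro h
        exact absurd (ho.2 h.1) hch
  -- left lists
  have hleft : ∀ p, i ≤ p → p < j →
      (∀ x ∈ leftI S T i j p, x.1 ≤ x.2) ∧ WinL A cs (leftI S T i j p) ∧
      ∀ c, A < c → c < cs → (InL c (leftI S T i j p) ↔
        (∃ θ, Der X (Bd X) (.ch (p + 1) j θ) ∧ θ ≤ π) ∧
          Der X (Bd X) (.sg i p (c - X.s j + X.s (p + 1)))) := by
    intro p hp1 hp2
    have hAp := (hT (p + 1) j (by omega) (by omega) (by omega)).1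
    have hIp := (hT i p hp1 (by omega) (by omega)).2 (by omega)
    have ho := A7.oLe_iff h2 X (p + 1) j _ hAp angPi π h2.2.2.2.2.1 (by linarith)
    have gp := hR.1 (p + 1) (by omega)
    have sp := hX.s_lt p (by omega)
    unfold leftI
    by_cases hch : oLe (look T (p + 1) j).1 angPi = true
    · rw [if_pos hch, gi, gi1, gj, gp]
      obtain ⟨c1, c2, c3, _⟩ := h4 (X.s i + X.s j) (X.s (i + 1) + X.s j)
        (X.s j - X.s (p + 1)) (look T i p).2 hAcs hIp.1.1
      refine ⟨c1, c2, ?_⟩
      intro c hc1 hc2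
      rw [c3 c hc1 hc2]
      have e : c - (X.s j - X.s (p + 1)) = c - X.s j + X.s (p + 1) := by ring
      rw [e, ← hIp.2.2 (c - X.s j + X.s (p + 1)) (by simp only [hA] at hc1; linarith)
        (by simp only [hcs] at hc2; linarith)]
      constructor
      · intro h
        exact ⟨ho.1 hch, h⟩
      · intro h
        exact h.2
    · rw [if_neg hch]
      refine ⟨by simp, by intro x hx; simp at hx, ?_⟩
      intro c _ _
      constructor
      · rintro ⟨x, hx, _⟩
        simp at hx
      · intro h
        exact absurd (ho.2 h.1) hch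
  -- term list
  have hterm : DisjL (termI S T i j) ∧ WinL A B (termI S T i j) ∧
      ∀ c, InL c (termI S T i j) ↔
        c = cs ∧ ∃ θ, Der X (Bd X) (.ch (i + 1) j θ) ∧ θ ≤ 2 * π := by
    have hAp := (hT (i + 1) j (by omega) (by omega) (by omega)).1
    have ho := A7.oLe_iff h2 X (i + 1) j _ hAp ang2Pi (2 * π) h2.2.2.2.2.2 (by linarith)
    unfold termI
    by_cases hch : oLe (look T (i + 1) j).1 ang2Pi = true
    · rw [if_pos hch, gi1, gj]
      refine ⟨⟨?_, by simp⟩, ?_, ?_⟩
      · intro x hx
        simp only [List.mem_singleton] at hx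
        subst hx
        exact le_refl _
      · intro x hx
        simp only [List.mem_singleton] at hx
        subst hx
        exact ⟨hAcs.le, hcsB.le, hcsB, hAcs⟩
      · intro c
        constructor
        · rintro ⟨x, hx, hx1, hx2⟩
          simp only [List.mem_singleton] at hx
          subst hx
          exact ⟨le_antisymm hx2 hx1, ho.1 hch⟩
        · rintro ⟨rfl, _⟩
          exact ⟨_, List.mem_singleton.2 rfl, le_refl _, le_refl _⟩
    · rw [if_neg hch]
      refine ⟨⟨by simp, by simp⟩, by intro x hx; simp at hx, ?_⟩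
      intro c
      constructor
      · rintro ⟨x, hx, _⟩
        simp at hx
      · intro h
        exact absurd (ho.2 h.2) hch
  -- the untruncated list
  obtain ⟨r1, r2, r3⟩ := A7.foldl_union h3 A B (fun p => rightI S T i j p) (seg (i + 1) (j + 1))
    (termI S T i j)
    (fun p hp => (hright p (by have := (A7.mem_seg (by omega)).1 hp; omega)
      (by have := (A7.mem_seg (by omega)).1 hp; omega)).1)
    (fun p hp x hx => by
      have hm := (A7.mem_seg (by omega)).1 hp
      obtain ⟨w1, w2, w3, w4⟩ := (hright p (by omega) (by omega)).2.1 x hx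
      exact ⟨hAcs.le.trans w1, w2, w3, hAcs.trans w4⟩)
    hterm.1 hterm.2.1
  obtain ⟨l1, l2, l3⟩ := A7.foldl_union h3 A B (fun p => leftI S T i j p) (seg i j)
    ((seg (i + 1) (j + 1)).foldl (fun acc p => ivUnion acc (rightI S T i j p)) (termI S T i j))
    (fun p hp => (hleft p (by have := (A7.mem_seg (by omega)).1 hp; omega)
      (by have := (A7.mem_seg (by omega)).1 hp; omega)).1)
    (fun p hp x hx => by
      have hm := (A7.mem_seg (by omega)).1 hp
      obtain ⟨w1, w2, w3, w4⟩ := (hleft p (by omega) (by omega)).2.1 x hx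
      exact ⟨w1, w2.trans hcsB.le, w3.trans hcsB, w4⟩)
    r1 r2
  set M := (seg i j).foldl (fun acc p => ivUnion acc (leftI S T i j p))
    ((seg (i + 1) (j + 1)).foldl (fun acc p => ivUnion acc (rightI S T i j p)) (termI S T i j))
    with hM
  have hIOK : IOK X i j M := by
    refine ⟨l1, l2, ?_⟩
    have hgt : ∀ c, cs < c → c < B → (Der X (Bd X) (.sg i j c) ↔ InL c M) := by
      intro c hc1 hc2
      rw [l3 c, r3 c]
      constructor
      · intro hd
        left; right
        cases hd with
        | fold _ _ _ _ _ _ => exact absurd rfl hij'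
        | term _ _ θ _ _ _ _ _ => exact absurd hc1 (lt_irrefl _)
        | right _ _ p _ θ q1 q2 q3 q4 q5 q6 q7 q8 q9 =>
            exact ⟨p, (A7.mem_seg (by omega)).2 (by omega),
              ((hright p q1 q2).2.2 c hc1 hc2).2 ⟨⟨θ, q7, q8⟩, q9⟩⟩
        | left _ _ p _ θ q1 q2 q3 q4 q5 q6 q7 q8 q9 =>
            exact absurd hc1 (not_lt.2 q6.le)
      · rintro ((ht | ⟨p, hp, hin⟩) | ⟨p, hp, hin⟩)
        · exact absurd (((hterm.2.2 c).1 ht).1) hc1.ne'
        · have hm := (A7.mem_seg (by omega)).1 hp
          obtain ⟨⟨θ, d1, d2⟩, d3⟩ := ((hright p (by omega) (by omega)).2.2 c hc1 hc2).1 hin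
          exact Der.right i j p c θ (by omega) (by omega) hj hBd hc1 hc2 d1 d2 d3
        · have hm := (A7.mem_seg (by omega)).1 hp
          obtain ⟨x, hx, hx1, hx2⟩ := hin
          obtain ⟨w1, w2, w3, w4⟩ := (hleft p (by omega) (by omega)).2.1 x hx
          linarith
    have hlt' : ∀ c, A < c → c < cs → (Der X (Bd X) (.sg i j c) ↔ InL c M) := by
      intro c hc1 hc2
      rw [l3 c, r3 c]
      constructor
      · intro hd
        right
        cases hd with
        | fold _ _ _ _ _ _ => exact absurd rfl hij'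
        | term _ _ θ _ _ _ _ _ => exact absurd hc2 (lt_irrefl _)
        | right _ _ p _ θ q1 q2 q3 q4 q5 q6 q7 q8 q9 =>
            exact absurd hc2 (not_lt.2 q5.le)
        | left _ _ p _ θ q1 q2 q3 q4 q5 q6 q7 q8 q9 =>
            exact ⟨p, (A7.mem_seg (by omega)).2 (by omega),
              ((hleft p q1 q2).2.2 c hc1 hc2).2 ⟨⟨θ, q7, q8⟩, q9⟩⟩
      · rintro ((ht | ⟨p, hp, hin⟩) | ⟨p, hp, hin⟩)
        · exact absurd (((hterm.2.2 c).1 ht).1) hc2.ne
        · have hm := (A7.mem_seg (by omega)).1 hp
          obtain ⟨x, hx, hx1, hx2⟩ := hin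
          obtain ⟨w1, w2, w3, w4⟩ := (hright p (by omega) (by omega)).2.1 x hx
          linarith
        · have hm := (A7.mem_seg (by omega)).1 hp
          obtain ⟨⟨θ, d1, d2⟩, d3⟩ := ((hleft p (by omega) (by omega)).2.2 c hc1 hc2).1 hin
          exact Der.left i j p c θ (by omega) (by omega) hj hBd hc1 hc2 d1 d2 d3
    intro c hc1 hc2
    rcases lt_trichotomy c cs with hc | hc | hc
    · exact hlt' c hc1 hc
    · rw [l3 c, r3 c]
      constructor
      · intro hd
        left; left
        have hgen : ∀ c', Der X (Bd X) (.sg i j c') → c' = cs →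
            ∃ θ, Der X (Bd X) (.ch (i + 1) j θ) ∧ θ ≤ 2 * π := by
          intro c' hd' hc'
          cases hd' with
          | fold _ _ _ _ _ _ => exact absurd rfl hij'
          | term _ _ θ _ _ _ q1 q2 => exact ⟨θ, q1, q2⟩
          | right _ _ p _ θ q1 q2 q3 q4 q5 q6 q7 q8 q9 => exact absurd hc' q5.ne'
          | left _ _ p _ θ q1 q2 q3 q4 q5 q6 q7 q8 q9 => exact absurd hc' q6.ne
        exact (hterm.2.2 c).2 ⟨hc, hgen c hd hc⟩
      · rintro ((ht | ⟨p, hp, hin⟩) | ⟨p, hp, hin⟩)
        · obtain ⟨_, θ, d1, d2⟩ := (hterm.2.2 c).1 ht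
          rw [hc]
          exact Der.term i j θ hlt hj hBd d1 d2
        · have hm := (A7.mem_seg (by omega)).1 hp
          have hin' := hin
          obtain ⟨x, hx, hx1, hx2⟩ := hin
          obtain ⟨w1, w2, w3, w4⟩ := (hright p (by omega) (by omega)).2.1 x hx
          apply h5 X hX _ i j c hij hj hc1 hc2
          rw [Metric.mem_closure_iff]
          intro ε hε
          obtain ⟨c', hc'1, hc'2⟩ := exists_between (show cs < min (min x.2 B) (cs + ε) from by
            simp only [lt_min_iff]
            exact ⟨⟨w4, hcsB⟩, by linarith⟩)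
          simp only [lt_min_iff] at hc'2
          refine ⟨c', ?_, ?_⟩
          · rw [Set.mem_ofPred_eq, hgt c' hc'1 hc'2.1.2, l3 c', r3 c']
            left; right
            exact ⟨p, hp, x, hx, by linarith, by linarith⟩
          · rw [hc, Real.dist_eq, abs_sub_lt_iff]
            constructor <;> linarith
        · have hm := (A7.mem_seg (by omega)).1 hp
          have hin' := hin
          obtain ⟨x, hx, hx1, hx2⟩ := hin
          obtain ⟨w1, w2, w3, w4⟩ := (hleft p (by omega) (by omega)).2.1 x hx
          apply h5 X hX _ i j c hij hj hc1 hc2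
          rw [Metric.mem_closure_iff]
          intro ε hε
          obtain ⟨c', hc'1, hc'2⟩ := exists_between (show max (max x.1 A) (cs - ε) < cs from by
            simp only [max_lt_iff]
            exact ⟨⟨w3, hAcs⟩, by linarith⟩)
          simp only [max_lt_iff] at hc'1
          refine ⟨c', ?_, ?_⟩
          · rw [Set.mem_ofPred_eq, hlt' c' hc'1.1.2 hc'2, l3 c', r3 c']
            right
            exact ⟨p, hp, x, hx, by linarith, by linarith⟩
          · rw [hc, Real.dist_eq, abs_sub_lt_iff]
            constructor <;> linarith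
    · exact hgt c hc hc2
  have hlen := h6 X hX i j M hij hj hIOK
  rw [List.take_of_length_le hlen]
  exact hIOK

end Pool.Agent.H586R2.AF
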