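import Pool.Agent.H586R2.AF.Stm

/-!
# Task A8: correctness of the table
-/

set_option autoImplicit false

namespace Pool.Agent.H586R2.AF

open Real Finset

namespace A8

theorem look_cons_same (T : List Row) (i j : ℕ) (v : Option Ang × IS) :
    look (((i, j), v) :: T) i j = v := by
  simp [look]

theorem look_cons_ne (T : List Row) (i j i' j' : ℕ) (v : Option Ang × IS)
    (h : ¬ (i = i' ∧ j = j')) : look (((i, j), v) :: T) i' j' = look T i' j' := by
  unfold look
  rw [List.find?_cons_of_neg]
  simp only [Bool.and_eq_true, decide_eq_true_eq]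
  exact h

/-- the entry for `(i, j)` is correct -/
def EntOK (X : Dat) (T : List Row) (i j : ℕ) : Prop :=
  AOK X i j (look T i j).1 ∧ (j < X.n → IOK X i j (look T i j).2)

theorem entOK_cons_ne (X : Dat) (T : List Row) (i j i' j' : ℕ) (v : Option Ang × IS)
    (h : ¬ (i = i' ∧ j = j')) : EntOK X (((i, j), v) :: T) i' j' ↔ EntOK X T i' j' := by
  unfold EntOK
  rw [look_cons_ne T i j i' j' v h]

/-- the invariant of the inner loop -/
def J (X : Dat) (T : List Row) (d k : ℕ) : Prop :=
  TabOK X T d ∧ ∀ i, i < k → i + d ≤ X.n → EntOK X T i (i + d)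

theorem J_step (h1 : S_entryA) (h2 : S_entryI) (X : Dat) (hX : X.Good) (S : List ℝ)
    (al : List Ang) (hR : Rep X S al) (T : List Row) (d k : ℕ) (hk : k + d ≤ X.n)
    (h : J X T d k) : J X (stepT X.n (capN X.n) S al T (k, k + d)) d (k + 1) := by
  have hT : TabOK X T (k + d - k) := by
    rw [Nat.add_sub_cancel_left]; exact h.1
  refine ⟨?_, ?_⟩
  · intro i j hij hj hd
    have hne : ¬ (k = i ∧ k + d = j) := by
      rintro ⟨rfl, rfl⟩; omega
    exact (entOK_cons_ne X T k (k + d) i j _ hne).2 (h.1 i j hij hj hd)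
  · intro i hi hid
    rcases Nat.lt_succ_iff_lt_or_eq.1 hi with hi' | rfl
    · have hne : ¬ (k = i ∧ k + d = i + d) := by
        rintro ⟨rfl, -⟩; omega
      exact (entOK_cons_ne X T k (k + d) i (i + d) _ hne).2 (h.2 i hi' hid)
    · unfold EntOK stepT
      rw [look_cons_same]
      exact ⟨h1 X hX S al hR T i (i + d) (by omega) hid hT,
        fun hlt => h2 X hX S al hR T i (i + d) (by omega) hlt hT⟩

theorem J_inner (h1 : S_entryA) (h2 : S_entryI) (X : Dat) (hX : X.Good) (S : List ℝ)
    (al : List Ang) (hR : Rep X S al) (T : List Row) (d : ℕ) (hT : TabOK X T d) (k : ℕ)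
    (hk : k + d ≤ X.n + 1) :
    J X (((List.range k).map (fun i => (i, i + d))).foldl (stepT X.n (capN X.n) S al) T) d k := by
  induction k with
  | zero => exact ⟨hT, fun i hi => absurd hi (Nat.not_lt_zero i)⟩
  | succ k ih =>
    rw [List.range_succ, List.map_append, List.foldl_append]
    simp only [List.map_cons, List.map_nil, List.foldl_cons, List.foldl_nil]
    exact J_step h1 h2 X hX S al hR _ d k (by omega) (ih (by omega))

theorem outer (h1 : S_entryA) (h2 : S_entryI) (X : Dat) (hX : X.Good) (S : List ℝ)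
    (al : List Ang) (hR : Rep X S al) (d : ℕ) (hd : d ≤ X.n + 1) :
    TabOK X (((List.range d).flatMap (fun d => (List.range (X.n + 1 - d)).map
      (fun i => (i, i + d)))).foldl (stepT X.n (capN X.n) S al) []) d := by
  induction d with
  | zero => intro i j _ _ h; exact absurd h (Nat.not_lt_zero _)
  | succ d ih =>
    have ih' := ih (by omega)
    rw [List.range_succ, List.flatMap_append, List.foldl_append]
    simp only [List.flatMap_cons, List.flatMap_nil, List.append_nil]
    have hJ := J_inner h1 h2 X hX S al hR _ d ih' (X.n + 1 - d) (by omega)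
    intro i j hij hj hd'
    rcases Nat.lt_succ_iff_lt_or_eq.1 hd' with h | h
    · exact hJ.1 i j hij hj h
    · have e : j = i + d := by omega
      subst e
      exact hJ.2 i (by omega) hj

end A8

open A8 in
theorem t_table (h1 : S_entryA) (h2 : S_entryI) (h3 : S_ang) : S_table := by
  intro X hX S al hR
  have hT : TabOK X (table X.n (capN X.n) S al) (X.n + 1) :=
    outer h1 h2 X hX S al hR (X.n + 1) le_rfl
  obtain ⟨ha, -⟩ := hT 0 X.n (Nat.zero_le _) le_rfl (by omega)
  unfold decideDat
  generalize hoa : (look (table X.n (capN X.n) S al) 0 X.n).1 = oa at ha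
  cases oa with
  | none =>
    simp only [oLe, Bool.false_eq_true, false_iff]
    rintro ⟨θ, hθ, hle⟩
    have h := ha.2 rfl θ hθ
    have := Real.pi_pos
    linarith
  | some a =>
    obtain ⟨v, hv, hD, hmin⟩ := ha.1 a rfl
    simp only [oLe]
    rw [h3.2.1 a ang2Pi v (2 * π) hv h3.2.2.2.2.2]
    constructor
    · intro h; exact ⟨v, hD, h⟩
    · rintro ⟨θ, hθ, hle⟩
      exact (hmin θ hθ).trans hle

end Pool.Agent.H586R2.AF
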