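import Pool.Agent.H586R2.AF.Stm

set_option autoImplicit false

namespace Pool.Agent.H586R2.AF

open Real Finset

namespace C1

theorem al_nonneg {X : Dat} (hX : X.Good) {k : ℕ} (hk : k ≤ X.n) : 0 ≤ X.al k := by
  rcases Nat.lt_or_ge k X.n with h | h
  · exact (hX.al_pos k h).le
  · have : k = X.n := le_antisymm hk h
    rw [this, hX.al_n]

/-- the range property of an item -/
def PR (X : Dat) (A : ℕ → ℕ → Prop) : Item → Prop
  | .sg i j c => i ≤ j ∧ j < X.n ∧ A i j ∧ X.s i + X.s j < c ∧ c < X.s (i + 1) + X.s (j + 1)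
  | .ch p q θ => p ≤ q ∧ q ≤ X.n ∧ X.al p ≤ θ ∧ X.al q ≤ θ ∧ (p < q → X.al p + X.al q ≤ θ)

theorem pr {X : Dat} (hX : X.Good) {A : ℕ → ℕ → Prop} {it : Item} (h : Der X A it) :
    PR X A it := by
  induction h with
  | fold i c h1 h2 h3 h4 => exact ⟨le_rfl, h1, h2, by linarith, by linarith⟩
  | term i j θ h1 h2 h3 h4 h5 ih =>
    have a1 := hX.s_lt i (lt_trans h1 h2)
    have a2 := hX.s_lt j h2
    exact ⟨h1.le, h2, h3, by linarith, by linarith⟩
  | right i j p c θ h1 h2 h3 h4 h5 h6 h7 h8 h9 ih1 ih2 =>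
    have a1 := hX.s_lt i (lt_of_lt_of_le h1 (le_trans h2 h3.le))
    exact ⟨le_trans h1.le h2, h3, h4, by linarith, by linarith⟩
  | left i j p c θ h1 h2 h3 h4 h5 h6 h7 h8 h9 ih1 ih2 =>
    have a2 := hX.s_lt j h3
    exact ⟨le_trans h1 h2.le, h3, h4, by linarith, by linarith⟩
  | refl p h1 => exact ⟨le_rfl, h1, le_rfl, le_rfl, fun h => absurd h (lt_irrefl _)⟩
  | vv p r q θ h1 h2 h3 h4 ih1 ih2 =>
    obtain ⟨b1, b2, b3, b4, b5⟩ := ih1
    have e1 := al_nonneg hX (k := p) (by omega)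
    have e2 := al_nonneg hX (k := q + 1) (by omega)
    exact ⟨by omega, by omega, by linarith, by linarith, fun _ => by linarith⟩
  | fl p r e q x θ h1 h2 h3 h4 h5 h6 h7 h8 ih1 ih2 ih3 =>
    obtain ⟨b1, b2, b3, b4, b5⟩ := ih1
    have e1 := al_nonneg hX (k := p) (by omega)
    have e2 := al_nonneg hX (k := q + 1) (by omega)
    have e3 := Real.pi_pos
    exact ⟨by omega, by omega, by linarith, by linarith, fun _ => by linarith⟩

/-- the splitting property of an item -/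
def PS (X : Dat) (A : ℕ → ℕ → Prop) : Item → Prop
  | .sg i j c => Rg X A i j c ∨ Fx X A i j c
  | .ch _ _ _ => True

theorem ps {X : Dat} {A : ℕ → ℕ → Prop} {it : Item} (h : Der X A it) : PS X A it := by
  induction h with
  | fold i c h1 h2 h3 h4 => exact Or.inr (Fx.fold i c h1 h2 h3 h4)
  | term i j θ h1 h2 h3 h4 h5 ih => exact Or.inl (Rg.term i j θ h1 h2 h3 h4 h5)
  | right i j p c θ h1 h2 h3 h4 h5 h6 h7 h8 h9 ih1 ih2 =>
    rcases ih2 with ih | ih
    · exact Or.inl (Rg.right i j p c θ h1 h2 h3 h4 h5 h6 h7 h8 ih)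
    · exact Or.inr (Fx.right i j p c θ h1 h2 h3 h4 h5 h6 h7 h8 ih)
  | left i j p c θ h1 h2 h3 h4 h5 h6 h7 h8 h9 ih1 ih2 =>
    rcases ih2 with ih | ih
    · exact Or.inl (Rg.left i j p c θ h1 h2 h3 h4 h5 h6 h7 h8 ih)
    · exact Or.inr (Fx.left i j p c θ h1 h2 h3 h4 h5 h6 h7 h8 ih)
  | refl p h1 => trivial
  | vv p r q θ h1 h2 h3 h4 ih1 ih2 => trivial
  | fl p r e q x θ h1 h2 h3 h4 h5 h6 h7 h8 ih1 ih2 ih3 => trivial

/-- the appending property of an item -/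
def PA (X : Dat) (A : ℕ → ℕ → Prop) (a b' : ℕ) (θ : ℝ) : Item → Prop
  | .sg _ _ _ => True
  | .ch p q θ' => p = b' + 1 → Der X A (.ch a q (θ + θ'))

theorem pa {X : Dat} {A : ℕ → ℕ → Prop} {a b b' : ℕ} {θ : ℝ} (hb : b ≤ b')
    (hch : Der X A (.ch a b θ)) (hsg : Der X A (.sg b b' (X.s b + X.s (b' + 1))))
    {it : Item} (h : Der X A it) : PA X A a b' θ it := by
  induction h with
  | fold i c h1 h2 h3 h4 => trivial
  | term i j θ h1 h2 h3 h4 h5 ih => trivial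
  | right i j p c θ h1 h2 h3 h4 h5 h6 h7 h8 h9 ih1 ih2 => trivial
  | left i j p c θ h1 h2 h3 h4 h5 h6 h7 h8 h9 ih1 ih2 => trivial
  | refl p h1 =>
    intro hp
    subst hp
    exact Der.vv a b b' θ hb (by omega) hch hsg
  | vv p r q θ' h1 h2 h3 h4 ih1 ih2 =>
    intro hp
    have h := Der.vv a r q (θ + θ') h1 h2 (ih1 hp) h4
    rwa [add_assoc] at h
  | fl p r e q x θ' h1 h2 h3 h4 h5 h6 h7 h8 ih1 ih2 ih3 =>
    intro hp
    have h := Der.fl a r e q x (θ + θ') h1 h2 h3 h4 h5 (ih1 hp) h7 h8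
    rwa [show θ + θ' + π + X.al (q + 1) = θ + (θ' + π + X.al (q + 1)) by ring] at h

end C1

theorem t_range : S_range := fun _ hX _ =>
  ⟨fun _ _ _ h => C1.pr hX h, fun _ _ _ h => C1.pr hX h⟩

theorem t_split : S_split := by
  intro X hX A i j c
  constructor
  · intro h
    exact C1.ps h
  · rintro (h | h)
    · induction h with
      | term i j θ h1 h2 h3 h4 h5 => exact Der.term i j θ h1 h2 h3 h4 h5
      | right i j p c θ h1 h2 h3 h4 h5 h6 h7 h8 h9 ih =>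
        exact Der.right i j p c θ h1 h2 h3 h4 h5 h6 h7 h8 ih
      | left i j p c θ h1 h2 h3 h4 h5 h6 h7 h8 h9 ih =>
        exact Der.left i j p c θ h1 h2 h3 h4 h5 h6 h7 h8 ih
    · induction h with
      | fold i c h1 h2 h3 h4 => exact Der.fold i c h1 h2 h3 h4
      | right i j p c θ h1 h2 h3 h4 h5 h6 h7 h8 h9 ih =>
        exact Der.right i j p c θ h1 h2 h3 h4 h5 h6 h7 h8 ih
      | left i j p c θ h1 h2 h3 h4 h5 h6 h7 h8 h9 ih =>
        exact Der.left i j p c θ h1 h2 h3 h4 h5 h6 h7 h8 ih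

theorem t_open : S_open := by
  intro X hX A i j c h
  induction h with
  | fold i c h1 h2 h3 h4 =>
    refine ⟨min (c - 2 * X.s i) (2 * X.s (i + 1) - c), lt_min (by linarith) (by linarith), ?_⟩
    intro c' hc'
    obtain ⟨a1, a2⟩ := lt_min_iff.1 hc'
    have b1 := (abs_lt.1 a1).1
    have b2 := (abs_lt.1 a2).2
    exact Fx.fold i c' h1 h2 (by linarith) (by linarith)
  | right i j p c θ h1 h2 h3 h4 h5 h6 h7 h8 h9 ih =>
    obtain ⟨ε, hε, hh⟩ := ih
    refine ⟨min ε (min (c - (X.s (i + 1) + X.s j)) (X.s (i + 1) + X.s (j + 1) - c)),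
      lt_min hε (lt_min (by linarith) (by linarith)), ?_⟩
    intro c' hc'
    obtain ⟨a0, a3⟩ := lt_min_iff.1 hc'
    obtain ⟨a1, a2⟩ := lt_min_iff.1 a3
    have b1 := (abs_lt.1 a1).1
    have b2 := (abs_lt.1 a2).2
    refine Fx.right i j p c' θ h1 h2 h3 h4 (by linarith) (by linarith) h7 h8 (hh _ ?_)
    rw [show c' - X.s (i + 1) + X.s p - (c - X.s (i + 1) + X.s p) = c' - c by ring]
    exact a0
  | left i j p c θ h1 h2 h3 h4 h5 h6 h7 h8 h9 ih =>
    obtain ⟨ε, hε, hh⟩ := ih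
    refine ⟨min ε (min (c - (X.s i + X.s j)) (X.s (i + 1) + X.s j - c)),
      lt_min hε (lt_min (by linarith) (by linarith)), ?_⟩
    intro c' hc'
    obtain ⟨a0, a3⟩ := lt_min_iff.1 hc'
    obtain ⟨a1, a2⟩ := lt_min_iff.1 a3
    have b1 := (abs_lt.1 a1).1
    have b2 := (abs_lt.1 a2).2
    refine Fx.left i j p c' θ h1 h2 h3 h4 (by linarith) (by linarith) h7 h8 (hh _ ?_)
    rw [show c' - X.s j + X.s (p + 1) - (c - X.s j + X.s (p + 1)) = c' - c by ring]
    exact a0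

theorem t_app : S_app := fun _ _ _ _ _ _ _ _ _ hb hch hsg h => C1.pa hb hch hsg h rfl

end Pool.Agent.H586R2.AF
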