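import Pool.Agent.H586R2.AF.Stm

/-!
# The set of glued sums is closed in its open domain
-/

set_option autoImplicit false

namespace Pool.Agent.H586R2.AF

open Real Finset Filter Topology

namespace C5

variable {X : Dat} {A : ℕ → ℕ → Prop}

/-- closedness at `(i, j)` -/
def Cl (X : Dat) (A : ℕ → ℕ → Prop) (i j : ℕ) : Prop :=
  ∀ c, X.s i + X.s j < c → c < X.s (i + 1) + X.s (j + 1) →
    (∃ᶠ c' in 𝓝 c, Der X A (.sg i j c')) → Der X A (.sg i j c)

theorem freq_exists {N : ℕ} {l : Filter ℝ} {P : ℕ → ℝ → Prop}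
    (h : ∃ᶠ c in l, ∃ p, p < N ∧ P p c) : ∃ p, p < N ∧ ∃ᶠ c in l, P p c := by
  by_contra hcon
  push Not at hcon
  apply h
  have h1 : ∀ p ∈ Finset.range N, ∀ᶠ c in l, ¬ P p c := by
    intro p hp
    exact hcon p (Finset.mem_range.1 hp)
  rw [← Filter.eventually_all_finset] at h1
  filter_upwards [h1] with c hc
  rintro ⟨p, hp, hP⟩
  exact hc p (Finset.mem_range.2 hp) hP

/-- frequently along a translate -/
theorem freq_shift {a b c d : ℝ} (hd : c + (b - a) = d) {P : ℝ → Prop}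
    (h : ∃ᶠ c' in 𝓝 c, P (c' - a + b)) : ∃ᶠ c' in 𝓝 d, P c' := by
  have ht : Tendsto (fun x : ℝ => x - a + b) (𝓝 c) (𝓝 d) := by
    have hc : Continuous (fun x : ℝ => x - a + b) := by fun_prop
    have := hc.tendsto c
    have he : c - a + b = d := by linarith
    rwa [he] at this
  exact ht.frequently h

/-- cases above the middle -/
theorem caseR {i j : ℕ} {c : ℝ} (hij : i < j) (h : Der X A (.sg i j c))
    (hc : X.s (i + 1) + X.s j < c) :
    A i j ∧ j < X.n ∧ c < X.s (i + 1) + X.s (j + 1) ∧ ∃ p, p < j + 1 ∧ (i < p ∧ ∃ θ, θ ≤ π ∧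
      Der X A (.ch (i + 1) p θ) ∧ Der X A (.sg p j (c - X.s (i + 1) + X.s p))) := by
  cases h with
  | fold => exact absurd hij (lt_irrefl _)
  | term => exact absurd hc (lt_irrefl _)
  | right _ _ p _ θ h1 h2 h3 h4 h5 h6 h7 h8 h9 =>
    exact ⟨h4, h3, h6, p, by omega, h1, θ, h8, h7, h9⟩
  | left _ _ p _ θ h1 h2 h3 h4 h5 h6 h7 h8 h9 => linarith

/-- cases below the middle -/
theorem caseL {i j : ℕ} {c : ℝ} (hij : i < j) (h : Der X A (.sg i j c))
    (hc : c < X.s (i + 1) + X.s j) :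
    A i j ∧ j < X.n ∧ X.s i + X.s j < c ∧ ∃ p, p < j ∧ (i ≤ p ∧ ∃ θ, θ ≤ π ∧
      Der X A (.ch (p + 1) j θ) ∧ Der X A (.sg i p (c - X.s j + X.s (p + 1)))) := by
  cases h with
  | fold => exact absurd hij (lt_irrefl _)
  | term => exact absurd hc (lt_irrefl _)
  | right _ _ p _ θ h1 h2 h3 h4 h5 h6 h7 h8 h9 => linarith
  | left _ _ p _ θ h1 h2 h3 h4 h5 h6 h7 h8 h9 =>
    exact ⟨h4, h3, h5, p, h2, h1, θ, h8, h7, h9⟩

theorem c2 (hG : X.Good) {i j : ℕ} (hij : i < j) (hj : j < X.n)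
    (IH : ∀ i' j', i' ≤ j' → j' < X.n → j' - i' < j - i → Cl X A i' j')
    (h : ∃ᶠ c' in 𝓝 (X.s i + X.s j), Der X A (.sg i j c')) :
    ∃ p, i ≤ p ∧ p < j ∧ ∃ θ, θ ≤ π ∧ Der X A (.ch (p + 1) j θ) ∧
      Der X A (.sg i p (X.s i + X.s (p + 1))) := by
  have hs : ∀ k, k < X.n → X.s k < X.s (k + 1) := hG.s_lt
  have hev : ∀ᶠ c' in 𝓝 (X.s i + X.s j), c' < X.s (i + 1) + X.s j := by
    apply eventually_lt_nhds
    have := hs i (by omega)
    linarith
  have h1 : ∃ᶠ c' in 𝓝 (X.s i + X.s j), ∃ p, p < j ∧ (i ≤ p ∧ ∃ θ, θ ≤ π ∧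
      Der X A (.ch (p + 1) j θ) ∧ Der X A (.sg i p (c' - X.s j + X.s (p + 1)))) := by
    apply (h.and_eventually hev).mono
    rintro c' ⟨hc1, hc2⟩
    exact (caseL hij hc1 hc2).2.2.2
  obtain ⟨p, hp, hf⟩ := freq_exists h1
  obtain ⟨_, hip, θ, hθ, hch, _⟩ := hf.exists
  refine ⟨p, hip, hp, θ, hθ, hch, ?_⟩
  apply IH i p hip (by omega) (by omega)
  · have := hs p (by omega)
    linarith
  · have := hs i (by omega)
    linarith
  · apply freq_shift (a := X.s j) (b := X.s (p + 1)) (c := X.s i + X.s j) (by ring)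
    exact hf.mono fun c' hc' => hc'.2.choose_spec.2.2

theorem c3 (hG : X.Good) {i j : ℕ} (hij : i < j) (hj : j < X.n)
    (IH : ∀ i' j', i' ≤ j' → j' < X.n → j' - i' < j - i → Cl X A i' j')
    (h : ∃ᶠ c' in 𝓝 (X.s (i + 1) + X.s (j + 1)), Der X A (.sg i j c')) :
    ∃ p, i < p ∧ p ≤ j ∧ ∃ θ, θ ≤ π ∧ Der X A (.ch (i + 1) p θ) ∧
      Der X A (.sg p j (X.s p + X.s (j + 1))) := by
  have hs : ∀ k, k < X.n → X.s k < X.s (k + 1) := hG.s_lt
  have hev : ∀ᶠ c' in 𝓝 (X.s (i + 1) + X.s (j + 1)), X.s (i + 1) + X.s j < c' := by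
    apply eventually_gt_nhds
    have := hs j (by omega)
    linarith
  have h1 : ∃ᶠ c' in 𝓝 (X.s (i + 1) + X.s (j + 1)), ∃ p, p < j + 1 ∧ (i < p ∧ ∃ θ, θ ≤ π ∧
      Der X A (.ch (i + 1) p θ) ∧ Der X A (.sg p j (c' - X.s (i + 1) + X.s p))) := by
    apply (h.and_eventually hev).mono
    rintro c' ⟨hc1, hc2⟩
    exact (caseR hij hc1 hc2).2.2.2
  obtain ⟨p, hp, hf⟩ := freq_exists h1
  obtain ⟨_, hip, θ, hθ, hch, _⟩ := hf.exists
  refine ⟨p, hip, by omega, θ, hθ, hch, ?_⟩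
  apply IH p j (by omega) (by omega) (by omega)
  · have := hs j (by omega)
    linarith
  · have := hs p (by omega)
    linarith
  · apply freq_shift (a := X.s (i + 1)) (b := X.s p) (c := X.s (i + 1) + X.s (j + 1)) (by ring)
    exact hf.mono fun c' hc' => hc'.2.choose_spec.2.2

theorem step (hG : X.Good) (hR : S_range) (hA : S_app) {i j : ℕ} (hij : i ≤ j) (hj : j < X.n)
    (IH : ∀ i' j', i' ≤ j' → j' < X.n → j' - i' < j - i → Cl X A i' j') : Cl X A i j := by
  intro c hc1 hc2 h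
  have hs : ∀ k, k < X.n → X.s k < X.s (k + 1) := hG.s_lt
  have hA0 : A i j := by
    obtain ⟨c', hc'⟩ := h.exists
    exact ((hR X hG A).1 i j c' hc').2.2.1
  rcases hij.eq_or_lt with rfl | hij'
  · exact Der.fold i c hj hA0 (by linarith) (by linarith)
  rcases lt_trichotomy c (X.s (i + 1) + X.s j) with hlt | heq | hgt
  · -- below the middle
    have hev : ∀ᶠ c' in 𝓝 c, c' < X.s (i + 1) + X.s j := eventually_lt_nhds hlt
    have h1 : ∃ᶠ c' in 𝓝 c, ∃ p, p < j ∧ (i ≤ p ∧ ∃ θ, θ ≤ π ∧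
        Der X A (.ch (p + 1) j θ) ∧ Der X A (.sg i p (c' - X.s j + X.s (p + 1)))) := by
      apply (h.and_eventually hev).mono
      rintro c' ⟨hc1, hc2⟩
      exact (caseL hij' hc1 hc2).2.2.2
    obtain ⟨p, hp, hf⟩ := freq_exists h1
    obtain ⟨_, hip, θ, hθ, hch, _⟩ := hf.exists
    refine Der.left i j p c θ hip hp hj hA0 hc1 hlt hch hθ ?_
    apply IH i p hip (by omega) (by omega)
    · have := hs p (by omega)
      linarith
    · linarith
    · apply freq_shift (a := X.s j) (b := X.s (p + 1)) (c := c) (by ring)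
      exact hf.mono fun c' hc' => hc'.2.choose_spec.2.2
  · -- the middle
    subst heq
    have hor : ∃ᶠ c' in 𝓝 (X.s (i + 1) + X.s j),
        (Der X A (.sg i j c') ∧ c' < X.s (i + 1) + X.s j) ∨
        (Der X A (.sg i j c') ∧ c' = X.s (i + 1) + X.s j) ∨
        (Der X A (.sg i j c') ∧ X.s (i + 1) + X.s j < c') := by
      refine h.mono fun c' hc' => ?_
      rcases lt_trichotomy c' (X.s (i + 1) + X.s j) with h1 | h1 | h1
      · exact Or.inl ⟨hc', h1⟩
      · exact Or.inr (Or.inl ⟨hc', h1⟩)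
      · exact Or.inr (Or.inr ⟨hc', h1⟩)
    rw [Filter.frequently_or_distrib, Filter.frequently_or_distrib] at hor
    rcases hor with hor | hor | hor
    · -- limit from below
      have h1 : ∃ᶠ c' in 𝓝 (X.s (i + 1) + X.s j), ∃ p, p < j ∧ (i ≤ p ∧ ∃ θ, θ ≤ π ∧
          Der X A (.ch (p + 1) j θ) ∧ Der X A (.sg i p (c' - X.s j + X.s (p + 1)))) := by
        apply hor.mono
        rintro c' ⟨hc1, hc2⟩
        exact (caseL hij' hc1 hc2).2.2.2
      obtain ⟨p, hp, hf⟩ := freq_exists h1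
      obtain ⟨_, hip, θ, hθ, hch, _⟩ := hf.exists
      have hf2 : ∃ᶠ c' in 𝓝 (X.s (i + 1) + X.s (p + 1)), Der X A (.sg i p c') := by
        apply freq_shift (a := X.s j) (b := X.s (p + 1)) (c := X.s (i + 1) + X.s j) (by ring)
        exact hf.mono fun c' hc' => hc'.2.choose_spec.2.2
      rcases hip.eq_or_lt with rfl | hip'
      · exact Der.term i j θ hij' hj hA0 hch (by linarith [Real.pi_pos])
      · obtain ⟨p', hp1, hp2, θ', hθ', hch', hsg'⟩ := c3 hG hip' (by omega)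
          (fun i' j' h1 h2 h3 => IH i' j' h1 h2 (by omega)) hf2
        have h3 := hA X hG A (i + 1) p' p j θ' θ hp2 hch' hsg' hch
        exact Der.term i j (θ' + θ) hij' hj hA0 h3 (by linarith)
    · obtain ⟨c', hc', rfl⟩ := hor.exists
      exact hc'
    · -- limit from above
      have h1 : ∃ᶠ c' in 𝓝 (X.s (i + 1) + X.s j), ∃ p, p < j + 1 ∧ (i < p ∧ ∃ θ, θ ≤ π ∧
          Der X A (.ch (i + 1) p θ) ∧ Der X A (.sg p j (c' - X.s (i + 1) + X.s p))) := by
        apply hor.mono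
        rintro c' ⟨hc1, hc2⟩
        exact (caseR hij' hc1 hc2).2.2.2
      obtain ⟨p, hp, hf⟩ := freq_exists h1
      obtain ⟨_, hip, θ, hθ, hch, _⟩ := hf.exists
      have hf2 : ∃ᶠ c' in 𝓝 (X.s p + X.s j), Der X A (.sg p j c') := by
        apply freq_shift (a := X.s (i + 1)) (b := X.s p) (c := X.s (i + 1) + X.s j) (by ring)
        exact hf.mono fun c' hc' => hc'.2.choose_spec.2.2
      rcases (Nat.lt_succ_iff.1 hp).eq_or_lt with rfl | hp'
      · exact Der.term i p θ hij' hj hA0 hch (by linarith [Real.pi_pos])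
      · obtain ⟨p', hp1, hp2, θ', hθ', hch', hsg'⟩ := c2 hG hp' hj
          (fun i' j' h1 h2 h3 => IH i' j' h1 h2 (by omega)) hf2
        have h3 := hA X hG A (i + 1) p p' j θ θ' hp1 hch hsg' hch'
        exact Der.term i j (θ + θ') hij' hj hA0 h3 (by linarith)
  · -- above the middle
    have hev : ∀ᶠ c' in 𝓝 c, X.s (i + 1) + X.s j < c' := eventually_gt_nhds hgt
    have h1 : ∃ᶠ c' in 𝓝 c, ∃ p, p < j + 1 ∧ (i < p ∧ ∃ θ, θ ≤ π ∧
        Der X A (.ch (i + 1) p θ) ∧ Der X A (.sg p j (c' - X.s (i + 1) + X.s p))) := by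
      apply (h.and_eventually hev).mono
      rintro c' ⟨hc1, hc2⟩
      exact (caseR hij' hc1 hc2).2.2.2
    obtain ⟨p, hp, hf⟩ := freq_exists h1
    obtain ⟨_, hip, θ, hθ, hch, _⟩ := hf.exists
    refine Der.right i j p c θ hip (by omega) hj hA0 hgt hc2 hch hθ ?_
    apply IH p j (by omega) (by omega) (by omega)
    · linarith
    · have := hs p (by omega)
      linarith
    · apply freq_shift (a := X.s (i + 1)) (b := X.s p) (c := c) (by ring)
      exact hf.mono fun c' hc' => hc'.2.choose_spec.2.2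

end C5

theorem t_closed (h1 : S_range) (h2 : S_app) : S_closed := by
  intro X hG A i j c hij hj hc1 hc2 hc
  have key : ∀ m i j, i ≤ j → j < X.n → j - i = m → C5.Cl X A i j := by
    intro m
    induction m using Nat.strong_induction_on with
    | _ m ih =>
      intro i j hij hj hm
      apply C5.step hG h1 h2 hij hj
      intro i' j' h1 h2 h3
      exact ih (j' - i') (by omega) i' j' h1 h2 rfl
  exact key (j - i) i j hij hj rfl c hc1 hc2 (mem_closure_iff_frequently.1 hc)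

end Pool.Agent.H586R2.AF
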