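import Pool.Agent.H586R2.AF.Stm

/-!
# Curvature of derivations (helper509): S_curv and S_prune
-/

set_option autoImplicit false

namespace Pool.Agent.H586R2.AF

open Real Finset

namespace C6

/-- sum of the turning angles over a half open interval of vertices -/
noncomputable def T (X : Dat) (a b : ℕ) : ℝ := ∑ k ∈ Ioc a b, (π - X.al k)

theorem T_add (X : Dat) {a b c : ℕ} (h1 : a ≤ b) (h2 : b ≤ c) : T X a b + T X b c = T X a c :=
  Finset.sum_Ioc_consecutive _ h1 h2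

theorem T_succ (X : Dat) {a b : ℕ} (h : a ≤ b) : T X a (b + 1) = T X a b + (π - X.al (b + 1)) :=
  Finset.sum_Ioc_succ_top h _

theorem kap (X : Dat) (i j : ℕ) : Kap X i j = π + T X i j := rfl

theorem kch (X : Dat) {p q : ℕ} (h : p ≤ q) (θ : ℝ) :
    Kch X p q θ = (π - X.al p) + T X p q - π + θ := by
  unfold Kch T
  rw [← Finset.add_sum_Ioc_eq_sum_Icc h]

theorem kch_succ (X : Dat) (i p : ℕ) (θ : ℝ) : Kch X (i + 1) p θ = T X i p - π + θ := by
  unfold Kch T
  have : Icc (i + 1) p = Ioc i p := by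
    ext k
    rw [Finset.mem_Icc, Finset.mem_Ioc]
    omega
  rw [this]

theorem e_term (X : Dat) (i j : ℕ) (θ : ℝ) : Kap X i j = Kch X (i + 1) j θ + (2 * π - θ) := by
  rw [kap, kch_succ]
  ring

theorem e_right (X : Dat) {i p j : ℕ} (h1 : i ≤ p) (h2 : p ≤ j) (θ : ℝ) :
    Kap X i j = Kch X (i + 1) p θ + Kap X p j + (π - θ) := by
  rw [kap, kch_succ, kap, ← T_add X h1 h2]
  ring

theorem e_left (X : Dat) {i p j : ℕ} (h1 : i ≤ p) (h2 : p ≤ j) (θ : ℝ) :
    Kap X i j = Kap X i p + Kch X (p + 1) j θ + (π - θ) := by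
  rw [kap, kch_succ, kap, ← T_add X h1 h2]
  ring

theorem e_refl (X : Dat) (p : ℕ) : Kch X p p (X.al p) = 0 := by
  unfold Kch
  rw [Finset.Icc_self, Finset.sum_singleton]
  ring

theorem e_vv (X : Dat) {p r q : ℕ} (h1 : p ≤ r) (h2 : r ≤ q) (θ : ℝ) :
    Kch X p (q + 1) (θ + X.al (q + 1)) = Kch X p r θ + Kap X r q := by
  rw [kch X (by omega : p ≤ q + 1), kch X h1, kap, T_succ X (h1.trans h2), ← T_add X h1 h2]
  ring

theorem e_fl (X : Dat) {p r e q : ℕ} (h1 : p ≤ r) (h2 : r ≤ e) (h3 : e ≤ q) (θ : ℝ) :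
    Kch X p (q + 1) (θ + π + X.al (q + 1)) = Kch X p r θ + Kap X r e + Kap X e q := by
  rw [kch X (by omega : p ≤ q + 1), kch X h1, kap, kap, T_succ X (h1.trans (h2.trans h3)),
    ← T_add X h1 (h2.trans h3), ← T_add X h2 h3]
  ring

/-- range of the indices and sign of the curvature -/
def Mot (X : Dat) : Item → Prop
  | .sg i j _ => i ≤ j ∧ 0 ≤ Kap X i j
  | .ch p q θ => p ≤ q ∧ 0 ≤ Kch X p q θ

theorem mot (X : Dat) (A : ℕ → ℕ → Prop) (it : Item) (h : Der X A it) : Mot X it := by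
  induction h with
  | fold i c h1 h2 h3 h4 =>
    refine ⟨le_rfl, ?_⟩
    rw [kap]
    unfold T
    rw [Finset.Ioc_self, Finset.sum_empty, add_zero]
    exact Real.pi_pos.le
  | term i j θ h1 h2 h3 h4 h5 ih =>
    refine ⟨h1.le, ?_⟩
    rw [e_term X i j θ]
    linarith [ih.2]
  | right i j p c θ h1 h2 h3 h4 h5 h6 h7 h8 h9 ih1 ih2 =>
    refine ⟨h1.le.trans h2, ?_⟩
    rw [e_right X h1.le h2 θ]
    linarith [ih1.2, ih2.2]
  | left i j p c θ h1 h2 h3 h4 h5 h6 h7 h8 h9 ih1 ih2 =>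
    refine ⟨h1.trans h2.le, ?_⟩
    rw [e_left X h1 h2.le θ]
    linarith [ih1.2, ih2.2]
  | refl p h => exact ⟨le_rfl, (e_refl X p).ge⟩
  | vv p r q θ h1 h2 h3 h4 ih1 ih2 =>
    refine ⟨by have := ih1.1; omega, ?_⟩
    rw [e_vv X ih1.1 h1 θ]
    linarith [ih1.2, ih2.2]
  | fl p r e q x θ h1 h2 h3 h4 h5 h6 h7 h8 ih1 ih2 ih3 =>
    refine ⟨by have := ih1.1; omega, ?_⟩
    rw [e_fl X ih1.1 h1 h2 θ]
    linarith [ih1.2, ih2.2, ih3.2]

/-- the pruned derivations -/
def Pr (X : Dat) : Item → Prop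
  | .sg i j c => Kap X i j ≤ 4 * π → Der X (Bd X) (.sg i j c)
  | .ch p q θ => Kch X p q θ ≤ 4 * π → Der X (Bd X) (.ch p q θ)

theorem pr (X : Dat) (it : Item) (h : Der X All it) : Pr X it := by
  induction h with
  | fold i c h1 h2 h3 h4 =>
    intro hK
    exact Der.fold i c h1 hK h3 h4
  | term i j θ h1 h2 h3 h4 h5 ih =>
    intro hK
    have hK' := hK
    rw [e_term X i j θ] at hK'
    exact Der.term i j θ h1 h2 hK (ih (by linarith)) h5
  | right i j p c θ h1 h2 h3 h4 h5 h6 h7 h8 h9 ih1 ih2 =>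
    intro hK
    have hK' := hK
    rw [e_right X h1.le h2 θ] at hK'
    have a1 := (mot X All _ h7).2
    have a2 := (mot X All _ h9).2
    exact Der.right i j p c θ h1 h2 h3 hK h5 h6 (ih1 (by linarith)) h8 (ih2 (by linarith))
  | left i j p c θ h1 h2 h3 h4 h5 h6 h7 h8 h9 ih1 ih2 =>
    intro hK
    have hK' := hK
    rw [e_left X h1 h2.le θ] at hK'
    have a1 := (mot X All _ h7).2
    have a2 := (mot X All _ h9).2
    exact Der.left i j p c θ h1 h2 h3 hK h5 h6 (ih1 (by linarith)) h8 (ih2 (by linarith))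
  | refl p h =>
    intro _
    exact Der.refl p h
  | vv p r q θ h1 h2 h3 h4 ih1 ih2 =>
    intro hK
    have b := (mot X All _ h3).1
    rw [e_vv X b h1 θ] at hK
    have a1 := (mot X All _ h3).2
    have a2 := (mot X All _ h4).2
    exact Der.vv p r q θ h1 h2 (ih1 (by linarith)) (ih2 (by linarith))
  | fl p r e q x θ h1 h2 h3 h4 h5 h6 h7 h8 ih1 ih2 ih3 =>
    intro hK
    have b := (mot X All _ h6).1
    rw [e_fl X b h1 h2 θ] at hK
    have a1 := (mot X All _ h6).2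
    have a2 := (mot X All _ h7).2
    have a3 := (mot X All _ h8).2
    exact Der.fl p r e q x θ h1 h2 h3 h4 h5 (ih1 (by linarith)) (ih2 (by linarith))
      (ih3 (by linarith))

end C6

theorem t_curv : S_curv := by
  intro X _ A
  exact ⟨fun i j c h => (C6.mot X A _ h).2, fun p q θ h => (C6.mot X A _ h).2⟩

theorem t_prune : S_prune := by
  intro X _
  exact ⟨fun i j c h hK => C6.pr X _ h hK, fun p q θ h hK => C6.pr X _ h hK⟩

end Pool.Agent.H586R2.AF
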