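import Pool.Agent.H586R2.AF.Stm

set_option autoImplicit false

namespace Pool.Agent.H586R2.AF

open Real Finset

namespace C8aux

theorem rg_der {X : Dat} {A : ℕ → ℕ → Prop} {i j : ℕ} {c : ℝ} (h : Rg X A i j c) :
    Der X A (.sg i j c) := by
  induction h with
  | term i j θ h1 h2 h3 h4 h5 => exact Der.term i j θ h1 h2 h3 h4 h5
  | right i j p c θ h1 h2 h3 h4 h5 h6 h7 h8 _ ih =>
    exact Der.right i j p c θ h1 h2 h3 h4 h5 h6 h7 h8 ih
  | left i j p c θ h1 h2 h3 h4 h5 h6 h7 h8 _ ih =>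
    exact Der.left i j p c θ h1 h2 h3 h4 h5 h6 h7 h8 ih

theorem rg_lt {X : Dat} {A : ℕ → ℕ → Prop} {i j : ℕ} {c : ℝ} (h : Rg X A i j c) :
    i < j ∧ j < X.n := by
  cases h with
  | term _ _ θ h1 h2 h3 h4 h5 => exact ⟨h1, h2⟩
  | right _ _ p _ θ h1 h2 h3 h4 h5 h6 h7 h8 _ => exact ⟨by omega, h3⟩
  | left _ _ p _ θ h1 h2 h3 h4 h5 h6 h7 h8 _ => exact ⟨by omega, h3⟩

theorem cut {X : Dat} {A : ℕ → ℕ → Prop} {i j : ℕ} {c : ℝ} (h : Rg X A i j c) (K0 : ℝ)
    (hK : K0 - Kap X i j < π) :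
    (∃ i' j' : ℕ, Rg X A i' j' (X.s (i' + 1) + X.s j') ∧
      Pth X A i' j' (X.s (i' + 1) + X.s j') i j c ∧ K0 - Kap X i' j' < π) ∨
    (∃ (i' j' p : ℕ) (c' : ℝ), Rg X A i' j' c' ∧ Pth X A i' j' c' i j c ∧
      K0 - Kap X i' j' < π ∧ p < X.n ∧
      ((Rg X A p j' (c' - X.s (i' + 1) + X.s p) ∧ π ≤ K0 - Kap X p j') ∨
       (Rg X A i' p (c' - X.s j' + X.s (p + 1)) ∧ π ≤ K0 - Kap X i' p))) := by
  induction h with
  | term i j θ h1 h2 h3 h4 h5 =>
    left
    exact ⟨i, j, Rg.term i j θ h1 h2 h3 h4 h5, Pth.refl, hK⟩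
  | right i j p c θ h1 h2 h3 h4 h5 h6 h7 h8 h9 ih =>
    by_cases hp : K0 - Kap X p j < π
    · rcases ih hp with ⟨i', j', a1, a2, a3⟩ | ⟨i', j', p', c', a1, a2, a3, a4, a5⟩
      · left
        exact ⟨i', j', a1, Pth.right i j p c θ h1 h2 h3 h4 h5 h6 h7 h8 a2, a3⟩
      · right
        exact ⟨i', j', p', c', a1, Pth.right i j p c θ h1 h2 h3 h4 h5 h6 h7 h8 a2, a3, a4, a5⟩
    · right
      refine ⟨i, j, p, c, Rg.right i j p c θ h1 h2 h3 h4 h5 h6 h7 h8 h9, Pth.refl, hK,
        by omega, Or.inl ⟨h9, not_lt.mp hp⟩⟩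
  | left i j p c θ h1 h2 h3 h4 h5 h6 h7 h8 h9 ih =>
    by_cases hp : K0 - Kap X i p < π
    · rcases ih hp with ⟨i', j', a1, a2, a3⟩ | ⟨i', j', p', c', a1, a2, a3, a4, a5⟩
      · left
        exact ⟨i', j', a1, Pth.left i j p c θ h1 h2 h3 h4 h5 h6 h7 h8 a2, a3⟩
      · right
        exact ⟨i', j', p', c', a1, Pth.left i j p c θ h1 h2 h3 h4 h5 h6 h7 h8 a2, a3, a4, a5⟩
    · right
      refine ⟨i, j, p, c, Rg.left i j p c θ h1 h2 h3 h4 h5 h6 h7 h8 h9, Pth.refl, hK,
        by omega, Or.inr ⟨h9, not_lt.mp hp⟩⟩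

theorem sub_count {α : Type} (I : Finset α) (P : α → ℝ → Prop)
    (hsub : ∀ x ∈ I, ∀ c c' : ℝ, P x c → P x c' → c = c') (S : Set ℝ)
    (hS : ∀ c ∈ S, ∃ x ∈ I, P x c) : S.Finite ∧ S.ncard ≤ I.card := by
  classical
  have hch : ∀ c : S, ∃ x : I, P x.1 c.1 := by
    intro c
    obtain ⟨x, hx, hP⟩ := hS c.1 c.2
    exact ⟨⟨x, hx⟩, hP⟩
  choose f hf using hch
  have hinj : Function.Injective f := by
    intro a b hab
    apply Subtype.ext
    have h1 := hf a
    have h2 := hf b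
    rw [hab] at h1
    exact hsub _ (f b).2 _ _ h1 h2
  have hfin : Finite S := Finite.of_injective f hinj
  refine ⟨hfin, ?_⟩
  have h3 := Nat.card_le_card_of_injective f hinj
  rw [Nat.card_eq_fintype_card (α := I), Fintype.card_coe] at h3
  exact h3

theorem arith (n M : ℕ) (hM : 1 ≤ M) :
    n * n + 2 * (n * (n * n)) * M ≤ M * (n + 1) ^ 5 := by
  have h1 : n * n + 2 * (n * (n * n)) ≤ (n + 1) ^ 5 := by
    have : (n + 1) ^ 5 = (n * n + 2 * (n * (n * n))) +
      (n ^ 5 + 5 * n ^ 4 + 8 * n ^ 3 + 9 * n ^ 2 + 5 * n + 1) := by ring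
    omega
  calc n * n + 2 * (n * (n * n)) * M ≤ n * n * M + 2 * (n * (n * n)) * M :=
        Nat.add_le_add_right (Nat.le_mul_of_pos_right _ hM) _
    _ = M * (n * n + 2 * (n * (n * n))) := by ring
    _ ≤ M * (n + 1) ^ 5 := Nat.mul_le_mul_left _ h1

theorem main (h1 : S_uniq) (h2 : S_curv) (h3 : S_range) (X : Dat) (hX : X.Good) :
    ∀ m : ℕ, ∀ i j : ℕ, i < j → j < X.n → Kap X i j < m * π →
      {c | Rg X (Bd X) i j c}.Finite ∧ {c | Rg X (Bd X) i j c}.ncard ≤ (X.n + 1) ^ (5 * m) := by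
  classical
  intro m
  induction m with
  | zero =>
    intro i j _ _ hK
    have he : {c | Rg X (Bd X) i j c} = ∅ := by
      ext c
      simp only [Set.mem_ofPred_eq, Set.mem_empty_iff_false, iff_false]
      intro hc
      have := (h2 X hX (Bd X)).1 i j c (rg_der hc)
      simp only [Nat.cast_zero, zero_mul] at hK
      linarith
    rw [he]
    simp
  | succ m ih =>
    intro i j _ _ hK
    -- finsets for the inner values
    have hG : ∀ a b : ℕ, ∃ F : Finset ℝ, F.card ≤ (X.n + 1) ^ (5 * m) ∧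
        (a < b → b < X.n → Kap X a b < m * π → ∀ c, Rg X (Bd X) a b c → c ∈ F) := by
      intro a b
      by_cases hab : a < b ∧ b < X.n ∧ Kap X a b < m * π
      · obtain ⟨f1, f2⟩ := ih a b hab.1 hab.2.1 hab.2.2
        refine ⟨f1.toFinset, ?_, ?_⟩
        · rw [← Set.ncard_eq_toFinset_card _ f1]
          exact f2
        · intro _ _ _ c hc
          rw [Set.Finite.mem_toFinset]
          exact hc
      · refine ⟨∅, by simp, ?_⟩
        intro a1 a2 a3
        exact absurd ⟨a1, a2, a3⟩ hab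
    choose G hGc hGm using hG
    set Q : ℕ → ℕ → ℝ → ℝ → Prop := fun i' j' c' c => i' ≤ j' ∧ j' < X.n ∧
      X.s i' + X.s j' < c' ∧ c' < X.s (i' + 1) + X.s (j' + 1) ∧
      Pth X (Bd X) i' j' c' i j c ∧ Kap X i j - Kap X i' j' < π with hQ
    have hQs : ∀ i' j' c' c1 c2, Q i' j' c' c1 → Q i' j' c' c2 → c1 = c2 := by
      intro i' j' c' c1 c2 q1 q2
      exact h1 X hX (Bd X) i' j' c' q1.1 q1.2.1 q1.2.2.1 q1.2.2.2.1 i j c1 c2 q1.2.2.2.2.1
        q2.2.2.2.2.1 q1.2.2.2.2.2
    set I2 : Finset (Bool × ℕ × ℕ × ℕ × ℝ) :=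
      ((Finset.univ : Finset Bool) ×ˢ (range X.n ×ˢ (range X.n ×ˢ range X.n))).biUnion
        (fun y => (if y.1 then G y.2.2.2 y.2.2.1 else G y.2.1 y.2.2.2).image
          (fun c'' => (y.1, y.2.1, y.2.2.1, y.2.2.2, c''))) with hI2
    have hI2c : I2.card ≤ 2 * (X.n * (X.n * X.n)) * (X.n + 1) ^ (5 * m) := by
      have h4 := Finset.card_biUnion_le_card_mul
        ((Finset.univ : Finset Bool) ×ˢ (range X.n ×ˢ (range X.n ×ˢ range X.n)))
        (fun y => (if y.1 then G y.2.2.2 y.2.2.1 else G y.2.1 y.2.2.2).image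
          (fun c'' => (y.1, y.2.1, y.2.2.1, y.2.2.2, c''))) ((X.n + 1) ^ (5 * m)) (by
            intro y _
            refine Finset.card_image_le.trans ?_
            split_ifs
            · exact hGc _ _
            · exact hGc _ _)
      rw [Finset.card_product, Finset.card_product, Finset.card_product, Finset.card_range,
        Finset.card_univ, Fintype.card_bool] at h4
      exact h4
    set I : Finset ((ℕ × ℕ) ⊕ (Bool × ℕ × ℕ × ℕ × ℝ)) :=
      (range X.n ×ˢ range X.n).disjSum I2 with hI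
    have hIc : I.card ≤ (X.n + 1) ^ (5 * (m + 1)) := by
      rw [hI, Finset.card_disjSum, Finset.card_product, Finset.card_range]
      calc X.n * X.n + I2.card
          ≤ X.n * X.n + 2 * (X.n * (X.n * X.n)) * (X.n + 1) ^ (5 * m) :=
            Nat.add_le_add_left hI2c _
        _ ≤ (X.n + 1) ^ (5 * m) * (X.n + 1) ^ 5 := arith _ _ (Nat.one_le_pow _ _ (by omega))
        _ = (X.n + 1) ^ (5 * (m + 1)) := by ring
    set P : (ℕ × ℕ) ⊕ (Bool × ℕ × ℕ × ℕ × ℝ) → ℝ → Prop := fun x c =>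
      match x with
      | Sum.inl y => Q y.1 y.2 (X.s (y.1 + 1) + X.s y.2) c
      | Sum.inr y => Q y.2.1 y.2.2.1 (if y.1 then y.2.2.2.2 + X.s (y.2.1 + 1) - X.s y.2.2.2.1
          else y.2.2.2.2 + X.s y.2.2.1 - X.s (y.2.2.2.1 + 1)) c with hP
    have hres := sub_count I P (by
      rintro (y | y) _ c1 c2 q1 q2
      · exact hQs _ _ _ _ _ q1 q2
      · exact hQs _ _ _ _ _ q1 q2) {c | Rg X (Bd X) i j c} (by
      intro c hc
      have hc' : Rg X (Bd X) i j c := hc
      rcases cut hc' (Kap X i j) (by rw [sub_self]; exact Real.pi_pos) with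
        ⟨i', j', a1, a2, a3⟩ | ⟨i', j', p, c', a1, a2, a3, a4, a5⟩
      · obtain ⟨b1, b2, b3, b4, b5⟩ := (h3 X hX (Bd X)).1 i' j' _ (rg_der a1)
        have b6 := rg_lt a1
        refine ⟨Sum.inl (i', j'), ?_, ?_⟩
        · rw [hI, Finset.inl_mem_disjSum, Finset.mem_product, Finset.mem_range, Finset.mem_range]
          exact ⟨by omega, by omega⟩
        · exact ⟨b1, b2, b4, b5, a2, a3⟩
      · obtain ⟨b1, b2, b3, b4, b5⟩ := (h3 X hX (Bd X)).1 i' j' _ (rg_der a1)
        have b6 := rg_lt a1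
        rcases a5 with ⟨d1, d2⟩ | ⟨d1, d2⟩
        · have b7 := rg_lt d1
          refine ⟨Sum.inr (true, i', j', p, c' - X.s (i' + 1) + X.s p), ?_, ?_⟩
          · rw [hI, Finset.inr_mem_disjSum, hI2, Finset.mem_biUnion]
            refine ⟨(true, i', j', p), ?_, ?_⟩
            · simp only [Finset.mem_product, Finset.mem_univ, Finset.mem_range, true_and]
              exact ⟨by omega, by omega, by omega⟩
            · rw [Finset.mem_image]
              refine ⟨c' - X.s (i' + 1) + X.s p, ?_, rfl⟩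
              simp only [if_true]
              refine hGm p j' b7.1 b7.2 ?_ _ d1
              push_cast at hK
              linarith
          · have e : c' - X.s (i' + 1) + X.s p + X.s (i' + 1) - X.s p = c' := by ring
            simp only [hP, if_true]
            rw [e]
            exact ⟨b1, b2, b4, b5, a2, a3⟩
        · have b7 := rg_lt d1
          refine ⟨Sum.inr (false, i', j', p, c' - X.s j' + X.s (p + 1)), ?_, ?_⟩
          · rw [hI, Finset.inr_mem_disjSum, hI2, Finset.mem_biUnion]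
            refine ⟨(false, i', j', p), ?_, ?_⟩
            · simp only [Finset.mem_product, Finset.mem_univ, Finset.mem_range, true_and]
              exact ⟨by omega, by omega, by omega⟩
            · rw [Finset.mem_image]
              refine ⟨c' - X.s j' + X.s (p + 1), ?_, rfl⟩
              simp only [Bool.false_eq_true, if_false]
              refine hGm i' p b7.1 b7.2 ?_ _ d1
              push_cast at hK
              linarith
          · have e : c' - X.s j' + X.s (p + 1) + X.s j' - X.s (p + 1) = c' := by ring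
            simp only [hP, Bool.false_eq_true, if_false]
            rw [e]
            exact ⟨b1, b2, b4, b5, a2, a3⟩)
    exact ⟨hres.1, hres.2.trans hIc⟩

end C8aux

open C8aux in
theorem t_count (h1 : S_uniq) (h2 : S_curv) (h3 : S_range) : S_count := by
  intro X hX i j hij hj
  by_cases hB : Kap X i j ≤ 4 * π
  · have := main h1 h2 h3 X hX 5 i j hij hj (by
      have := Real.pi_pos
      push_cast
      linarith)
    exact this
  · have he : {c | Rg X (Bd X) i j c} = ∅ := by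
      ext c
      simp only [Set.mem_ofPred_eq, Set.mem_empty_iff_false, iff_false]
      intro hc
      obtain ⟨b1, b2, b3, b4, b5⟩ := (h3 X hX (Bd X)).1 i j _ (rg_der hc)
      exact hB b3
    rw [he]
    simp

end Pool.Agent.H586R2.AF
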