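import Pool.Agent.H586R2.AF.Model

set_option autoImplicit false

namespace Pool.Agent.H586R2.AF

theorem ev_det {p : Prog} {x y y' : D} {t t' : ℕ} (h : Ev p x y t) (h' : Ev p x y' t') :
    y = y' ∧ t = t' := by
  induction h generalizing y' t' with
  | id x => cases h'; exact ⟨rfl, rfl⟩
  | nil x => cases h'; exact ⟨rfl, rfl⟩
  | int z x => cases h'; exact ⟨rfl, rfl⟩
  | hd x => cases h'; exact ⟨rfl, rfl⟩
  | tl x => cases h'; exact ⟨rfl, rfl⟩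
  | cons h1 h2 ih1 ih2 =>
    cases h' with
    | cons k1 k2 =>
      obtain ⟨rfl, rfl⟩ := ih1 k1
      obtain ⟨rfl, rfl⟩ := ih2 k2
      exact ⟨rfl, rfl⟩
  | comp h1 h2 ih1 ih2 =>
    cases h' with
    | comp k1 k2 =>
      obtain ⟨rfl, rfl⟩ := ih1 k1
      obtain ⟨rfl, rfl⟩ := ih2 k2
      exact ⟨rfl, rfl⟩
  | add x => cases h'; exact ⟨rfl, rfl⟩
  | sub x => cases h'; exact ⟨rfl, rfl⟩
  | mul x => cases h'; exact ⟨rfl, rfl⟩
  | div x => cases h'; exact ⟨rfl, rfl⟩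
  | sqrt x => cases h'; exact ⟨rfl, rfl⟩
  | pos x => cases h'; exact ⟨rfl, rfl⟩
  | iteT h1 hd h2 ih1 ih2 =>
    cases h' with
    | iteT k1 kd k2 =>
      obtain ⟨rfl, rfl⟩ := ih1 k1
      obtain ⟨rfl, rfl⟩ := ih2 k2
      exact ⟨rfl, rfl⟩
    | iteF k1 k2 => exact absurd (ih1 k1).1 hd
  | iteF h1 h2 ih1 ih2 =>
    cases h' with
    | iteT k1 kd k2 => exact absurd (ih1 k1).1.symm kd
    | iteF k1 k2 =>
      obtain ⟨-, rfl⟩ := ih1 k1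
      obtain ⟨rfl, rfl⟩ := ih2 k2
      exact ⟨rfl, rfl⟩
  | whF h1 ih1 =>
    cases h' with
    | whF k1 =>
      obtain ⟨-, rfl⟩ := ih1 k1
      exact ⟨rfl, rfl⟩
    | whT k1 kd k2 k3 => exact absurd (ih1 k1).1.symm kd
  | whT h1 hd h2 h3 ih1 ih2 ih3 =>
    cases h' with
    | whF k1 => exact absurd (ih1 k1).1 hd
    | whT k1 kd k2 k3 =>
      obtain ⟨rfl, rfl⟩ := ih1 k1
      obtain ⟨rfl, rfl⟩ := ih2 k2
      obtain ⟨rfl, rfl⟩ := ih3 k3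
      exact ⟨rfl, rfl⟩

end Pool.Agent.H586R2.AF
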