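import Pool.Agent.H586R2.AF.Stm

/-!
# The data of a polygon
-/

set_option autoImplicit false

namespace Pool.Agent.H586R2.AF

open Real Finset

namespace G1h

lemma vtx_add (P : List (ℝ × ℝ)) (k : ℕ) : vtx P (k + P.length) = vtx P k := by
  unfold vtx
  rw [Nat.add_mod_right]

lemma ico_nonneg (t : ℝ) (h1 : 0 ≤ t) (h2 : t ≤ π) : toIcoMod Real.two_pi_pos 0 t = t := by
  rw [toIcoMod_eq_self]
  exact ⟨h1, by have := Real.pi_pos; linarith⟩

lemma ico_neg (t : ℝ) (h1 : -π < t) (h2 : t < 0) :
    toIcoMod Real.two_pi_pos 0 t = t + 2 * π := by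
  rw [← toIcoMod_add_right Real.two_pi_pos, toIcoMod_eq_self]
  have := Real.pi_pos
  exact ⟨by linarith, by linarith⟩

lemma int_mem (P : List (ℝ × ℝ)) (k : ℕ) : 0 ≤ intAngle P k ∧ intAngle P k < 2 * π := by
  have h := toIcoMod_mem_Ico Real.two_pi_pos 0 (Complex.arg ((vtx P (k + (P.length - 1)) - vtx P k) /
    (vtx P (k + 1) - vtx P k)))
  rw [zero_add] at h
  exact h

lemma cos_int (P : List (ℝ × ℝ)) (k : ℕ) : Real.cos (intAngle P k) =
    Real.cos (Complex.arg ((vtx P (k + (P.length - 1)) - vtx P k) /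
    (vtx P (k + 1) - vtx P k))) := by
  unfold intAngle
  rw [toIcoMod, zsmul_eq_mul, Real.cos_sub_int_mul_two_pi]

lemma sin_int (P : List (ℝ × ℝ)) (k : ℕ) : Real.sin (intAngle P k) =
    Real.sin (Complex.arg ((vtx P (k + (P.length - 1)) - vtx P k) /
    (vtx P (k + 1) - vtx P k))) := by
  unfold intAngle
  rw [toIcoMod, zsmul_eq_mul, Real.sin_sub_int_mul_two_pi]

lemma w_ne {P : List (ℝ × ℝ)} (h : IsPolygon P) (k : ℕ) : vtx P (k + 1) - vtx P k ≠ 0 :=
  sub_ne_zero.mpr (h.ne k).symm

lemma prev_succ {P : List (ℝ × ℝ)} (h : IsPolygon P) (k : ℕ) :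
    vtx P (k + (P.length - 1) + 1) = vtx P k := by
  have := h.three
  have e : k + (P.length - 1) + 1 = k + P.length := by omega
  rw [e, vtx_add]

lemma prev_succ2 {P : List (ℝ × ℝ)} (h : IsPolygon P) (k : ℕ) :
    vtx P (k + (P.length - 1) + 2) = vtx P (k + 1) := by
  have := h.three
  have e : k + (P.length - 1) + 2 = (k + 1) + P.length := by omega
  rw [e, vtx_add]

lemma u_ne {P : List (ℝ × ℝ)} (h : IsPolygon P) (k : ℕ) :
    vtx P (k + (P.length - 1)) - vtx P k ≠ 0 := by
  have h1 := h.ne (k + (P.length - 1))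
  rw [prev_succ h] at h1
  exact sub_ne_zero.mpr h1

lemma int_pos {P : List (ℝ × ℝ)} (h : IsPolygon P) (k : ℕ) : 0 < intAngle P k := by
  rcases (int_mem P k).1.lt_or_eq with h0 | h0
  · exact h0
  exfalso
  set u := vtx P (k + (P.length - 1)) - vtx P k with hu
  set w := vtx P (k + 1) - vtx P k with hw
  have hu0 : u ≠ 0 := u_ne h k
  have hw0 : w ≠ 0 := w_ne h k
  have harg : Complex.arg (u / w) = 0 := by
    have h1 : toIcoMod Real.two_pi_pos 0 (Complex.arg (u / w)) = 0 := h0.symm
    rcases lt_or_ge (Complex.arg (u / w)) 0 with h2 | h2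
    · rw [ico_neg _ (Complex.neg_pi_lt_arg _) h2] at h1
      have := Complex.neg_pi_lt_arg (u / w)
      have := Real.pi_pos
      linarith
    · rw [ico_nonneg _ h2 (Complex.arg_le_pi _)] at h1
      exact h1
  obtain ⟨h1, h2⟩ := Complex.arg_eq_zero_iff.mp harg
  set r := (u / w).re with hr
  have huw : u / w = (r : ℂ) := Complex.ext rfl h2
  have hur : u = (r : ℂ) * w := by
    rw [← huw, div_mul_cancel₀ _ hw0]
  have hr0 : 0 < r := by
    rcases h1.lt_or_eq with h3 | h3
    · exact h3
    · exfalso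
      apply hu0
      rw [hur, ← h3]; simp
  set t := min 1 r with ht
  have ht0 : 0 < t := lt_min one_pos hr0
  have ht1 : t ≤ 1 := min_le_left _ _
  have htr : t ≤ r := min_le_right _ _
  have hadj := h.adj (k + (P.length - 1))
  rw [prev_succ h, prev_succ2 h] at hadj
  have hmem : vtx P k + (t : ℂ) * w ∈ segment ℝ (vtx P (k + (P.length - 1))) (vtx P k) ∩
      segment ℝ (vtx P k) (vtx P (k + 1)) := by
    refine ⟨?_, ?_⟩
    · rw [segment_symm, segment_eq_image']
      refine ⟨t / r, ⟨by positivity, (div_le_one hr0).mpr htr⟩, ?_⟩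
      show vtx P k + (t / r) • (vtx P (k + (P.length - 1)) - vtx P k) = _
      rw [← hu, hur, Complex.real_smul]
      have : (r : ℂ) ≠ 0 := by exact_mod_cast hr0.ne'
      push_cast
      field_simp
    · rw [segment_eq_image']
      refine ⟨t, ⟨ht0.le, ht1⟩, ?_⟩
      show vtx P k + t • (vtx P (k + 1) - vtx P k) = _
      rw [Complex.real_smul]
  rw [hadj, Set.mem_singleton_iff] at hmem
  have h3 : (t : ℂ) * w = 0 := by linear_combination hmem
  rcases mul_eq_zero.mp h3 with h4 | h4
  · exact ht0.ne' (by exact_mod_cast h4)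
  · exact hw0 h4

lemma ang_code (γ : ℝ) (h0 : 0 ≤ γ) (h1 : γ < 2 * π) :
    AngOK (angNorm 0 (Real.cos γ) (Real.sin γ)) γ := by
  have hpi := Real.pi_pos
  unfold angNorm
  split_ifs with h
  · refine ⟨γ, h0, ?_, by simp, rfl, rfl⟩
    by_contra hge
    push Not at hge
    have h2 : Real.sin γ ≤ 0 := by
      have h3 : 0 ≤ Real.sin (γ - π) := Real.sin_nonneg_of_nonneg_of_le_pi (by linarith) (by linarith)
      rw [Real.sin_sub_pi] at h3
      linarith
    rcases h with h | ⟨h, h'⟩
    · linarith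
    · rcases hge.lt_or_eq with h3 | h3
      · have h4 : 0 < Real.sin (γ - π) := Real.sin_pos_of_pos_of_lt_pi (by linarith) (by linarith)
        rw [Real.sin_sub_pi] at h4
        linarith
      · rw [← h3, Real.cos_pi] at h'
        linarith
  · push Not at h
    obtain ⟨h2, h3⟩ := h
    have hge : π ≤ γ := by
      by_contra hlt
      push Not at hlt
      rcases h0.lt_or_eq with h4 | h4
      · have := Real.sin_pos_of_pos_of_lt_pi h4 hlt
        linarith
      · rw [← h4] at h3
        have := h3 Real.sin_zero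
        rw [Real.cos_zero] at this
        linarith
    refine ⟨γ - π, by linarith, by linarith, ?_, ?_, ?_⟩
    · simp
    · show -Real.cos γ = _
      rw [Real.cos_sub_pi]
    · show -Real.sin γ = _
      rw [Real.sin_sub_pi]

lemma getD_eq_vtx (P : List (ℝ × ℝ)) (k : ℕ) (hk : k < P.length) :
    (P.getD k (0, 0)).1 = (vtx P k).re ∧ (P.getD k (0, 0)).2 = (vtx P k).im := by
  unfold vtx
  rw [Nat.mod_eq_of_lt hk]
  exact ⟨rfl, rfl⟩

lemma nxt_eq_vtx (P : List (ℝ × ℝ)) (k : ℕ) (hk : k < P.length) :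
    (nxt P k).1 = (vtx P (k + 1)).re ∧ (nxt P k).2 = (vtx P (k + 1)).im := by
  rcases Nat.lt_or_ge (k + 1) P.length with h | h
  · have h1 : nxt P k = P.getD (k + 1) (0, 0) := by
      unfold nxt
      rw [List.getD_eq_getElem _ _ h, List.getD_eq_getElem _ _ h]
    rw [h1]
    exact getD_eq_vtx P (k + 1) h
  · have h2 : k + 1 = P.length := by omega
    have h1 : nxt P k = P.getD 0 (0, 0) := by
      unfold nxt
      rw [List.getD_eq_default _ _ h]
    have h3 : vtx P (k + 1) = vtx P 0 := by
      rw [h2]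
      have := vtx_add P 0
      rw [zero_add] at this
      exact this
    rw [h1, h3]
    exact getD_eq_vtx P 0 (by omega)

lemma prv_eq_vtx (P : List (ℝ × ℝ)) (k : ℕ) (hk : k < P.length) :
    (prv P k).1 = (vtx P (k + (P.length - 1))).re ∧
      (prv P k).2 = (vtx P (k + (P.length - 1))).im := by
  unfold prv
  split_ifs with h
  · subst h
    rw [zero_add]
    exact getD_eq_vtx P _ (by omega)
  · have h3 : vtx P (k + (P.length - 1)) = vtx P (k - 1) := by
      rw [← vtx_add P (k - 1)]
      congr 1; omega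
    rw [h3]
    exact getD_eq_vtx P _ (by omega)

lemma vlen_eq (z : ℂ) : vlen z.re z.im = ‖z‖ := by
  unfold vlen
  rw [Complex.norm_def, Complex.normSq_apply]

lemma elen_eq (P : List (ℝ × ℝ)) (k : ℕ) (hk : k < P.length) :
    elen P k = ‖vtx P (k + 1) - vtx P k‖ := by
  unfold elen
  rw [← vlen_eq, (nxt_eq_vtx P k hk).1, (nxt_eq_vtx P k hk).2, (getD_eq_vtx P k hk).1,
    (getD_eq_vtx P k hk).2, Complex.sub_re, Complex.sub_im]

lemma posL_aux (P : List (ℝ × ℝ)) (m : ℕ) (hm : m ≤ P.length) :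
    (List.range m).foldl (fun (acc : ℝ × List ℝ) k =>
      (acc.1 + elen P k, acc.2 ++ [acc.1 + elen P k])) (0, [0]) =
      (spos P m, (List.range (m + 1)).map (spos P)) := by
  induction m with
  | zero => simp [spos]
  | succ m ih =>
    rw [List.range_succ, List.foldl_append, ih (by omega)]
    simp only [List.foldl_cons, List.foldl_nil]
    have h1 : spos P m + elen P m = spos P (m + 1) := by
      rw [elen_eq P m (by omega)]
      unfold spos
      rw [Finset.sum_range_succ]
    rw [h1, List.range_succ (n := m + 1), List.map_append]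
    simp

lemma posL_getD (P : List (ℝ × ℝ)) (k : ℕ) (hk : k ≤ P.length) :
    (posL P).getD k 0 = spos P k := by
  unfold posL
  rw [posL_aux P P.length le_rfl]
  simp only
  rw [List.getD_eq_getElem _ _ (by simp; omega)]
  simp

lemma cos_arg_div (u w : ℂ) (hu : u ≠ 0) (hw : w ≠ 0) :
    Real.cos (Complex.arg (u / w)) = (w.re * u.re + w.im * u.im) / (‖w‖ * ‖u‖) := by
  have hu' : ‖u‖ ≠ 0 := norm_ne_zero_iff.mpr hu
  have hw' : ‖w‖ ≠ 0 := norm_ne_zero_iff.mpr hw
  rw [Complex.cos_arg (div_ne_zero hu hw), Complex.div_re, norm_div]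
  have h1 : Complex.normSq w = ‖w‖ * ‖w‖ := by
    rw [← sq, Complex.sq_norm]
  rw [h1]
  field_simp

lemma sin_arg_div (u w : ℂ) (hu : u ≠ 0) (hw : w ≠ 0) :
    Real.sin (Complex.arg (u / w)) = (w.re * u.im - w.im * u.re) / (‖w‖ * ‖u‖) := by
  have hu' : ‖u‖ ≠ 0 := norm_ne_zero_iff.mpr hu
  have hw' : ‖w‖ ≠ 0 := norm_ne_zero_iff.mpr hw
  rw [Complex.sin_arg, Complex.div_im, norm_div]
  have h1 : Complex.normSq w = ‖w‖ * ‖w‖ := by
    rw [← sq, Complex.sq_norm]
  rw [h1]
  field_simp

lemma angC_ok {P : List (ℝ × ℝ)} (h : IsPolygon P) (k : ℕ) (hk : k < P.length) :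
    AngOK (angC P k) (intAngle P k) := by
  have h1 := ang_code (intAngle P k) (int_mem P k).1 (int_mem P k).2
  rw [cos_int, sin_int, cos_arg_div _ _ (u_ne h k) (w_ne h k),
    sin_arg_div _ _ (u_ne h k) (w_ne h k)] at h1
  unfold angC
  simp only
  rw [(nxt_eq_vtx P k hk).1, (nxt_eq_vtx P k hk).2, (getD_eq_vtx P k hk).1,
    (getD_eq_vtx P k hk).2, (prv_eq_vtx P k hk).1, (prv_eq_vtx P k hk).2]
  rw [← Complex.sub_re, ← Complex.sub_im, ← Complex.sub_re, ← Complex.sub_im, vlen_eq, vlen_eq]
  exact h1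

end G1h

open G1h

theorem t_datGood : S_datGood := by
  intro P h
  have hn := h.three
  refine ⟨h.three, ?_, ?_, ?_, ?_, ?_, ?_⟩
  · show spos P 0 = 0
    simp [spos]
  · intro k _
    show spos P k < spos P (k + 1)
    unfold spos
    rw [Finset.sum_range_succ]
    have := norm_pos_iff.mpr (w_ne h k)
    linarith
  · intro k hk
    show 0 < (if k < P.length then intAngle P k else 0)
    have hk' : k < P.length := hk
    rw [if_pos hk']
    exact int_pos h k
  · intro k hk
    show (if k < P.length then intAngle P k else 0) < 2 * π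
    have hk' : k < P.length := hk
    rw [if_pos hk']
    exact (int_mem P k).2
  · show (if P.length < P.length then intAngle P P.length else 0) = 0
    rw [if_neg (lt_irrefl _)]
  · show ∑ k ∈ range P.length, (π - if k < P.length then intAngle P k else 0) = 2 * π
    rw [← h.ccw]
    refine Finset.sum_congr rfl fun k hk => ?_
    rw [if_pos (Finset.mem_range.mp hk)]

theorem t_input : S_input := by
  intro P h
  refine ⟨fun k hk => posL_getD P k hk, ?_⟩
  intro k hk
  have hk' : k ≤ P.length := hk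
  show AngOK ((angL P).getD k ang0) (if k < P.length then intAngle P k else 0)
  unfold angL
  rcases hk'.lt_or_eq with h1 | h1
  · rw [if_pos h1, List.getD_append _ _ _ _ (by simpa using h1)]
    rw [List.getD_eq_getElem _ _ (by simpa using h1)]
    simp only [List.getElem_map, List.getElem_range]
    exact angC_ok h k h1
  · subst h1
    rw [if_neg (lt_irrefl _), List.getD_append_right _ _ _ _ (by simp)]
    simp only [List.length_map, List.length_range, Nat.sub_self, List.getD_cons_zero]
    exact ⟨0, le_refl _, Real.pi_pos, by simp [ang0], by simp [ang0], by simp [ang0]⟩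

end Pool.Agent.H586R2.AF
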