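import Pool.Agent.H586R2.AF.Stm

/-!
# Euler characteristic 2 iff the matching is non-crossing
-/

set_option autoImplicit false

namespace Pool.Agent.H586R2.AF

namespace G2

open Equiv.Perm Finset

/-- the permutation `k ↦ m k + 1` -/
def rh {n : ℕ} (m : Equiv.Perm (Fin n)) : Equiv.Perm (Fin n) := m.trans (finRotate n)

/-- the classes -/
abbrev V {n : ℕ} (m : Equiv.Perm (Fin n)) := Quotient (SameCycle.setoid (rh m))

/-- the class of `k` -/
def cl {n : ℕ} (m : Equiv.Perm (Fin n)) (k : Fin n) : V m := Quotient.mk (SameCycle.setoid (rh m)) k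

lemma cl_eq {n : ℕ} (m : Equiv.Perm (Fin n)) (k l : Fin n) :
    cl m k = cl m l ↔ SameCycle (rh m) k l := by
  unfold cl
  rw [Quotient.eq]
  rfl

lemma cl_rot {n : ℕ} (m : Equiv.Perm (Fin n)) (hm : ∀ k, m (m k) = k) (k : Fin n) :
    cl m (m k) = cl m (finRotate n k) := by
  rw [cl_eq]
  have h : rh m (m k) = finRotate n k := by
    simp [rh, hm]
  exact ⟨1, by simpa using h⟩

/-- the graph of classes, with an edge for every chord in `T` -/
def Gr {n : ℕ} (m : Equiv.Perm (Fin n)) (hm : ∀ k, m (m k) = k) (T : Set (Fin n))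
    (hT : ∀ k ∈ T, m k ∈ T) : SimpleGraph (V m) where
  Adj u v := u ≠ v ∧ ∃ k ∈ T, cl m k = u ∧ cl m (m k) = v
  symm := ⟨by
    rintro u v ⟨h, k, hk, h1, h2⟩
    exact ⟨h.symm, m k, hT k hk, h2, by rw [hm]; exact h1⟩⟩
  loopless := ⟨by
    rintro u ⟨h, -⟩
    exact h rfl⟩

section

variable {n : ℕ} (m : Equiv.Perm (Fin (n + 1))) (hm : ∀ k, m (m k) = k) (T : Set (Fin (n + 1)))
  (hT : ∀ k ∈ T, m k ∈ T)

include hT in
lemma reach_chord (k : Fin (n + 1)) (hk : k ∈ T) :
    (Gr m hm T hT).Reachable (cl m k) (cl m (m k)) := by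
  by_cases h : cl m k = cl m (m k)
  · rw [← h]
  · exact SimpleGraph.Adj.reachable ⟨h, k, hk, rfl, rfl⟩

include hT in
lemma reach_step (k : Fin (n + 1)) (hk : k ∈ T) :
    (Gr m hm T hT).Reachable (cl m k) (cl m (finRotate (n + 1) k)) := by
  rw [← cl_rot m hm]
  exact reach_chord m hm T hT k hk

lemma reach_walk (d : ℕ) : ∀ a b : Fin (n + 1), (b : ℕ) = a + d →
    (∀ k : Fin (n + 1), a ≤ k → k < b → k ∈ T) →
    (Gr m hm T hT).Reachable (cl m a) (cl m b) := by
  induction d with
  | zero =>
    intro a b h _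
    have : a = b := Fin.ext (by simpa using h.symm)
    rw [this]
  | succ d ih =>
    intro a b h hab
    have hbl : (a : ℕ) + d < n + 1 := by have := b.2; omega
    have h1 := ih a ⟨a + d, hbl⟩ rfl (by
      intro k h1 h2
      refine hab k h1 ?_
      rw [Fin.lt_def] at h2 ⊢
      simp only at h2
      omega)
    have h2 := reach_step m hm T hT ⟨a + d, hbl⟩ (hab _ (by rw [Fin.le_def]; simp)
      (by rw [Fin.lt_def]; simp only; omega))
    have h3 : finRotate (n + 1) ⟨a + d, hbl⟩ = b := by
      have hlt : (a : ℕ) + d < n := by have := b.2; omega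
      rw [finRotate_of_lt hlt]
      exact Fin.ext (by simp only; omega)
    rw [h3] at h2
    exact h1.trans h2

lemma reach_le (a b : Fin (n + 1)) (hab : a ≤ b)
    (h : ∀ k : Fin (n + 1), a ≤ k → k < b → k ∈ T) :
    (Gr m hm T hT).Reachable (cl m a) (cl m b) :=
  reach_walk m hm T hT (b - a) a b (by rw [Fin.le_def] at hab; omega) h

lemma reach_wrap (a b : Fin (n + 1))
    (h1 : ∀ k : Fin (n + 1), a ≤ k → k ∈ T) (h2 : ∀ k : Fin (n + 1), k < b → k ∈ T) :
    (Gr m hm T hT).Reachable (cl m a) (cl m b) := by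
  have e1 := reach_le m hm T hT a (Fin.last n) (Fin.le_last a) (fun k hk _ => h1 k hk)
  have e2 := reach_step m hm T hT (Fin.last n) (h1 _ (Fin.le_last a))
  rw [finRotate_last] at e2
  have e3 := reach_le m hm T hT 0 b (Fin.zero_le _) (fun k _ hk => h2 k hk)
  exact (e1.trans e2).trans e3

/-- the graph is connected as soon as consecutive classes are connected -/
lemma conn (h : ∀ k : Fin (n + 1), (Gr m hm T hT).Reachable (cl m k) (cl m (finRotate (n + 1) k))) :
    (Gr m hm T hT).Connected := by
  have h0 : ∀ d : ℕ, ∀ hd : d < n + 1, (Gr m hm T hT).Reachable (cl m 0) (cl m ⟨d, hd⟩) := by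
    intro d
    induction d with
    | zero => intro hd; exact SimpleGraph.Reachable.refl _
    | succ d ih =>
      intro hd
      have h1 := ih (by omega)
      have h2 := h ⟨d, by omega⟩
      rw [finRotate_of_lt (by omega : d < n)] at h2
      exact h1.trans h2
  have h00 : ∀ v : V m, (Gr m hm T hT).Reachable (cl m 0) v := by
    intro v
    induction v using Quotient.inductionOn with
    | h k => exact h0 k.1 k.2
  have : Nonempty (V m) := ⟨cl m 0⟩
  exact ⟨fun u v => (h00 u).symm.trans (h00 v)⟩

open Classical in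
lemma card_edges : Nat.card (Gr m hm T hT).edgeSet ≤
    (univ.filter (fun k : Fin (n + 1) => k < m k ∧ k ∈ T)).card := by
  have hsub : (Gr m hm T hT).edgeSet ⊆
      (((univ.filter (fun k : Fin (n + 1) => k < m k ∧ k ∈ T)).image
        (fun k => s(cl m k, cl m (m k))) : Finset (Sym2 (V m))) : Set (Sym2 (V m))) := by
    intro e
    induction e using Sym2.ind with
    | _ u v =>
      rintro ⟨huv, k, hk, h1, h2⟩
      have hne : k ≠ m k := by
        intro h
        rw [← h] at h2
        exact huv (h1.symm.trans h2)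
      simp only [coe_image, Set.mem_image, mem_coe, mem_filter, mem_univ, true_and]
      rcases lt_or_gt_of_ne hne with h | h
      · exact ⟨k, ⟨h, hk⟩, by rw [h1, h2]⟩
      · refine ⟨m k, ⟨by rw [hm]; exact h, hT k hk⟩, ?_⟩
        rw [hm, h1, h2, Sym2.eq_swap]
  calc Nat.card (Gr m hm T hT).edgeSet = (Gr m hm T hT).edgeSet.ncard := rfl
    _ ≤ _ := Set.ncard_le_ncard hsub (Finset.finite_toSet _)
    _ = _ := Set.ncard_coe_finset _
    _ ≤ _ := card_image_le

end

lemma card_left {n N : ℕ} (hn : n = 2 * N) (m : Equiv.Perm (Fin n)) (hm : ∀ k, m (m k) = k)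
    (hne : ∀ k, m k ≠ k) : (univ.filter (fun k : Fin n => k < m k)).card = N := by
  classical
  have h1 : (univ.filter (fun k : Fin n => ¬ k < m k)).card =
      (univ.filter (fun k : Fin n => k < m k)).card := by
    refine card_bij (fun k _ => m k) ?_ ?_ ?_
    · intro k hk
      simp only [mem_filter, mem_univ, true_and, not_lt] at hk ⊢
      rw [hm]
      exact lt_of_le_of_ne hk (hne k)
    · intro a _ b _ h
      exact m.injective h
    · intro b hb
      simp only [mem_filter, mem_univ, true_and] at hb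
      refine ⟨m b, ?_, hm b⟩
      simp only [mem_filter, mem_univ, true_and, not_lt]
      rw [hm]
      exact hb.le
  have h2 := card_filter_add_card_filter_not (s := (univ : Finset (Fin n))) (fun k => k < m k)
  rw [card_univ, Fintype.card_fin] at h2
  omega

section main

variable {n : ℕ} (m : Equiv.Perm (Fin (n + 1))) (hm : ∀ k, m (m k) = k) (hne : ∀ k, m k ≠ k)

include hm in
lemma upper : Nat.card (V m) ≤ (univ.filter (fun k : Fin (n + 1) => k < m k)).card + 1 := by
  classical
  have hc := conn m hm Set.univ (fun _ _ => trivial) (fun k => reach_step m hm _ _ k trivial)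
  have h1 := hc.card_vert_le_card_edgeSet_add_one
  have h2 := card_edges m hm Set.univ (fun _ _ => trivial)
  simp only [Set.mem_univ, and_true] at h2
  exact h1.trans (by gcongr)

include hm in
lemma upper_cr (x l : Fin (n + 1)) (h1 : x < l) (h2 : l < m x) (h3 : m x < m l) :
    Nat.card (V m) ≤ (univ.filter (fun k : Fin (n + 1) => k < m k)).card := by
  classical
  set T : Set (Fin (n + 1)) := {k | k ≠ x ∧ k ≠ m x} with hTd
  have hT : ∀ k ∈ T, m k ∈ T := by
    rintro k ⟨h1, h2⟩
    refine ⟨fun h => h2 ?_, fun h => h1 (m.injective h)⟩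
    rw [← h, hm]
  have hxm : x < m x := h1.trans h2
  -- the class of `x + 1` and the class of `x`
  have hxn : x ≠ Fin.last n := fun h => by
    rw [h] at hxm
    exact absurd hxm (not_lt.2 (Fin.le_last _))
  have hrx : (finRotate (n + 1) x : ℕ) = x + 1 := coe_finRotate_of_ne_last hxn
  have key : (Gr m hm T hT).Reachable (cl m x) (cl m (finRotate (n + 1) x)) := by
    refine SimpleGraph.Reachable.symm ?_
    have e1 := reach_le m hm T hT (finRotate (n + 1) x) l
      (by rw [Fin.le_def, hrx]; rw [Fin.lt_def] at h1; omega) (by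
        intro k hk1 hk2
        rw [Fin.le_def, hrx] at hk1
        refine ⟨fun h => ?_, fun h => ?_⟩
        · rw [h] at hk1; omega
        · rw [h] at hk2
          exact absurd (hk2.trans h2) (lt_irrefl _))
    have e2 := reach_chord m hm T hT l ⟨h1.ne', h2.ne⟩
    have e3 := reach_wrap m hm T hT (m l) x (by
      intro k hk
      exact ⟨(lt_of_lt_of_le (hxm.trans h3) hk).ne', (lt_of_lt_of_le h3 hk).ne'⟩) (by
      intro k hk
      exact ⟨hk.ne, (hk.trans hxm).ne⟩)
    exact (e1.trans e2).trans e3
  have hc : (Gr m hm T hT).Connected := by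
    refine conn m hm T hT ?_
    intro k
    by_cases hk : k ∈ T
    · exact reach_step m hm T hT k hk
    · by_cases hkx : k = x
      · rw [hkx]; exact key
      · have hk2 : k = m x := by
          by_contra h
          exact hk ⟨hkx, h⟩
        have e1 : cl m k = cl m (finRotate (n + 1) x) := by
          rw [hk2, cl_rot m hm]
        have e2 : cl m (finRotate (n + 1) k) = cl m x := by
          rw [← cl_rot m hm, hk2, hm]
        rw [e1, e2]
        exact key.symm
  have h4 := hc.card_vert_le_card_edgeSet_add_one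
  have h5 : Nat.card (Gr m hm T hT).edgeSet ≤
      (univ.filter (fun k : Fin (n + 1) => k < m k ∧ k ∈ T)).card := by
    convert card_edges m hm T hT
  have h6 : (univ.filter (fun k : Fin (n + 1) => k < m k ∧ k ∈ T)).card <
      (univ.filter (fun k : Fin (n + 1) => k < m k)).card := by
    refine card_lt_card ?_
    rw [ssubset_iff_of_subset]
    · refine ⟨x, by simpa using hxm, ?_⟩
      simp [hTd]
    · intro k hk
      simp only [mem_filter, mem_univ, true_and] at hk ⊢
      exact hk.1
  omega

include hm in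
/-- the side of a point with respect to a chord is invariant -/
lemma side_inv (hnc : ∀ k l : Fin (n + 1), k < l → l < m k → m k < m l → False)
    (x : Fin (n + 1)) (hx : x < m x) (a : Fin (n + 1)) :
    (x < rh m a ∧ rh m a ≤ m x) ↔ (x < a ∧ a ≤ m x) := by
  have hr : (rh m a : ℕ) = if m a = Fin.last n then (0 : ℕ) else (m a : ℕ) + 1 := by
    have := coe_finRotate (m a)
    simpa [rh] using this
  have hl : m a = Fin.last n ↔ (m a : ℕ) = n := by
    rw [Fin.ext_iff]; rfl
  have hxn := (m x).2
  have han := (m a).2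
  rw [Fin.lt_def, Fin.lt_def, Fin.le_def, Fin.le_def, hr]
  rw [Fin.lt_def] at hx
  by_cases hax : a = x
  · subst hax
    split_ifs with h <;> [skip; skip] <;> omega
  by_cases hax2 : a = m x
  · subst hax2
    rw [hm] at *
    have h0 : (x : ℕ) ≠ n := by omega
    have h1 : ¬ (x = Fin.last n) := by
      intro h
      apply h0
      rw [h]; rfl
    rw [if_neg h1]
    omega
  have h1 : (a : ℕ) ≠ x := fun h => hax (Fin.ext h)
  have h2 : (a : ℕ) ≠ m x := fun h => hax2 (Fin.ext h)
  have h3 : (m a : ℕ) ≠ x := by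
    intro h
    apply hax2
    rw [← (Fin.ext h : m a = x), hm]
  have h4 : (m a : ℕ) ≠ m x := by
    intro h
    exact hax (m.injective (Fin.ext h))
  -- non-crossing
  have c1 : ¬ ((x : ℕ) < a ∧ (a : ℕ) < m x ∧ (m x : ℕ) < m a) :=
    fun h => hnc x a h.1 h.2.1 h.2.2
  have c2 : ¬ ((a : ℕ) < x ∧ (x : ℕ) < m a ∧ (m a : ℕ) < m x) :=
    fun h => hnc a x h.1 h.2.1 h.2.2
  have c3 : ¬ ((x : ℕ) < m a ∧ (m a : ℕ) < m x ∧ (m x : ℕ) < a) :=
    fun h => hnc x (m a) h.1 h.2.1 (by rw [hm]; exact h.2.2)
  have c4 : ¬ ((m a : ℕ) < x ∧ (x : ℕ) < a ∧ (a : ℕ) < m x) :=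
    fun h => hnc (m a) x h.1 (by rw [hm]; exact h.2.1) (by rw [hm]; exact h.2.2)
  split_ifs with h
  · rw [hl] at h
    omega
  · rw [hl] at h
    omega

include hm in
lemma side_same (hnc : ∀ k l : Fin (n + 1), k < l → l < m k → m k < m l → False)
    (x : Fin (n + 1)) (hx : x < m x) (a b : Fin (n + 1)) (h : cl m a = cl m b) :
    (x < a ∧ a ≤ m x) ↔ (x < b ∧ b ≤ m x) := by
  rw [cl_eq] at h
  obtain ⟨i, -, -, hi⟩ := h.exists_pow_eq''
  have : ∀ j : ℕ, (x < ((rh m) ^ j) a ∧ ((rh m) ^ j) a ≤ m x) ↔ (x < a ∧ a ≤ m x) := by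
    intro j
    induction j with
    | zero => simp
    | succ j ih =>
      rw [pow_succ', Equiv.Perm.mul_apply, side_inv m hm hnc x hx, ih]
  rw [← hi]
  exact (this i).symm

include hm in
lemma lower (hnc : ∀ k l : Fin (n + 1), k < l → l < m k → m k < m l → False) :
    (univ.filter (fun k : Fin (n + 1) => k < m k)).card + 1 ≤ Nat.card (V m) := by
  classical
  set A := univ.filter (fun k : Fin (n + 1) => k < m k) with hA
  have hAm : ∀ x : A, (x : Fin (n + 1)) < m x := by
    intro x
    exact (mem_filter.1 x.2).2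
  have hAr : ∀ x : A, (finRotate (n + 1) (x : Fin (n + 1)) : ℕ) = (x : Fin (n + 1)) + 1 := by
    intro x
    refine coe_finRotate_of_ne_last (fun h => ?_)
    have := hAm x
    rw [h] at this
    exact absurd this (not_lt.2 (Fin.le_last _))
  let F : Option A → V m := fun o => match o with
    | none => cl m 0
    | some x => cl m (finRotate (n + 1) x)
  have hself : ∀ x : A, (x : Fin (n + 1)) < finRotate (n + 1) (x : Fin (n + 1)) ∧
      finRotate (n + 1) (x : Fin (n + 1)) ≤ m x := by
    intro x
    have h1 := hAm x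
    rw [Fin.lt_def] at h1
    rw [Fin.lt_def, Fin.le_def, hAr]
    omega
  have hnone : ∀ x : A, cl m 0 ≠ cl m (finRotate (n + 1) (x : Fin (n + 1))) := by
    intro x h
    have := (side_same m hm hnc x (hAm x) _ _ h).2 (hself x)
    exact absurd this.1 (not_lt.2 (Fin.zero_le _))
  have hlt : ∀ x y : A, (x : Fin (n + 1)) < y →
      cl m (finRotate (n + 1) (x : Fin (n + 1))) ≠ cl m (finRotate (n + 1) (y : Fin (n + 1))) := by
    intro x y hxy h
    have := (side_same m hm hnc y (hAm y) _ _ h).2 (hself y)
    have h1 := this.1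
    rw [Fin.lt_def, hAr] at h1
    rw [Fin.lt_def] at hxy
    omega
  have hF : Function.Injective F := by
    intro a b hab
    rcases a with _ | x <;> rcases b with _ | y
    · rfl
    · exact absurd hab (hnone y)
    · exact absurd hab.symm (hnone x)
    · have : (x : Fin (n + 1)) = y := by
        rcases lt_trichotomy (x : Fin (n + 1)) (y : Fin (n + 1)) with h | h | h
        · exact absurd hab (hlt x y h)
        · exact h
        · exact absurd hab.symm (hlt y x h)
      rw [Subtype.ext this]
  have := Nat.card_le_card_of_injective F hF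
  rw [Nat.card_eq_fintype_card, Fintype.card_option, Fintype.card_coe] at this
  exact this

end main

end G2

open G2 in
theorem t_sphere : S_sphere := by
  classical
  intro P N G hN
  have key : ∀ (n : ℕ) (m : Equiv.Perm (Fin n)), n = 2 * N → (∀ k, m (m k) = k) →
      (∀ k, m k ≠ k) → (Nat.card (V m) = N + 1 ↔
        ∀ k l : Fin n, k < l → l < m k → m k < m l → False) := by
    intro n m hn hm hne
    have hc := card_left hn m hm hne
    obtain ⟨n', rfl⟩ : ∃ n', n = n' + 1 := ⟨n - 1, by omega⟩
    constructor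
    · intro h k l h1 h2 h3
      have := upper_cr m hm k l h1 h2 h3
      omega
    · intro hnc
      have h1 := lower m hm hnc
      have h2 := upper m hm
      omega
  have h := key (2 * N) G.m rfl G.m_invol G.m_ne
  have e : (Fintype.card (Quotient (Equiv.Perm.SameCycle.setoid G.rho)) : ℤ) =
      (Nat.card (V G.m) : ℤ) := by
    rw [Nat.card_eq_fintype_card]
    rfl
  unfold Gluing.Sphere NonCr
  rw [← h]
  constructor
  · intro h'
    have : (Nat.card (V G.m) : ℤ) - N + 1 = 2 := by
      rw [← e]
      convert h'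
    omega
  · intro h'
    have : (Nat.card (V G.m) : ℤ) - N + 1 = 2 := by
      rw [h']; push_cast; ring
    rw [← e] at this
    convert this

end Pool.Agent.H586R2.AF
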