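import Pool.Agent.H586R2.AF.Stm

/-!
# From derivations to gluings
-/

set_option autoImplicit false

namespace Pool.Agent.H586R2.AF

open Real Finset

namespace G4

/-- an arc from `x` to `y` cut into `2 N` segments which are matched without crossings; `T` is the
set of the cut points identified with the ends, with angle sum `θ` -/
structure Glu (V : Set ℝ) (ang : ℝ → ℝ) (x y θ : ℝ) (N : ℕ) (q : ℕ → ℝ) (m : ℕ → ℕ)
    (T : Finset ℕ) : Prop where
  q0 : q 0 = x
  q1 : q (2 * N) = y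
  lt : ∀ k, k < 2 * N → q k < q (k + 1)
  vt : ∀ v ∈ V, x ≤ v → v ≤ y → ∃ k, k ≤ 2 * N ∧ q k = v
  m_lt : ∀ k, k < 2 * N → m k < 2 * N
  m_inv : ∀ k, k < 2 * N → m (m k) = k
  m_ne : ∀ k, k < 2 * N → m k ≠ k
  m_len : ∀ k, k < 2 * N → q (m k + 1) - q (m k) = q (k + 1) - q k
  nc : ∀ k l, k < l → l < m k → k < 2 * N → m l ≤ m k
  T_le : ∀ k ∈ T, k ≤ 2 * N
  T_0 : 0 ∈ T
  T_1 : 2 * N ∈ T
  T_c : ∀ k ∈ T, k < 2 * N → m k + 1 ∈ T
  T_s : ∑ k ∈ T, ang (q k) = θ
  cl : ∀ k, k ≤ 2 * N → k ∉ T → ∃ S : Finset ℕ, k ∈ S ∧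
    (∀ l ∈ S, 0 < l ∧ l < 2 * N ∧ m l + 1 ∈ S) ∧ ∑ l ∈ S, ang (q l) ≤ 2 * π

/-- the arc from `x` to `y` can be glued, the ends are identified, angle sum `θ` -/
def G (V : Set ℝ) (ang : ℝ → ℝ) (x y θ : ℝ) : Prop :=
  ∃ (N : ℕ) (q : ℕ → ℝ) (m : ℕ → ℕ) (T : Finset ℕ), Glu V ang x y θ N q m T

variable {V : Set ℝ} {ang : ℝ → ℝ}

theorem G_nil (x : ℝ) : G V ang x x (ang x) := by
  refine ⟨0, fun _ => x, id, {0}, ?_⟩
  constructor <;> try simp
  intro v _ h1 h2
  exact le_antisymm h1 h2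

theorem G_cat {x y z θ₁ θ₂ : ℝ} (h1 : G V ang x y θ₁) (h2 : G V ang y z θ₂) :
    G V ang x z (θ₁ + θ₂ - ang y) := by
  classical
  obtain ⟨N, q, m, T, h⟩ := h1
  obtain ⟨N', q', m', T', h'⟩ := h2
  set Q : ℕ → ℝ := fun k => if k ≤ 2 * N then q k else q' (k - 2 * N) with hQ
  set M : ℕ → ℕ := fun k => if k < 2 * N then m k else m' (k - 2 * N) + 2 * N with hM
  have hQ1 : ∀ k, k ≤ 2 * N → Q k = q k := fun k hk => by simp only [hQ, if_pos hk]
  have hQ2 : ∀ k, Q (k + 2 * N) = q' k := by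
    intro k
    rcases Nat.eq_zero_or_pos k with rfl | hk
    · rw [hQ1 _ (by omega), h'.q0, Nat.zero_add, h.q1]
    · simp only [hQ]
      rw [if_neg (by omega), Nat.add_sub_cancel]
  have hM1 : ∀ k, k < 2 * N → M k = m k := fun k hk => by simp only [hM, if_pos hk]
  have hM2 : ∀ k, M (k + 2 * N) = m' k + 2 * N := by
    intro k
    simp only [hM]
    rw [if_neg (by omega), Nat.add_sub_cancel]
  have hsp : ∀ k, k < 2 * (N + N') → k < 2 * N ∨ ∃ l, l < 2 * N' ∧ k = l + 2 * N := by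
    intro k hk
    by_cases h0 : k < 2 * N
    · exact Or.inl h0
    · exact Or.inr ⟨k - 2 * N, by omega, by omega⟩
  set T'' : Finset ℕ := T'.map (addRightEmbedding (2 * N)) with hT
  have hmT : ∀ k, k ∈ T'' ↔ ∃ l ∈ T', l + 2 * N = k := by
    intro k
    simp only [hT, Finset.mem_map, addRightEmbedding_apply]
  refine ⟨N + N', Q, M, T ∪ T'', ?_⟩
  constructor
  · rw [hQ1 _ (by omega), h.q0]
  · rw [show 2 * (N + N') = 2 * N' + 2 * N by ring, hQ2, h'.q1]
  · intro k hk
    rcases hsp k hk with h0 | ⟨l, hl, rfl⟩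
    · rw [hQ1 _ (by omega), hQ1 _ (by omega)]
      exact h.lt k h0
    · rw [hQ2, show l + 2 * N + 1 = (l + 1) + 2 * N by ring, hQ2]
      exact h'.lt l hl
  · intro v hv hx hz
    rcases le_total v y with hy | hy
    · obtain ⟨k, hk, he⟩ := h.vt v hv hx hy
      exact ⟨k, by omega, by rw [hQ1 _ hk, he]⟩
    · obtain ⟨k, hk, he⟩ := h'.vt v hv hy hz
      exact ⟨k + 2 * N, by omega, by rw [hQ2, he]⟩
  · intro k hk
    rcases hsp k hk with h0 | ⟨l, hl, rfl⟩
    · rw [hM1 _ h0]
      have := h.m_lt k h0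
      omega
    · rw [hM2]
      have := h'.m_lt l hl
      omega
  · intro k hk
    rcases hsp k hk with h0 | ⟨l, hl, rfl⟩
    · rw [hM1 _ h0, hM1 _ (h.m_lt k h0), h.m_inv k h0]
    · rw [hM2, hM2, h'.m_inv l hl]
  · intro k hk
    rcases hsp k hk with h0 | ⟨l, hl, rfl⟩
    · rw [hM1 _ h0]
      exact h.m_ne k h0
    · rw [hM2]
      have := h'.m_ne l hl
      omega
  · intro k hk
    rcases hsp k hk with h0 | ⟨l, hl, rfl⟩
    · have h3 := h.m_lt k h0
      rw [hM1 _ h0, hQ1 _ (by omega), hQ1 _ (by omega), hQ1 _ (by omega), hQ1 _ (by omega)]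
      exact h.m_len k h0
    · rw [hM2, hQ2, show m' l + 2 * N + 1 = (m' l + 1) + 2 * N by ring,
        show l + 2 * N + 1 = (l + 1) + 2 * N by ring, hQ2, hQ2, hQ2]
      exact h'.m_len l hl
  · intro k l hkl hlm hk
    rcases hsp k hk with h0 | ⟨k', hk', rfl⟩
    · have h3 := h.m_lt k h0
      rw [hM1 _ h0] at hlm ⊢
      rw [hM1 _ (by omega)]
      exact h.nc k l hkl hlm h0
    · obtain ⟨l', rfl⟩ : ∃ l', l = l' + 2 * N := ⟨l - 2 * N, by omega⟩
      rw [hM2] at hlm ⊢
      rw [hM2]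
      have := h'.nc k' l' (by omega) (by omega) hk'
      omega
  · intro k hk
    rcases Finset.mem_union.1 hk with hk | hk
    · have := h.T_le k hk
      omega
    · obtain ⟨l, hl, rfl⟩ := (hmT k).1 hk
      have := h'.T_le l hl
      omega
  · exact Finset.mem_union_left _ h.T_0
  · exact Finset.mem_union_right _ ((hmT _).2 ⟨2 * N', h'.T_1, by ring⟩)
  · intro k hk hk2
    by_cases h0 : k < 2 * N
    · rcases Finset.mem_union.1 hk with hk | hk
      · rw [hM1 _ h0]
        exact Finset.mem_union_left _ (h.T_c k hk h0)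
      · obtain ⟨l, hl, rfl⟩ := (hmT k).1 hk
        omega
    · obtain ⟨l, rfl⟩ : ∃ l, k = l + 2 * N := ⟨k - 2 * N, by omega⟩
      have hl : l ∈ T' := by
        rcases Finset.mem_union.1 hk with hk | hk
        · have h3 := h.T_le _ hk
          have h4 : l = 0 := by omega
          rw [h4]
          exact h'.T_0
        · obtain ⟨l', hl', he⟩ := (hmT _).1 hk
          have h4 : l' = l := by omega
          rw [← h4]
          exact hl'
      rw [hM2]
      exact Finset.mem_union_right _ ((hmT _).2 ⟨_, h'.T_c l hl (by omega), by ring⟩)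
  · have hint : T ∩ T'' = {2 * N} := by
      ext k
      rw [Finset.mem_inter, Finset.mem_singleton]
      constructor
      · rintro ⟨h3, h4⟩
        obtain ⟨l, hl, rfl⟩ := (hmT k).1 h4
        have := h.T_le _ h3
        omega
      · rintro rfl
        exact ⟨h.T_1, (hmT _).2 ⟨0, h'.T_0, by ring⟩⟩
    have h3 := Finset.sum_union_inter (s₁ := T) (s₂ := T'') (f := fun k => ang (Q k))
    rw [hint, Finset.sum_singleton] at h3
    have h4 : ∑ k ∈ T, ang (Q k) = θ₁ := by
      rw [← h.T_s]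
      exact Finset.sum_congr rfl (fun k hk => by rw [hQ1 _ (h.T_le k hk)])
    have h5 : ∑ k ∈ T'', ang (Q k) = θ₂ := by
      rw [← h'.T_s, hT, Finset.sum_map]
      exact Finset.sum_congr rfl (fun k _ => by rw [addRightEmbedding_apply, hQ2])
    rw [hQ1 _ le_rfl, h.q1, h4, h5] at h3
    linarith
  · intro k hk hkT
    rw [Finset.mem_union, not_or] at hkT
    by_cases h0 : k ≤ 2 * N
    · obtain ⟨S, hS1, hS2, hS3⟩ := h.cl k h0 hkT.1
      refine ⟨S, hS1, ?_, ?_⟩
      · intro l hl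
        obtain ⟨h3, h4, h5⟩ := hS2 l hl
        refine ⟨h3, by omega, ?_⟩
        rw [hM1 _ h4]
        exact h5
      · refine le_trans (le_of_eq ?_) hS3
        refine Finset.sum_congr rfl (fun l hl => ?_)
        rw [hQ1 _ (by have := (hS2 l hl).2.1; omega)]
    · obtain ⟨k', rfl⟩ : ∃ l, k = l + 2 * N := ⟨k - 2 * N, by omega⟩
      have h3 : k' ∉ T' := fun h4 => hkT.2 ((hmT _).2 ⟨k', h4, rfl⟩)
      obtain ⟨S, hS1, hS2, hS3⟩ := h'.cl k' (by omega) h3
      refine ⟨S.map (addRightEmbedding (2 * N)), ?_, ?_, ?_⟩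
      · rw [Finset.mem_map]
        exact ⟨k', hS1, rfl⟩
      · intro l hl
        rw [Finset.mem_map] at hl
        obtain ⟨l', hl', rfl⟩ := hl
        obtain ⟨h4, h5, h6⟩ := hS2 l' hl'
        rw [addRightEmbedding_apply, hM2]
        refine ⟨by omega, by omega, ?_⟩
        rw [Finset.mem_map]
        exact ⟨_, h6, by rw [addRightEmbedding_apply]; ring⟩
      · rw [Finset.sum_map]
        refine le_trans (le_of_eq ?_) hS3
        refine Finset.sum_congr rfl (fun l hl => ?_)
        rw [addRightEmbedding_apply, hQ2]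

theorem G_wrap {x y θ ℓ : ℝ} (hl : 0 < ℓ) (h1 : G V ang x y θ) (hθ : θ ≤ 2 * π)
    (hV1 : ∀ v ∈ V, ¬ (x - ℓ < v ∧ v < x)) (hV2 : ∀ v ∈ V, ¬ (y < v ∧ v < y + ℓ)) :
    G V ang (x - ℓ) (y + ℓ) (ang (x - ℓ) + ang (y + ℓ)) := by
  classical
  obtain ⟨N, q, m, T, h⟩ := h1
  set Q : ℕ → ℝ := fun k => if k = 0 then x - ℓ else if k ≤ 2 * N + 1 then q (k - 1) else y + ℓ
    with hQ
  set M : ℕ → ℕ := fun k => if k = 0 then 2 * N + 1 else if k ≤ 2 * N then m (k - 1) + 1 else 0
    with hM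
  have hQ0 : Q 0 = x - ℓ := by simp only [hQ, if_true]
  have hQ1 : ∀ k, k ≤ 2 * N → Q (k + 1) = q k := by
    intro k hk
    simp only [hQ]
    rw [if_neg (by omega), if_pos (by omega), Nat.add_sub_cancel]
  have hQ2 : Q (2 * N + 2) = y + ℓ := by
    simp only [hQ]
    rw [if_neg (by omega), if_neg (by omega)]
  have hM0 : M 0 = 2 * N + 1 := by simp only [hM, if_true]
  have hM1 : ∀ k, k < 2 * N → M (k + 1) = m k + 1 := by
    intro k hk
    simp only [hM]
    rw [if_neg (by omega), if_pos (by omega), Nat.add_sub_cancel]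
  have hM2 : M (2 * N + 1) = 0 := by
    simp only [hM]
    rw [if_neg (by omega), if_neg (by omega)]
  have hsp : ∀ k, k < 2 * (N + 1) → k = 0 ∨ (∃ l, l < 2 * N ∧ k = l + 1) ∨ k = 2 * N + 1 := by
    intro k hk
    rcases Nat.eq_zero_or_pos k with h0 | h0
    · exact Or.inl h0
    · by_cases h2 : k = 2 * N + 1
      · exact Or.inr (Or.inr h2)
      · exact Or.inr (Or.inl ⟨k - 1, by omega, by omega⟩)
  have h2N : 2 * (N + 1) = 2 * N + 2 := by ring
  refine ⟨N + 1, Q, M, {0, 2 * N + 2}, ?_⟩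
  constructor
  · exact hQ0
  · rw [h2N, hQ2]
  · intro k hk
    rcases hsp k hk with rfl | ⟨l, hl', rfl⟩ | rfl
    · rw [hQ0, hQ1 0 (by omega), h.q0]
      linarith
    · rw [hQ1 _ (by omega), hQ1 _ (by omega)]
      exact h.lt l hl'
    · rw [hQ1 _ le_rfl, h.q1, hQ2]
      linarith
  · intro v hv hx hz
    by_cases hvx : v < x
    · refine ⟨0, by omega, ?_⟩
      rw [hQ0]
      by_contra hne
      exact hV1 v hv ⟨lt_of_le_of_ne hx hne, hvx⟩
    · by_cases hvy : y < v
      · refine ⟨2 * N + 2, by omega, ?_⟩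
        rw [hQ2]
        by_contra hne
        exact hV2 v hv ⟨hvy, lt_of_le_of_ne hz (Ne.symm hne)⟩
      · obtain ⟨k, hk, he⟩ := h.vt v hv (not_lt.1 hvx) (not_lt.1 hvy)
        exact ⟨k + 1, by omega, by rw [hQ1 _ hk, he]⟩
  · intro k hk
    rcases hsp k hk with rfl | ⟨l, hl', rfl⟩ | rfl
    · rw [hM0]; omega
    · rw [hM1 _ hl']
      have := h.m_lt l hl'
      omega
    · rw [hM2]; omega
  · intro k hk
    rcases hsp k hk with rfl | ⟨l, hl', rfl⟩ | rfl
    · rw [hM0, hM2]
    · rw [hM1 _ hl', hM1 _ (h.m_lt l hl'), h.m_inv l hl']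
    · rw [hM2, hM0]
  · intro k hk
    rcases hsp k hk with rfl | ⟨l, hl', rfl⟩ | rfl
    · rw [hM0]; omega
    · rw [hM1 _ hl']
      have := h.m_ne l hl'
      omega
    · rw [hM2]; omega
  · intro k hk
    rcases hsp k hk with rfl | ⟨l, hl', rfl⟩ | rfl
    · rw [hM0, hQ2, hQ1 _ le_rfl, hQ0, hQ1 0 (by omega), h.q0, h.q1]
      ring
    · have h3 := h.m_lt l hl'
      rw [hM1 _ hl', hQ1 _ (by omega), hQ1 _ (by omega), hQ1 _ (by omega), hQ1 _ (by omega)]
      exact h.m_len l hl'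
    · rw [hM2, hQ0, hQ1 0 (by omega), hQ2, hQ1 _ le_rfl, h.q0, h.q1]
      ring
  · intro k l hkl hlm hk
    rcases hsp k hk with rfl | ⟨k', hk', rfl⟩ | rfl
    · rw [hM0] at hlm ⊢
      rcases hsp l (by omega) with rfl | ⟨l', hl', rfl⟩ | rfl
      · omega
      · rw [hM1 _ hl']
        have := h.m_lt l' hl'
        omega
      · rw [hM2]; omega
    · rw [hM1 _ hk'] at hlm ⊢
      have h3 := h.m_lt k' hk'
      obtain ⟨l', rfl⟩ : ∃ l', l = l' + 1 := ⟨l - 1, by omega⟩
      rw [hM1 _ (by omega)]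
      have := h.nc k' l' (by omega) (by omega) hk'
      omega
    · rw [hM2] at hlm
      omega
  · intro k hk
    rw [Finset.mem_insert, Finset.mem_singleton] at hk
    omega
  · exact Finset.mem_insert_self _ _
  · rw [h2N]
    exact Finset.mem_insert_of_mem (Finset.mem_singleton_self _)
  · intro k hk hk2
    rw [Finset.mem_insert, Finset.mem_singleton] at hk
    have h3 : k = 0 := by omega
    rw [h3, hM0]
    exact Finset.mem_insert_of_mem (Finset.mem_singleton_self _)
  · rw [Finset.sum_insert (by rw [Finset.mem_singleton]; omega), Finset.sum_singleton, hQ0, hQ2]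
  · intro k hk hkT
    rw [Finset.mem_insert, Finset.mem_singleton, not_or] at hkT
    obtain ⟨k', rfl⟩ : ∃ l, k = l + 1 := ⟨k - 1, by omega⟩
    by_cases hkT' : k' ∈ T
    · refine ⟨T.map (addRightEmbedding 1), ?_, ?_, ?_⟩
      · rw [Finset.mem_map]
        exact ⟨k', hkT', rfl⟩
      · intro l hl
        rw [Finset.mem_map] at hl
        obtain ⟨l', hl', rfl⟩ := hl
        have h4 := h.T_le l' hl'
        rw [addRightEmbedding_apply]
        refine ⟨by omega, by omega, ?_⟩
        rw [Finset.mem_map]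
        rcases Nat.lt_or_ge l' (2 * N) with h5 | h5
        · rw [hM1 _ h5]
          exact ⟨_, h.T_c l' hl' h5, rfl⟩
        · have h6 : l' = 2 * N := by omega
          rw [h6, hM2]
          exact ⟨0, h.T_0, rfl⟩
      · rw [Finset.sum_map]
        refine le_trans (le_of_eq ?_) hθ
        rw [← h.T_s]
        refine Finset.sum_congr rfl (fun l hl => ?_)
        rw [addRightEmbedding_apply, hQ1 _ (h.T_le l hl)]
    · obtain ⟨S, hS1, hS2, hS3⟩ := h.cl k' (by omega) hkT'
      refine ⟨S.map (addRightEmbedding 1), ?_, ?_, ?_⟩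
      · rw [Finset.mem_map]
        exact ⟨k', hS1, rfl⟩
      · intro l hl
        rw [Finset.mem_map] at hl
        obtain ⟨l', hl', rfl⟩ := hl
        obtain ⟨h4, h5, h6⟩ := hS2 l' hl'
        rw [addRightEmbedding_apply, hM1 _ h5]
        refine ⟨by omega, by omega, ?_⟩
        rw [Finset.mem_map]
        exact ⟨_, h6, rfl⟩
      · rw [Finset.sum_map]
        refine le_trans (le_of_eq ?_) hS3
        refine Finset.sum_congr rfl (fun l hl => ?_)
        rw [addRightEmbedding_apply, hQ1 _ (by have := (hS2 l hl).2.1; omega)]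

/-- what is proved about items -/
def Itm (X : Dat) (ang : ℝ → ℝ) : Item → Prop
  | .sg i j c => i ≤ j ∧ j < X.n ∧ ∀ a b : ℝ, a + b = c → X.s i ≤ a → a < X.s (i + 1) →
      X.s j < b → b ≤ X.s (j + 1) → a < b →
      G {v | ∃ k, k ≤ X.n ∧ v = X.s k} ang a b (ang a + ang b)
  | .ch p q θ => p ≤ q ∧ q ≤ X.n ∧ G {v | ∃ k, k ≤ X.n ∧ v = X.s k} ang (X.s p) (X.s q) θ

theorem no_vtx {X : Dat} (hs : StrictMono X.s) {e : ℕ} {u w : ℝ} (h1 : X.s e ≤ u)
    (h2 : w ≤ X.s (e + 1)) : ∀ v ∈ {v | ∃ k, k ≤ X.n ∧ v = X.s k}, ¬ (u < v ∧ v < w) := by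
  rintro v ⟨k, _, rfl⟩ ⟨h3, h4⟩
  have h5 : X.s e < X.s k := lt_of_le_of_lt h1 h3
  have h6 : X.s k < X.s (e + 1) := lt_of_lt_of_le h4 h2
  rw [hs.lt_iff_lt] at h5 h6
  omega

theorem itm {X : Dat} {ang : ℝ → ℝ} (hs : StrictMono X.s) (h1 : ∀ p, p ≤ X.n → ang (X.s p) = X.al p)
    (h2 : ∀ e x, e < X.n → X.s e < x → x < X.s (e + 1) → ang x = π) {A : ℕ → ℕ → Prop}
    {it : Item} (h : Der X A it) : Itm X ang it := by
  induction h with
  | fold i c hi _ hc1 hc2 =>
    refine ⟨le_rfl, hi, ?_⟩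
    intro a b hab ha1 ha2 hb1 hb2 hlt
    have h3 : G {v | ∃ k, k ≤ X.n ∧ v = X.s k} ang (c / 2) (c / 2) (ang (c / 2)) := G_nil _
    have h4 : ang (c / 2) = π := h2 i (c / 2) hi (by linarith) (by linarith)
    have h5 := G_wrap (ℓ := (b - a) / 2) (by linarith) h3 (by rw [h4]; linarith [Real.pi_pos])
      (no_vtx hs (e := i) (by linarith) (by linarith))
      (no_vtx hs (e := i) (by linarith) (by linarith))
    have h6 : c / 2 - (b - a) / 2 = a := by linarith
    have h7 : c / 2 + (b - a) / 2 = b := by linarith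
    rw [h6, h7] at h5
    exact h5
  | term i j θ hij hj _ _ hθ ih =>
    obtain ⟨_, _, ih⟩ := ih
    refine ⟨by omega, hj, ?_⟩
    intro a b hab ha1 ha2 hb1 hb2 hlt
    have h5 := G_wrap (ℓ := X.s (i + 1) - a) (by linarith) ih hθ
      (no_vtx hs (e := i) (by linarith) (by linarith))
      (no_vtx hs (e := j) (by linarith) (by linarith))
    have h6 : X.s (i + 1) - (X.s (i + 1) - a) = a := by linarith
    have h7 : X.s j + (X.s (i + 1) - a) = b := by linarith
    rw [h6, h7] at h5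
    exact h5
  | right i j p c θ hip hpj hj _ hc1 hc2 _ hθ _ ih1 ih2 =>
    obtain ⟨_, _, ih1⟩ := ih1
    obtain ⟨_, _, ih2⟩ := ih2
    refine ⟨by omega, hj, ?_⟩
    intro a b hab ha1 ha2 hb1 hb2 hlt
    have hp1 : X.s p < X.s (p + 1) := hs (by omega)
    have hpj' : X.s p ≤ X.s j := hs.monotone hpj
    have h3 := ih2 (X.s p) (c - X.s (i + 1)) (by ring) le_rfl hp1 (by linarith) (by linarith)
      (by linarith)
    have h4 := G_cat ih1 h3
    have h5 : ang (c - X.s (i + 1)) = π := h2 j _ hj (by linarith) (by linarith)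
    have h6 := G_wrap (ℓ := X.s (i + 1) - a) (by linarith) h4 (by rw [h5]; linarith)
      (no_vtx hs (e := i) (by linarith) (by linarith))
      (no_vtx hs (e := j) (by linarith) (by linarith))
    have h7 : X.s (i + 1) - (X.s (i + 1) - a) = a := by linarith
    have h8 : c - X.s (i + 1) + (X.s (i + 1) - a) = b := by linarith
    rw [h7, h8] at h6
    exact h6
  | left i j p c θ hip hpj hj _ hc1 hc2 _ hθ _ ih1 ih2 =>
    obtain ⟨_, _, ih1⟩ := ih1
    obtain ⟨_, _, ih2⟩ := ih2
    refine ⟨by omega, hj, ?_⟩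
    intro a b hab ha1 ha2 hb1 hb2 hlt
    have hp1 : X.s p < X.s (p + 1) := hs (by omega)
    have hpj' : X.s (i + 1) ≤ X.s (p + 1) := hs.monotone (by omega)
    have hpj'' : X.s (p + 1) ≤ X.s j := hs.monotone (by omega)
    have h3 := ih2 (c - X.s j) (X.s (p + 1)) (by ring) (by linarith) (by linarith) hp1 le_rfl
      (by linarith)
    have h4 := G_cat h3 ih1
    have h5 : ang (c - X.s j) = π := h2 i _ (by omega) (by linarith) (by linarith)
    have h6 := G_wrap (ℓ := b - X.s j) (by linarith) h4 (by rw [h5]; linarith)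
      (no_vtx hs (e := i) (by linarith) (by linarith))
      (no_vtx hs (e := j) (by linarith) (by linarith))
    have h7 : c - X.s j - (b - X.s j) = a := by linarith
    have h8 : X.s j + (b - X.s j) = b := by linarith
    rw [h7, h8] at h6
    exact h6
  | refl p hp =>
    refine ⟨le_rfl, hp, ?_⟩
    rw [← h1 p hp]
    exact G_nil _
  | vv p r q θ hrq hq _ _ ih1 ih2 =>
    obtain ⟨_, _, ih1⟩ := ih1
    obtain ⟨_, _, ih2⟩ := ih2
    refine ⟨by omega, by omega, ?_⟩
    have h3 := ih2 (X.s r) (X.s (q + 1)) rfl le_rfl (hs (by omega)) (hs (by omega)) le_rfl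
      (hs (by omega))
    have h4 := G_cat ih1 h3
    have h5 : θ + (ang (X.s r) + ang (X.s (q + 1))) - ang (X.s r) = θ + X.al (q + 1) := by
      rw [h1 (q + 1) (by omega)]
      ring
    rw [h5] at h4
    exact h4
  | fl p r e q x θ hre heq hq hx1 hx2 _ _ _ ih1 ih2 ih3 =>
    obtain ⟨_, _, ih1⟩ := ih1
    obtain ⟨_, _, ih2⟩ := ih2
    obtain ⟨_, _, ih3⟩ := ih3
    refine ⟨by omega, by omega, ?_⟩
    have hre' : X.s r ≤ X.s e := hs.monotone hre
    have heq' : X.s (e + 1) ≤ X.s (q + 1) := hs.monotone (by omega)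
    have h3 := ih2 (X.s r) x rfl le_rfl (hs (by omega)) hx1 hx2.le (by linarith)
    have h4 := ih3 x (X.s (q + 1)) rfl hx1.le hx2 (hs (by omega)) le_rfl (by linarith)
    have h5 := G_cat (G_cat ih1 h3) h4
    have h6 : ang x = π := h2 e x (by omega) hx1 hx2
    have h7 : θ + (ang (X.s r) + ang x) - ang (X.s r) + (ang x + ang (X.s (q + 1))) - ang x =
        θ + π + X.al (q + 1) := by
      rw [h1 (q + 1) (by omega), h6]
      ring
    rw [h7] at h5
    exact h5

theorem rot_val (n : ℕ) (k : Fin n) :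
    ((finRotate n k : Fin n) : ℕ) = if (k : ℕ) + 1 = n then 0 else (k : ℕ) + 1 := by
  cases n with
  | zero => exact k.elim0
  | succ n =>
    rw [coe_finRotate]
    by_cases h : k = Fin.last n
    · rw [if_pos h, if_pos]
      rw [h]
      simp
    · rw [if_neg h, if_neg]
      intro h2
      apply h
      ext
      simp only [Fin.val_last]
      omega

/-- sums over classes are bounded by sums over invariant sets -/
theorem sum_class {n : ℕ} (rho : Equiv.Perm (Fin n)) (f : ℕ → ℝ) (hf : ∀ k, 0 ≤ f k)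
    (S : Finset ℕ) (hS : ∀ k : Fin n, (k : ℕ) ∈ S → ((rho k : Fin n) : ℕ) ∈ S) (k : Fin n)
    (hk : (k : ℕ) ∈ S) (P : Fin n → Prop) [DecidablePred P] (hP : ∀ l, P l → rho.SameCycle k l) :
    ∑ l ∈ univ.filter P, f l ≤ ∑ l ∈ S, f l := by
  classical
  have h1 : ∀ i : ℕ, (((rho ^ i) k : Fin n) : ℕ) ∈ S := by
    intro i
    induction i with
    | zero => simpa using hk
    | succ i ih =>
      rw [pow_succ', Equiv.Perm.mul_apply]
      exact hS _ ih
  have h2 : (univ.filter P).map Fin.valEmbedding ⊆ S := by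
    intro l hl
    rw [Finset.mem_map] at hl
    obtain ⟨l', hl', rfl⟩ := hl
    rw [Finset.mem_filter] at hl'
    obtain ⟨i, hi⟩ := (hP l' hl'.2).exists_nat_pow_eq
    rw [← hi]
    exact h1 i
  calc ∑ l ∈ univ.filter P, f l = ∑ l ∈ (univ.filter P).map Fin.valEmbedding, f l := by
        rw [Finset.sum_map]
        rfl
    _ ≤ ∑ l ∈ S, f l := Finset.sum_le_sum_of_subset_of_nonneg h2 (fun l _ _ => hf l)

theorem spos_strictMono {P : List (ℝ × ℝ)} (hP : IsPolygon P) : StrictMono (spos P) := by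
  apply strictMono_nat_of_lt_succ
  intro k
  unfold spos
  rw [Finset.sum_range_succ]
  have : 0 < ‖vtx P (k + 1) - vtx P k‖ := by
    rw [norm_pos_iff, sub_ne_zero]
    exact (hP.ne k).symm
  linarith

theorem intAngle_nonneg (P : List (ℝ × ℝ)) (k : ℕ) : 0 ≤ intAngle P k := by
  unfold intAngle
  exact left_le_toIcoMod _ _ _

theorem angAt_nonneg (P : List (ℝ × ℝ)) (x : ℝ) : 0 ≤ angAt P x := by
  classical
  unfold angAt
  split_ifs with h
  · exact intAngle_nonneg _ _
  · exact Real.pi_pos.le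

theorem angAt_spos {P : List (ℝ × ℝ)} (hP : IsPolygon P) {k : ℕ} (hk : k < P.length) :
    angAt P (spos P k) = intAngle P k := by
  classical
  unfold angAt
  have h : ∃ l, l < P.length ∧ spos P l = spos P k := ⟨k, hk, rfl⟩
  rw [dif_pos h]
  have h2 := h.choose_spec.2
  rw [(spos_strictMono hP).injective h2]

theorem angAt_flat {P : List (ℝ × ℝ)} (hP : IsPolygon P) {e : ℕ} {x : ℝ} (h1 : spos P e < x)
    (h2 : x < spos P (e + 1)) : angAt P x = π := by
  classical
  unfold angAt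
  rw [dif_neg]
  rintro ⟨k, _, rfl⟩
  rw [(spos_strictMono hP).lt_iff_lt] at h1 h2
  omega

end G4

theorem t_der2glu : S_der2glu := by
  classical
  intro P hP θ hd hθ
  have hs := G4.spos_strictMono hP
  set ang : ℝ → ℝ := fun x => if x = spos P P.length then 0 else angAt P x with hang
  have hang0 : ∀ x, 0 ≤ ang x := by
    intro x
    simp only [hang]
    split_ifs
    · exact le_rfl
    · exact G4.angAt_nonneg P x
  have h1 : ∀ p, p ≤ (datOf P).n → ang ((datOf P).s p) = (datOf P).al p := by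
    intro p hp
    simp only [datOf, hang] at hp ⊢
    rcases Nat.lt_or_ge p P.length with h | h
    · rw [if_neg (fun h3 => absurd (hs.injective h3) (by omega)), if_pos h, G4.angAt_spos hP h]
    · have h4 : p = P.length := le_antisymm hp h
      rw [h4, if_pos rfl, if_neg (lt_irrefl _)]
  have h2 : ∀ e x, e < (datOf P).n → (datOf P).s e < x → x < (datOf P).s (e + 1) → ang x = π := by
    intro e x he hx1 hx2
    simp only [datOf, hang] at he hx1 hx2 ⊢
    rw [if_neg, G4.angAt_flat hP hx1 hx2]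
    rintro rfl
    rw [hs.lt_iff_lt] at hx1 hx2
    omega
  obtain ⟨_, _, N, q, m, T, h⟩ := G4.itm (X := datOf P) (ang := ang) hs h1 h2 hd
  have hx0 : (datOf P).s 0 = 0 := by simp [datOf, spos]
  have hxn : (datOf P).s P.length = spos P P.length := rfl
  rw [hx0, hxn] at h
  have hlen : 0 < P.length := by have := hP.three; omega
  have hpos : (0 : ℝ) < spos P P.length := by
    have h3 := hs hlen
    have h4 : spos P 0 = 0 := by simp [spos]
    rw [h4] at h3
    exact h3
  have hN : 1 ≤ N := by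
    by_contra h0
    have h3 : N = 0 := by omega
    subst h3
    have h4 := h.q0
    have h5 := h.q1
    rw [Nat.mul_zero] at h5
    linarith
  have hqlt : ∀ k, k < 2 * N → q k < spos P P.length := by
    intro k hk
    have h3 : ∀ d, k + 1 + d ≤ 2 * N → q k < q (k + 1 + d) := by
      intro d
      induction d with
      | zero => intro _; exact h.lt k hk
      | succ d ih =>
        intro hd'
        exact (ih (by omega)).trans (h.lt (k + 1 + d) (by omega))
    have h4 := h3 (2 * N - (k + 1)) (by omega)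
    rw [show k + 1 + (2 * N - (k + 1)) = 2 * N by omega, h.q1] at h4
    exact h4
  have hangq : ∀ k, k < 2 * N → angAt P (q k) = ang (q k) := by
    intro k hk
    simp only [hang]
    rw [if_neg (hqlt k hk).ne]
  let m' : Fin (2 * N) → Fin (2 * N) := fun k => ⟨m k, h.m_lt k k.2⟩
  have hm' : Function.Involutive m' := by
    intro k
    apply Fin.ext
    exact h.m_inv k k.2
  let Gg : Gluing P N :=
    { q := q
      m := hm'.toPerm m'
      q_zero := h.q0
      q_last := h.q1
      q_lt := h.lt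
      q_vertex := by
        intro i hi
        obtain ⟨k, hk, he⟩ := h.vt (spos P i) ⟨i, le_of_lt hi, rfl⟩
          (by have := hs.monotone (Nat.zero_le i); simpa [spos] using this) (hs.monotone hi.le)
        refine ⟨k, lt_of_le_of_ne hk ?_, he⟩
        rintro rfl
        rw [h.q1] at he
        exact absurd (hs.injective he) (by omega)
      m_invol := hm'
      m_ne := by
        intro k hk
        exact h.m_ne k k.2 (congrArg Fin.val hk)
      m_len := by
        intro k
        exact h.m_len k k.2 }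
  have hrho : ∀ k : Fin (2 * N), ((Gg.rho k : Fin (2 * N)) : ℕ) =
      if m k + 1 = 2 * N then 0 else m k + 1 := by
    intro k
    have h3 : Gg.rho k = finRotate (2 * N) (m' k) := rfl
    rw [h3, G4.rot_val]
  refine ⟨N, Gg, hN, ?_, ?_⟩
  · intro k l hkl hlm hml
    have h3 := h.nc k l hkl hlm k.2
    have h4 : m (k : ℕ) < m (l : ℕ) := hml
    omega
  · intro k
    have key : ∃ S : Finset ℕ, (k : ℕ) ∈ S ∧
        (∀ l : Fin (2 * N), (l : ℕ) ∈ S → ((Gg.rho l : Fin (2 * N)) : ℕ) ∈ S) ∧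
        ∑ l ∈ S, ang (q l) ≤ 2 * π := by
      by_cases hkT : (k : ℕ) ∈ T
      · refine ⟨T, hkT, ?_, by rw [h.T_s]; exact hθ⟩
        intro l hl
        rw [hrho]
        split_ifs with h5
        · exact h.T_0
        · exact h.T_c l hl l.2
      · obtain ⟨S, hS1, hS2, hS3⟩ := h.cl k k.2.le hkT
        refine ⟨S, hS1, ?_, hS3⟩
        intro l hl
        obtain ⟨h5, h6, h7⟩ := hS2 l hl
        have h8 := (hS2 _ h7).2.1
        rw [hrho, if_neg (by omega)]
        exact h7
    obtain ⟨S, hS1, hS2, hS3⟩ := key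
    calc ∑ l ∈ univ.filter (fun l => Gg.rho.SameCycle k l), angAt P (Gg.q l)
        = ∑ l ∈ univ.filter (fun l => Gg.rho.SameCycle k l), ang (q l) := by
          refine Finset.sum_congr rfl (fun l _ => ?_)
          exact hangq l l.2
      _ ≤ ∑ l ∈ S, ang (q l) :=
          G4.sum_class Gg.rho (fun l => ang (q l)) (fun l => hang0 _) S hS2 k hS1 _ (fun l hl => hl)
      _ ≤ 2 * π := hS3

end Pool.Agent.H586R2.AF
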