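import Pool.Agent.H586R2.AF.PTStm

set_option autoImplicit false

namespace Pool.Agent.H586R2.AF

namespace L1a

lemma pow_mono {s C C' k k' : ℕ} (hC : C ≤ C') (hk : k ≤ k') :
    C * (s + 1) ^ k ≤ C' * (s + 1) ^ k' :=
  Nat.mul_le_mul hC (Nat.pow_le_pow_right (Nat.succ_pos s) hk)

lemma one_le (s k : ℕ) : 1 ≤ (s + 1) ^ k := Nat.one_le_pow _ _ (Nat.succ_pos s)

lemma const {α β : Type} [Enc α] [Enc β] (y : β) (p : Prog) (t : ℕ)
    (h : ∀ x : D, Ev p x (enc y) t) : PT (fun _ : α => y) := by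
  refine ⟨p, t + sz y, 0, fun x => ⟨⟨t, ?_, h _⟩, ?_⟩⟩
  · rw [pow_zero, mul_one]
    exact Nat.le_add_right _ _
  · rw [pow_zero, mul_one]
    exact Nat.le_add_left _ _

end L1a

open L1a

theorem pt_id : ∀ {α : Type} [Enc α], PT (fun x : α => x) := by
  intro α _
  refine ⟨.id, 1, 1, fun x => ⟨⟨1, ?_, Ev.id _⟩, ?_⟩⟩
  · rw [one_mul]
    exact one_le _ _
  · rw [one_mul, pow_one]
    exact Nat.le_succ _

theorem pt_comp : ∀ {α β γ : Type} [Enc α] [Enc β] [Enc γ] {f : α → β} {g : β → γ},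
    PT f → PT g → PT (fun x => g (f x)) := by
  intro α β γ _ _ _ f g ⟨p, C, k, hf⟩ ⟨q, C', k', hg⟩
  refine ⟨.comp p q, C + C' * (C + 1) ^ k' + 1, k + k * k', fun x => ?_⟩
  obtain ⟨⟨t, ht, ev1⟩, hs⟩ := hf x
  obtain ⟨⟨u, hu, ev2⟩, hs'⟩ := hg (f x)
  have h1 : (sz (f x) + 1) ^ k' ≤ (C + 1) ^ k' * (sz x + 1) ^ (k * k') := by
    calc (sz (f x) + 1) ^ k' ≤ ((C + 1) * (sz x + 1) ^ k) ^ k' := by
          apply Nat.pow_le_pow_left
          have := one_le (sz x) k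
          rw [Nat.add_mul, one_mul]
          omega
      _ = _ := by rw [mul_pow, ← pow_mul]
  have h2 : C' * (sz (f x) + 1) ^ k' ≤ C' * (C + 1) ^ k' * (sz x + 1) ^ (k + k * k') := by
    calc C' * (sz (f x) + 1) ^ k' ≤ C' * ((C + 1) ^ k' * (sz x + 1) ^ (k * k')) :=
          Nat.mul_le_mul_left _ h1
      _ = C' * (C + 1) ^ k' * (sz x + 1) ^ (k * k') := by ring
      _ ≤ _ := pow_mono le_rfl (Nat.le_add_left _ _)
  have h3 : C * (sz x + 1) ^ k ≤ C * (sz x + 1) ^ (k + k * k') := pow_mono le_rfl (Nat.le_add_right _ _)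
  have h4 := one_le (sz x) (k + k * k')
  have e : (C + C' * (C + 1) ^ k' + 1) * (sz x + 1) ^ (k + k * k') =
      C * (sz x + 1) ^ (k + k * k') + C' * (C + 1) ^ k' * (sz x + 1) ^ (k + k * k') +
        (sz x + 1) ^ (k + k * k') := by ring
  refine ⟨⟨t + u + 1, ?_, Ev.comp ev1 ev2⟩, ?_⟩
  · rw [e]
    omega
  · rw [e]
    show sz (g (f x)) ≤ _
    omega

theorem pt_pair : ∀ {α β γ : Type} [Enc α] [Enc β] [Enc γ] {f : α → β} {g : α → γ},
    PT f → PT g → PT (fun x => (f x, g x)) := by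
  intro α β γ _ _ _ f g ⟨p, C, k, hf⟩ ⟨q, C', k', hg⟩
  refine ⟨.cons p q, C + C' + 1, k + k', fun x => ?_⟩
  obtain ⟨⟨t, ht, ev1⟩, hs⟩ := hf x
  obtain ⟨⟨u, hu, ev2⟩, hs'⟩ := hg x
  have h1 : C * (sz x + 1) ^ k ≤ C * (sz x + 1) ^ (k + k') := pow_mono le_rfl (Nat.le_add_right _ _)
  have h2 : C' * (sz x + 1) ^ k' ≤ C' * (sz x + 1) ^ (k + k') := pow_mono le_rfl (Nat.le_add_left _ _)
  have h4 := one_le (sz x) (k + k')
  have e : (C + C' + 1) * (sz x + 1) ^ (k + k') =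
      C * (sz x + 1) ^ (k + k') + C' * (sz x + 1) ^ (k + k') + (sz x + 1) ^ (k + k') := by ring
  refine ⟨⟨t + u + 1, ?_, Ev.cons ev1 ev2⟩, ?_⟩
  · rw [e]
    omega
  · rw [e]
    show sz (f x) + sz (g x) + 1 ≤ _
    omega

theorem pt_fst : ∀ {α β : Type} [Enc α] [Enc β], PT (fun x : α × β => x.1) := by
  intro α β _ _
  refine ⟨.hd, 1, 1, fun x => ⟨⟨1, ?_, Ev.hd (enc x)⟩, ?_⟩⟩
  · rw [one_mul]
    exact one_le _ _
  · rw [one_mul, pow_one]
    show sz x.1 ≤ sz x.1 + sz x.2 + 1 + 1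
    omega

theorem pt_snd : ∀ {α β : Type} [Enc α] [Enc β], PT (fun x : α × β => x.2) := by
  intro α β _ _
  refine ⟨.tl, 1, 1, fun x => ⟨⟨1, ?_, Ev.tl (enc x)⟩, ?_⟩⟩
  · rw [one_mul]
    exact one_le _ _
  · rw [one_mul, pow_one]
    show sz x.2 ≤ sz x.1 + sz x.2 + 1 + 1
    omega

theorem pt_ite : ∀ {α β : Type} [Enc α] [Enc β] {b : α → Bool} {f g : α → β},
    PT b → PT f → PT g → PT (fun x => if b x = true then f x else g x) := by
  intro α β _ _ b f g ⟨r, C0, k0, hb⟩ ⟨p, C, k, hf⟩ ⟨q, C', k', hg⟩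
  refine ⟨.ite r p q, C0 + C + C' + 1, k0 + k + k', fun x => ?_⟩
  obtain ⟨⟨v, hv, ev0⟩, -⟩ := hb x
  obtain ⟨⟨t, ht, ev1⟩, hs⟩ := hf x
  obtain ⟨⟨u, hu, ev2⟩, hs'⟩ := hg x
  have h0 : C0 * (sz x + 1) ^ k0 ≤ C0 * (sz x + 1) ^ (k0 + k + k') := pow_mono le_rfl (by omega)
  have h1 : C * (sz x + 1) ^ k ≤ C * (sz x + 1) ^ (k0 + k + k') := pow_mono le_rfl (by omega)
  have h2 : C' * (sz x + 1) ^ k' ≤ C' * (sz x + 1) ^ (k0 + k + k') := pow_mono le_rfl (by omega)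
  have h4 := one_le (sz x) (k0 + k + k')
  have e : (C0 + C + C' + 1) * (sz x + 1) ^ (k0 + k + k') =
      C0 * (sz x + 1) ^ (k0 + k + k') + C * (sz x + 1) ^ (k0 + k + k') +
        C' * (sz x + 1) ^ (k0 + k + k') + (sz x + 1) ^ (k0 + k + k') := by ring
  rw [e]
  beta_reduce
  by_cases hbx : b x = true
  · rw [if_pos hbx]
    have hne : enc (b x) ≠ D.nil := by
      rw [hbx]
      intro h
      cases h
    exact ⟨⟨v + t + 1, by omega, Ev.iteT ev0 hne ev1⟩, by omega⟩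
  · rw [if_neg hbx]
    have hbf : b x = false := by simpa using hbx
    have he : enc (b x) = D.nil := by
      rw [hbf]
      rfl
    rw [he] at ev0
    exact ⟨⟨v + u + 1, by omega, Ev.iteF ev0 ev2⟩, by omega⟩

theorem pt_cNat : ∀ {α : Type} [Enc α] (k : ℕ), PT (fun _ : α => k) := by
  intro α _ k
  have key : ∃ (p : Prog) (t : ℕ), ∀ x : D, Ev p x (enc k) t := by
    induction k with
    | zero => exact ⟨.nil, 1, fun x => Ev.nil x⟩
    | succ k ih =>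
      obtain ⟨p, t, h⟩ := ih
      exact ⟨.cons .nil p, 1 + t + 1, fun x => Ev.cons (Ev.nil x) (h x)⟩
  obtain ⟨p, t, h⟩ := key
  exact const k p t h

theorem pt_cInt : ∀ {α : Type} [Enc α] (z : ℤ), PT (fun _ : α => (z : ℝ)) := by
  intro α _ z
  exact const (z : ℝ) (.int z) 1 (fun x => Ev.int z x)

theorem pt_cBool : ∀ {α : Type} [Enc α] (b : Bool), PT (fun _ : α => b) := by
  intro α _ b
  cases b
  · exact const false .nil 1 (fun x => Ev.nil x)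
  · exact const true (.cons .nil .nil) 3 (fun x => Ev.cons (Ev.nil x) (Ev.nil x))

theorem pt_cUnit : ∀ {α : Type} [Enc α], PT (fun _ : α => ()) := by
  intro α _
  exact const () .nil 1 (fun x => Ev.nil x)

theorem pt_cNil : ∀ {α β : Type} [Enc α] [Enc β], PT (fun _ : α => ([] : List β)) := by
  intro α β _ _
  exact const [] .nil 1 (fun x => Ev.nil x)

theorem pt_cNone : ∀ {α β : Type} [Enc α] [Enc β], PT (fun _ : α => (none : Option β)) := by
  intro α β _ _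
  exact const none .nil 1 (fun x => Ev.nil x)

end Pool.Agent.H586R2.AF
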