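import Pool.Agent.H586R2.AF.PTStm

/-!
# Basic closure properties of polynomial time: arithmetic, `cons` and case distinctions
-/

set_option autoImplicit false

namespace Pool.Agent.H586R2.AF

namespace L1b

/-- polynomially bounded -/
def Pol (B : ℕ → ℕ) : Prop := ∃ C k : ℕ, ∀ n, B n ≤ C * (n + 1) ^ k

theorem Pol.const (c : ℕ) : Pol (fun _ => c) := ⟨c, 0, fun n => by simp⟩

theorem Pol.self : Pol (fun n => n) := ⟨1, 1, fun n => by simp⟩

theorem Pol.mono_bd {B : ℕ → ℕ} (h : Pol B) :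
    ∃ C k : ℕ, 1 ≤ C ∧ ∀ n, B n ≤ C * (n + 1) ^ k := by
  obtain ⟨C, k, h⟩ := h
  exact ⟨C + 1, k, by omega, fun n => (h n).trans (Nat.mul_le_mul_right _ (by omega))⟩

theorem Pol.add {A B : ℕ → ℕ} (hA : Pol A) (hB : Pol B) : Pol (fun n => A n + B n) := by
  obtain ⟨C, k, hA⟩ := hA
  obtain ⟨C', k', hB⟩ := hB
  refine ⟨C + C', k + k', fun n => ?_⟩
  have h1 : (n + 1) ^ k ≤ (n + 1) ^ (k + k') := Nat.pow_le_pow_right (by omega) (by omega)
  have h2 : (n + 1) ^ k' ≤ (n + 1) ^ (k + k') := Nat.pow_le_pow_right (by omega) (by omega)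
  calc A n + B n ≤ C * (n + 1) ^ k + C' * (n + 1) ^ k' := Nat.add_le_add (hA n) (hB n)
    _ ≤ C * (n + 1) ^ (k + k') + C' * (n + 1) ^ (k + k') :=
        Nat.add_le_add (Nat.mul_le_mul_left _ h1) (Nat.mul_le_mul_left _ h2)
    _ = (C + C') * (n + 1) ^ (k + k') := by ring

theorem Pol.comp {A B : ℕ → ℕ} (hA : Pol A) (hB : Pol B) : Pol (fun n => A (B n)) := by
  obtain ⟨C, k, hA⟩ := hA
  obtain ⟨C', k', hB⟩ := hB
  refine ⟨C * (C' + 1) ^ k, k' * k, fun n => ?_⟩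
  have h0 : 1 ≤ (n + 1) ^ k' := Nat.one_le_pow _ _ (by omega)
  have h1 : B n + 1 ≤ (C' + 1) * (n + 1) ^ k' := by
    have := hB n
    nlinarith
  calc A (B n) ≤ C * (B n + 1) ^ k := hA _
    _ ≤ C * ((C' + 1) * (n + 1) ^ k') ^ k := Nat.mul_le_mul_left _ (Nat.pow_le_pow_left h1 _)
    _ = C * (C' + 1) ^ k * (n + 1) ^ (k' * k) := by rw [mul_pow, ← pow_mul]; ring

/-- an introduction rule with an arbitrary polynomially bounded function -/
theorem pt_intro {α β : Type} [Enc α] [Enc β] {f : α → β} (p : Prog) (B : ℕ → ℕ) (hB : Pol B)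
    (h : ∀ x : α, (∃ t, t ≤ B (sz x) ∧ Ev p (enc x) (enc (f x)) t) ∧ sz (f x) ≤ B (sz x)) :
    PT f := by
  obtain ⟨C, k, hB⟩ := hB
  refine ⟨p, C, k, fun x => ⟨?_, (h x).2.trans (hB _)⟩⟩
  obtain ⟨t, ht, he⟩ := (h x).1
  exact ⟨t, ht.trans (hB _), he⟩

/-- the elimination rule: a monotone bound -/
theorem pt_elim {α β : Type} [Enc α] [Enc β] {f : α → β} (h : PT f) :
    ∃ (p : Prog) (B : ℕ → ℕ), Pol B ∧ Monotone B ∧
      ∀ x : α, (∃ t, t ≤ B (sz x) ∧ Ev p (enc x) (enc (f x)) t) ∧ sz (f x) ≤ B (sz x) := by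
  obtain ⟨p, C, k, h⟩ := h
  refine ⟨p, fun n => C * (n + 1) ^ k, ⟨C, k, fun n => le_rfl⟩, ?_, h⟩
  intro a b hab
  exact Nat.mul_le_mul_left _ (Nat.pow_le_pow_left (by omega) _)

/-- constant time, result of size at most `sz x + c` -/
theorem pt_small {α β : Type} [Enc α] [Enc β] {f : α → β} (p : Prog) (c : ℕ)
    (h : ∀ x : α, Ev p (enc x) (enc (f x)) c ∧ sz (f x) ≤ sz x + c) : PT f := by
  refine pt_intro p (fun n => n + c) (Pol.self.add (Pol.const c)) fun x => ⟨⟨c, ?_, (h x).1⟩, (h x).2⟩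
  exact Nat.le_add_left _ _

/-- the common part of the case distinctions -/
theorem pt_cases {α β γ δ : Type} [Enc α] [Enc β] [Enc γ] [Enc δ] {f : α → β} {g : α → γ}
    {h : α × δ → γ} {F : α → γ} (Z : Prog) (c : ℕ) (hf : PT f) (hg : PT g) (hh : PT h)
    (H : ∀ x : α, (enc (f x) = D.nil ∧ F x = g x) ∨
      (enc (f x) ≠ D.nil ∧ ∃ y : δ, Ev Z (.cons (enc (f x)) (enc x)) (enc (x, y)) c ∧
        sz (x, y) ≤ sz x + sz (f x) + 1 ∧ F x = h (x, y))) : PT F := by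
  obtain ⟨pf, Bf, hBf, mf, hf⟩ := pt_elim hf
  obtain ⟨pg, Bg, hBg, mg, hg⟩ := pt_elim hg
  obtain ⟨ph, Bh, hBh, mh, hh⟩ := pt_elim hh
  refine pt_intro (.comp (.cons pf .id) (.ite .hd (.comp Z ph) (.comp .tl pg)))
    (fun n => Bf n + Bg n + Bh (n + Bf n + 1) + (c + 10)) ?_ fun x => ?_
  · exact ((hBf.add hBg).add (hBh.comp ((Pol.self.add hBf).add (Pol.const 1)))).add
      (Pol.const (c + 10))
  obtain ⟨⟨t1, ht1, e1⟩, s1⟩ := hf x
  have E1 : Ev (.cons pf .id) (enc x) (.cons (enc (f x)) (enc x)) (t1 + 1 + 1) :=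
    Ev.cons e1 (Ev.id _)
  rcases H x with ⟨hn, hF⟩ | ⟨hn, y, hZ, hy, hF⟩
  · obtain ⟨⟨t2, ht2, e2⟩, s2⟩ := hg x
    have E2 : Ev .hd (.cons (enc (f x)) (enc x)) .nil 1 := by
      have := Ev.hd (.cons (enc (f x)) (enc x))
      rwa [show (D.cons (enc (f x)) (enc x)).hd = .nil from hn] at this
    have E3 : Ev (.comp .tl pg) (.cons (enc (f x)) (enc x)) (enc (g x)) (1 + t2 + 1) :=
      Ev.comp (Ev.tl _) e2
    refine ⟨⟨t1 + 1 + 1 + (1 + (1 + t2 + 1) + 1) + 1, ?_, ?_⟩, ?_⟩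
    · omega
    · rw [hF]
      exact Ev.comp E1 (Ev.iteF E2 E3)
    · rw [hF]
      exact s2.trans (by omega)
  · obtain ⟨⟨t2, ht2, e2⟩, s2⟩ := hh (x, y)
    have hb : Bh (sz (x, y)) ≤ Bh (sz x + Bf (sz x) + 1) := mh (by omega)
    have E2 : Ev .hd (.cons (enc (f x)) (enc x)) (enc (f x)) 1 := Ev.hd _
    have E3 : Ev (.comp Z ph) (.cons (enc (f x)) (enc x)) (enc (h (x, y))) (c + t2 + 1) :=
      Ev.comp hZ e2
    refine ⟨⟨t1 + 1 + 1 + (1 + (c + t2 + 1) + 1) + 1, ?_, ?_⟩, ?_⟩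
    · omega
    · rw [hF]
      exact Ev.comp E1 (Ev.iteT E2 hn E3)
    · rw [hF]
      exact s2.trans (by omega)

end L1b

open L1b

theorem pt_add : PT (fun x : ℝ × ℝ => x.1 + x.2) :=
  pt_small .add 1 fun _ => ⟨Ev.add _, Nat.le_add_left _ _⟩

theorem pt_sub : PT (fun x : ℝ × ℝ => x.1 - x.2) :=
  pt_small .sub 1 fun _ => ⟨Ev.sub _, Nat.le_add_left _ _⟩

theorem pt_mul : PT (fun x : ℝ × ℝ => x.1 * x.2) :=
  pt_small .mul 1 fun _ => ⟨Ev.mul _, Nat.le_add_left _ _⟩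

theorem pt_div : PT (fun x : ℝ × ℝ => x.1 / x.2) :=
  pt_small .div 1 fun _ => ⟨Ev.div _, Nat.le_add_left _ _⟩

theorem pt_sqrt : PT (fun x : ℝ => Real.sqrt x) :=
  pt_small .sqrt 1 fun _ => ⟨Ev.sqrt _, Nat.le_add_left _ _⟩

theorem pt_pos : ∀ (b : ℝ → Bool), (∀ x, b x = true ↔ 0 < x) → PT b := by
  intro b hb
  refine pt_intro .pos (fun _ => 3) (Pol.const 3) fun x => ⟨⟨1, by norm_num, ?_⟩, ?_⟩
  · have h := Ev.pos (D.num x)
    have e : (D.num x).pos = enc (b x) := by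
      show (if 0 < x then D.tt else .nil) = if b x then D.tt else D.nil
      by_cases h0 : 0 < x
      · rw [if_pos h0, if_pos ((hb x).2 h0)]
      · rw [if_neg h0, if_neg (fun h1 => h0 ((hb x).1 h1))]
    rw [e] at h
    exact h
  · show D.size (if b x then D.tt else D.nil) ≤ 3
    split_ifs
    · simp [D.tt, D.size]
    · simp [D.size]

theorem pt_cons : ∀ {α : Type} [Enc α], PT (fun x : α × List α => x.1 :: x.2) := by
  intro α _
  exact pt_small .id 1 fun x => ⟨Ev.id _, Nat.le_add_right _ _⟩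

theorem pt_some : ∀ {α : Type} [Enc α], PT (fun x : α => some x) := by
  intro α _
  refine pt_small (.cons .id .nil) 3 fun x => ⟨Ev.cons (Ev.id _) (Ev.nil _), ?_⟩
  show (D.cons (enc x) .nil).size ≤ (enc x).size + 3
  simp only [D.size]
  omega

theorem pt_succ : PT (fun x : ℕ => x + 1) := by
  refine pt_small (.cons .nil .id) 3 fun x => ⟨Ev.cons (Ev.nil _) (Ev.id _), ?_⟩
  show (D.cons .nil (encNat x)).size ≤ (encNat x).size + 3
  simp only [D.size]
  omega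

theorem pt_casesList : ∀ {α β γ : Type} [Enc α] [Enc β] [Enc γ] {f : α → List β} {g : α → γ}
    {h : α × β × List β → γ}, PT f → PT g → PT h →
    PT (fun x => match f x with | [] => g x | b :: l => h (x, b, l)) := by
  intro α β γ _ _ _ f g h hf hg hh
  refine pt_cases (δ := β × List β) (.cons .tl .hd) 3 hf hg hh fun x => ?_
  cases hx : f x with
  | nil => exact Or.inl ⟨rfl, rfl⟩
  | cons b l =>
    refine Or.inr ⟨fun h => D.noConfusion h, (b, l), Ev.cons (Ev.tl _) (Ev.hd _), ?_, rfl⟩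
    show (D.cons (enc x) (.cons (enc b) (encList l))).size ≤
      (enc x).size + (D.cons (enc b) (encList l)).size + 1
    simp only [D.size]
    omega

theorem pt_casesOpt : ∀ {α β γ : Type} [Enc α] [Enc β] [Enc γ] {f : α → Option β} {g : α → γ}
    {h : α × β → γ}, PT f → PT g → PT h →
    PT (fun x => match f x with | Option.none => g x | Option.some b => h (x, b)) := by
  intro α β γ _ _ _ f g h hf hg hh
  refine pt_cases (δ := β) (.cons .tl (.comp .hd .hd)) 5 hf hg hh fun x => ?_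
  cases hx : f x with
  | none => exact Or.inl ⟨rfl, rfl⟩
  | some b =>
    refine Or.inr ⟨fun h => D.noConfusion h, b,
      Ev.cons (t := 1) (u := 3) (Ev.tl _) (Ev.comp (Ev.hd _) (Ev.hd _)), ?_, rfl⟩
    show (D.cons (enc x) (enc b)).size ≤ (enc x).size + (D.cons (enc b) .nil).size + 1
    simp only [D.size]
    omega

theorem pt_casesNat : ∀ {α γ : Type} [Enc α] [Enc γ] {f : α → ℕ} {g : α → γ} {h : α × ℕ → γ},
    PT f → PT g → PT h → PT (fun x => match f x with | 0 => g x | k + 1 => h (x, k)) := by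
  intro α γ _ _ f g h hf hg hh
  refine pt_cases (δ := ℕ) (.cons .tl (.comp .hd .tl)) 5 hf hg hh fun x => ?_
  cases hx : f x with
  | zero => exact Or.inl ⟨rfl, rfl⟩
  | succ k =>
    refine Or.inr ⟨fun h => D.noConfusion h, k,
      Ev.cons (t := 1) (u := 3) (Ev.tl _) (Ev.comp (Ev.hd _) (Ev.tl _)), ?_, rfl⟩
    show (D.cons (enc x) (encNat k)).size ≤ (enc x).size + (D.cons .nil (encNat k)).size + 1
    simp only [D.size]
    omega

end Pool.Agent.H586R2.AF
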