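import Pool.Agent.H586R2.AF.PTStm

/-!
# The loop lemma: `foldl` is computable in polynomial time
-/

set_option autoImplicit false

namespace Pool.Agent.H586R2.AF

namespace TL2

theorem sz_nil {γ : Type} [Enc γ] : sz ([] : List γ) = 1 := rfl

theorem sz_cons {γ : Type} [Enc γ] (c : γ) (l : List γ) : sz (c :: l) = sz c + sz l + 1 := rfl

theorem length_le {γ : Type} [Enc γ] (l : List γ) : l.length ≤ sz l := by
  induction l with
  | nil => simp
  | cons c l ih =>
    rw [sz_cons, List.length_cons]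
    omega

theorem sz_mem {γ : Type} [Enc γ] (l : List γ) (c : γ) (h : c ∈ l) : sz c ≤ sz l := by
  induction l with
  | nil => simp at h
  | cons d l ih =>
    rw [sz_cons]
    rcases List.mem_cons.mp h with rfl | h
    · omega
    · have := ih h
      omega

/-- one step of the loop -/
def body (pg : Prog) : Prog :=
  .cons (.comp .hd .tl)
    (.cons (.comp (.cons (.comp .tl .tl) (.cons (.comp .tl .hd) (.comp .hd .hd))) pg)
      (.comp .tl .tl))

theorem ev_body (pg : Prog) (c rest acc x acc' : D) (t : ℕ)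
    (h : Ev pg (.cons x (.cons acc c)) acc' t) :
    Ev (body pg) (.cons (.cons c rest) (.cons acc x)) (.cons rest (.cons acc' x)) (t + 20) := by
  have h1 : Ev (.comp .hd .tl) (.cons (.cons c rest) (.cons acc x)) rest 3 :=
    Ev.comp (Ev.hd _) (Ev.tl _)
  have h2 : Ev (.comp .tl .tl) (.cons (.cons c rest) (.cons acc x)) x 3 :=
    Ev.comp (Ev.tl _) (Ev.tl _)
  have h3 : Ev (.comp .tl .hd) (.cons (.cons c rest) (.cons acc x)) acc 3 :=
    Ev.comp (Ev.tl _) (Ev.hd _)
  have h4 : Ev (.comp .hd .hd) (.cons (.cons c rest) (.cons acc x)) c 3 :=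
    Ev.comp (Ev.hd _) (Ev.hd _)
  have h5 := Ev.comp (Ev.cons h2 (Ev.cons h3 h4)) h
  have h6 := Ev.cons h1 (Ev.cons h5 h2)
  have e : 3 + (3 + (3 + 3 + 1) + 1 + t + 1 + 3 + 1) + 1 = t + 20 := by omega
  rw [e] at h6
  exact h6

theorem loop {α β γ : Type} [Enc α] [Enc β] [Enc γ] {l : α → List γ} {init : α → β}
    {g : α × β × γ → β} (pg : Prog) (x : α) (T : ℕ)
    (hT : ∀ (pre : List γ) (c : γ), (pre ++ [c]) <+: l x → ∃ t, t ≤ T ∧
      Ev pg (enc (x, pre.foldl (fun b c => g (x, b, c)) (init x), c))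
        (enc (g (x, pre.foldl (fun b c => g (x, b, c)) (init x), c))) t) :
    ∀ rest pre : List γ, pre ++ rest = l x → ∃ t, t ≤ 2 + rest.length * (T + 22) ∧
      Ev (.wh .hd (body pg))
        (.cons (encList rest)
          (.cons (enc (pre.foldl (fun b c => g (x, b, c)) (init x))) (enc x)))
        (.cons .nil (.cons (enc ((l x).foldl (fun b c => g (x, b, c)) (init x))) (enc x))) t := by
  intro rest
  induction rest with
  | nil =>
    intro pre h
    rw [List.append_nil] at h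
    subst h
    refine ⟨2, by simp, ?_⟩
    exact Ev.whF (Ev.hd _)
  | cons c rest ih =>
    intro pre h
    obtain ⟨t, ht, hev⟩ := hT pre c ⟨rest, by rw [← h]; simp⟩
    obtain ⟨u, hu, hev2⟩ := ih (pre ++ [c]) (by rw [← h]; simp)
    rw [List.foldl_append] at hev2
    have h1 := ev_body pg (enc c) (encList rest)
      (enc (pre.foldl (fun b c => g (x, b, c)) (init x))) (enc x) _ t hev
    have h2 := Ev.whT (c := .hd) (Ev.hd (.cons (encList (c :: rest))
          (.cons (enc (pre.foldl (fun b c => g (x, b, c)) (init x))) (enc x)))) (by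
          intro h
          cases h) h1 hev2
    refine ⟨1 + (t + 20) + u + 1, ?_, h2⟩
    rw [List.length_cons, Nat.add_mul]
    omega

/-- polynomial bounds -/
theorem poly_le {X : ℕ} (hX : 1 ≤ X) {a C k K : ℕ} (h : a ≤ C * X ^ k) (hk : k ≤ K) :
    a ≤ C * X ^ K :=
  h.trans (Nat.mul_le_mul_left _ (Nat.pow_le_pow_right hX hk))

end TL2

open TL2 in
theorem pt_foldl : ∀ {α β γ : Type} [Enc α] [Enc β] [Enc γ] {l : α → List γ} {init : α → β}
    {g : α × β × γ → β}, PT l → PT init → PT g →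
    (∃ C k : ℕ, ∀ (x : α) (pre : List γ), pre <+: l x →
      sz (pre.foldl (fun b c => g (x, b, c)) (init x)) ≤ C * (sz x + 1) ^ k) →
    PT (fun x => (l x).foldl (fun b c => g (x, b, c)) (init x)) := by
  intro α β γ _ _ _ l init g ⟨pl, Cl, kl, hl⟩ ⟨pi, Ci, ki, hi⟩ ⟨pg, Cg, kg, hg⟩ ⟨C, k, hC⟩
  -- exponents and constants
  set K : ℕ := 1 + k + kl with hK
  set A : ℕ := 3 + C + Cl with hA
  set B : ℕ := Cg * A ^ kg with hB
  set M : ℕ := kl + ki + K * kg + kl + k with hM
  refine ⟨.comp (.cons pl (.cons pi .id)) (.comp (.wh .hd (body pg)) (.comp .tl .hd)),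
    Cl + Ci + Cl * (B + 22) + 20 + C, M, fun x => ?_⟩
  set X : ℕ := sz x + 1 with hX
  have hX1 : 1 ≤ X := by omega
  obtain ⟨⟨t1, ht1, e1⟩, s1⟩ := hl x
  obtain ⟨⟨t2, ht2, e2⟩, s2⟩ := hi x
  -- the cost of one step
  have hT : ∀ (pre : List γ) (c : γ), (pre ++ [c]) <+: l x → ∃ t, t ≤ B * X ^ (K * kg) ∧
      Ev pg (enc (x, pre.foldl (fun b c => g (x, b, c)) (init x), c))
        (enc (g (x, pre.foldl (fun b c => g (x, b, c)) (init x), c))) t := by
    intro pre c hpre
    obtain ⟨⟨t, ht, e⟩, -⟩ := hg (x, pre.foldl (fun b c => g (x, b, c)) (init x), c)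
    refine ⟨t, ht.trans ?_, e⟩
    have hpre' : pre <+: l x := (List.prefix_append pre [c]).trans hpre
    have hc : c ∈ l x := by
      obtain ⟨r, hr⟩ := hpre
      rw [← hr]
      simp
    have b1 : sz (pre.foldl (fun b c => g (x, b, c)) (init x)) ≤ C * X ^ K :=
      poly_le hX1 (hC x pre hpre') (by omega)
    have b2 : sz c ≤ Cl * X ^ K := (sz_mem _ _ hc).trans (poly_le hX1 s1 (by omega))
    have b3 : sz x + 1 ≤ 1 * X ^ K := poly_le (k := 1) hX1 (by simp [hX]) (by omega)
    have b4 : 1 ≤ X ^ K := Nat.one_le_pow _ _ hX1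
    have b5 : sz (x, pre.foldl (fun b c => g (x, b, c)) (init x), c) + 1 =
        (sz x + 1) + sz (pre.foldl (fun b c => g (x, b, c)) (init x)) + sz c + 2 := by
      have : sz (x, pre.foldl (fun b c => g (x, b, c)) (init x), c) =
        sz x + (sz (pre.foldl (fun b c => g (x, b, c)) (init x)) + sz c + 1) + 1 := rfl
      rw [this]
      ring
    have b6 : sz (x, pre.foldl (fun b c => g (x, b, c)) (init x), c) + 1 ≤ A * X ^ K := by
      rw [b5, hA]
      have : (3 + C + Cl) * X ^ K = 1 * X ^ K + C * X ^ K + Cl * X ^ K + 2 * X ^ K := by ring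
      rw [this]
      omega
    calc Cg * (sz (x, pre.foldl (fun b c => g (x, b, c)) (init x), c) + 1) ^ kg
        ≤ Cg * (A * X ^ K) ^ kg := Nat.mul_le_mul_left _ (Nat.pow_le_pow_left b6 _)
      _ = B * X ^ (K * kg) := by
          rw [hB, mul_pow, ← pow_mul]
          ring
  obtain ⟨t3, ht3, e3⟩ := loop pg x (B * X ^ (K * kg)) hT (l x) [] rfl
  have hXM : 1 ≤ X ^ M := Nat.one_le_pow _ _ hX1
  constructor
  · refine ⟨(t1 + (t2 + 1 + 1) + 1) + (t3 + (1 + 1 + 1) + 1) + 1, ?_, ?_⟩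
    · have c1 : t1 ≤ Cl * X ^ M := poly_le hX1 ht1 (by omega)
      have c2 : t2 ≤ Ci * X ^ M := poly_le hX1 ht2 (by omega)
      have c3 : (l x).length * (B * X ^ (K * kg) + 22) ≤ Cl * (B + 22) * X ^ M := by
        have d1 : (l x).length ≤ Cl * X ^ kl := (length_le _).trans s1
        have d2 : B * X ^ (K * kg) + 22 ≤ (B + 22) * X ^ (K * kg) := by
          have : 1 ≤ X ^ (K * kg) := Nat.one_le_pow _ _ hX1
          nlinarith
        calc (l x).length * (B * X ^ (K * kg) + 22) ≤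
            (Cl * X ^ kl) * ((B + 22) * X ^ (K * kg)) := Nat.mul_le_mul d1 d2
          _ = Cl * (B + 22) * X ^ (kl + K * kg) := by rw [pow_add]; ring
          _ ≤ Cl * (B + 22) * X ^ M :=
            Nat.mul_le_mul_left _ (Nat.pow_le_pow_right hX1 (by omega))
      have c4 : (Cl + Ci + Cl * (B + 22) + 20 + C) * X ^ M =
          Cl * X ^ M + Ci * X ^ M + Cl * (B + 22) * X ^ M + 20 * X ^ M + C * X ^ M := by ring
      rw [c4]
      have c5 : 20 ≤ 20 * X ^ M := by omega
      omega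
    · exact Ev.comp (Ev.cons e1 (Ev.cons e2 (Ev.id _))) (Ev.comp e3 (Ev.comp (Ev.tl _) (Ev.hd _)))
  · have d1 := poly_le hX1 (hC x (l x) (List.prefix_refl _)) (show k ≤ M by omega)
    refine d1.trans (Nat.mul_le_mul_right _ (by omega))

end Pool.Agent.H586R2.AF
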