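import Pool.Agent.H586R2.AF.PTStm

/-!
# Task L3a: map, filterMap, filter, flatMap, any, find, append, reverse, length
-/

set_option autoImplicit false

namespace Pool.Agent.H586R2.AF

namespace L3a

variable {α β γ : Type} [Enc α] [Enc β] [Enc γ]

theorem PT.congr' {f g : α → β} (h : PT f) (e : ∀ x, f x = g x) : PT g := by
  have : f = g := funext e
  rw [← this]
  exact h

theorem size_pos (d : D) : 1 ≤ d.size := by
  cases d <;> simp [D.size]

theorem sz_pair (a : α) (b : β) : sz (a, b) = sz a + sz b + 1 := rfl

theorem sz_nil : sz ([] : List α) = 1 := rfl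

theorem sz_cons (a : α) (l : List α) : sz (a :: l) = sz a + sz l + 1 := rfl

theorem sz_pos (a : α) : 1 ≤ sz a := size_pos _

theorem sz_append (l m : List α) : sz (l ++ m) + 1 = sz l + sz m := by
  induction l with
  | nil => rw [List.nil_append, sz_nil]; omega
  | cons a l ih => rw [List.cons_append, sz_cons, sz_cons]; omega

theorem sz_reverse (l : List α) : sz l.reverse = sz l := by
  induction l with
  | nil => rfl
  | cons a l ih =>
    rw [List.reverse_cons, sz_cons]
    have := sz_append l.reverse [a]
    rw [sz_cons, sz_nil] at this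
    omega

theorem sz_prefix {l m : List α} (h : l <+: m) : sz l ≤ sz m := by
  obtain ⟨r, rfl⟩ := h
  have h1 := sz_append l r
  have h2 := sz_pos r
  omega

theorem sz_mem {l : List α} {a : α} (h : a ∈ l) : sz a ≤ sz l := by
  induction l with
  | nil => simp at h
  | cons b l ih =>
    rw [sz_cons]
    rcases List.mem_cons.1 h with rfl | h
    · omega
    · have := ih h
      omega

theorem length_le (l : List α) : 2 * l.length + 1 ≤ sz l := by
  induction l with
  | nil => simp [sz_nil]
  | cons b l ih =>
    rw [sz_cons, List.length_cons]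
    have := sz_pos b
    omega

theorem sz_nat (n : ℕ) : sz n = 2 * n + 1 := by
  induction n with
  | zero => rfl
  | succ n ih =>
    have : sz (n + 1) = 1 + sz n + 1 := rfl
    omega

omit [Enc β] in
theorem flatMap_sz (g : β → List γ) (l : List β) (G : ℕ) (h : ∀ b ∈ l, sz (g b) ≤ G) :
    sz (l.flatMap g) ≤ 1 + l.length * G := by
  induction l with
  | nil => simp [sz_nil]
  | cons b l ih =>
    rw [List.flatMap_cons]
    have h1 := sz_append (g b) (l.flatMap g)
    have h2 := h b (by simp)
    have h3 := ih (fun c hc => h c (by simp [hc]))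
    rw [List.length_cons, Nat.succ_mul]
    omega

omit [Enc β] [Enc γ] in
theorem foldl_append_eq (g : β → List γ) (l : List β) : ∀ acc : List γ,
    l.foldl (fun acc b => acc ++ g b) acc = acc ++ l.flatMap g := by
  induction l with
  | nil => intro acc; simp
  | cons b l ih => intro acc; rw [List.foldl_cons, ih, List.flatMap_cons, List.append_assoc]

omit [Enc β] in
theorem foldl_cons_eq (l : List β) : ∀ acc : List β,
    l.foldl (fun acc b => b :: acc) acc = l.reverse ++ acc := by
  induction l with
  | nil => intro acc; simp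
  | cons b l ih => intro acc; rw [List.foldl_cons, ih, List.reverse_cons, List.append_assoc]; rfl

omit [Enc β] in
theorem foldl_len (l : List β) : ∀ n : ℕ, l.foldl (fun n _ => n + 1) n = n + l.length := by
  induction l with
  | nil => intro n; rfl
  | cons b l ih => intro n; rw [List.foldl_cons, ih, List.length_cons]; omega

end L3a

open L3a

theorem pt2_reverse (L : PTLib) {α : Type} [Enc α] : PT (fun x : List α => x.reverse) := by
  have hg : PT (fun x : List α × List α × α => x.2.2 :: x.2.1) :=
    L.comp (L.pair (L.comp L.snd L.snd) (L.comp L.snd L.fst)) L.cons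
  refine PT.congr' (L.foldl (l := fun x : List α => x) (init := fun _ => ([] : List α))
    (g := fun x => x.2.2 :: x.2.1) L.id L.cNil hg ⟨1, 1, ?_⟩) ?_
  · intro x pre hpre
    have h1 := foldl_cons_eq pre []
    simp only [h1, List.append_nil, sz_reverse, pow_one]
    have := sz_prefix hpre
    omega
  · intro x
    have h1 := foldl_cons_eq x []
    simp only [h1, List.append_nil]

theorem pt2_append (L : PTLib) {α : Type} [Enc α] :
    PT (fun x : List α × List α => x.1 ++ x.2) := by
  have hg : PT (fun x : (List α × List α) × List α × α => x.2.2 :: x.2.1) :=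
    L.comp (L.pair (L.comp L.snd L.snd) (L.comp L.snd L.fst)) L.cons
  have hr : PT (fun x : List α × List α => x.1.reverse) := L.comp L.fst (pt2_reverse L)
  refine PT.congr' (L.foldl (l := fun x : List α × List α => x.1.reverse)
    (init := fun x => x.2) (g := fun x => x.2.2 :: x.2.1) hr L.snd hg ⟨1, 1, ?_⟩) ?_
  · intro x pre hpre
    have h1 := foldl_cons_eq pre x.2
    simp only [h1, pow_one]
    have h2 := sz_append pre.reverse x.2
    have h3 := sz_prefix hpre
    rw [sz_reverse] at h2 h3
    have h4 : sz x = sz x.1 + sz x.2 + 1 := rfl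
    omega
  · intro x
    have h1 := foldl_cons_eq x.1.reverse x.2
    simp only [h1, List.reverse_reverse]

theorem pt2_flatMap (L : PTLib) {α β γ : Type} [Enc α] [Enc β] [Enc γ] {f : α → List β}
    {g : α × β → List γ} (hf : PT f) (hg : PT g) :
    PT (fun x => (f x).flatMap (fun b => g (x, b))) := by
  have hg' : PT (fun x : α × List γ × β => x.2.1 ++ g (x.1, x.2.2)) :=
    L.comp (L.pair (L.comp L.snd L.fst) (L.comp (L.pair L.fst (L.comp L.snd L.snd)) hg))
      (pt2_append L)
  obtain ⟨pf, C', k', hf'⟩ := id hf
  obtain ⟨pg, C, k, hgs⟩ := id hg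
  refine PT.congr' (L.foldl (l := f) (init := fun _ => ([] : List γ))
    (g := fun x => x.2.1 ++ g (x.1, x.2.2)) hf L.cNil hg'
    ⟨1 + C' * (C * (C' + 2) ^ k), k' + (k' + 1) * k, ?_⟩) ?_
  · intro x pre hpre
    have h1 := foldl_append_eq (fun b => g (x, b)) pre []
    simp only [h1, List.nil_append]
    set s := sz x + 1 with hs
    have hs1 : 1 ≤ s := by omega
    have hfx : sz (f x) ≤ C' * s ^ k' := (hf' x).2
    have hsub : ∀ b ∈ pre, b ∈ f x := fun b hb => hpre.subset hb
    have h2 : ∀ b ∈ pre, sz (g (x, b)) ≤ C * (C' + 2) ^ k * s ^ ((k' + 1) * k) := by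
      intro b hb
      have h3 := (hgs (x, b)).2
      have h4 := sz_mem (hsub b hb)
      rw [sz_pair] at h3
      have h5 : sz x + sz b + 1 + 1 ≤ (C' + 2) * s ^ (k' + 1) := by
        have h6 : s ^ k' ≤ s ^ (k' + 1) := Nat.pow_le_pow_right hs1 (by omega)
        have h7 : s ≤ s ^ (k' + 1) := by
          calc s = s ^ 1 := (pow_one s).symm
            _ ≤ s ^ (k' + 1) := Nat.pow_le_pow_right hs1 (by omega)
        have h8 : C' * s ^ k' ≤ C' * s ^ (k' + 1) := Nat.mul_le_mul_left _ h6
        have h9 : (C' + 2) * s ^ (k' + 1) = C' * s ^ (k' + 1) + 2 * s ^ (k' + 1) := by ring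
        rw [h9]
        omega
      calc sz (g (x, b)) ≤ C * (sz x + sz b + 1 + 1) ^ k := h3
        _ ≤ C * ((C' + 2) * s ^ (k' + 1)) ^ k := Nat.mul_le_mul_left _ (Nat.pow_le_pow_left h5 k)
        _ = C * (C' + 2) ^ k * s ^ ((k' + 1) * k) := by rw [mul_pow, ← pow_mul]; ring
    have h3 := flatMap_sz (fun b => g (x, b)) pre _ h2
    refine h3.trans ?_
    have h4 : pre.length ≤ C' * s ^ k' := by
      have h5 := length_le pre
      have h6 := sz_prefix hpre
      omega
    have h5 : pre.length * (C * (C' + 2) ^ k * s ^ ((k' + 1) * k)) ≤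
        (C' * s ^ k') * (C * (C' + 2) ^ k * s ^ ((k' + 1) * k)) := Nat.mul_le_mul_right _ h4
    have h6 : 1 ≤ s ^ (k' + (k' + 1) * k) := Nat.one_le_pow _ _ (by omega)
    calc 1 + pre.length * (C * (C' + 2) ^ k * s ^ ((k' + 1) * k))
        ≤ s ^ (k' + (k' + 1) * k) + (C' * s ^ k') * (C * (C' + 2) ^ k * s ^ ((k' + 1) * k)) := by
          omega
      _ = (1 + C' * (C * (C' + 2) ^ k)) * s ^ (k' + (k' + 1) * k) := by
          rw [pow_add]; ring
  · intro x
    have h1 := foldl_append_eq (fun b => g (x, b)) (f x) []
    simp only [h1, List.nil_append]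

theorem pt2_map (L : PTLib) {α β γ : Type} [Enc α] [Enc β] [Enc γ] {f : α → List β}
    {g : α × β → γ} (hf : PT f) (hg : PT g) : PT (fun x => (f x).map (fun b => g (x, b))) := by
  have hg' : PT (fun x : α × β => [g x]) := L.comp (L.pair hg L.cNil) L.cons
  refine PT.congr' (pt2_flatMap L hf hg') fun x => ?_
  induction f x with
  | nil => rfl
  | cons b l ih => rw [List.flatMap_cons, List.map_cons, ih]; rfl

theorem pt2_filterMap (L : PTLib) {α β γ : Type} [Enc α] [Enc β] [Enc γ] {f : α → List β}
    {g : α × β → Option γ} (hf : PT f) (hg : PT g) :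
    PT (fun x => (f x).filterMap (fun b => g (x, b))) := by
  have hh : PT (fun x : (α × β) × γ => [x.2]) := L.comp (L.pair L.snd L.cNil) L.cons
  have hg' : PT (fun x : α × β => match g x with
      | Option.none => ([] : List γ)
      | Option.some b => [b]) :=
    L.casesOpt (f := g) (g := fun _ => ([] : List γ)) (h := fun x => [x.2]) hg L.cNil hh
  refine PT.congr' (pt2_flatMap L hf hg') fun x => ?_
  induction f x with
  | nil => rfl
  | cons b l ih =>
    rw [List.flatMap_cons, List.filterMap_cons, ih]
    cases g (x, b) <;> rfl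

theorem pt2_filter (L : PTLib) {α β : Type} [Enc α] [Enc β] {f : α → List β}
    {g : α × β → Bool} (hf : PT f) (hg : PT g) :
    PT (fun x => (f x).filter (fun b => g (x, b))) := by
  have hg' : PT (fun x : α × β => if g x = true then [x.2] else []) :=
    L.ite hg (L.comp (L.pair L.snd L.cNil) L.cons) L.cNil
  refine PT.congr' (pt2_flatMap L hf hg') fun x => ?_
  induction f x with
  | nil => rfl
  | cons b l ih =>
    rw [List.flatMap_cons, List.filter_cons, ih]
    split_ifs <;> rfl

theorem pt2_any (L : PTLib) {α β : Type} [Enc α] [Enc β] {f : α → List β}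
    {g : α × β → Bool} (hf : PT f) (hg : PT g) :
    PT (fun x => (f x).any (fun b => g (x, b))) := by
  refine PT.congr' (L.casesList (f := fun x => (f x).filter (fun b => g (x, b)))
    (g := fun _ => false) (h := fun _ => true) (pt2_filter L hf hg) (L.cBool false)
    (L.cBool true)) fun x => ?_
  induction f x with
  | nil => rfl
  | cons b l ih =>
    rw [List.filter_cons, List.any_cons, ← ih]
    split_ifs with h
    · simp [h]
    · simp [h]

theorem pt2_find (L : PTLib) {α β : Type} [Enc α] [Enc β] {f : α → List β}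
    {g : α × β → Bool} (hf : PT f) (hg : PT g) :
    PT (fun x => (f x).find? (fun b => g (x, b))) := by
  have hh : PT (fun x : α × β × List β => some x.2.1) := L.comp (L.comp L.snd L.fst) L.some
  refine PT.congr' (L.casesList (f := fun x => (f x).filter (fun b => g (x, b)))
    (g := fun _ => (none : Option β)) (h := fun x => some x.2.1) (pt2_filter L hf hg) L.cNone
    hh) fun x => ?_
  induction f x with
  | nil => rfl
  | cons b l ih =>
    rw [List.filter_cons, List.find?_cons, ← ih]
    cases h : g (x, b)
    · simp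
    · simp

theorem pt2_length (L : PTLib) {α : Type} [Enc α] : PT (fun x : List α => x.length) := by
  have hg : PT (fun x : List α × ℕ × α => x.2.1 + 1) := L.comp (L.comp L.snd L.fst) L.succ
  refine PT.congr' (L.foldl (l := fun x : List α => x) (init := fun _ => (0 : ℕ))
    (g := fun x => x.2.1 + 1) L.id (L.cNat 0) hg ⟨1, 1, ?_⟩) ?_
  · intro x pre hpre
    have h1 := foldl_len pre 0
    simp only [h1, zero_add, pow_one]
    rw [sz_nat]
    have h2 := length_le pre
    have h3 := sz_prefix hpre
    omega
  · intro x
    have h1 := foldl_len x 0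
    simp only [h1, zero_add]

end Pool.Agent.H586R2.AF
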