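import Pool.Agent.H586R2.AF.PTStm

/-! L3b: natural numbers, getD, take, range are PT. -/

set_option autoImplicit false

namespace Pool.Agent.H586R2.AF

namespace TL3b

theorem congr {α β : Type} [Enc α] [Enc β] {f g : α → β} (h : PT f) (e : ∀ x, f x = g x) :
    PT g := by
  have : f = g := funext e
  rwa [this] at h

/-- composition with a function of two variables -/
theorem comp2 (L : PTLib) {α β γ δ : Type} [Enc α] [Enc β] [Enc γ] [Enc δ] {f : α → β}
    {g : α → γ} {h : β × γ → δ} (hf : PT f) (hg : PT g) (hh : PT h) :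
    PT (fun x => h (f x, g x)) := L.comp (L.pair hf hg) hh

theorem sz_zero : sz (0 : ℕ) = 1 := rfl

theorem sz_nat (n : ℕ) : sz n = 2 * n + 1 := by
  induction n with
  | zero => rfl
  | succ n ih =>
    have : sz (n + 1) = 1 + sz n + 1 := rfl
    omega

theorem sz_pair {α β : Type} [Enc α] [Enc β] (x : α × β) : sz x = sz x.1 + sz x.2 + 1 := rfl

theorem sz_nil {α : Type} [Enc α] : sz ([] : List α) = 1 := rfl

theorem sz_cons {α : Type} [Enc α] (a : α) (l : List α) : sz (a :: l) = sz a + sz l + 1 := rfl

theorem enc_replicate (n : ℕ) : enc (List.replicate n ()) = enc n := by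
  induction n with
  | zero => rfl
  | succ n ih =>
    have h1 : enc (List.replicate (n + 1) ()) = D.cons .nil (enc (List.replicate n ())) := rfl
    have h2 : enc (n + 1) = D.cons .nil (enc n) := rfl
    rw [h1, h2, ih]

theorem replicate_pt (L : PTLib) : PT (fun n : ℕ => List.replicate n ()) := by
  obtain ⟨p, C, k, h⟩ := L.id (α := ℕ)
  refine ⟨p, C, k, fun x => ?_⟩
  have := h x
  simp only [sz, enc_replicate] at this ⊢
  exact this

theorem prefix_replicate {n : ℕ} {pre : List Unit} (h : pre <+: List.replicate n ()) :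
    pre.length ≤ n := by
  have := h.length_le
  simpa using this

theorem iter (L : PTLib) {α β : Type} [Enc α] [Enc β] {n : α → ℕ} {init : α → β}
    {g : α × β → β} (hn : PT n) (hi : PT init) (hg : PT g)
    (hb : ∃ C k : ℕ, ∀ (x : α) (m : ℕ), m ≤ n x →
      sz ((fun b => g (x, b))^[m] (init x)) ≤ C * (sz x + 1) ^ k) :
    PT (fun x => (fun b => g (x, b))^[n x] (init x)) := by
  obtain ⟨C, k, hb⟩ := hb
  have hgg : PT (fun z : α × β × Unit => g (z.1, z.2.1)) :=
    L.comp (L.pair L.fst (L.comp L.snd L.fst)) hg
  have := L.foldl (L.comp hn (replicate_pt L)) hi hgg ⟨C, k, by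
    intro x pre hpre
    simp only
    rw [List.foldl_const (f := fun b => g (x, b))]
    exact hb x _ (prefix_replicate hpre)⟩
  refine congr this ?_
  intro x
  simp only
  rw [List.foldl_const (f := fun b => g (x, b)), List.length_replicate]

theorem bd {a b : ℕ} (h : a ≤ b) (c : ℕ) (hc : 1 ≤ c) : a ≤ 1 * (b + 1) ^ c := by
  rw [one_mul]
  exact h.trans ((Nat.le_succ b).trans (Nat.le_self_pow (by omega) _))

theorem succ_iter (m a : ℕ) : (fun b : ℕ => b + 1)^[m] a = a + m := by
  induction m generalizing a with
  | zero => rfl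
  | succ m ih =>
    rw [Function.iterate_succ_apply, ih]
    omega

theorem pred_iter (m a : ℕ) : (fun b : ℕ => b - 1)^[m] a = a - m := by
  induction m generalizing a with
  | zero => rfl
  | succ m ih =>
    rw [Function.iterate_succ_apply, ih]
    omega

theorem add_iter (y m a : ℕ) : (fun b : ℕ => b + y)^[m] a = a + m * y := by
  induction m generalizing a with
  | zero => simp
  | succ m ih =>
    rw [Function.iterate_succ_apply, ih]
    ring

theorem tail_iter {α : Type} (m : ℕ) (l : List α) : (fun b : List α => b.tail)^[m] l = l.drop m := by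
  induction m generalizing l with
  | zero => rfl
  | succ m ih =>
    rw [Function.iterate_succ_apply, ih]
    simp

theorem sz_drop {α : Type} [Enc α] (m : ℕ) (l : List α) : sz (l.drop m) ≤ sz l := by
  induction m generalizing l with
  | zero => simp
  | succ m ih =>
    cases l with
    | nil => simp
    | cons a l =>
      rw [List.drop_succ_cons, sz_cons]
      have := ih l
      omega

theorem sz_append {α : Type} [Enc α] (l m : List α) : sz (l ++ m) + 1 = sz l + sz m := by
  induction l with
  | nil => simp [sz_nil]; ring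
  | cons a l ih =>
    rw [List.cons_append, sz_cons, sz_cons]
    omega

theorem sz_reverse {α : Type} [Enc α] (l : List α) : sz l.reverse = sz l := by
  induction l with
  | nil => simp
  | cons a l ih =>
    rw [List.reverse_cons, sz_cons]
    have := sz_append l.reverse [a]
    rw [sz_cons, sz_nil] at this
    omega

theorem length_le_sz {α : Type} [Enc α] (l : List α) : 2 * l.length ≤ sz l := by
  induction l with
  | nil => simp
  | cons a l ih =>
    rw [sz_cons, List.length_cons]
    have : 1 ≤ sz a := by
      unfold sz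
      cases enc a <;> simp [D.size]
    omega

theorem length_pt (L : PTLib) {α : Type} [Enc α] : PT (fun x : List α => x.length) := by
  have h := L.foldl (α := List α) (β := ℕ) (γ := α) (l := fun x => x) (init := fun _ => 0)
    (g := fun z => z.2.1 + 1) L.id (L.cNat 0) (L.comp (L.comp L.snd L.fst) L.succ) ⟨1, 1, by
      intro x pre hpre
      have h1 : pre.foldl (fun b _ => b + 1) 0 = pre.length := by
        rw [List.foldl_const (f := fun b => b + 1), succ_iter, Nat.zero_add]
      simp only
      rw [h1, sz_nat]
      have h2 := hpre.length_le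
      have h3 := length_le_sz x
      rw [one_mul, pow_one]
      omega⟩
  refine congr h ?_
  intro x
  simp only
  rw [List.foldl_const (f := fun b => b + 1), succ_iter, Nat.zero_add]

theorem foldl_cons_eq {α : Type} (l m : List α) :
    l.foldl (fun b c => c :: b) m = l.reverse ++ m := by
  induction l generalizing m with
  | nil => rfl
  | cons a l ih =>
    rw [List.foldl_cons, ih]
    simp

theorem reverse_pt (L : PTLib) {α : Type} [Enc α] : PT (fun x : List α => x.reverse) := by
  have h := L.foldl (α := List α) (β := List α) (γ := α) (l := fun x => x) (init := fun _ => [])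
    (g := fun z => z.2.2 :: z.2.1) L.id L.cNil
    (comp2 L (L.comp L.snd L.snd) (L.comp L.snd L.fst) L.cons) ⟨1, 1, by
      intro x pre hpre
      simp only
      rw [foldl_cons_eq, List.append_nil, sz_reverse]
      obtain ⟨t, ht⟩ := hpre
      have := sz_append pre t
      rw [ht] at this
      have h1 : 1 ≤ sz t := by
        cases t with
        | nil => rw [sz_nil]
        | cons a l => rw [sz_cons]; omega
      rw [one_mul, pow_one]
      omega⟩
  refine congr h ?_
  intro x
  simp only
  rw [foldl_cons_eq, List.append_nil]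

theorem tail_pt (L : PTLib) {α : Type} [Enc α] : PT (fun x : List α => x.tail) := by
  have h := L.casesList (α := List α) (β := α) (γ := List α) (f := fun x => x) (g := fun _ => [])
    (h := fun z => z.2.2) L.id L.cNil (L.comp L.snd L.snd)
  refine congr h ?_
  rintro (_ | ⟨a, l⟩) <;> rfl

theorem drop_pt (L : PTLib) {α : Type} [Enc α] : PT (fun x : ℕ × List α => x.2.drop x.1) := by
  have h := iter L (α := ℕ × List α) (n := fun x => x.1) (init := fun x => x.2)
    (g := fun z => z.2.tail) L.fst L.snd (L.comp L.snd (tail_pt L)) ⟨1, 1, by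
      intro x m _
      simp only
      rw [tail_iter]
      have h1 := sz_drop m x.2
      have h2 := sz_pair x
      rw [one_mul, pow_one]
      omega⟩
  refine congr h ?_
  intro x
  simp only
  rw [tail_iter]

end TL3b

open TL3b

theorem pt2_nadd (L : PTLib) : PT (fun x : ℕ × ℕ => x.1 + x.2) := by
  have h := iter L (α := ℕ × ℕ) (n := fun x => x.2) (init := fun x => x.1)
    (g := fun z => z.2 + 1) L.snd L.fst (L.comp L.snd L.succ) ⟨1, 1, by
      intro x m hm
      simp only at hm ⊢
      rw [succ_iter, sz_nat]
      have h2 := sz_pair x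
      rw [sz_nat, sz_nat] at h2
      rw [one_mul, pow_one]
      omega⟩
  refine congr h ?_
  intro x
  simp only
  rw [succ_iter]

theorem pt2_pred (L : PTLib) : PT (fun x : ℕ => x - 1) := by
  have h := L.casesNat (α := ℕ) (γ := ℕ) (f := fun x => x) (g := fun _ => 0)
    (h := fun z => z.2) L.id (L.cNat 0) L.snd
  refine congr h ?_
  rintro (_ | a) <;> rfl

theorem pt2_nsub (L : PTLib) : PT (fun x : ℕ × ℕ => x.1 - x.2) := by
  have h := iter L (α := ℕ × ℕ) (n := fun x => x.2) (init := fun x => x.1)
    (g := fun z => z.2 - 1) L.snd L.fst (L.comp L.snd (pt2_pred L)) ⟨1, 1, by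
      intro x m hm
      simp only at hm ⊢
      rw [pred_iter, sz_nat]
      have h2 := sz_pair x
      rw [sz_nat, sz_nat] at h2
      rw [one_mul, pow_one]
      omega⟩
  refine congr h ?_
  intro x
  simp only
  rw [pred_iter]

theorem pt2_nmul (L : PTLib) : PT (fun x : ℕ × ℕ => x.1 * x.2) := by
  have h := iter L (α := ℕ × ℕ) (n := fun x => x.1) (init := fun _ => 0)
    (g := fun z => z.2 + z.1.2) L.fst (L.cNat 0)
    (comp2 L L.snd (L.comp L.fst L.snd) (pt2_nadd L)) ⟨1, 2, by
      intro x m hm
      simp only at hm ⊢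
      rw [add_iter, sz_nat, zero_add]
      have h2 := sz_pair x
      rw [sz_nat, sz_nat] at h2
      have h3 : m * x.2 ≤ x.1 * x.2 := Nat.mul_le_mul_right _ hm
      rw [one_mul, h2]
      nlinarith⟩
  refine congr h ?_
  intro x
  simp only
  rw [add_iter, zero_add]

theorem pt2_npow (L : PTLib) : ∀ k : ℕ, PT (fun x : ℕ => x ^ k) := by
  intro k
  induction k with
  | zero =>
    refine congr (L.cNat (α := ℕ) 1) ?_
    intro x
    simp
  | succ k ih =>
    refine congr (comp2 L ih L.id (pt2_nmul L)) ?_
    intro x
    simp [pow_succ]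

theorem pt2_isZero (L : PTLib) : PT (fun x : ℕ => decide (x = 0)) := by
  have h := L.casesNat (α := ℕ) (γ := Bool) (f := fun x => x) (g := fun _ => true)
    (h := fun _ => false) L.id (L.cBool true) (L.cBool false)
  refine congr h ?_
  rintro (_ | a)
  · rfl
  · simp

theorem pt2_nle (L : PTLib) : PT (fun x : ℕ × ℕ => decide (x.1 ≤ x.2)) := by
  refine congr (L.comp (pt2_nsub L) (pt2_isZero L)) ?_
  rintro ⟨a, b⟩
  rw [Bool.eq_iff_iff]
  simp [Nat.sub_eq_zero_iff_le]

theorem pt2_nlt (L : PTLib) : PT (fun x : ℕ × ℕ => decide (x.1 < x.2)) := by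
  refine congr (comp2 L (L.comp L.fst L.succ) L.snd (pt2_nle L)) ?_
  rintro ⟨a, b⟩
  rw [Bool.eq_iff_iff]
  simp [Nat.succ_le_iff]

theorem pt2_neq (L : PTLib) : PT (fun x : ℕ × ℕ => decide (x.1 = x.2)) := by
  refine congr (L.comp (comp2 L (pt2_nsub L) (L.comp (L.pair L.snd L.fst) (pt2_nsub L))
    (pt2_nadd L)) (pt2_isZero L)) ?_
  rintro ⟨a, b⟩
  rw [Bool.eq_iff_iff]
  simp only [decide_eq_true_eq]
  omega

theorem pt2_getD (L : PTLib) : ∀ {α : Type} [Enc α],
    PT (fun x : List α × ℕ × α => x.1.getD x.2.1 x.2.2) := by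
  intro α _
  have hd : PT (fun x : List α × ℕ × α => x.1.drop x.2.1) :=
    L.comp (L.pair (L.comp L.snd L.fst) L.fst) (drop_pt L)
  have h := L.casesList (α := List α × ℕ × α) (β := α) (γ := α) (f := fun x => x.1.drop x.2.1)
    (g := fun x => x.2.2) (h := fun z => z.2.1) hd (L.comp L.snd L.snd) (L.comp L.snd L.fst)
  refine congr h ?_
  rintro ⟨l, n, d⟩
  simp only
  induction n generalizing l with
  | zero => cases l <;> rfl
  | succ n ih =>
    cases l with
    | nil => rfl
    | cons a l => simpa using ih l

theorem pt2_take (L : PTLib) : ∀ {α : Type} [Enc α],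
    PT (fun x : ℕ × List α => x.2.take x.1) := by
  intro α _
  have hr : PT (fun x : ℕ × List α => x.2.reverse) := L.comp L.snd (reverse_pt L)
  have hl : PT (fun x : ℕ × List α => x.2.length - x.1) :=
    comp2 L (L.comp L.snd (length_pt L)) L.fst (pt2_nsub L)
  refine congr (L.comp (comp2 L hl hr (drop_pt L)) (reverse_pt L)) ?_
  rintro ⟨n, l⟩
  simp only
  rw [List.drop_reverse]
  simp only [List.reverse_reverse]
  by_cases h : n ≤ l.length
  · congr 1; omega
  · have h1 : l.length - (l.length - n) = l.length := by omega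
    rw [h1, List.take_length, List.take_of_length_le (by omega)]

theorem range_iter (n : ℕ) :
    (fun b : List ℕ => b.length :: b)^[n] [] = (List.range n).reverse := by
  induction n with
  | zero => rfl
  | succ n ih =>
    rw [Function.iterate_succ_apply', ih, List.range_succ]
    simp

theorem sz_range (n N : ℕ) (h : n ≤ N) : sz (List.range n) ≤ (2 * N + 2) * n + 1 := by
  induction n with
  | zero => simp [sz_nil]
  | succ n ih =>
    rw [List.range_succ]
    have h1 := sz_append (List.range n) [n]
    rw [sz_cons, sz_nil, sz_nat] at h1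
    have h2 := ih (by omega)
    have h3 : (2 * N + 2) * (n + 1) = (2 * N + 2) * n + (2 * N + 2) := by ring
    omega

theorem pt2_range (L : PTLib) : PT (fun x : ℕ => List.range x) := by
  have h := iter L (α := ℕ) (n := fun x => x) (init := fun _ => ([] : List ℕ))
    (g := fun z => z.2.length :: z.2) L.id L.cNil
    (comp2 L (L.comp L.snd (length_pt L)) L.snd L.cons) ⟨1, 2, by
      intro x m hm
      simp only at hm ⊢
      rw [range_iter, sz_reverse, one_mul, sz_nat]
      have h1 := sz_range m x hm
      have h2 : (2 * x + 2) * m ≤ (2 * x + 2) * x := Nat.mul_le_mul_left _ hm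
      nlinarith⟩
  refine congr (L.comp h (reverse_pt L)) ?_
  intro x
  simp only
  rw [range_iter, List.reverse_reverse]

end Pool.Agent.H586R2.AF
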