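import Pool.Agent.H586R2.AF.PTStm

/-! L3c: real comparisons and booleans are PT. -/

set_option autoImplicit false

namespace Pool.Agent.H586R2.AF

namespace TL3c

theorem congr {α β : Type} [Enc α] [Enc β] {f g : α → β} (h : PT f) (e : ∀ x, f x = g x) :
    PT g := by
  have : f = g := funext e
  rwa [this] at h

end TL3c

open TL3c

theorem pt2_neg (L : PTLib) : PT (fun x : ℝ => -x) := by
  refine congr (L.comp (L.pair (L.cInt 0) L.id) L.sub) ?_
  intro x
  simp

open Classical in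
theorem pt2_posd (L : PTLib) : PT (fun x : ℝ => decide (0 < x)) :=
  L.pos _ (fun x => by simp)

theorem pt2_not (L : PTLib) : PT (fun x : Bool => !x) := by
  refine congr (L.ite (b := fun x : Bool => x) L.id (L.cBool false) (L.cBool true)) ?_
  intro x
  cases x <;> rfl

theorem pt2_and (L : PTLib) : PT (fun x : Bool × Bool => x.1 && x.2) := by
  refine congr (L.ite (b := fun x : Bool × Bool => x.1) L.fst L.snd (L.cBool false)) ?_
  rintro ⟨x, y⟩
  cases x <;> rfl

theorem pt2_or (L : PTLib) : PT (fun x : Bool × Bool => x.1 || x.2) := by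
  refine congr (L.ite (b := fun x : Bool × Bool => x.1) L.fst (L.cBool true) L.snd) ?_
  rintro ⟨x, y⟩
  cases x <;> rfl

theorem pt2_rlt (L : PTLib) : ∀ (b : ℝ × ℝ → Bool), (∀ x, b x = true ↔ x.1 < x.2) → PT b := by
  classical
  intro b hb
  refine congr (L.comp (L.comp (L.pair L.snd L.fst) L.sub) (pt2_posd L)) ?_
  rintro ⟨x, y⟩
  rw [Bool.eq_iff_iff, hb]
  simp

theorem pt2_rle (L : PTLib) : ∀ (b : ℝ × ℝ → Bool), (∀ x, b x = true ↔ x.1 ≤ x.2) → PT b := by
  classical
  intro b hb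
  refine congr (L.comp (L.comp L.sub (pt2_posd L)) (pt2_not L)) ?_
  rintro ⟨x, y⟩
  rw [Bool.eq_iff_iff, hb]
  simp

theorem pt2_rmin (L : PTLib) : PT (fun x : ℝ × ℝ => min x.1 x.2) := by
  classical
  refine congr (L.ite (b := fun x : ℝ × ℝ => decide (x.1 ≤ x.2))
    (pt2_rle L _ (fun x => by simp)) L.fst L.snd) ?_
  rintro ⟨x, y⟩
  by_cases h : x ≤ y
  · simp [h]
  · have h' := not_le.1 h
    simp [h, min_eq_right h'.le]

theorem pt2_rmax (L : PTLib) : PT (fun x : ℝ × ℝ => max x.1 x.2) := by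
  classical
  refine congr (L.ite (b := fun x : ℝ × ℝ => decide (x.1 ≤ x.2))
    (pt2_rle L _ (fun x => by simp)) L.snd L.fst) ?_
  rintro ⟨x, y⟩
  by_cases h : x ≤ y
  · simp [h]
  · have h' := not_le.1 h
    simp [h, max_eq_left h'.le]

end Pool.Agent.H586R2.AF
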