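import Pool.Agent.H586R2.AF.PTStm

/-!
# Positions and angles are computed in polynomial time (task M10)
-/

set_option autoImplicit false

namespace Pool.Agent.H586R2.AF

namespace M10

variable {α β γ δ : Type} [Enc α] [Enc β] [Enc γ] [Enc δ]

theorem bin (L : PTLib) {f : α → β} {g : α → γ} {h : β × γ → δ} (hh : PT h) (hf : PT f)
    (hg : PT g) : PT (fun x => h (f x, g x)) :=
  L.comp (L.pair hf hg) hh

theorem zero (L : PTLib) : PT (fun _ : α => (0 : ℝ)) := by
  have h := L.cInt (α := α) 0
  simpa using h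

theorem one (L : PTLib) : PT (fun _ : α => (1 : ℝ)) := by
  have h := L.cInt (α := α) 1
  simpa using h

theorem zz (L : PTLib) : PT (fun _ : α => ((0 : ℝ), (0 : ℝ))) := L.pair (zero L) (zero L)

theorem add (L : PTLib) {f g : α → ℝ} (hf : PT f) (hg : PT g) : PT (fun x => f x + g x) :=
  bin L L.add hf hg

theorem sub (L : PTLib) {f g : α → ℝ} (hf : PT f) (hg : PT g) : PT (fun x => f x - g x) :=
  bin L L.sub hf hg

theorem mul (L : PTLib) {f g : α → ℝ} (hf : PT f) (hg : PT g) : PT (fun x => f x * g x) :=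
  bin L L.mul hf hg

theorem div (L : PTLib) {f g : α → ℝ} (hf : PT f) (hg : PT g) : PT (fun x => f x / g x) :=
  bin L L.div hf hg

theorem first (L : PTLib) {f : α → β × γ} (hf : PT f) : PT (fun x => (f x).1) :=
  L.comp hf L.fst

theorem second (L : PTLib) {f : α → β × γ} (hf : PT f) : PT (fun x => (f x).2) :=
  L.comp hf L.snd

theorem getD (L : PTLib) (M : PTLib2) {f : α → List β} {g : α → ℕ} {d : α → β} (hf : PT f)
    (hg : PT g) (hd : PT d) : PT (fun x => (f x).getD (g x) (d x)) :=
  L.comp (L.pair hf (L.pair hg hd)) M.getD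

theorem vlen_pt (L : PTLib) {f g : α → ℝ} (hf : PT f) (hg : PT g) :
    PT (fun x => vlen (f x) (g x)) :=
  L.comp (add L (mul L hf hf) (mul L hg hg)) L.sqrt

theorem cur_pt (L : PTLib) (M : PTLib2) {f : α → List (ℝ × ℝ)} {g : α → ℕ} (hf : PT f)
    (hg : PT g) : PT (fun x => (f x).getD (g x) (0, 0)) :=
  getD L M hf hg (zz L)

theorem nxt_pt (L : PTLib) (M : PTLib2) {f : α → List (ℝ × ℝ)} {g : α → ℕ} (hf : PT f)
    (hg : PT g) : PT (fun x => nxt (f x) (g x)) :=
  getD L M hf (L.comp hg L.succ) (cur_pt L M hf (L.cNat 0))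

theorem prv_pt (L : PTLib) (M : PTLib2) {f : α → List (ℝ × ℝ)} {g : α → ℕ} (hf : PT f)
    (hg : PT g) : PT (fun x => prv (f x) (g x)) := by
  have hb : PT (fun x => decide (g x = 0)) := bin L M.neq hg (L.cNat 0)
  have h1 : PT (fun x => (f x).getD ((f x).length - 1) (0, 0)) :=
    cur_pt L M hf (bin L M.nsub (L.comp hf M.length) (L.cNat 1))
  have h2 : PT (fun x => (f x).getD (g x - 1) (0, 0)) :=
    cur_pt L M hf (bin L M.nsub hg (L.cNat 1))
  have h := L.ite hb h1 h2
  have e : (fun x => prv (f x) (g x)) = (fun x => if decide (g x = 0) = true then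
      (f x).getD ((f x).length - 1) (0, 0) else (f x).getD (g x - 1) (0, 0)) := by
    funext x
    unfold prv
    by_cases hx : g x = 0 <;> simp [hx]
  rw [e]
  exact h

theorem elen_pt (L : PTLib) (M : PTLib2) {f : α → List (ℝ × ℝ)} {g : α → ℕ} (hf : PT f)
    (hg : PT g) : PT (fun x => elen (f x) (g x)) :=
  vlen_pt L (sub L (first L (nxt_pt L M hf hg)) (first L (cur_pt L M hf hg)))
    (sub L (second L (nxt_pt L M hf hg)) (second L (cur_pt L M hf hg)))

theorem angC_pt (L : PTLib) (M : PTLib2)
    (N : PT (fun x : ℕ × ℝ × ℝ => angNorm x.1 x.2.1 x.2.2)) {f : α → List (ℝ × ℝ)} {g : α → ℕ}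
    (hf : PT f) (hg : PT g) : PT (fun x => angC (f x) (g x)) := by
  have w1 := sub L (first L (nxt_pt L M hf hg)) (first L (cur_pt L M hf hg))
  have w2 := sub L (second L (nxt_pt L M hf hg)) (second L (cur_pt L M hf hg))
  have u1 := sub L (first L (prv_pt L M hf hg)) (first L (cur_pt L M hf hg))
  have u2 := sub L (second L (prv_pt L M hf hg)) (second L (cur_pt L M hf hg))
  have hd := mul L (vlen_pt L w1 w2) (vlen_pt L u1 u2)
  have hc := div L (add L (mul L w1 u1) (mul L w2 u2)) hd
  have hs := div L (sub L (mul L w1 u2) (mul L w2 u1)) hd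
  exact L.comp (L.pair (L.cNat 0) (L.pair hc hs)) N

theorem size_pos (d : D) : 1 ≤ d.size := by
  cases d <;> simp [D.size]

theorem size_reals (l : List ℝ) : (encList l).size = 2 * l.length + 1 := by
  induction l with
  | nil => simp [encList, D.size]
  | cons a l ih =>
    have h : (encList (a :: l)).size = (enc a : D).size + (encList l).size + 1 := rfl
    have h1 : (enc a : D).size = 1 := rfl
    rw [h, h1, ih, List.length_cons]
    ring

theorem length_le (l : List α) : l.length ≤ (encList l).size := by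
  induction l with
  | nil => simp
  | cons a l ih =>
    have h : (encList (a :: l)).size = (enc a : D).size + (encList l).size + 1 := rfl
    rw [h, List.length_cons]
    omega

theorem posL_pt (L : PTLib) (M : PTLib2) : PT posL := by
  have hl : PT (fun P : List (ℝ × ℝ) => List.range P.length) := L.comp M.length M.range
  have hi : PT (fun _ : List (ℝ × ℝ) => ((0 : ℝ), [(0 : ℝ)])) :=
    L.pair (zero L) (bin L L.cons (zero L) L.cNil)
  have hP : PT (fun y : List (ℝ × ℝ) × (ℝ × List ℝ) × ℕ => y.1) := L.fst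
  have hk : PT (fun y : List (ℝ × ℝ) × (ℝ × List ℝ) × ℕ => y.2.2) := second L L.snd
  have ha : PT (fun y : List (ℝ × ℝ) × (ℝ × List ℝ) × ℕ => y.2.1) := first L L.snd
  have hs : PT (fun y : List (ℝ × ℝ) × (ℝ × List ℝ) × ℕ => y.2.1.1 + elen y.1 y.2.2) :=
    add L (first L ha) (elen_pt L M hP hk)
  have hg : PT (fun y : List (ℝ × ℝ) × (ℝ × List ℝ) × ℕ =>
      (y.2.1.1 + elen y.1 y.2.2, y.2.1.2 ++ [y.2.1.1 + elen y.1 y.2.2])) :=
    L.pair hs (bin L M.append (second L ha) (bin L L.cons hs L.cNil))
  have hlen : ∀ (P : List (ℝ × ℝ)) (pre : List ℕ) (acc : ℝ × List ℝ),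
      (pre.foldl (fun (acc : ℝ × List ℝ) k =>
        (acc.1 + elen P k, acc.2 ++ [acc.1 + elen P k])) acc).2.length =
        acc.2.length + pre.length := by
    intro P pre
    induction pre with
    | nil => intro acc; simp
    | cons k pre ih =>
      intro acc
      rw [List.foldl_cons, ih]
      simp only [List.length_append, List.length_cons, List.length_nil]
      omega
  have h := L.foldl hl hi hg ⟨5, 1, by
    intro P pre hpre
    have h1 := hlen P pre (0, [0])
    have h2 : ∀ a : ℝ × List ℝ, sz a = 2 * a.2.length + 3 := by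
      intro a
      have h3 : sz a = (enc a.1 : D).size + (encList a.2).size + 1 := rfl
      have h4 : (enc a.1 : D).size = 1 := rfl
      rw [h3, h4, size_reals]
      ring
    have h5 : pre.length ≤ P.length := by
      have h6 := hpre.length_le
      simpa using h6
    have h7 : P.length ≤ sz P := length_le P
    have h8 : sz (pre.foldl (fun (acc : ℝ × List ℝ) k =>
        (acc.1 + elen P k, acc.2 ++ [acc.1 + elen P k])) (0, [0])) ≤ 5 * (sz P + 1) ^ 1 := by
      rw [h2, h1]
      simp only [List.length_cons, List.length_nil, pow_one]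
      omega
    exact h8⟩
  exact second L h

theorem angL_pt (L : PTLib) (M : PTLib2)
    (N : PT (fun x : ℕ × ℝ × ℝ => angNorm x.1 x.2.1 x.2.2)) : PT angL := by
  have hl : PT (fun P : List (ℝ × ℝ) => List.range P.length) := L.comp M.length M.range
  have hm : PT (fun P : List (ℝ × ℝ) => (List.range P.length).map (fun k => angC P k)) :=
    M.map (g := fun y : List (ℝ × ℝ) × ℕ => angC y.1 y.2) hl (angC_pt L M N L.fst L.snd)
  have h0 : PT (fun _ : List (ℝ × ℝ) => ang0) :=
    L.pair (L.cNat 0) (L.pair (one L) (zero L))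
  exact bin L M.append hm (bin L L.cons h0 L.cNil)

end M10

theorem t_ptInput : S_ptInput := by
  intro L M A
  exact ⟨M10.posL_pt L M, M10.angL_pt L M (A L M).1⟩

end Pool.Agent.H586R2.AF
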