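import Mathlib
import Pool.Agent.H586R2.AF.PTStm

set_option autoImplicit false

namespace Pool.Agent.H586R2.AF

namespace M11

theorem pt_congr {α β : Type} [Enc α] [Enc β] {f g : α → β} (h : PT f) (e : ∀ x, f x = g x) :
    PT g := by
  have : f = g := funext e
  rwa [this] at h

theorem pt_pow (L : PTLib) (L2 : PTLib2) (k : ℕ) : PT (fun n : ℕ => (n + 1) ^ k + 1) := by
  have h1 : PT (fun n : ℕ => n + 1) := L.succ
  have h2 : PT (fun n : ℕ => (n + 1) ^ k) := L.comp (f := fun n : ℕ => n + 1) (g := fun x : ℕ => x ^ k) h1 (L2.npow k)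
  exact L.comp (f := fun n : ℕ => (n + 1) ^ k) (g := fun x : ℕ => x + 1) h2 L.succ

theorem capN_eq : capN = fun n : ℕ => (n + 1) ^ 25 + 1 := by
  funext n
  unfold capN
  rfl

theorem pt_capN (L : PTLib) (L2 : PTLib2) : PT capN := by
  rw [capN_eq]
  exact pt_pow L L2 25

theorem pt_two (L : PTLib) {α : Type} [Enc α] : PT (fun _ : α => ang2Pi) := by
  have h : PT (fun _ : α => ((2 : ℕ), (((1 : ℤ) : ℝ), ((0 : ℤ) : ℝ)))) :=
    L.pair (L.cNat 2) (L.pair (L.cInt 1) (L.cInt 0))
  refine pt_congr h fun x => ?_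
  simp [ang2Pi]

end M11

theorem t_ptAlgo : S_ptAlgo := by
  intro L L2 hA hL hT hP hQ
  have hlen : PT (fun P : List (ℝ × ℝ) => P.length) := L2.length
  have hcap : PT (fun P : List (ℝ × ℝ) => capN P.length) := L.comp hlen (M11.pt_capN L L2)
  have hargs : PT (fun P : List (ℝ × ℝ) => ((P.length, capN P.length), posL P, angL P)) :=
    L.pair (L.pair hlen hcap) (L.pair hP hQ)
  have htab : PT (fun P : List (ℝ × ℝ) => table P.length (capN P.length) (posL P) (angL P)) :=
    L.comp hargs hT
  have harg2 : PT (fun P : List (ℝ × ℝ) =>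
      (table P.length (capN P.length) (posL P) (angL P), (0 : ℕ), P.length)) :=
    L.pair htab (L.pair (L.cNat 0) hlen)
  have hlook : PT (fun P : List (ℝ × ℝ) =>
      look (table P.length (capN P.length) (posL P) (angL P)) 0 P.length) :=
    L.comp harg2 (hL L L2).1
  have hfst : PT (fun P : List (ℝ × ℝ) =>
      (look (table P.length (capN P.length) (posL P) (angL P)) 0 P.length).1) :=
    L.comp hlook L.fst
  have hpair : PT (fun P : List (ℝ × ℝ) =>
      ((look (table P.length (capN P.length) (posL P) (angL P)) 0 P.length).1, ang2Pi)) :=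
    L.pair hfst (M11.pt_two L)
  have e : algo = fun P : List (ℝ × ℝ) =>
      oLe (look (table P.length (capN P.length) (posL P) (angL P)) 0 P.length).1 ang2Pi := by
    funext P
    unfold algo decideDat
    rfl
  rw [e]
  exact L.comp (g := fun x : Option Ang × Ang => oLe x.1 x.2) hpair (hA L L2).2.2.2.2.2.1

end Pool.Agent.H586R2.AF
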