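import Pool.Agent.H586R2.AF.PTStm

/-! M4: angle operations are PT. -/

set_option autoImplicit false

namespace Pool.Agent.H586R2.AF

namespace TM4

theorem congr {α β : Type} [Enc α] [Enc β] {f g : α → β} (h : PT f) (e : ∀ x, f x = g x) :
    PT g := by
  have : f = g := funext e
  rwa [this] at h

/-- composition with a function of two variables -/
theorem comp2 (L : PTLib) {α β γ δ : Type} [Enc α] [Enc β] [Enc γ] [Enc δ] {f : α → β}
    {g : α → γ} {h : β × γ → δ} (hf : PT f) (hg : PT g) (hh : PT h) :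
    PT (fun x => h (f x, g x)) := L.comp (L.pair hf hg) hh

open Classical in
theorem posd (L : PTLib) : PT (fun x : ℝ => decide (0 < x)) :=
  L.pos _ (fun x => by simp)

open Classical in
theorem led (L2 : PTLib2) : PT (fun x : ℝ × ℝ => decide (x.1 ≤ x.2)) :=
  L2.rle _ (fun x => by simp)

theorem angNorm_pt (L : PTLib) (L2 : PTLib2) :
    PT (fun x : ℕ × ℝ × ℝ => angNorm x.1 x.2.1 x.2.2) := by
  classical
  have hk : PT (fun x : ℕ × ℝ × ℝ => x.1) := L.fst
  have hc : PT (fun x : ℕ × ℝ × ℝ => x.2.1) := L.comp L.snd L.fst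
  have hs : PT (fun x : ℕ × ℝ × ℝ => x.2.2) := L.comp L.snd L.snd
  have h0 : PT (fun _ : ℕ × ℝ × ℝ => ((0 : ℤ) : ℝ)) := L.cInt 0
  have hb := comp2 L (L.comp hs (posd L))
    (comp2 L (comp2 L h0 hs (led L2)) (L.comp hc (posd L)) L2.and) L2.or
  have hx := L.pair hk (L.pair hc hs)
  have hy := L.pair (L.comp hk L.succ) (L.pair (L.comp hc L2.neg) (L.comp hs L2.neg))
  refine congr (L.ite hb hx hy) ?_
  rintro ⟨k, c, s⟩
  simp only [angNorm, Int.cast_zero, Bool.or_eq_true, Bool.and_eq_true, decide_eq_true_eq]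
  by_cases h1 : 0 < s
  · simp [h1]
  · by_cases h2 : s = 0
    · subst h2
      simp
    · have h3 : ¬ (0 ≤ s) := fun h => h1 (lt_of_le_of_ne h (Ne.symm h2))
      simp [h1, h2, h3]

theorem ang21 (L : PTLib) : PT (fun x : Ang => x.2.1) := L.comp L.snd L.fst

theorem ang22 (L : PTLib) : PT (fun x : Ang => x.2.2) := L.comp L.snd L.snd

theorem angAdd_pt (L : PTLib) (L2 : PTLib2) : PT (fun x : Ang × Ang => angAdd x.1 x.2) := by
  have x1 : PT (fun x : Ang × Ang => x.1) := L.fst
  have y1 : PT (fun x : Ang × Ang => x.2) := L.snd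
  have xk : PT (fun x : Ang × Ang => x.1.1) := L.comp x1 L.fst
  have yk : PT (fun x : Ang × Ang => x.2.1) := L.comp y1 L.fst
  have xc : PT (fun x : Ang × Ang => x.1.2.1) := (L.comp x1 (ang21 L) :)
  have yc : PT (fun x : Ang × Ang => x.2.2.1) := (L.comp y1 (ang21 L) :)
  have xs : PT (fun x : Ang × Ang => x.1.2.2) := (L.comp x1 (ang22 L) :)
  have ys : PT (fun x : Ang × Ang => x.2.2.2) := (L.comp y1 (ang22 L) :)
  have hk := comp2 L xk yk L2.nadd
  have hc := comp2 L (comp2 L xc yc L.mul) (comp2 L xs ys L.mul) L.sub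
  have hs := comp2 L (comp2 L xc ys L.mul) (comp2 L xs yc L.mul) L.add
  refine congr (L.comp (L.pair hk (L.pair hc hs)) (angNorm_pt L L2)) ?_
  intro x
  rfl

theorem angLe_pt (L : PTLib) (L2 : PTLib2) : PT (fun x : Ang × Ang => angLe x.1 x.2) := by
  classical
  have x1 : PT (fun x : Ang × Ang => x.1) := L.fst
  have y1 : PT (fun x : Ang × Ang => x.2) := L.snd
  have xk : PT (fun x : Ang × Ang => x.1.1) := L.comp x1 L.fst
  have yk : PT (fun x : Ang × Ang => x.2.1) := L.comp y1 L.fst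
  have xc : PT (fun x : Ang × Ang => x.1.2.1) := (L.comp x1 (ang21 L) :)
  have yc : PT (fun x : Ang × Ang => x.2.2.1) := (L.comp y1 (ang21 L) :)
  have hlt := comp2 L xk yk L2.nlt
  have heq := comp2 L xk yk L2.neq
  have hle := comp2 L yc xc (led L2)
  refine congr (comp2 L hlt (comp2 L heq hle L2.and) L2.or) ?_
  intro x
  rw [Bool.eq_iff_iff]
  simp [angLe]

theorem oMin_pt (L : PTLib) (L2 : PTLib2) :
    PT (fun x : Option Ang × Option Ang => oMin x.1 x.2) := by
  have hin : PT (fun z : (((Option Ang × Option Ang) × Ang) × Ang) =>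
      if angLe z.1.2 z.2 = true then some z.1.2 else some z.2) := by
    have a1 : PT (fun z : (((Option Ang × Option Ang) × Ang) × Ang) => z.1.2) :=
      L.comp L.fst L.snd
    have a2 : PT (fun z : (((Option Ang × Option Ang) × Ang) × Ang) => z.2) := L.snd
    exact L.ite (comp2 L a1 a2 (angLe_pt L L2)) (L.comp a1 L.some) (L.comp a2 L.some)
  have h1 := L.casesOpt (α := (Option Ang × Option Ang) × Ang) (f := fun z => z.1.2)
    (g := fun z => some z.2) (L.comp L.fst L.snd) (L.comp L.snd L.some) hin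
  have h2 := L.casesOpt (α := (Option Ang × Option Ang)) (f := fun z => z.1)
    (g := fun z => z.2) L.fst L.snd h1
  refine congr h2 ?_
  rintro ⟨_ | a, _ | b⟩ <;> rfl

theorem oAdd_pt (L : PTLib) (L2 : PTLib2) : PT (fun x : Option Ang × Ang => oAdd x.1 x.2) := by
  have hin : PT (fun z : ((Option Ang × Ang) × Ang) => some (angAdd z.2 z.1.2)) :=
    L.comp (comp2 L L.snd (L.comp L.fst L.snd) (angAdd_pt L L2)) L.some
  have h2 := L.casesOpt (α := (Option Ang × Ang)) (f := fun z => z.1)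
    (g := fun _ => (none : Option Ang)) L.fst L.cNone hin
  refine congr h2 ?_
  rintro ⟨_ | a, b⟩ <;> rfl

theorem oLe_pt (L : PTLib) (L2 : PTLib2) : PT (fun x : Option Ang × Ang => oLe x.1 x.2) := by
  have hin : PT (fun z : ((Option Ang × Ang) × Ang) => angLe z.2 z.1.2) :=
    comp2 L L.snd (L.comp L.fst L.snd) (angLe_pt L L2)
  have h2 := L.casesOpt (α := (Option Ang × Ang)) (f := fun z => z.1)
    (g := fun _ => false) L.fst (L.cBool false) hin
  refine congr h2 ?_
  rintro ⟨_ | a, b⟩ <;> rfl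

theorem oCap_pt (L : PTLib) (L2 : PTLib2) : PT (fun x : Option Ang => oCap x) := by
  have hin : PT (fun z : (Option Ang × Ang) =>
      if decide (z.2.1 < 3) = true then some z.2 else (none : Option Ang)) :=
    L.ite (comp2 L (L.comp L.snd L.fst) (L.cNat 3) L2.nlt) (L.comp L.snd L.some) L.cNone
  have h2 := L.casesOpt (α := Option Ang) (f := fun z => z)
    (g := fun _ => (none : Option Ang)) L.id L.cNone hin
  refine congr h2 ?_
  rintro (_ | a)
  · rfl
  · simp [oCap]

end TM4

open TM4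

theorem t_ptAng : S_ptAng := fun L L2 =>
  ⟨angNorm_pt L L2, angAdd_pt L L2, angLe_pt L L2, oMin_pt L L2, oAdd_pt L L2, oLe_pt L L2,
    oCap_pt L L2⟩

end Pool.Agent.H586R2.AF
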