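import Pool.Agent.H586R2.AF.PTStm

/-!
# Interval operations are polynomial time
-/

set_option autoImplicit false

namespace Pool.Agent.H586R2.AF

namespace M5h

variable {α β γ : Type} [Enc α] [Enc β] [Enc γ]

lemma pfst (h : PTLib) {f : α → β × γ} (hf : PT f) : PT (fun x => (f x).1) :=
  h.comp (g := fun y : β × γ => y.1) hf h.fst

lemma psnd (h : PTLib) {f : α → β × γ} (hf : PT f) : PT (fun x => (f x).2) :=
  h.comp (g := fun y : β × γ => y.2) hf h.snd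

lemma padd (h : PTLib) {f g : α → ℝ} (hf : PT f) (hg : PT g) : PT (fun x => f x + g x) :=
  h.comp (f := fun x => (f x, g x)) (g := fun y : ℝ × ℝ => y.1 + y.2) (h.pair hf hg) h.add

lemma pmin (h : PTLib) (h2 : PTLib2) {f g : α → ℝ} (hf : PT f) (hg : PT g) :
    PT (fun x => min (f x) (g x)) :=
  h.comp (f := fun x => (f x, g x)) (g := fun y : ℝ × ℝ => min y.1 y.2) (h.pair hf hg) h2.rmin

lemma pmax (h : PTLib) (h2 : PTLib2) {f g : α → ℝ} (hf : PT f) (hg : PT g) :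
    PT (fun x => max (f x) (g x)) :=
  h.comp (f := fun x => (f x, g x)) (g := fun y : ℝ × ℝ => max y.1 y.2) (h.pair hf hg) h2.rmax

/-- every boolean version of the predicate is polynomial time -/
def PD (p : α → Prop) : Prop := ∀ b : α → Bool, (∀ x, b x = true ↔ p x) → PT b

lemma pd_le (h : PTLib) (h2 : PTLib2) {f g : α → ℝ} (hf : PT f) (hg : PT g) :
    PD (fun x => f x ≤ g x) := by
  classical
  intro b hb
  have h3 : b = fun x => (fun y : ℝ × ℝ => decide (y.1 ≤ y.2)) (f x, g x) := by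
    funext x
    rw [Bool.eq_iff_iff, hb x]
    simp
  rw [h3]
  exact h.comp (f := fun x => (f x, g x)) (g := fun y : ℝ × ℝ => decide (y.1 ≤ y.2))
    (h.pair hf hg) (h2.rle _ (fun x => by simp))

lemma pd_lt (h : PTLib) (h2 : PTLib2) {f g : α → ℝ} (hf : PT f) (hg : PT g) :
    PD (fun x => f x < g x) := by
  classical
  intro b hb
  have h3 : b = fun x => (fun y : ℝ × ℝ => decide (y.1 < y.2)) (f x, g x) := by
    funext x
    rw [Bool.eq_iff_iff, hb x]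
    simp
  rw [h3]
  exact h.comp (f := fun x => (f x, g x)) (g := fun y : ℝ × ℝ => decide (y.1 < y.2))
    (h.pair hf hg) (h2.rlt _ (fun x => by simp))

lemma pd_and (h : PTLib) (h2 : PTLib2) {p q : α → Prop} (hp : PD p) (hq : PD q) :
    PD (fun x => p x ∧ q x) := by
  classical
  intro b hb
  have h3 : b = fun x => (fun y : Bool × Bool => y.1 && y.2) (decide (p x), decide (q x)) := by
    funext x
    rw [Bool.eq_iff_iff, hb x]
    simp
  rw [h3]
  exact h.comp (f := fun x => (decide (p x), decide (q x))) (g := fun y : Bool × Bool => y.1 && y.2)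
    (h.pair (hp _ (fun x => by simp)) (hq _ (fun x => by simp))) h2.and

lemma pd_or (h : PTLib) (h2 : PTLib2) {p q : α → Prop} (hp : PD p) (hq : PD q) :
    PD (fun x => p x ∨ q x) := by
  classical
  intro b hb
  have h3 : b = fun x => (fun y : Bool × Bool => y.1 || y.2) (decide (p x), decide (q x)) := by
    funext x
    rw [Bool.eq_iff_iff, hb x]
    simp
  rw [h3]
  exact h.comp (f := fun x => (decide (p x), decide (q x))) (g := fun y : Bool × Bool => y.1 || y.2)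
    (h.pair (hp _ (fun x => by simp)) (hq _ (fun x => by simp))) h2.or

lemma pd_not (h : PTLib) (h2 : PTLib2) {p : α → Prop} (hp : PD p) :
    PD (fun x => ¬ p x) := by
  classical
  intro b hb
  have h3 : b = fun x => (fun y : Bool => !y) (decide (p x)) := by
    funext x
    rw [Bool.eq_iff_iff, hb x]
    simp
  rw [h3]
  exact h.comp (f := fun x => decide (p x)) (g := fun y : Bool => !y)
    (hp _ (fun x => by simp)) h2.not

lemma pite (h : PTLib) {p : α → Prop} [inst : ∀ x, Decidable (p x)] {f g : α → β} (hp : PD p)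
    (hf : PT f) (hg : PT g) : PT (fun x => if p x then f x else g x) := by
  have h3 : (fun x => if p x then f x else g x) =
      fun x => if (fun x => decide (p x)) x = true then f x else g x := by
    funext x
    simp
  rw [h3]
  exact h.ite (hp _ (fun x => by simp)) hf hg

lemma pcomp2 {δ : Type} [Enc δ] (h : PTLib) {F : β × γ → δ} {f : α → β} {g : α → γ} (hF : PT F)
    (hf : PT f) (hg : PT g) : PT (fun x => F (f x, g x)) :=
  h.comp (f := fun x => (f x, g x)) (g := F) (h.pair hf hg) hF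

lemma pt_clip1 (h : PTLib) (h2 : PTLib2) :
    PT (fun y : (ℝ × ℝ × ℝ × IS) × (ℝ × ℝ) => ivClip1 y.1.1 y.1.2.1 y.1.2.2.1 y.2) := by
  have hA : PT (fun y : (ℝ × ℝ × ℝ × IS) × (ℝ × ℝ) => y.1.1) := pfst h h.fst
  have hB : PT (fun y : (ℝ × ℝ × ℝ × IS) × (ℝ × ℝ) => y.1.2.1) := pfst h (psnd h h.fst)
  have hs : PT (fun y : (ℝ × ℝ × ℝ × IS) × (ℝ × ℝ) => y.1.2.2.1) :=
    pfst h (psnd h (psnd h h.fst))
  have hx : PT (fun y : (ℝ × ℝ × ℝ × IS) × (ℝ × ℝ) => y.2.1) := pfst h h.snd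
  have hy : PT (fun y : (ℝ × ℝ × ℝ × IS) × (ℝ × ℝ) => y.2.2) := psnd h h.snd
  have hlo := pmax h h2 (padd h hx hs) hA
  have hhi := pmin h h2 (padd h hy hs) hB
  unfold ivClip1
  refine pite h (pd_and h h2 (pd_le h h2 hlo hhi) (pd_and h h2 (pd_lt h h2 hlo hB)
    (pd_lt h h2 hA hhi))) ?_ h.cNone
  exact h.comp (f := fun y : (ℝ × ℝ × ℝ × IS) × (ℝ × ℝ) =>
    (max (y.2.1 + y.1.2.2.1) y.1.1, min (y.2.2 + y.1.2.2.1) y.1.2.1))
    (g := fun z : ℝ × ℝ => some z) (h.pair hlo hhi) h.some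

lemma pt_clip (h : PTLib) (h2 : PTLib2) :
    PT (fun x : ℝ × ℝ × ℝ × IS => ivClip x.1 x.2.1 x.2.2.1 x.2.2.2) := by
  unfold ivClip
  exact h2.filterMap (f := fun x : ℝ × ℝ × ℝ × IS => x.2.2.2)
    (g := fun y : (ℝ × ℝ × ℝ × IS) × (ℝ × ℝ) => ivClip1 y.1.1 y.1.2.1 y.1.2.2.1 y.2)
    (psnd h (psnd h h.snd)) (pt_clip1 h h2)

lemma pt_disj (h : PTLib) (h2 : PTLib2) {f g : α → ℝ × ℝ} (hf : PT f) (hg : PT g) :
    PT (fun x => ivDisj (f x) (g x)) := by
  have h3 : PD (fun x => (f x).2 < (g x).1 ∨ (g x).2 < (f x).1) :=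
    pd_or h h2 (pd_lt h h2 (psnd h hf) (pfst h hg)) (pd_lt h h2 (psnd h hg) (pfst h hf))
  exact h3 _ (fun x => by unfold ivDisj; simp)

lemma sz_pair (x : ℝ × ℝ) : sz x = 3 := by
  obtain ⟨a, b⟩ := x
  rfl

lemma sz_is (L : IS) : sz L = 4 * L.length + 1 := by
  induction L with
  | nil => rfl
  | cons a L ih =>
    have h1 : sz (a :: L) = sz a + sz L + 1 := rfl
    rw [h1, ih, sz_pair, List.length_cons]
    ring

lemma sz_fst_le {α β : Type} [Enc α] [Enc β] (x : α × β) : sz x.1 + 1 ≤ sz x := by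
  have h1 : sz x = sz x.1 + sz x.2 + 1 := rfl
  omega

lemma sz_snd_le {α β : Type} [Enc α] [Enc β] (x : α × β) : sz x.2 + 1 ≤ sz x := by
  have h1 : sz x = sz x.1 + sz x.2 + 1 := rfl
  omega

lemma pt_ins (h : PTLib) (h2 : PTLib2) : PT (fun x : (ℝ × ℝ) × IS => ivIns x.1 x.2) := by
  have hf1 : PT (fun x : (ℝ × ℝ) × IS => x.2.filter (fun y => !(ivDisj x.1 y))) :=
    h2.filter (f := fun x : (ℝ × ℝ) × IS => x.2)
      (g := fun z : ((ℝ × ℝ) × IS) × (ℝ × ℝ) => !(ivDisj z.1.1 z.2)) h.snd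
      (h.comp (f := fun z : ((ℝ × ℝ) × IS) × (ℝ × ℝ) => ivDisj z.1.1 z.2) (g := fun b : Bool => !b)
        (pt_disj h h2 (pfst h h.fst) h.snd) h2.not)
  have hf2 : PT (fun x : (ℝ × ℝ) × IS => x.2.filter (fun y => ivDisj x.1 y)) :=
    h2.filter (f := fun x : (ℝ × ℝ) × IS => x.2)
      (g := fun z : ((ℝ × ℝ) × IS) × (ℝ × ℝ) => ivDisj z.1.1 z.2) h.snd
      (pt_disj h h2 (pfst h h.fst) h.snd)
  have hg : PT (fun z : ((ℝ × ℝ) × IS) × (ℝ × ℝ) × (ℝ × ℝ) =>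
      (min z.2.1.1 z.2.2.1, max z.2.1.2 z.2.2.2)) :=
    h.pair (pmin h h2 (pfst h (pfst h h.snd)) (pfst h (psnd h h.snd)))
      (pmax h h2 (psnd h (pfst h h.snd)) (psnd h (psnd h h.snd)))
  have hfold := h.foldl (l := fun x : (ℝ × ℝ) × IS => x.2.filter (fun y => !(ivDisj x.1 y)))
    (init := fun x : (ℝ × ℝ) × IS => x.1)
    (g := fun z : ((ℝ × ℝ) × IS) × (ℝ × ℝ) × (ℝ × ℝ) =>
      (min z.2.1.1 z.2.2.1, max z.2.1.2 z.2.2.2)) hf1 h.fst hg
    ⟨3, 0, fun x pre _ => by rw [sz_pair]; simp⟩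
  exact h.comp (f := fun x : (ℝ × ℝ) × IS =>
    ((x.2.filter (fun y => !(ivDisj x.1 y))).foldl (fun h y => (min h.1 y.1, max h.2 y.2)) x.1,
      x.2.filter (fun y => ivDisj x.1 y)))
    (g := fun z : (ℝ × ℝ) × IS => z.1 :: z.2) (h.pair hfold hf2) h.cons

lemma ins_length (x : ℝ × ℝ) (L : IS) : (ivIns x L).length ≤ L.length + 1 := by
  unfold ivIns
  rw [List.length_cons]
  exact Nat.succ_le_succ (List.length_filter_le _ _)

lemma union_length (L M : IS) : (ivUnion L M).length ≤ L.length + M.length := by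
  unfold ivUnion
  induction M generalizing L with
  | nil => simp
  | cons x M ih =>
    rw [List.foldl_cons]
    refine (ih _).trans ?_
    have := ins_length x L
    rw [List.length_cons]
    omega

lemma pt_union (h : PTLib) (h2 : PTLib2) : PT (fun x : IS × IS => ivUnion x.1 x.2) := by
  unfold ivUnion
  refine h.foldl (l := fun x : IS × IS => x.2) (init := fun x : IS × IS => x.1)
    (g := fun z : (IS × IS) × IS × (ℝ × ℝ) => ivIns z.2.2 z.2.1) h.snd h.fst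
    (pcomp2 h (F := fun x : (ℝ × ℝ) × IS => ivIns x.1 x.2) (pt_ins h h2) (psnd h h.snd)
      (pfst h h.snd)) ⟨1, 1, ?_⟩
  intro x pre hpre
  have h1 : (pre.foldl (fun b c => ivIns c b) x.1).length ≤ x.1.length + pre.length :=
    union_length x.1 pre
  have h3 : pre.length ≤ x.2.length := hpre.length_le
  have h4 : sz x = sz x.1 + sz x.2 + 1 := rfl
  show sz (pre.foldl (fun b c => ivIns c b) x.1) ≤ _
  rw [sz_is] at h4 ⊢
  rw [sz_is] at h4
  rw [pow_one]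
  omega

open Classical in
lemma pt_mem (h : PTLib) (h2 : PTLib2) : PT (fun x : ℝ × IS => ivMem x.1 x.2) := by
  unfold ivMem
  refine h2.any (f := fun x : ℝ × IS => x.2)
    (g := fun z : (ℝ × IS) × (ℝ × ℝ) => decide (z.2.1 ≤ z.1.1 ∧ z.1.1 ≤ z.2.2)) h.snd ?_
  have h3 : PD (fun z : (ℝ × IS) × (ℝ × ℝ) => z.2.1 ≤ z.1.1 ∧ z.1.1 ≤ z.2.2) :=
    pd_and h h2 (pd_le h h2 (pfst h h.snd) (pfst h h.fst)) (pd_le h h2 (pfst h h.fst) (psnd h h.snd))
  exact h3 _ (fun x => by simp)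

open Classical in
lemma pt_meet (h : PTLib) (h2 : PTLib2) :
    PT (fun x : ℝ × ℝ × IS × IS => ivMeet x.1 x.2.1 x.2.2.1 x.2.2.2) := by
  unfold ivMeet
  refine h2.any (f := fun x : ℝ × ℝ × IS × IS => x.2.2.1)
    (g := fun z : (ℝ × ℝ × IS × IS) × (ℝ × ℝ) => z.1.2.2.2.any (fun y =>
      decide (max z.2.1 y.1 ≤ min z.2.2 y.2 ∧ max z.2.1 y.1 < z.1.2.1 ∧ z.1.1 < min z.2.2 y.2)))
      (pfst h (psnd h h.snd)) ?_
  refine h2.any (f := fun z : (ℝ × ℝ × IS × IS) × (ℝ × ℝ) => z.1.2.2.2)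
    (g := fun w : ((ℝ × ℝ × IS × IS) × (ℝ × ℝ)) × (ℝ × ℝ) =>
      decide (max w.1.2.1 w.2.1 ≤ min w.1.2.2 w.2.2 ∧ max w.1.2.1 w.2.1 < w.1.1.2.1 ∧
        w.1.1.1 < min w.1.2.2 w.2.2)) (psnd h (psnd h (psnd h h.fst))) ?_
  have hmx : PT (fun w : ((ℝ × ℝ × IS × IS) × (ℝ × ℝ)) × (ℝ × ℝ) => max w.1.2.1 w.2.1) :=
    pmax h h2 (pfst h (psnd h h.fst)) (pfst h h.snd)
  have hmn : PT (fun w : ((ℝ × ℝ × IS × IS) × (ℝ × ℝ)) × (ℝ × ℝ) => min w.1.2.2 w.2.2) :=
    pmin h h2 (psnd h (psnd h h.fst)) (psnd h h.snd)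
  have hB : PT (fun w : ((ℝ × ℝ × IS × IS) × (ℝ × ℝ)) × (ℝ × ℝ) => w.1.1.2.1) :=
    pfst h (psnd h (pfst h h.fst))
  have hA : PT (fun w : ((ℝ × ℝ × IS × IS) × (ℝ × ℝ)) × (ℝ × ℝ) => w.1.1.1) :=
    pfst h (pfst h h.fst)
  exact (pd_and h h2 (pd_le h h2 hmx hmn) (pd_and h h2 (pd_lt h h2 hmx hB)
    (pd_lt h h2 hA hmn))) _ (fun x => by simp)

end M5h

open M5h in
theorem t_ptIv : S_ptIv := fun h h2 =>
  ⟨pt_clip h h2, pt_union h h2, pt_mem h h2, pt_meet h h2, union_length,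
    fun _ _ _ _ => List.length_filterMap_le _ _⟩

end Pool.Agent.H586R2.AF
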