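import Pool.Agent.H586R2.AF.PTStm

/-!
# M6: look-up and link tests are polynomial time
-/

set_option autoImplicit false

namespace Pool.Agent.H586R2.AF

namespace M6aux

theorem key {α β : Type} [Enc α] [Enc β] {f : α → β} (F : α → β) (hF : PT F)
    (hf : ∀ x, f x = F x) : PT f := by
  have : f = F := funext hf
  rw [this]
  exact hF

theorem pt_look (h : PTLib) (h2 : PTLib2) :
    PT (fun x : List Row × ℕ × ℕ => look x.1 x.2.1 x.2.2) := by
  have t1 : PT (fun y : (List Row × ℕ × ℕ) × Row => y.2) := h.snd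
  have t2 : PT (fun y : (List Row × ℕ × ℕ) × Row => y.2.1) := h.comp t1 h.fst
  have t3 : PT (fun y : (List Row × ℕ × ℕ) × Row => y.2.1.1) := h.comp t2 h.fst
  have t4 : PT (fun y : (List Row × ℕ × ℕ) × Row => y.2.1.2) := h.comp t2 h.snd
  have s1 : PT (fun y : (List Row × ℕ × ℕ) × Row => y.1) := h.fst
  have s2 : PT (fun y : (List Row × ℕ × ℕ) × Row => y.1.2) := h.comp s1 h.snd
  have s3 : PT (fun y : (List Row × ℕ × ℕ) × Row => y.1.2.1) := h.comp s2 h.fst
  have s4 : PT (fun y : (List Row × ℕ × ℕ) × Row => y.1.2.2) := h.comp s2 h.snd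
  have e1 : PT (fun y : (List Row × ℕ × ℕ) × Row => decide (y.2.1.1 = y.1.2.1)) :=
    h.comp (h.pair t3 s3) h2.neq
  have e2 : PT (fun y : (List Row × ℕ × ℕ) × Row => decide (y.2.1.2 = y.1.2.2)) :=
    h.comp (h.pair t4 s4) h2.neq
  have e3 : PT (fun y : (List Row × ℕ × ℕ) × Row =>
      decide (y.2.1.1 = y.1.2.1) && decide (y.2.1.2 = y.1.2.2)) :=
    h.comp (h.pair e1 e2) h2.and
  have f1 : PT (fun x : List Row × ℕ × ℕ => x.1) := h.fst
  have f2 : PT (fun x : List Row × ℕ × ℕ =>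
      x.1.find? (fun r => decide (r.1.1 = x.2.1) && decide (r.1.2 = x.2.2))) :=
    h2.find f1 e3
  have g1 : PT (fun _ : List Row × ℕ × ℕ => ((none, []) : Option Ang × IS)) :=
    h.pair h.cNone h.cNil
  have g2 : PT (fun y : (List Row × ℕ × ℕ) × Row => y.2.2) := h.comp t1 h.snd
  have k := h.casesOpt f2 g1 g2
  refine key _ k fun x => ?_
  unfold look
  generalize x.1.find? (fun r => decide (r.1.1 = x.2.1) && decide (r.1.2 = x.2.2)) = o
  cases o <;> rfl

theorem pt_seg (h : PTLib) (h2 : PTLib2) : PT (fun x : ℕ × ℕ => seg x.1 x.2) := by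
  have a1 : PT (fun x : ℕ × ℕ => x.1) := h.fst
  have a2 : PT (fun x : ℕ × ℕ => x.2) := h.snd
  have a3 : PT (fun x : ℕ × ℕ => x.2 - x.1) := h.comp (h.pair a2 a1) h2.nsub
  have a4 : PT (fun x : ℕ × ℕ => List.range (x.2 - x.1)) := h.comp a3 h2.range
  have b1 : PT (fun y : (ℕ × ℕ) × ℕ => y.1) := h.fst
  have b2 : PT (fun y : (ℕ × ℕ) × ℕ => y.1.1) := h.comp b1 h.fst
  have b3 : PT (fun y : (ℕ × ℕ) × ℕ => y.2) := h.snd
  have b4 : PT (fun y : (ℕ × ℕ) × ℕ => y.1.1 + y.2) := h.comp (h.pair b2 b3) h2.nadd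
  exact h2.map a4 b4

end M6aux

theorem t_ptLook : S_ptLook := fun h h2 => ⟨M6aux.pt_look h h2, M6aux.pt_seg h h2⟩

end Pool.Agent.H586R2.AF
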