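import Pool.Agent.H586R2.AF.PTStm

/-!
# Task M7: the first component of a table entry is computable in polynomial time
-/

set_option autoImplicit false

namespace Pool.Agent.H586R2.AF

namespace TM7

variable {α β γ δ ε : Type} [Enc α] [Enc β] [Enc γ] [Enc δ] [Enc ε]

theorem comp2 (L : PTLib) {f : α → β} {g : α → γ} {h : β × γ → δ}
    (hf : PT f) (hg : PT g) (hh : PT h) : PT (fun x => h (f x, g x)) :=
  L.comp (L.pair hf hg) hh

/-- constants that are encoded by natural numbers and integers -/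
theorem cAng (L : PTLib) (k : ℕ) (c s : ℤ) : PT (fun _ : α => ((k, (c : ℝ), (s : ℝ)) : Ang)) :=
  L.pair (L.cNat k) (L.pair (L.cInt c) (L.cInt s))

theorem cAngPi (L : PTLib) : PT (fun _ : α => angPi) := by
  have h := cAng (α := α) L 1 1 0
  simpa [angPi] using h

theorem cAng0 (L : PTLib) : PT (fun _ : α => ang0) := by
  have h := cAng (α := α) L 0 1 0
  simpa [ang0] using h

theorem sz_pos {x : α} : 1 ≤ sz x := by
  unfold sz
  cases enc x <;> simp [D.size]

theorem sz_pair (x : α) (y : β) : sz (x, y) = sz x + sz y + 1 := rfl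

theorem sz_nat (k : ℕ) : sz k = 2 * k + 1 := by
  have : ∀ k : ℕ, (encNat k).size = 2 * k + 1 := by
    intro k
    induction k with
    | zero => rfl
    | succ k ih => simp [encNat, D.size, ih]; omega
  exact this k

/-- the body of the computation -/
theorem main (L : PTLib) (L2 : PTLib2) (hA : S_ptAng) (hI : S_ptIv) (hL : S_ptLook) :
    PT (fun x : Arg => entryA x.2.1 x.2.2.1 x.2.2.2.1 x.2.2.2.2.1 x.2.2.2.2.2) := by
  obtain ⟨hNorm, hAdd, hLe, hMin, hOAdd, hOLe, hCap⟩ := hA L L2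
  obtain ⟨hClip, hUnion, hMem, hMeet, -, -⟩ := hI L L2
  obtain ⟨hLook, hSeg⟩ := hL L L2
  -- projections of the argument
  have pS : PT (fun x : Arg => x.2.1) := by
    exact L.comp L.snd L.fst
  have p2 : PT (fun x : Arg => x.2.2) := by
    exact L.comp L.snd L.snd
  have pal : PT (fun x : Arg => x.2.2.1) := by
    have h := L.comp p2 L.fst
    exact h
  have p3 : PT (fun x : Arg => x.2.2.2) := by
    have h := L.comp p2 L.snd
    exact h
  have pT : PT (fun x : Arg => x.2.2.2.1) := by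
    have h := L.comp p3 L.fst
    exact h
  have p4 : PT (fun x : Arg => x.2.2.2.2) := by
    have h := L.comp p3 L.snd
    exact h
  have pi : PT (fun x : Arg => x.2.2.2.2.1) := by
    have h := L.comp p4 L.fst
    exact h
  have pj : PT (fun x : Arg => x.2.2.2.2.2) := by
    have h := L.comp p4 L.snd
    exact h
  -- flatLink
  have q0 : PT (fun x : (Arg × ℕ) × ℕ => x.1.1) := by
    exact L.comp L.fst L.fst
  have qS : PT (fun x : (Arg × ℕ) × ℕ => x.1.1.2.1) := by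
    have h := L.comp q0 pS
    exact h
  have qT : PT (fun x : (Arg × ℕ) × ℕ => x.1.1.2.2.2.1) := by
    have h := L.comp q0 pT
    exact h
  have qj : PT (fun x : (Arg × ℕ) × ℕ => x.1.1.2.2.2.2.2) := by
    have h := L.comp q0 pj
    exact h
  have qr : PT (fun x : (Arg × ℕ) × ℕ => x.1.2) := by
    exact L.comp L.fst L.snd
  have qe : PT (fun x : (Arg × ℕ) × ℕ => x.2) := L.snd
  have zero : PT (fun _ : (Arg × ℕ) × ℕ => (0 : ℝ)) := by
    have h := L.cInt (α := (Arg × ℕ) × ℕ) 0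
    simpa using h
  have one : PT (fun _ : (Arg × ℕ) × ℕ => (1 : ℕ)) := L.cNat 1
  have qe1 : PT (fun x : (Arg × ℕ) × ℕ => x.2 + 1) := by
    have h := L.comp qe L.succ
    exact h
  have qj1 : PT (fun x : (Arg × ℕ) × ℕ => x.1.1.2.2.2.2.2 - 1) := comp2 L qj one L2.nsub
  have gSe : PT (fun x : (Arg × ℕ) × ℕ => x.1.1.2.1.getD x.2 0) :=
    comp2 L qS (L.pair qe zero) L2.getD
  have gSe1 : PT (fun x : (Arg × ℕ) × ℕ => x.1.1.2.1.getD (x.2 + 1) 0) :=
    comp2 L qS (L.pair qe1 zero) L2.getD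
  have gSr : PT (fun x : (Arg × ℕ) × ℕ => x.1.1.2.1.getD x.1.2 0) :=
    comp2 L qS (L.pair qr zero) L2.getD
  have gSj : PT (fun x : (Arg × ℕ) × ℕ => x.1.1.2.1.getD x.1.1.2.2.2.2.2 0) :=
    comp2 L qS (L.pair qj zero) L2.getD
  have l1 : PT (fun x : (Arg × ℕ) × ℕ => (look x.1.1.2.2.2.1 x.1.2 x.2).2) :=
    L.comp (comp2 L qT (L.pair qr qe) hLook) L.snd
  have l2 : PT (fun x : (Arg × ℕ) × ℕ =>
      (look x.1.1.2.2.2.1 x.2 (x.1.1.2.2.2.2.2 - 1)).2) :=
    L.comp (comp2 L qT (L.pair qe qj1) hLook) L.snd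
  have c1 : PT (fun x : (Arg × ℕ) × ℕ => ivClip (x.1.1.2.1.getD x.2 0)
      (x.1.1.2.1.getD (x.2 + 1) 0) (-(x.1.1.2.1.getD x.1.2 0))
      (look x.1.1.2.2.2.1 x.1.2 x.2).2) :=
    comp2 L gSe (L.pair gSe1 (L.pair (L.comp gSr L2.neg) l1)) hClip
  have c2 : PT (fun x : (Arg × ℕ) × ℕ => ivClip (x.1.1.2.1.getD x.2 0)
      (x.1.1.2.1.getD (x.2 + 1) 0) (-(x.1.1.2.1.getD x.1.1.2.2.2.2.2 0))
      (look x.1.1.2.2.2.1 x.2 (x.1.1.2.2.2.2.2 - 1)).2) :=
    comp2 L gSe (L.pair gSe1 (L.pair (L.comp gSj L2.neg) l2)) hClip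
  have hFlat : PT (fun x : (Arg × ℕ) × ℕ =>
      flatLink x.1.1.2.1 x.1.1.2.2.2.1 x.1.1.2.2.2.2.2 x.1.2 x.2) :=
    comp2 L gSe (L.pair gSe1 (L.pair c1 c2)) hMeet
  -- candA
  have r0 : PT (fun x : Arg × ℕ => x.1) := L.fst
  have rr : PT (fun x : Arg × ℕ => x.2) := L.snd
  have rS : PT (fun x : Arg × ℕ => x.1.2.1) := by
    have h := L.comp r0 pS
    exact h
  have ral : PT (fun x : Arg × ℕ => x.1.2.2.1) := by
    have h := L.comp r0 pal
    exact h
  have rT : PT (fun x : Arg × ℕ => x.1.2.2.2.1) := by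
    have h := L.comp r0 pT
    exact h
  have ri : PT (fun x : Arg × ℕ => x.1.2.2.2.2.1) := by
    have h := L.comp r0 pi
    exact h
  have rj : PT (fun x : Arg × ℕ => x.1.2.2.2.2.2) := by
    have h := L.comp r0 pj
    exact h
  have rj1 : PT (fun x : Arg × ℕ => x.1.2.2.2.2.2 - 1) := comp2 L rj (L.cNat 1) L2.nsub
  have rzero : PT (fun _ : Arg × ℕ => (0 : ℝ)) := by
    have h := L.cInt (α := Arg × ℕ) 0
    simpa using h
  have rSr : PT (fun x : Arg × ℕ => x.1.2.1.getD x.2 0) :=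
    comp2 L rS (L.pair rr rzero) L2.getD
  have rSj : PT (fun x : Arg × ℕ => x.1.2.1.getD x.1.2.2.2.2.2 0) :=
    comp2 L rS (L.pair rj rzero) L2.getD
  have rsum : PT (fun x : Arg × ℕ => x.1.2.1.getD x.2 0 + x.1.2.1.getD x.1.2.2.2.2.2 0) :=
    comp2 L rSr rSj L.add
  have ralj : PT (fun x : Arg × ℕ => x.1.2.2.1.getD x.1.2.2.2.2.2 ang0) :=
    comp2 L ral (L.pair rj (cAng0 L)) L2.getD
  have rl1 : PT (fun x : Arg × ℕ => (look x.1.2.2.2.1 x.2 (x.1.2.2.2.2.2 - 1)).2) :=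
    L.comp (comp2 L rT (L.pair rr rj1) hLook) L.snd
  have rl2 : PT (fun x : Arg × ℕ => (look x.1.2.2.2.1 x.1.2.2.2.2.1 x.2).1) :=
    L.comp (comp2 L rT (L.pair ri rr) hLook) L.fst
  have rmem : PT (fun x : Arg × ℕ =>
      ivMem (x.1.2.1.getD x.2 0 + x.1.2.1.getD x.1.2.2.2.2.2 0)
        (look x.1.2.2.2.1 x.2 (x.1.2.2.2.2.2 - 1)).2) := comp2 L rsum rl1 hMem
  have rany : PT (fun x : Arg × ℕ => (seg x.2 x.1.2.2.2.2.2).any
      (fun e => flatLink x.1.2.1 x.1.2.2.2.1 x.1.2.2.2.2.2 x.2 e)) :=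
    L2.any (comp2 L rr rj hSeg) hFlat
  have ra1 : PT (fun x : Arg × ℕ => oAdd (look x.1.2.2.2.1 x.1.2.2.2.2.1 x.2).1
      (x.1.2.2.1.getD x.1.2.2.2.2.2 ang0)) := comp2 L rl2 ralj hOAdd
  have ra2 : PT (fun x : Arg × ℕ => oAdd (oAdd (look x.1.2.2.2.1 x.1.2.2.2.2.1 x.2).1 angPi)
      (x.1.2.2.1.getD x.1.2.2.2.2.2 ang0)) :=
    comp2 L (comp2 L rl2 (cAngPi L) hOAdd) ralj hOAdd
  have rn : PT (fun _ : Arg × ℕ => (none : Option Ang)) := L.cNone
  have hCand : PT (fun x : Arg × ℕ =>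
      candA x.1.2.1 x.1.2.2.1 x.1.2.2.2.1 x.1.2.2.2.2.1 x.1.2.2.2.2.2 x.2) :=
    comp2 L (L.ite rmem ra1 rn) (L.ite rany ra2 rn) hMin
  -- the fold
  have g1 : PT (fun y : Arg × Option Ang × ℕ => (y.1, y.2.2)) :=
    L.pair L.fst (L.comp L.snd L.snd)
  have hg : PT (fun y : Arg × Option Ang × ℕ => oMin y.2.1
      (candA y.1.2.1 y.1.2.2.1 y.1.2.2.2.1 y.1.2.2.2.2.1 y.1.2.2.2.2.2 y.2.2)) :=
    comp2 L (L.comp L.snd L.fst) (L.comp g1 hCand) hMin
  have hfold : PT (fun x : Arg => (seg x.2.2.2.2.1 x.2.2.2.2.2).foldl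
      (fun acc r => oMin acc
        (candA x.2.1 x.2.2.1 x.2.2.2.1 x.2.2.2.2.1 x.2.2.2.2.2 r)) none) := by
    refine L.foldl (comp2 L pi pj hSeg) (L.cNone (α := Arg) (β := Ang)) hg ?_
    obtain ⟨p, C, k, hp⟩ := hCand
    refine ⟨C * 2 ^ k + 1, k, fun x pre hpre => ?_⟩
    have hmem : ∀ r ∈ pre, r < x.2.2.2.2.2 := by
      intro r hr
      have h1 := hpre.subset hr
      simp only [seg, List.mem_map, List.mem_range] at h1
      obtain ⟨t, ht, rfl⟩ := h1
      omega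
    have hb : ∀ r ∈ pre, sz (candA x.2.1 x.2.2.1 x.2.2.2.1 x.2.2.2.2.1 x.2.2.2.2.2 r) ≤
        (C * 2 ^ k + 1) * (sz x + 1) ^ k := by
      intro r hr
      have h1 := (hp (x, r)).2
      have h2 : sz (x, r) + 1 ≤ 2 * (sz x + 1) := by
        have h3 := hmem r hr
        have h4 : sz r ≤ sz x := by
          have h5 : sz x = sz x.1 + (sz x.2.1 + (sz x.2.2.1 + (sz x.2.2.2.1 +
            (sz x.2.2.2.2.1 + sz x.2.2.2.2.2 + 1) + 1) + 1) + 1) + 1 := rfl
          have h6 := sz_nat r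
          have h7 := sz_nat x.2.2.2.2.2
          omega
        have h8 := sz_pair x r
        omega
      calc sz (candA x.2.1 x.2.2.1 x.2.2.2.1 x.2.2.2.2.1 x.2.2.2.2.2 r)
          ≤ C * (sz (x, r) + 1) ^ k := h1
        _ ≤ C * (2 * (sz x + 1)) ^ k :=
            Nat.mul_le_mul_left _ (Nat.pow_le_pow_left h2 k)
        _ = C * 2 ^ k * (sz x + 1) ^ k := by rw [mul_pow]; ring
        _ ≤ (C * 2 ^ k + 1) * (sz x + 1) ^ k := Nat.mul_le_mul_right _ (Nat.le_succ _)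
    have hnone : sz (none : Option Ang) ≤ (C * 2 ^ k + 1) * (sz x + 1) ^ k := by
      have h1 : sz (none : Option Ang) = 1 := rfl
      rw [h1]
      have h2 : 0 < (sz x + 1) ^ k := by positivity
      exact Nat.one_le_iff_ne_zero.2 (Nat.mul_ne_zero (by omega) (by omega))
    have key : ∀ (l : List ℕ) (a : Option Ang), sz a ≤ (C * 2 ^ k + 1) * (sz x + 1) ^ k →
        (∀ r ∈ l, sz (candA x.2.1 x.2.2.1 x.2.2.2.1 x.2.2.2.2.1 x.2.2.2.2.2 r) ≤
          (C * 2 ^ k + 1) * (sz x + 1) ^ k) →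
        sz (l.foldl (fun acc r => oMin acc
          (candA x.2.1 x.2.2.1 x.2.2.2.1 x.2.2.2.2.1 x.2.2.2.2.2 r)) a) ≤
          (C * 2 ^ k + 1) * (sz x + 1) ^ k := by
      intro l
      induction l with
      | nil => intro a ha _; simpa using ha
      | cons r l ih =>
        intro a ha hl
        rw [List.foldl_cons]
        refine ih _ ?_ (fun r' hr' => hl r' (List.mem_cons_of_mem _ hr'))
        have hr := hl r List.mem_cons_self
        generalize candA x.2.1 x.2.2.1 x.2.2.2.1 x.2.2.2.2.1 x.2.2.2.2.2 r = c at hr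
        cases a with
        | none => simpa [oMin] using hr
        | some a =>
          cases c with
          | none => simpa [oMin] using ha
          | some c =>
            simp only [oMin]
            split_ifs
            · exact ha
            · exact hr
    exact key pre none hnone hb
  -- the entry
  have hzero : PT (fun x : Arg => some (x.2.2.1.getD x.2.2.2.2.2 ang0)) :=
    L.comp (comp2 L pal (L.pair pj (cAng0 L)) L2.getD) L.some
  have hif := L.ite (comp2 L pi pj L2.neq) hzero hfold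
  have hfin := L.comp hif hCap
  refine cast (congrArg PT ?_) hfin
  funext x
  unfold entryA
  congr 1
  by_cases h : x.2.2.2.2.1 = x.2.2.2.2.2
  · simp [h]
  · simp [h]

end TM7

theorem t_ptEntryA : S_ptEntryA := fun L L2 hA hI hL => TM7.main L L2 hA hI hL

end Pool.Agent.H586R2.AF
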