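import Pool.Agent.H586R2.AF.PTStm

/-!
# M8 (helper51): the second component of a table entry is computed in polynomial time
-/

set_option autoImplicit false

namespace Pool.Agent.H586R2.AF

namespace M8

section size

variable {α β : Type} [Enc α] [Enc β]

theorem sz_pair (a : α) (b : β) : sz (a, b) = sz a + sz b + 1 := rfl

theorem sz_nil : sz ([] : List α) = 1 := rfl

theorem sz_cons (a : α) (l : List α) : sz (a :: l) = sz a + sz l + 1 := rfl

theorem sz_real (r : ℝ) : sz r = 1 := rfl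

theorem sz_nat (k : ℕ) : sz k = 2 * k + 1 := by
  induction k with
  | zero => rfl
  | succ k ih =>
    have : sz (k + 1) = 1 + sz k + 1 := rfl
    rw [this, ih]; ring

theorem sz_is (l : IS) : sz l = 4 * l.length + 1 := by
  induction l with
  | nil => rfl
  | cons a l ih =>
    rw [sz_cons, ih, List.length_cons]
    have : sz a = 3 := rfl
    rw [this]; ring

theorem sz_ang (a : Ang) : sz a = 2 * a.1 + 5 := by
  obtain ⟨k, c, s⟩ := a
  rw [sz_pair, sz_nat, sz_pair, sz_real, sz_real]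

theorem sz_mem {a : α} {l : List α} (h : a ∈ l) : sz a ≤ sz l := by
  induction l with
  | nil => simp at h
  | cons b l ih =>
    rw [sz_cons]
    rcases List.mem_cons.1 h with rfl | h
    · omega
    · have := ih h; omega

end size

theorem look_len (T : List Row) (i j : ℕ) : (look T i j).2.length ≤ sz T := by
  unfold look
  split
  · next r hr =>
    have h1 := sz_mem (List.mem_of_find?_eq_some hr)
    have h2 : sz r = sz r.1 + sz r.2 + 1 := rfl
    have h3 : sz r.2 = sz r.2.1 + sz r.2.2 + 1 := rfl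
    have h4 := sz_is r.2.2
    omega
  · simp

theorem getD_le (al : List Ang) (k : ℕ) : (al.getD k ang0).1 ≤ sz al := by
  by_cases h : k < al.length
  · have h1 : al.getD k ang0 = al[k] := by simp [List.getD_eq_getElem?_getD, h]
    rw [h1]
    have h2 := sz_mem (List.getElem_mem h)
    rw [sz_ang] at h2
    omega
  · have h1 : al.getD k ang0 = ang0 := by
      rw [List.getD_eq_getElem?_getD, List.getElem?_eq_none (by omega)]
      rfl
    rw [h1]
    simp [ang0]

theorem angAdd_le (a b : Ang) : (angAdd a b).1 ≤ a.1 + b.1 + 1 := by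
  unfold angAdd angNorm
  split_ifs <;> simp

theorem seg_len (i j : ℕ) : (seg i j).length = j - i := by
  unfold seg; simp

section pt

variable {α β γ : Type} [Enc α] [Enc β] [Enc γ]

theorem pgetD (L : PTLib) (L2 : PTLib2) {f : α → List β} {g : α → ℕ} {h : α → β} (hf : PT f)
    (hg : PT g) (hh : PT h) : PT (fun x => (f x).getD (g x) (h x)) :=
  L.comp (L.pair hf (L.pair hg hh)) L2.getD

theorem padd (L : PTLib) {f g : α → ℝ} (hf : PT f) (hg : PT g) : PT (fun x => f x + g x) :=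
  L.comp (L.pair hf hg) L.add

theorem psub (L : PTLib) {f g : α → ℝ} (hf : PT f) (hg : PT g) : PT (fun x => f x - g x) :=
  L.comp (L.pair hf hg) L.sub

theorem psucc (L : PTLib) {f : α → ℕ} (hf : PT f) : PT (fun x => f x + 1) := L.comp hf L.succ

theorem pnsub (L : PTLib) (L2 : PTLib2) {f g : α → ℕ} (hf : PT f) (hg : PT g) :
    PT (fun x => f x - g x) := L.comp (L.pair hf hg) L2.nsub

theorem pnadd (L : PTLib) (L2 : PTLib2) {f g : α → ℕ} (hf : PT f) (hg : PT g) :
    PT (fun x => f x + g x) := L.comp (L.pair hf hg) L2.nadd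

theorem pfst (L : PTLib) {f : α → β × γ} (hf : PT f) : PT (fun x => (f x).1) := L.comp hf L.fst

theorem psnd (L : PTLib) {f : α → β × γ} (hf : PT f) : PT (fun x => (f x).2) := L.comp hf L.snd

theorem pite (L : PTLib) {P : α → Prop} [DecidablePred P] {f g : α → β}
    (hP : PT (fun x => decide (P x))) (hf : PT f) (hg : PT g) :
    PT (fun x => if P x then f x else g x) := by
  have h := L.ite hP hf hg
  simpa only [decide_eq_true_eq] using h

theorem pang0 (L : PTLib) : PT (fun _ : α => ang0) := by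
  have h := L.pair (L.cNat (α := α) 0) (L.pair (L.cInt (α := α) 1) (L.cInt (α := α) 0))
  simpa [ang0] using h

theorem pangPi (L : PTLib) : PT (fun _ : α => angPi) := by
  have h := L.pair (L.cNat (α := α) 1) (L.pair (L.cInt (α := α) 1) (L.cInt (α := α) 0))
  simpa [angPi] using h

theorem pang2Pi (L : PTLib) : PT (fun _ : α => ang2Pi) := by
  have h := L.pair (L.cNat (α := α) 2) (L.pair (L.cInt (α := α) 1) (L.cInt (α := α) 0))
  simpa [ang2Pi] using h

theorem plook (L : PTLib) (hLk : PT (fun x : List Row × ℕ × ℕ => look x.1 x.2.1 x.2.2))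
    {f : α → List Row} {g h : α → ℕ} (hf : PT f) (hg : PT g) (hh : PT h) :
    PT (fun x => look (f x) (g x) (h x)) := L.comp (L.pair hf (L.pair hg hh)) hLk

theorem poLe (L : PTLib) (ho : PT (fun x : Option Ang × Ang => oLe x.1 x.2))
    {f : α → Option Ang} {g : α → Ang} (hf : PT f) (hg : PT g) :
    PT (fun x => oLe (f x) (g x)) := L.comp (L.pair hf hg) ho

theorem pclip (L : PTLib) (hc : PT (fun x : ℝ × ℝ × ℝ × IS => ivClip x.1 x.2.1 x.2.2.1 x.2.2.2))
    {f g h : α → ℝ} {l : α → IS} (hf : PT f) (hg : PT g) (hh : PT h) (hl : PT l) :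
    PT (fun x => ivClip (f x) (g x) (h x) (l x)) :=
  L.comp (L.pair hf (L.pair hg (L.pair hh hl))) hc

theorem pseg (L : PTLib) (hs : PT (fun x : ℕ × ℕ => seg x.1 x.2)) {f g : α → ℕ} (hf : PT f)
    (hg : PT g) : PT (fun x => seg (f x) (g x)) := L.comp (L.pair hf hg) hs

end pt

theorem fold_len {γ : Type} (M : ∀ L M : IS, (ivUnion L M).length ≤ L.length + M.length)
    (h : γ → IS) (B : ℕ) (hB : ∀ p, (h p).length ≤ B) (pre : List γ) :
    ∀ acc : IS, (pre.foldl (fun acc p => ivUnion acc (h p)) acc).length ≤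
      acc.length + pre.length * B := by
  induction pre with
  | nil => intro acc; simp
  | cons p pre ih =>
    intro acc
    rw [List.foldl_cons, List.length_cons]
    have h1 := ih (ivUnion acc (h p))
    have h2 := M acc (h p)
    have h3 := hB p
    have h4 : (pre.length + 1) * B = pre.length * B + B := by ring
    omega

/-- folds of unions of intervals -/
theorem pfoldU (L : PTLib) {α : Type} [Enc α] (hU : PT (fun x : IS × IS => ivUnion x.1 x.2))
    (M : ∀ L M : IS, (ivUnion L M).length ≤ L.length + M.length)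
    {l : α → List ℕ} {init : α → IS} {h : α × ℕ → IS} (hl : PT l) (hi : PT init) (hh : PT h)
    (b1 : ∀ x, (l x).length ≤ sz x) (b2 : ∀ x p, (h (x, p)).length ≤ sz x) :
    PT (fun x => (l x).foldl (fun acc p => ivUnion acc (h (x, p))) (init x)) := by
  have hg : PT (fun y : α × IS × ℕ => ivUnion y.2.1 (h (y.1, y.2.2))) :=
    L.comp (L.pair (pfst L (psnd L L.id)) (L.comp (L.pair (pfst L L.id) (psnd L (psnd L L.id))) hh)) hU
  refine L.foldl (g := fun y : α × IS × ℕ => ivUnion y.2.1 (h (y.1, y.2.2))) hl hi hg ?_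
  obtain ⟨p, C, k, hp⟩ := hi
  refine ⟨4 * (C + 1) + 1, k + 2, fun x pre hpre => ?_⟩
  have h1 := fold_len M (fun p => h (x, p)) (sz x) (b2 x) pre (init x)
  have h2 := (hp x).2
  rw [sz_is] at h2 ⊢
  have h3 : pre.length ≤ sz x := hpre.length_le.trans (b1 x)
  have h4 : pre.length * sz x ≤ (sz x + 1) ^ (k + 2) := by
    calc pre.length * sz x ≤ (sz x + 1) * (sz x + 1) := Nat.mul_le_mul (by omega) (by omega)
      _ = (sz x + 1) ^ 2 := by ring
      _ ≤ (sz x + 1) ^ (k + 2) := Nat.pow_le_pow_right (by omega) (by omega)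
  have h5 : C * (sz x + 1) ^ k ≤ C * (sz x + 1) ^ (k + 2) :=
    Nat.mul_le_mul_left _ (Nat.pow_le_pow_right (by omega) (by omega))
  have h6 : 1 ≤ (sz x + 1) ^ (k + 2) := Nat.one_le_pow _ _ (by omega)
  have h7 : (4 * (C + 1) + 1) * (sz x + 1) ^ (k + 2) =
      4 * (C * (sz x + 1) ^ (k + 2)) + 4 * (sz x + 1) ^ (k + 2) + (sz x + 1) ^ (k + 2) := by ring
  rw [h7]
  show 4 * (pre.foldl (fun acc p => ivUnion acc (h (x, p))) (init x)).length + 1 ≤ _
  omega

theorem sumA_len (al : List Ang) (pre : List ℕ) : ∀ acc : Ang,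
    (pre.foldl (fun acc k => angAdd acc (al.getD k ang0)) acc).1 ≤
      acc.1 + pre.length * (sz al + 1) := by
  induction pre with
  | nil => intro acc; simp
  | cons p pre ih =>
    intro acc
    rw [List.foldl_cons, List.length_cons]
    have h1 := ih (angAdd acc (al.getD p ang0))
    have h2 := angAdd_le acc (al.getD p ang0)
    have h3 := getD_le al p
    have h4 : (pre.length + 1) * (sz al + 1) = pre.length * (sz al + 1) + (sz al + 1) := by ring
    omega

theorem psumA (L : PTLib) (L2 : PTLib2) (hadd : PT (fun x : Ang × Ang => angAdd x.1 x.2))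
    (hs : PT (fun x : ℕ × ℕ => seg x.1 x.2)) :
    PT (fun x : List Ang × ℕ × ℕ => sumA x.1 x.2.1 x.2.2) := by
  have hl : PT (fun x : List Ang × ℕ × ℕ => seg (x.2.1 + 1) (x.2.2 + 1)) :=
    pseg L hs (psucc L (pfst L (psnd L L.id))) (psucc L (psnd L (psnd L L.id)))
  have hg : PT (fun y : (List Ang × ℕ × ℕ) × Ang × ℕ =>
      angAdd y.2.1 (y.1.1.getD y.2.2 ang0)) :=
    L.comp (L.pair (pfst L (psnd L L.id)) (pgetD L L2 (pfst L (pfst L L.id))
      (psnd L (psnd L L.id)) (pang0 L))) hadd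
  refine L.foldl (g := fun y : (List Ang × ℕ × ℕ) × Ang × ℕ =>
    angAdd y.2.1 (y.1.1.getD y.2.2 ang0)) hl (pang0 L) hg ?_
  refine ⟨7, 2, fun x pre hpre => ?_⟩
  have h1 := sumA_len x.1 pre ang0
  rw [sz_ang]
  show 2 * (pre.foldl (fun acc k => angAdd acc (x.1.getD k ang0)) ang0).1 + 5 ≤ _
  have h2 := hpre.length_le
  rw [seg_len] at h2
  have h3 : sz x = sz x.1 + (sz x.2.1 + sz x.2.2 + 1) + 1 := rfl
  have h4 := sz_nat x.2.2
  have h5 : ang0.1 = 0 := rfl
  have h6 : pre.length * (sz x.1 + 1) ≤ (sz x + 1) * (sz x + 1) :=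
    Nat.mul_le_mul (by omega) (by omega)
  have h7 : 1 ≤ (sz x + 1) * (sz x + 1) := Nat.mul_pos (by omega) (by omega)
  rw [pow_two]
  omega

theorem clip_len (Mc : ∀ A B sh L, (ivClip A B sh L).length ≤ L.length) (c : Bool)
    (A B sh : ℝ) (T : List Row) (i j : ℕ) :
    (if c = true then ivClip A B sh (look T i j).2 else []).length ≤ sz T := by
  split_ifs
  · exact (Mc _ _ _ _).trans (look_len _ _ _)
  · simp

end M8

open M8 in
theorem t_ptEntryI : S_ptEntryI := by
  intro L L2 hAng hIv hLook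
  obtain ⟨-, hadd, -, -, -, hoLe, -⟩ := hAng L L2
  obtain ⟨hclip, hU, -, -, MU, Mc⟩ := hIv L L2
  obtain ⟨hlk, hseg⟩ := hLook L L2
  -- projections
  have pn : PT (fun x : Arg => x.1.1) := pfst L (pfst L L.id)
  have pcap : PT (fun x : Arg => x.1.2) := psnd L (pfst L L.id)
  have pS : PT (fun x : Arg => x.2.1) := pfst L (psnd L L.id)
  have pal : PT (fun x : Arg => x.2.2.1) := pfst L (psnd L (psnd L L.id))
  have pT : PT (fun x : Arg => x.2.2.2.1) := pfst L (psnd L (psnd L (psnd L L.id)))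
  have pi : PT (fun x : Arg => x.2.2.2.2.1) := pfst L (psnd L (psnd L (psnd L (psnd L L.id))))
  have pj : PT (fun x : Arg => x.2.2.2.2.2) := psnd L (psnd L (psnd L (psnd L (psnd L L.id))))
  have q1 : PT (fun x : Arg × ℕ => x.1) := L.fst
  have qS : PT (fun x : Arg × ℕ => x.1.2.1) := pfst L (psnd L q1)
  have qT : PT (fun x : Arg × ℕ => x.1.2.2.2.1) := pfst L (psnd L (psnd L (psnd L q1)))
  have qi : PT (fun x : Arg × ℕ => x.1.2.2.2.2.1) :=
    pfst L (psnd L (psnd L (psnd L (psnd L q1))))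
  have qj : PT (fun x : Arg × ℕ => x.1.2.2.2.2.2) :=
    psnd L (psnd L (psnd L (psnd L (psnd L q1))))
  have qp : PT (fun x : Arg × ℕ => x.2) := L.snd
  have c0 : ∀ {α : Type} [Enc α], PT (fun _ : α => (0 : ℝ)) := by
    intro α _
    have := L.cInt (α := α) 0
    simpa using this
  -- positions
  have sS : ∀ {α : Type} [Enc α] {f : α → List ℝ} {g : α → ℕ}, PT f → PT g →
      PT (fun x => (f x).getD (g x) 0) := fun hf hg => pgetD L L2 hf hg c0
  -- the three kinds of intervals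
  have hright : PT (fun x : Arg × ℕ =>
      rightI x.1.2.1 x.1.2.2.2.1 x.1.2.2.2.2.1 x.1.2.2.2.2.2 x.2) := by
    refine L.ite (b := fun x : Arg × ℕ => oLe (look x.1.2.2.2.1 (x.1.2.2.2.2.1 + 1) x.2).1 angPi)
      (poLe L hoLe (pfst L (plook L hlk qT (psucc L qi) qp)) (pangPi L))
      (pclip L hclip (padd L (sS qS (psucc L qi)) (sS qS qj))
        (padd L (sS qS (psucc L qi)) (sS qS (psucc L qj)))
        (psub L (sS qS (psucc L qi)) (sS qS qp))
        (psnd L (plook L hlk qT qp qj))) L.cNil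
  have hleft : PT (fun x : Arg × ℕ =>
      leftI x.1.2.1 x.1.2.2.2.1 x.1.2.2.2.2.1 x.1.2.2.2.2.2 x.2) := by
    refine L.ite (b := fun x : Arg × ℕ => oLe (look x.1.2.2.2.1 (x.2 + 1) x.1.2.2.2.2.2).1 angPi)
      (poLe L hoLe (pfst L (plook L hlk qT (psucc L qp) qj)) (pangPi L))
      (pclip L hclip (padd L (sS qS qi) (sS qS qj))
        (padd L (sS qS (psucc L qi)) (sS qS qj))
        (psub L (sS qS qj) (sS qS (psucc L qp)))
        (psnd L (plook L hlk qT qi qp))) L.cNil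
  have hterm : PT (fun x : Arg => termI x.2.1 x.2.2.2.1 x.2.2.2.2.1 x.2.2.2.2.2) := by
    refine L.ite (b := fun x : Arg => oLe (look x.2.2.2.1 (x.2.2.2.2.1 + 1) x.2.2.2.2.2).1 ang2Pi)
      (poLe L hoLe (pfst L (plook L hlk pT (psucc L pi) pj)) (pang2Pi L)) ?_ L.cNil
    have h1 := padd L (sS pS (psucc L pi)) (sS pS pj)
    exact L.comp (L.pair (L.pair h1 h1) L.cNil) L.cons
  have szx : ∀ x : Arg, sz x = sz x.1 + (sz x.2.1 + (sz x.2.2.1 + (sz x.2.2.2.1 +
      (sz x.2.2.2.2.1 + sz x.2.2.2.2.2 + 1) + 1) + 1) + 1) + 1 := fun x => rfl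
  -- the two folds
  have hF1 : PT (fun x : Arg => (seg (x.2.2.2.2.1 + 1) (x.2.2.2.2.2 + 1)).foldl
      (fun acc p => ivUnion acc (rightI x.2.1 x.2.2.2.1 x.2.2.2.2.1 x.2.2.2.2.2 p))
      (termI x.2.1 x.2.2.2.1 x.2.2.2.2.1 x.2.2.2.2.2)) := by
    refine pfoldU L (h := fun x : Arg × ℕ =>
      rightI x.1.2.1 x.1.2.2.2.1 x.1.2.2.2.2.1 x.1.2.2.2.2.2 x.2) hU MU
      (pseg L hseg (psucc L pi) (psucc L pj)) hterm hright ?_ ?_
    · intro x
      rw [seg_len]
      have h1 := szx x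
      have h2 := sz_nat x.2.2.2.2.2
      omega
    · intro x p
      have h1 : (rightI x.2.1 x.2.2.2.1 x.2.2.2.2.1 x.2.2.2.2.2 p).length ≤ sz x.2.2.2.1 :=
        clip_len Mc _ _ _ _ _ _ _
      have h2 := szx x
      show (rightI x.2.1 x.2.2.2.1 x.2.2.2.2.1 x.2.2.2.2.2 p).length ≤ sz x
      omega
  have hF2 : PT (fun x : Arg => (seg x.2.2.2.2.1 x.2.2.2.2.2).foldl
      (fun acc p => ivUnion acc (leftI x.2.1 x.2.2.2.1 x.2.2.2.2.1 x.2.2.2.2.2 p))
      ((seg (x.2.2.2.2.1 + 1) (x.2.2.2.2.2 + 1)).foldl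
      (fun acc p => ivUnion acc (rightI x.2.1 x.2.2.2.1 x.2.2.2.2.1 x.2.2.2.2.2 p))
      (termI x.2.1 x.2.2.2.1 x.2.2.2.2.1 x.2.2.2.2.2))) := by
    refine pfoldU L (h := fun x : Arg × ℕ =>
      leftI x.1.2.1 x.1.2.2.2.1 x.1.2.2.2.2.1 x.1.2.2.2.2.2 x.2) hU MU
      (pseg L hseg pi pj) hF1 hleft ?_ ?_
    · intro x
      rw [seg_len]
      have h1 := szx x
      have h2 := sz_nat x.2.2.2.2.2
      omega
    · intro x p
      have h1 : (leftI x.2.1 x.2.2.2.1 x.2.2.2.2.1 x.2.2.2.2.2 p).length ≤ sz x.2.2.2.1 :=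
        clip_len Mc _ _ _ _ _ _ _
      have h2 := szx x
      show (leftI x.2.1 x.2.2.2.1 x.2.2.2.2.1 x.2.2.2.2.2 p).length ≤ sz x
      omega
  have hF3 := L.comp (L.pair pcap hF2) L2.take
  have hdiag : PT (fun x : Arg =>
      ([(2 * x.2.1.getD x.2.2.2.2.1 0, 2 * x.2.1.getD (x.2.2.2.2.1 + 1) 0)] : IS)) := by
    have h1 := padd L (sS pS pi) (sS pS pi)
    have h2 := padd L (sS pS (psucc L pi)) (sS pS (psucc L pi))
    have h3 : PT (fun x : Arg => ([(x.2.1.getD x.2.2.2.2.1 0 + x.2.1.getD x.2.2.2.2.1 0,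
        x.2.1.getD (x.2.2.2.2.1 + 1) 0 + x.2.1.getD (x.2.2.2.2.1 + 1) 0)] : IS)) :=
      L.comp (L.pair (L.pair h1 h2) L.cNil) L.cons
    simpa only [two_mul] using h3
  have hsum : PT (fun x : Arg => (sumA x.2.2.1 x.2.2.2.2.1 x.2.2.2.2.2).1 + 3) := by
    have h1 : PT (fun x : Arg => sumA x.2.2.1 x.2.2.2.2.1 x.2.2.2.2.2) :=
      L.comp (L.pair pal (L.pair pi pj)) (psumA L L2 hadd hseg)
    exact psucc L (psucc L (psucc L (pfst L h1)))
  have d1 : PT (fun x : Arg => decide (x.1.1 ≤ x.2.2.2.2.2)) := L.comp (L.pair pn pj) L2.nle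
  have d2 : PT (fun x : Arg => decide (x.2.2.2.2.1 = x.2.2.2.2.2)) :=
    L.comp (L.pair pi pj) L2.neq
  have d3 : PT (fun x : Arg => decide ((sumA x.2.2.1 x.2.2.2.2.1 x.2.2.2.2.2).1 + 3 <
      x.2.2.2.2.2 - x.2.2.2.2.1)) :=
    L.comp (L.pair hsum (pnsub L L2 pj pi)) L2.nlt
  exact pite L d1 L.cNil (pite L d2 hdiag (pite L d3 L.cNil hF3))

end Pool.Agent.H586R2.AF
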