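import Pool.Agent.H586R2.AF.Stm

set_option autoImplicit false

namespace Pool.Agent.H586R2.AF

namespace U1L

open MeasureTheory Set Filter Topology

theorem isOpen_Om (a b f1 f2 : ℝ) (Bad : Finset ℝ) : IsOpen (Om a b f1 f2 Bad) := by
  have : Om a b f1 f2 Bad = Ioo a b ∩ (Icc f1 f2)ᶜ ∩ (↑Bad : Set ℝ)ᶜ := by
    ext x
    constructor
    · rintro ⟨h1, h2, h3, h4⟩
      exact ⟨⟨⟨h1, h2⟩, fun h => h3 ⟨h.1, h.2⟩⟩, fun h => h4 (by exact_mod_cast h)⟩
    · rintro ⟨⟨⟨h1, h2⟩, h3⟩, h4⟩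
      exact ⟨h1, h2, fun h => h3 ⟨h.1, h.2⟩, fun h => h4 (by exact_mod_cast h)⟩
  rw [this]
  exact (isOpen_Ioo.inter isClosed_Icc.isOpen_compl).inter
    (Bad.finite_toSet.isClosed.isOpen_compl)

theorem hasDeriv {σ : ℝ → ℝ} {x : ℝ} (h : ∀ᶠ y in 𝓝 x, σ y = σ x + x - y) :
    HasDerivAt σ (-1) x := by
  have h1 : HasDerivAt (fun y => σ x + x - y) (-1) x := by
    simpa using (hasDerivAt_id x).const_sub (σ x + x)
  exact h1.congr_of_eventuallyEq h

/-- piecewise involutions which are locally reflections preserve the measure -/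
theorem mp {Ω : Set ℝ} [∀ x, Decidable (x ∈ Ω)] (hΩ : IsOpen Ω) {σ : ℝ → ℝ} (maps : ∀ x ∈ Ω, σ x ∈ Ω)
    (inv : ∀ x ∈ Ω, σ (σ x) = x) (loc : ∀ x ∈ Ω, ∀ᶠ y in 𝓝 x, σ y = σ x + x - y) :
    MeasurePreserving (Ω.piecewise σ id) volume volume := by
  have hc : ContinuousOn σ Ω := fun x hx =>
    (hasDeriv (loc x hx)).continuousAt.continuousWithinAt
  have hmeas : Measurable (Ω.piecewise σ id) :=
    ContinuousOn.measurable_piecewise hc continuousOn_id hΩ.measurableSet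
  refine ⟨hmeas, ?_⟩
  ext s hs
  rw [Measure.map_apply hmeas hs]
  set τ := Ω.piecewise σ id with hτ
  have hin : ∀ x ∈ Ω, τ x = σ x := fun x hx => piecewise_eq_of_mem _ _ _ hx
  have hout : ∀ x, x ∉ Ω → τ x = x := fun x hx => piecewise_eq_of_notMem _ _ _ hx
  have h1 : τ ⁻¹' s \ Ω = s \ Ω := by
    ext x
    constructor
    · rintro ⟨h, hx⟩
      refine ⟨?_, hx⟩
      have : τ x ∈ s := h
      rwa [hout x hx] at this
    · rintro ⟨h, hx⟩
      refine ⟨?_, hx⟩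
      show τ x ∈ s
      rwa [hout x hx]
  have hP : MeasurableSet (τ ⁻¹' s ∩ Ω) := (hmeas hs).inter hΩ.measurableSet
  have h2 : σ '' (τ ⁻¹' s ∩ Ω) = s ∩ Ω := by
    ext y
    constructor
    · rintro ⟨x, ⟨h, hx⟩, rfl⟩
      have : τ x ∈ s := h
      rw [hin x hx] at this
      exact ⟨this, maps x hx⟩
    · rintro ⟨h, hy⟩
      refine ⟨σ y, ⟨?_, maps y hy⟩, inv y hy⟩
      show τ (σ y) ∈ s
      rw [hin _ (maps y hy), inv y hy]
      exact h
  have h3 : volume (σ '' (τ ⁻¹' s ∩ Ω)) = volume (τ ⁻¹' s ∩ Ω) := by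
    have := lintegral_image_eq_lintegral_abs_deriv_mul hP (f := σ) (f' := fun _ => -1)
      (fun x hx => (hasDeriv (loc x hx.2)).hasDerivWithinAt) (by
        intro x hx y hy hxy
        rw [← inv x hx.2, ← inv y hy.2, hxy]) (fun _ => 1)
    simpa using this
  rw [← measure_inter_add_sdiff (τ ⁻¹' s) hΩ.measurableSet, h1, ← h3, h2,
    measure_inter_add_sdiff s hΩ.measurableSet]

end U1L

open MeasureTheory Set Filter Topology U1L in
open Classical in
theorem t_rec : S_rec := by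
  intro θ A B1 B2 f1 f2 KF K1 K2 Bad1 Bad2 σ1 σ2 hAf hff hfB hBB S1 S2
  -- the sets
  have hO1 := isOpen_Om A B1 f1 f2 Bad1
  have hO2 := isOpen_Om A B2 f1 f2 Bad2
  set Ω1 := Om A B1 f1 f2 Bad1 with hΩ1
  set Ω2 := Om A B2 f1 f2 Bad2 with hΩ2
  set Ω1' : Set ℝ := (Ω1 ∩ σ1 ⁻¹' ((↑Bad2 : Set ℝ)ᶜ)) ∩ (↑Bad2 : Set ℝ)ᶜ with hΩ1'
  have hc1 : ContinuousOn σ1 Ω1 := fun x hx =>
    (hasDeriv (S1.loc x hx)).continuousAt.continuousWithinAt
  have hO1' : IsOpen Ω1' :=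
    (hc1.isOpen_inter_preimage hO1 Bad2.finite_toSet.isClosed.isOpen_compl).inter
      Bad2.finite_toSet.isClosed.isOpen_compl
  have maps1 : ∀ x ∈ Ω1', σ1 x ∈ Ω1' := by
    rintro x ⟨⟨h1, h2⟩, h3⟩
    refine ⟨⟨S1.maps x h1, ?_⟩, h2⟩
    show σ1 (σ1 x) ∈ (↑Bad2 : Set ℝ)ᶜ
    rw [S1.inv x h1]
    exact h3
  have sub12 : ∀ x ∈ Ω1', x ∈ Ω2 := by
    rintro x ⟨⟨h1, h2⟩, h3⟩
    exact ⟨h1.1, h1.2.1.trans hBB, h1.2.2.1, fun h => h3 (by exact_mod_cast h)⟩
  have M1 := mp hO1' maps1 (fun x hx => S1.inv x hx.1.1) (fun x hx => S1.loc x hx.1.1)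
  have M2 := mp hO2 S2.maps S2.inv S2.loc
  set τ1 := Ω1'.piecewise σ1 id with hτ1
  set τ2 := Ω2.piecewise σ2 id with hτ2
  have e1 : ∀ x ∈ Ω1', τ1 x = σ1 x := fun x hx => piecewise_eq_of_mem _ _ _ hx
  have e1' : ∀ x, x ∉ Ω1' → τ1 x = x := fun x hx => piecewise_eq_of_notMem _ _ _ hx
  have e2 : ∀ x ∈ Ω2, τ2 x = σ2 x := fun x hx => piecewise_eq_of_mem _ _ _ hx
  have e2' : ∀ x, x ∉ Ω2 → τ2 x = x := fun x hx => piecewise_eq_of_notMem _ _ _ hx
  have pres1 : ∀ x ∈ Ω2, τ1 x ∈ Ω2 := by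
    intro x hx
    by_cases h : x ∈ Ω1'
    · rw [e1 x h]; exact sub12 _ (maps1 x h)
    · rw [e1' x h]; exact hx
  have pres2 : ∀ x ∈ Ω2, τ2 x ∈ Ω2 := by
    intro x hx
    rw [e2 x hx]; exact S2.maps x hx
  set T := τ1 ∘ τ2 with hT
  have MT : MeasurePreserving T volume volume := M1.comp M2
  have hsubW : ∀ x ∈ Ω2, x ∈ Ioo A B2 := fun x hx => ⟨hx.1, hx.2.1⟩
  have preW : T ⁻¹' (Ioo A B2) = Ioo A B2 := by
    ext x
    constructor
    · intro h
      by_contra hx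
      have h1 : x ∉ Ω2 := fun h => hx (hsubW x h)
      have h2 : T x = x := by
        show τ1 (τ2 x) = x
        rw [e2' x h1, e1' x (fun h => h1 (sub12 x h))]
      have h3 : T x ∈ Ioo A B2 := h
      rw [h2] at h3
      exact hx h3
    · intro h
      show τ1 (τ2 x) ∈ Ioo A B2
      by_cases h1 : x ∈ Ω2
      · exact hsubW _ (pres1 _ (pres2 x h1))
      · rw [e2' x h1, e1' x (fun h => h1 (sub12 x h))]
        exact h
  have MTW : MeasurePreserving T (volume.restrict (Ioo A B2)) (volume.restrict (Ioo A B2)) := by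
    have := MT.restrict_preimage (measurableSet_Ioo (a := A) (b := B2))
    rwa [preW] at this
  have hcons := MTW.conservative
  have hrec := hcons.ae_mem_imp_frequently_image_mem
    (measurableSet_Ioo (a := B1) (b := B2)).nullMeasurableSet
  -- the exceptional points
  set F : Finset ℝ := Bad1 ∪ Bad2 ∪ {B1} ∪ Bad2.image σ1 with hF
  have hF0 : ∀ᵐ x ∂(volume : Measure ℝ), x ∉ F := by
    have h0 : volume (↑F : Set ℝ) = 0 := F.finite_toSet.measure_zero volume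
    have := compl_mem_ae_iff.2 h0
    filter_upwards [this] with x hx
    intro h
    exact hx (by exact_mod_cast h)
  have hq' : ∀ᵐ x ∂(volume : Measure ℝ), ∀ k, T^[k] x ∉ F := by
    rw [ae_all_iff]
    intro k
    exact (MT.iterate k).quasiMeasurePreserving.ae hF0
  have hr' : ∀ᵐ x ∂(volume : Measure ℝ), ∀ k, τ2 (T^[k] x) ∉ F := by
    rw [ae_all_iff]
    intro k
    exact (MT.iterate k).quasiMeasurePreserving.ae (M2.quasiMeasurePreserving.ae hF0)
  have hUW : Ioo B1 B2 ⊆ Ioo A B2 := fun x hx => ⟨by linarith [hx.1], hx.2⟩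
  have hne : (ae (volume.restrict (Ioo B1 B2))).NeBot := by
    rw [ae_restrict_neBot, Real.volume_Ioo]
    simp only [ne_eq, ENNReal.ofReal_eq_zero, not_le]
    linarith
  have hall : ∀ᵐ x ∂(volume.restrict (Ioo B1 B2)), x ∈ Ioo B1 B2 ∧ (∀ k, T^[k] x ∉ F) ∧
      (∀ k, τ2 (T^[k] x) ∉ F) ∧ (x ∈ Ioo B1 B2 → ∃ᶠ n in atTop, T^[n] x ∈ Ioo B1 B2) := by
    have a1 := ae_restrict_mem (μ := (volume : Measure ℝ)) (measurableSet_Ioo (a := B1) (b := B2))
    have a2 := ae_restrict_of_ae (s := Ioo B1 B2) hq'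
    have a3 := ae_restrict_of_ae (s := Ioo B1 B2) hr'
    have a4 := ae_mono (Measure.restrict_mono hUW (le_refl (volume : Measure ℝ))) hrec
    filter_upwards [a1, a2, a3, a4] with x b1 b2 b3 b4
    exact ⟨b1, b2, b3, b4⟩
  obtain ⟨x, hxU, hqF, hrF, hfr⟩ := hall.exists
  have hfr' := hfr hxU
  -- the combinatorial part
  set q : ℕ → ℝ := fun k => T^[k] x with hqdef
  set r : ℕ → ℝ := fun k => τ2 (q k) with hrdef
  have hq0 : q 0 = x := rfl
  have hqs : ∀ k, q (k + 1) = τ1 (r k) := by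
    intro k
    show T^[k + 1] x = τ1 (τ2 (T^[k] x))
    rw [Function.iterate_succ_apply']
    rfl
  have hqF' : ∀ k, q k ∉ F := hqF
  have hrF' : ∀ k, r k ∉ F := hrF
  have hBad2F : ∀ y, y ∉ F → y ∉ Bad2 := by
    intro y hy h
    apply hy
    rw [hF]
    simp [h]
  have hx2 : x ∈ Ω2 := by
    refine ⟨by linarith [hxU.1], hxU.2, fun h => by linarith [hxU.1, h.2], ?_⟩
    exact hBad2F x (hqF 0)
  have hq2 : ∀ k, q k ∈ Ω2 := by
    intro k
    induction k with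
    | zero => exact hx2
    | succ k ih =>
      rw [hqs]
      exact pres1 _ (pres2 _ ih)
  have hr2 : ∀ k, r k ∈ Ω2 := fun k => pres2 _ (hq2 k)
  have hrq : ∀ k, r k = σ2 (q k) := fun k => e2 _ (hq2 k)
  have hqr : ∀ k, q k = σ2 (r k) := by
    intro k
    rw [hrq, S2.inv _ (hq2 k)]
  have key : ∀ y ∈ Ω2, y ∉ F → y < B1 → y ∈ Ω1' := by
    intro y hy hyF hyB
    have g1 : y ∉ Bad1 := fun h => hyF (by rw [hF]; simp [h])
    have g2 : y ∉ Bad2 := hBad2F y hyF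
    have g3 : y ∈ Ω1 := ⟨hy.1, hyB, hy.2.2.1, g1⟩
    refine ⟨⟨g3, ?_⟩, fun h => g2 (by exact_mod_cast h)⟩
    intro h
    apply hyF
    have h' : σ1 y ∈ Bad2 := by exact_mod_cast h
    rw [hF, Finset.mem_union]
    right
    rw [Finset.mem_image]
    exact ⟨σ1 y, h', S1.inv y g3⟩
  have neB : ∀ y, y ∉ F → y ≠ B1 := by
    rintro y hy rfl
    apply hy
    rw [hF]
    simp
  obtain ⟨b, hb1, hb2⟩ := Filter.frequently_atTop.1 hfr' 1
  have hex : ∃ m, q (m + 1) ∈ Ioo B1 B2 := ⟨b - 1, by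
    have : b - 1 + 1 = b := by omega
    rw [this]; exact hb2⟩
  obtain ⟨m, hm, hmin⟩ : ∃ m, q (m + 1) ∈ Ioo B1 B2 ∧ ∀ k < m, q (k + 1) ∉ Ioo B1 B2 :=
    ⟨Nat.find hex, Nat.find_spec hex, fun k hk => Nat.find_min hex hk⟩
  have hr1 : ∀ k < m, r k ∈ Ω1' := by
    intro k hk
    apply key _ (hr2 k) (hrF' k)
    by_contra hcon
    push Not at hcon
    have h1 : B1 < r k := lt_of_le_of_ne hcon (Ne.symm (neB _ (hrF' k)))
    have h2 : r k ∉ Ω1' := fun h => by linarith [h.1.1.2.1]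
    have h3 : q (k + 1) = r k := by rw [hqs, e1' _ h2]
    apply hmin k hk
    rw [h3]
    exact ⟨h1, (hr2 k).2.1⟩
  have hqs1 : ∀ k < m, q (k + 1) = σ1 (r k) := by
    intro k hk
    rw [hqs, e1 _ (hr1 k hk)]
  have hq1 : ∀ k < m, q (k + 1) ∈ Ω1' := by
    intro k hk
    rw [hqs1 k hk]
    exact maps1 _ (hr1 k hk)
  have hrs1 : ∀ k < m, r k = σ1 (q (k + 1)) := by
    intro k hk
    rw [hqs1 k hk, S1.inv _ (hr1 k hk).1.1]
  have hrm : B1 < r m := by
    by_contra hcon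
    push Not at hcon
    have h1 : r m < B1 := lt_of_le_of_ne hcon (neB _ (hrF' m))
    have h2 := key _ (hr2 m) (hrF' m) h1
    have h3 : q (m + 1) = σ1 (r m) := by rw [hqs, e1 _ h2]
    have h4 := (maps1 _ h2).1.1.2.1
    rw [← h3] at h4
    linarith [hm.1]
  have hdist : q 0 ≠ r m := by
    intro h0
    have P : ∀ i j, i + j = m → r j = q i := by
      intro i
      induction i with
      | zero =>
        intro j hj
        rw [zero_add] at hj
        rw [hj, ← h0]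
      | succ i ih =>
        intro j hj
        have h1 := ih (j + 1) (by omega)
        have h2 : q (j + 1) = r i := by rw [hqr (j + 1), h1, hrq i]
        rw [hrs1 j (by omega), h2, hqs1 i (by omega)]
    rcases Nat.even_or_odd' m with ⟨i, hi | hi⟩
    · have := P i i (by omega)
      rw [hrq i] at this
      exact S2.ne _ (hq2 i) this
    · have h1 := P (i + 1) i (by omega)
      rw [hqs1 i (by omega)] at h1
      exact S1.ne _ (hr1 i (by omega)).1.1 h1.symm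
  -- the set
  set C : Finset ℝ := (Finset.range (m + 1)).image q ∪ (Finset.range (m + 1)).image r with hC
  have memq : ∀ k ≤ m, q k ∈ C := by
    intro k hk
    rw [hC, Finset.mem_union]
    left
    exact Finset.mem_image_of_mem _ (Finset.mem_range.2 (by omega))
  have memr : ∀ k ≤ m, r k ∈ C := by
    intro k hk
    rw [hC, Finset.mem_union]
    right
    exact Finset.mem_image_of_mem _ (Finset.mem_range.2 (by omega))
  have memC : ∀ y ∈ C, (∃ k ≤ m, y = q k) ∨ (∃ k ≤ m, y = r k) := by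
    intro y hy
    rw [hC, Finset.mem_union, Finset.mem_image, Finset.mem_image] at hy
    rcases hy with ⟨k, hk, rfl⟩ | ⟨k, hk, rfl⟩
    · left; exact ⟨k, by have := Finset.mem_range.1 hk; omega, rfl⟩
    · right; exact ⟨k, by have := Finset.mem_range.1 hk; omega, rfl⟩
  have hom : ∀ y ∈ C, y ∈ Ω2 := by
    intro y hy
    rcases memC y hy with ⟨k, _, rfl⟩ | ⟨k, _, rfl⟩
    · exact hq2 k
    · exact hr2 k
  have hcl : ∀ y ∈ C, σ2 y ∈ C := by
    intro y hy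
    rcases memC y hy with ⟨k, hk, rfl⟩ | ⟨k, hk, rfl⟩
    · rw [← hrq]; exact memr k hk
    · rw [← hqr]; exact memq k hk
  have hcl1 : ∀ y ∈ C, y ≠ q 0 → y ≠ r m → y ∈ Ω1 ∧ σ1 y ∈ C ∧ σ1 y < B1 := by
    intro y hy hy0 hym
    rcases memC y hy with ⟨k, hk, rfl⟩ | ⟨k, hk, rfl⟩
    · rcases k with _ | k
      · exact absurd rfl hy0
      · refine ⟨(hq1 k (by omega)).1.1, ?_, ?_⟩
        · rw [← hrs1 k (by omega)]; exact memr k (by omega)
        · exact (S1.maps _ (hq1 k (by omega)).1.1).2.1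
    · have hkm : k < m := by
        rcases hk.lt_or_eq with h | h
        · exact h
        · exact absurd (by rw [h]) hym
      refine ⟨(hr1 k hkm).1.1, ?_, ?_⟩
      · rw [← hqs1 k hkm]; exact memq _ (by omega)
      · exact (S1.maps _ (hr1 k hkm).1.1).2.1
  have hq0U : B1 < q 0 ∧ q 0 < B2 := hxU
  have hrmU : B1 < r m ∧ r m < B2 := ⟨hrm, (hr2 m).2.1⟩
  rcases lt_or_gt_of_ne hdist with hlt | hlt
  · refine ⟨C, q 0, r m, ?_⟩
    refine ⟨memq 0 (Nat.zero_le _), memr m le_rfl, hlt, hq0U.1, hrmU.2, hom, hcl, ?_⟩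
    intro y hy h1 h2
    obtain ⟨g1, g2, g3⟩ := hcl1 y hy h1 h2
    exact ⟨g1, g2, fun h => by rw [h] at g3; linarith, fun h => by rw [h] at g3; linarith⟩
  · refine ⟨C, r m, q 0, ?_⟩
    refine ⟨memr m le_rfl, memq 0 (Nat.zero_le _), hlt, hrmU.1, hq0U.2, hom, hcl, ?_⟩
    intro y hy h1 h2
    obtain ⟨g1, g2, g3⟩ := hcl1 y hy h2 h1
    exact ⟨g1, g2, fun h => by rw [h] at g3; linarith, fun h => by rw [h] at g3; linarith⟩

end Pool.Agent.H586R2.AF
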