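import Pool.Agent.H586R2.AF.Stm

/-!
# Task U2: the parity contradiction of the meander argument
-/

set_option autoImplicit false

namespace Pool.Agent.H586R2.AF

open Real Finset

namespace TU2

/-- a fixed point free non-crossing involution of a finite set of reals -/
structure NCI (σ : ℝ → ℝ) (C : Finset ℝ) : Prop where
  cl : ∀ x ∈ C, σ x ∈ C
  inv : ∀ x ∈ C, σ (σ x) = x
  ne : ∀ x ∈ C, σ x ≠ x
  nc : ∀ x ∈ C, ∀ y ∈ C, x < y → y < σ x → x < σ y ∧ σ y < σ x

/-- the sign of a point of `C` -/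
noncomputable def eps (C : Finset ℝ) (x : ℝ) : ℝ := (-1 : ℝ) ^ ((C.filter (fun y => y < x)).card)

theorem even_card {σ : ℝ → ℝ} {D : Finset ℝ} (cl : ∀ x ∈ D, σ x ∈ D)
    (inv : ∀ x ∈ D, σ (σ x) = x) (ne : ∀ x ∈ D, σ x ≠ x) : Even D.card := by
  have h : ∑ _x ∈ D, (1 : ZMod 2) = 0 := by
    apply Finset.sum_involution (fun x _ => σ x)
    · intro a _; decide
    · intro a ha _; exact ne a ha
    · intro a ha; exact cl a ha
    · intro a ha; exact inv a ha
  rw [Finset.sum_const, nsmul_eq_mul, mul_one] at h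
  exact (ZMod.natCast_eq_zero_iff_even).1 h

theorem sum_pairs {σ : ℝ → ℝ} {C : Finset ℝ} (h : NCI σ C) (f : ℝ → ℝ) :
    ∑ x ∈ C, f x = ∑ x ∈ C.filter (fun x => x < σ x), (f x + f (σ x)) := by
  rw [← Finset.sum_filter_add_sum_filter_not C (fun x => x < σ x) f, Finset.sum_add_distrib]
  congr 1
  refine Finset.sum_nbij' σ σ ?_ ?_ ?_ ?_ ?_
  · intro x hx
    rw [mem_filter] at hx ⊢
    refine ⟨h.cl x hx.1, ?_⟩
    rw [h.inv x hx.1]
    exact lt_of_le_of_ne (not_lt.1 hx.2) (h.ne x hx.1)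
  · intro x hx
    rw [mem_filter] at hx ⊢
    refine ⟨h.cl x hx.1, ?_⟩
    rw [h.inv x hx.1]
    exact not_lt.2 hx.2.le
  · intro x hx; rw [mem_filter] at hx; exact h.inv x hx.1
  · intro x hx; rw [mem_filter] at hx; exact h.inv x hx.1
  · intro x hx; rw [mem_filter] at hx; rw [h.inv x hx.1]

theorem two_card {σ : ℝ → ℝ} {C : Finset ℝ} (h : NCI σ C) :
    (C.card : ℝ) = 2 * ((C.filter (fun x => x < σ x)).card : ℝ) := by
  have := sum_pairs h (fun _ => (1 : ℝ))
  simp only [Finset.sum_const, nsmul_eq_mul, mul_one] at this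
  rw [this]; ring

theorem eps_sigma {σ : ℝ → ℝ} {C : Finset ℝ} (h : NCI σ C) {x : ℝ} (hx : x ∈ C)
    (hlt : x < σ x) : eps C (σ x) = - eps C x := by
  set D := C.filter (fun y => x < y ∧ y < σ x) with hD
  have hDe : Even D.card := by
    apply even_card (σ := σ)
    · intro y hy
      rw [hD, mem_filter] at hy ⊢
      exact ⟨h.cl y hy.1, h.nc x hx y hy.1 hy.2.1 hy.2.2⟩
    · intro y hy; rw [hD, mem_filter] at hy; exact h.inv y hy.1
    · intro y hy; rw [hD, mem_filter] at hy; exact h.ne y hy.1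
  have e1 : C.filter (fun y => y < σ x) = (C.filter (fun y => y < x)) ∪ ({x} ∪ D) := by
    ext y
    simp only [mem_filter, mem_union, mem_singleton, hD]
    constructor
    · rintro ⟨h1, h2⟩
      rcases lt_trichotomy y x with h3 | h3 | h3
      · exact Or.inl ⟨h1, h3⟩
      · exact Or.inr (Or.inl h3)
      · exact Or.inr (Or.inr ⟨h1, h3, h2⟩)
    · rintro (⟨h1, h2⟩ | h2 | ⟨h1, h2, h3⟩)
      · exact ⟨h1, h2.trans hlt⟩
      · subst h2; exact ⟨hx, hlt⟩
      · exact ⟨h1, h3⟩
  have d1 : Disjoint (C.filter (fun y => y < x)) ({x} ∪ D) := by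
    rw [Finset.disjoint_left]
    intro y hy hy2
    simp only [mem_filter, mem_union, mem_singleton, hD] at hy hy2
    rcases hy2 with h2 | h2
    · subst h2; exact lt_irrefl _ hy.2
    · exact lt_asymm hy.2 h2.2.1
  have d2 : Disjoint ({x} : Finset ℝ) D := by
    rw [Finset.disjoint_left]
    intro y hy hy2
    simp only [mem_filter, mem_singleton, hD] at hy hy2
    subst hy; exact lt_irrefl _ hy2.2.1
  unfold eps
  rw [e1, Finset.card_union_of_disjoint d1, Finset.card_union_of_disjoint d2, card_singleton,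
    pow_add, pow_add, hDe.neg_one_pow]
  ring

theorem alt_eq {σ θ : ℝ → ℝ} {C : Finset ℝ} (h : NCI σ C) {f1 f2 KF : ℝ} (hf : f1 ≤ f2)
    (hC : ∀ x ∈ C, x < f1 ∨ f2 < x) :
    Alt θ σ f1 f2 KF C = π * (∑ x ∈ C.filter (fun x => x < σ x), eps C x)
      - (∑ x ∈ C, eps C x * θ x) - KF * (∑ x ∈ C.filter (fun x => x < f1), eps C x) := by
  have h1 : ∑ x ∈ C, eps C x * θ x
      = ∑ x ∈ C.filter (fun x => x < σ x), (eps C x * θ x - eps C x * θ (σ x)) := by
    rw [sum_pairs h]
    apply Finset.sum_congr rfl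
    intro x hx
    rw [mem_filter] at hx
    rw [eps_sigma h hx.1 hx.2]; ring
  have h2 : ∑ x ∈ C.filter (fun x => x < f1), eps C x
      = ∑ x ∈ C.filter (fun x => x < σ x), (if x < f1 ∧ f2 < σ x then eps C x else 0) := by
    rw [Finset.sum_filter, sum_pairs h]
    apply Finset.sum_congr rfl
    intro x hx
    rw [mem_filter] at hx
    rw [eps_sigma h hx.1 hx.2]
    by_cases a1 : x < f1
    · rcases hC _ (h.cl x hx.1) with a2 | a2
      · have a3 : ¬ f2 < σ x := by
          intro a3; exact absurd (a2.trans_le hf) (not_lt.2 a3.le)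
        simp [a1, a2, a3]
      · have a3 : ¬ σ x < f1 := by
          intro a3; exact absurd (a3.trans_le hf) (not_lt.2 a2.le)
        simp [a1, a2, a3]
    · have a2 : ¬ σ x < f1 := by
        intro a2; exact a1 (hx.2.trans a2)
      simp [a1, a2]
  rw [h1, h2]
  unfold Alt
  rw [Finset.mul_sum, Finset.mul_sum, ← Finset.sum_sub_distrib, ← Finset.sum_sub_distrib]
  apply Finset.sum_congr rfl
  intro x _
  change eps C x * _ = _
  by_cases a1 : x < f1 ∧ f2 < σ x
  · rw [if_pos a1, if_pos a1]; ring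
  · rw [if_neg a1, if_neg a1]; ring

theorem parity (P : Finset ℝ) (k : ℝ → ℕ) :
    ∃ m : ℤ, ∑ x ∈ P, (-1 : ℝ) ^ (k x) = (P.card : ℝ) - 2 * (m : ℝ) := by
  classical
  induction P using Finset.induction_on with
  | empty => exact ⟨0, by simp⟩
  | insert a s ha ih =>
    obtain ⟨m, hm⟩ := ih
    rw [Finset.sum_insert ha, Finset.card_insert_of_notMem ha, hm]
    rcases Nat.even_or_odd (k a) with hk | hk
    · exact ⟨m, by rw [hk.neg_one_pow]; push_cast; ring⟩
    · exact ⟨m + 1, by rw [hk.neg_one_pow]; push_cast; ring⟩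

end TU2

open TU2 in
theorem t_par : S_par := by
  intro θ A B1 B2 f1 f2 KF K1 K2 Bad1 Bad2 σ1 σ2 hA hf hfB hB S1 S2 hK1 hK2 hθ C u1 u2 H
  classical
  have hlt12 := H.lt
  have hu1 := H.lo
  have hu2 := H.hi
  set C' := (C.erase u1).erase u2 with hC'
  have mem' : ∀ x, x ∈ C' ↔ x ∈ C ∧ x ≠ u1 ∧ x ≠ u2 := by
    intro x
    rw [hC', mem_erase, mem_erase]; tauto
  have om1 : ∀ x ∈ C', x ∈ Om A B1 f1 f2 Bad1 := by
    intro x hx; rw [mem'] at hx; exact (H.cl1 x hx.1 hx.2.1 hx.2.2).1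
  have lt1 : ∀ x ∈ C', x < B1 := fun x hx => (om1 x hx).2.1
  have N2 : NCI σ2 C := by
    refine ⟨H.cl, fun x hx => S2.inv x (H.om x hx), fun x hx => S2.ne x (H.om x hx), ?_⟩
    intro x hx y hy; exact S2.nc x (H.om x hx) y (H.om y hy)
  have cl1' : ∀ x ∈ C', σ1 x ∈ C' := by
    intro x hx
    have hx' := hx
    rw [mem'] at hx' ⊢
    exact (H.cl1 x hx'.1 hx'.2.1 hx'.2.2).2
  have N1 : NCI σ1 C' := by
    refine ⟨cl1', fun x hx => S1.inv x (om1 x hx), fun x hx => S1.ne x (om1 x hx), ?_⟩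
    intro x hx y hy; exact S1.nc x (om1 x hx) y (om1 y hy)
  have side : ∀ x, ∀ (B : ℝ) (Bad : Finset ℝ), x ∈ Om A B f1 f2 Bad → x < f1 ∨ f2 < x := by
    intro x B Bad hx
    have := hx.2.2.1
    by_contra hc
    push Not at hc
    exact this ⟨hc.1, hc.2⟩
  have A2 := alt_eq (θ := θ) N2 (KF := KF) hf (fun x hx => side x _ _ (H.om x hx))
  have A1 := alt_eq (θ := θ) N1 (KF := KF) hf (fun x hx => side x _ _ (om1 x hx))
  have b2 := S2.alt C H.om H.cl
  have b1 := S1.alt C' om1 cl1'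
  -- signs
  have epsEq : ∀ x ∈ C', eps C' x = eps C x := by
    intro x hx
    unfold eps
    congr 2
    ext y
    rw [mem_filter, mem_filter, mem']
    constructor
    · rintro ⟨⟨h1, _, _⟩, h2⟩; exact ⟨h1, h2⟩
    · rintro ⟨h1, h2⟩
      have := lt1 x hx
      refine ⟨⟨h1, ?_, ?_⟩, h2⟩
      · rintro rfl; linarith
      · rintro rfl; linarith
  have epsU : eps C u2 = - eps C u1 := by
    have e : C.filter (fun y => y < u2) = insert u1 (C.filter (fun y => y < u1)) := by
      ext y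
      rw [mem_filter, mem_insert, mem_filter]
      constructor
      · rintro ⟨h1, h2⟩
        by_cases h3 : y = u1
        · exact Or.inl h3
        · have := lt1 y ((mem' y).2 ⟨h1, h3, h2.ne⟩)
          exact Or.inr ⟨h1, by linarith⟩
      · rintro (h1 | ⟨h1, h2⟩)
        · subst h1; exact ⟨H.m1, hlt12⟩
        · exact ⟨h1, h2.trans hlt12⟩
    unfold eps
    rw [e, Finset.card_insert_of_notMem (by simp), pow_succ]
    ring
  have hCins : C = insert u1 (insert u2 C') := by
    ext y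
    rw [mem_insert, mem_insert, mem']
    constructor
    · intro h
      by_cases h1 : y = u1
      · exact Or.inl h1
      · by_cases h2 : y = u2
        · exact Or.inr (Or.inl h2)
        · exact Or.inr (Or.inr ⟨h, h1, h2⟩)
    · rintro (h | h | h)
      · subst h; exact H.m1
      · subst h; exact H.m2
      · exact h.1
  have n2 : u2 ∉ C' := by rw [mem']; tauto
  have n1 : u1 ∉ insert u2 C' := by
    rw [mem_insert, mem']
    rintro (h | h)
    · exact hlt12.ne h
    · exact h.2.1 rfl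
  have hcard : C.card = C'.card + 2 := by
    conv_lhs => rw [hCins]
    rw [Finset.card_insert_of_notMem n1, Finset.card_insert_of_notMem n2]
  have s1 : ∑ x ∈ C, eps C x * θ x = ∑ x ∈ C', eps C' x * θ x := by
    have : ∑ x ∈ C, eps C x * θ x = ∑ x ∈ insert u1 (insert u2 C'), eps C x * θ x :=
      Finset.sum_congr hCins (fun _ _ => rfl)
    rw [this, Finset.sum_insert n1, Finset.sum_insert n2, epsU,
      hθ u2 u1 (by linarith) hu2 hu1 (by linarith)]
    rw [Finset.sum_congr rfl (fun x hx => by rw [← epsEq x hx] : ∀ x ∈ C', eps C x * θ x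
      = eps C' x * θ x)]
    ring
  have s2 : ∑ x ∈ C.filter (fun x => x < f1), eps C x
      = ∑ x ∈ C'.filter (fun x => x < f1), eps C' x := by
    have e : C.filter (fun x => x < f1) = C'.filter (fun x => x < f1) := by
      ext y
      rw [mem_filter, mem_filter, mem']
      constructor
      · rintro ⟨h1, h2⟩
        refine ⟨⟨h1, ?_, ?_⟩, h2⟩
        · rintro rfl; linarith
        · rintro rfl; linarith
      · rintro ⟨⟨h1, _, _⟩, h2⟩; exact ⟨h1, h2⟩
    rw [e]
    apply Finset.sum_congr rfl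
    intro x hx
    rw [mem_filter] at hx
    exact (epsEq x hx.1).symm
  obtain ⟨m2, hm2⟩ := parity (C.filter (fun x => x < σ2 x))
    (fun x => (C.filter (fun y => y < x)).card)
  obtain ⟨m1, hm1⟩ := parity (C'.filter (fun x => x < σ1 x))
    (fun x => (C'.filter (fun y => y < x)).card)
  have hm2' : ∑ x ∈ C.filter (fun x => x < σ2 x), eps C x
      = ((C.filter (fun x => x < σ2 x)).card : ℝ) - 2 * (m2 : ℝ) := hm2
  have hm1' : ∑ x ∈ C'.filter (fun x => x < σ1 x), eps C' x
      = ((C'.filter (fun x => x < σ1 x)).card : ℝ) - 2 * (m1 : ℝ) := hm1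
  have c2 := two_card N2
  have c1 := two_card N1
  have hcardR : (C.card : ℝ) = (C'.card : ℝ) + 2 := by rw [hcard]; push_cast; ring
  have key : Alt θ σ2 f1 f2 KF C - Alt θ σ1 f1 f2 KF C'
      = π * (1 - 2 * ((m2 - m1 : ℤ) : ℝ)) := by
    rw [A2, A1, s1, s2, hm2', hm1']
    push_cast
    have : ((C.filter (fun x => x < σ2 x)).card : ℝ)
        = ((C'.filter (fun x => x < σ1 x)).card : ℝ) + 1 := by linarith
    rw [this]; ring
  have hpi := Real.pi_pos
  have u : π * (1 - 2 * ((m2 - m1 : ℤ) : ℝ)) < π * 1 := by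
    rw [← key]; linarith [b1.1, b2.2]
  have l : π * (-1) < π * (1 - 2 * ((m2 - m1 : ℤ) : ℝ)) := by
    rw [← key]; linarith [b1.2, b2.1]
  have u' := lt_of_mul_lt_mul_left u hpi.le
  have l' := lt_of_mul_lt_mul_left l hpi.le
  have q1 : (0 : ℝ) < ((m2 - m1 : ℤ) : ℝ) := by linarith
  have q2 : ((m2 - m1 : ℤ) : ℝ) < 1 := by linarith
  have q1' : (0 : ℤ) < m2 - m1 := by exact_mod_cast q1
  have q2' : m2 - m1 < (1 : ℤ) := by exact_mod_cast q2
  omega

end Pool.Agent.H586R2.AF
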