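import Pool.Agent.H586R2.AF.Stm

/-!
# Concatenation of systems
-/

set_option autoImplicit false

namespace Pool.Agent.H586R2.AF

open Real Finset

namespace U3

theorem even_of_inv (C : Finset ℝ) (σ : ℝ → ℝ) (h1 : ∀ x ∈ C, σ x ∈ C)
    (h2 : ∀ x ∈ C, σ (σ x) = x) (h3 : ∀ x ∈ C, σ x ≠ x) : Even C.card := by
  classical
  have h : (C.filter fun x => x < σ x).card = (C.filter fun x => ¬ x < σ x).card := by
    refine Finset.card_bij' (fun x _ => σ x) (fun x _ => σ x) ?_ ?_ ?_ ?_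
    · intro x hx
      obtain ⟨hx1, hx2⟩ := Finset.mem_filter.1 hx
      refine Finset.mem_filter.2 ⟨h1 x hx1, ?_⟩
      rw [h2 x hx1]
      exact not_lt.2 hx2.le
    · intro x hx
      obtain ⟨hx1, hx2⟩ := Finset.mem_filter.1 hx
      refine Finset.mem_filter.2 ⟨h1 x hx1, ?_⟩
      rw [h2 x hx1]
      exact lt_of_le_of_ne (not_lt.1 hx2) (h3 x hx1)
    · intro x hx
      exact h2 x (Finset.mem_filter.1 hx).1
    · intro x hx
      exact h2 x (Finset.mem_filter.1 hx).1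
  have h' := Finset.card_filter_add_card_filter_not (s := C) (fun x => x < σ x)
  rw [← h] at h'
  exact ⟨_, h'.symm⟩

open Classical in
/-- the sum over all points -/
theorem Alt_eq (θ : ℝ → ℝ) (σ : ℝ → ℝ) (f1 f2 KF : ℝ) (C : Finset ℝ) :
    Alt θ σ f1 f2 KF C = ∑ x ∈ C, if x < σ x then
      (-1 : ℝ) ^ ((C.filter (fun y => y < x)).card) *
        (π + θ (σ x) - θ x - if x < f1 ∧ f2 < σ x then KF else 0) else 0 := by
  unfold Alt
  rw [Finset.sum_filter]

theorem concat (θ : ℝ → ℝ) (a b c f1 f2 KF g1 g2 KG h1 h2 KH K1 K2 : ℝ) (Bad1 Bad2 : Finset ℝ)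
    (σ1 σ2 : ℝ → ℝ) (hab : a ≤ b) (hbc : b ≤ c)
    (e1 : ∀ x, a < x → x < b → (¬ (f1 ≤ x ∧ x ≤ f2) ↔ ¬ (g1 ≤ x ∧ x ≤ g2)))
    (e2 : ∀ x, b < x → x < c → (¬ (f1 ≤ x ∧ x ≤ f2) ↔ ¬ (h1 ≤ x ∧ x ≤ h2)))
    (e3 : ∀ x y, a < x → x < y → y < b → (if x < f1 ∧ f2 < y then KF else 0) =
      (if x < g1 ∧ g2 < y then KG else 0))
    (e4 : ∀ x y, b < x → x < y → y < c → (if x < f1 ∧ f2 < y then KF else 0) =
      (if x < h1 ∧ h2 < y then KH else 0))
    (s1 : Sys θ a b g1 g2 KG K1 Bad1 σ1) (s2 : Sys θ b c h1 h2 KH K2 Bad2 σ2) :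
    ∃ (Bad : Finset ℝ) (σ : ℝ → ℝ), Sys θ a c f1 f2 KF (K1 + K2) Bad σ := by
  classical
  set Bad : Finset ℝ := (Bad1.filter fun x => x < b) ∪ ((Bad2.filter fun x => b < x) ∪ {b})
    with hBad
  set σ : ℝ → ℝ := fun x => if x < b then σ1 x else σ2 x with hσ
  have σl : ∀ x, x < b → σ x = σ1 x := fun x hx => if_pos hx
  have σr : ∀ x, b < x → σ x = σ2 x := fun x hx => if_neg (not_lt.2 hx.le)
  have mB : ∀ x, x ∉ Bad ↔ (x < b → x ∉ Bad1) ∧ (b < x → x ∉ Bad2) ∧ x ≠ b := by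
    intro x
    rw [hBad, Finset.mem_union, Finset.mem_union, Finset.mem_filter, Finset.mem_filter,
      Finset.mem_singleton]
    tauto
  have oml : ∀ x, x < b → (x ∈ Om a c f1 f2 Bad ↔ x ∈ Om a b g1 g2 Bad1) := by
    intro x hx
    constructor
    · rintro ⟨k1, k2, k3, k4⟩
      exact ⟨k1, hx, (e1 x k1 hx).1 k3, ((mB x).1 k4).1 hx⟩
    · rintro ⟨k1, k2, k3, k4⟩
      exact ⟨k1, hx.trans_le hbc, (e1 x k1 hx).2 k3,
        (mB x).2 ⟨fun _ => k4, fun h => absurd hx (not_lt.2 h.le), hx.ne⟩⟩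
  have omr : ∀ x, b < x → (x ∈ Om a c f1 f2 Bad ↔ x ∈ Om b c h1 h2 Bad2) := by
    intro x hx
    constructor
    · rintro ⟨k1, k2, k3, k4⟩
      exact ⟨hx, k2, (e2 x hx k2).1 k3, ((mB x).1 k4).2.1 hx⟩
    · rintro ⟨k1, k2, k3, k4⟩
      exact ⟨hab.trans_lt hx, k2, (e2 x hx k2).2 k3,
        (mB x).2 ⟨fun h => absurd hx (not_lt.2 h.le), fun _ => k4, hx.ne'⟩⟩
  have omne : ∀ x ∈ Om a c f1 f2 Bad, x < b ∨ b < x := fun x hx =>
    lt_or_gt_of_ne ((mB x).1 hx.2.2.2).2.2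
  have ml : ∀ x, x < b → x ∈ Om a c f1 f2 Bad → σ x < b ∧ σ x ∈ Om a c f1 f2 Bad := by
    intro x hx hm
    have h := s1.maps x ((oml x hx).1 hm)
    rw [σl x hx]
    exact ⟨h.2.1, (oml _ h.2.1).2 h⟩
  have mr : ∀ x, b < x → x ∈ Om a c f1 f2 Bad → b < σ x ∧ σ x ∈ Om a c f1 f2 Bad := by
    intro x hx hm
    have h := s2.maps x ((omr x hx).1 hm)
    rw [σr x hx]
    exact ⟨h.1, (omr _ h.1).2 h⟩
  have hinv : ∀ x ∈ Om a c f1 f2 Bad, σ (σ x) = x := by
    intro x hm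
    rcases omne x hm with hx | hx
    · rw [σl _ (ml x hx hm).1, σl x hx]
      exact s1.inv x ((oml x hx).1 hm)
    · rw [σr _ (mr x hx hm).1, σr x hx]
      exact s2.inv x ((omr x hx).1 hm)
  have hne : ∀ x ∈ Om a c f1 f2 Bad, σ x ≠ x := by
    intro x hm
    rcases omne x hm with hx | hx
    · rw [σl x hx]
      exact s1.ne x ((oml x hx).1 hm)
    · rw [σr x hx]
      exact s2.ne x ((omr x hx).1 hm)
  refine ⟨Bad, σ, ?_, hinv, hne, ?_, ?_, ?_⟩
  · intro x hm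
    rcases omne x hm with hx | hx
    · exact (ml x hx hm).2
    · exact (mr x hx hm).2
  · intro x hm
    rcases omne x hm with hx | hx
    · filter_upwards [s1.loc x ((oml x hx).1 hm), Iio_mem_nhds hx] with y hy hyb
      rw [σl y hyb, σl x hx]
      exact hy
    · filter_upwards [s2.loc x ((omr x hx).1 hm), Ioi_mem_nhds hx] with y hy hyb
      rw [σr y hyb, σr x hx]
      exact hy
  · intro x hm y hy hxy hyx
    rcases omne x hm with hx | hx
    · have h := (ml x hx hm).1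
      have hyb : y < b := hyx.trans h
      rw [σl y hyb, σl x hx]
      rw [σl x hx] at hyx
      exact s1.nc x ((oml x hx).1 hm) y ((oml y hyb).1 hy) hxy hyx
    · have hyb : b < y := hx.trans hxy
      rw [σr y hyb, σr x hx]
      rw [σr x hx] at hyx
      exact s2.nc x ((omr x hx).1 hm) y ((omr y hyb).1 hy) hxy hyx
  · intro C hC hCσ
    set C1 := C.filter fun x => x < b with hC1
    set C2 := C.filter fun x => ¬ x < b with hC2
    have c1 : ∀ x ∈ C1, x ∈ C ∧ x < b ∧ x ∈ Om a b g1 g2 Bad1 := by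
      intro x hx
      obtain ⟨k1, k2⟩ := Finset.mem_filter.1 hx
      exact ⟨k1, k2, (oml x k2).1 (hC x k1)⟩
    have c2 : ∀ x ∈ C2, x ∈ C ∧ b < x ∧ x ∈ Om b c h1 h2 Bad2 := by
      intro x hx
      obtain ⟨k1, k2⟩ := Finset.mem_filter.1 hx
      have k3 : b < x := (omne x (hC x k1)).resolve_left k2
      exact ⟨k1, k3, (omr x k3).1 (hC x k1)⟩
    have i1 : ∀ x ∈ C1, σ1 x ∈ C1 := by
      intro x hx
      obtain ⟨k1, k2, k3⟩ := c1 x hx
      rw [← σl x k2]
      exact Finset.mem_filter.2 ⟨hCσ x k1, (ml x k2 (hC x k1)).1⟩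
    have i2 : ∀ x ∈ C2, σ2 x ∈ C2 := by
      intro x hx
      obtain ⟨k1, k2, k3⟩ := c2 x hx
      rw [← σr x k2]
      exact Finset.mem_filter.2 ⟨hCσ x k1, not_lt.2 (mr x k2 (hC x k1)).1.le⟩
    have hev : Even C1.card := even_of_inv C1 σ1 i1 (fun x hx => s1.inv x (c1 x hx).2.2)
      (fun x hx => s1.ne x (c1 x hx).2.2)
    have a1 := s1.alt C1 (fun x hx => (c1 x hx).2.2) i1
    have a2 := s2.alt C2 (fun x hx => (c2 x hx).2.2) i2
    have hsum : Alt θ σ f1 f2 KF C = Alt θ σ1 g1 g2 KG C1 + Alt θ σ2 h1 h2 KH C2 := by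
      rw [Alt_eq, Alt_eq, Alt_eq, ← Finset.sum_filter_add_sum_filter_not C (fun x => x < b)]
      congr 1
      · refine Finset.sum_congr rfl fun x hx => ?_
        obtain ⟨k1, k2, k3⟩ := c1 x hx
        rw [σl x k2]
        by_cases hlt : x < σ1 x
        · rw [if_pos hlt, if_pos hlt, e3 x (σ1 x) k3.1 hlt (s1.maps x k3).2.1]
          congr 3
          ext y
          rw [Finset.mem_filter, Finset.mem_filter, Finset.mem_filter]
          constructor
          · rintro ⟨m1, m2⟩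
            exact ⟨⟨m1, m2.trans k2⟩, m2⟩
          · rintro ⟨⟨m1, _⟩, m2⟩
            exact ⟨m1, m2⟩
        · rw [if_neg hlt, if_neg hlt]
      · refine Finset.sum_congr rfl fun x hx => ?_
        obtain ⟨k1, k2, k3⟩ := c2 x hx
        rw [σr x k2]
        by_cases hlt : x < σ2 x
        · rw [if_pos hlt, if_pos hlt, e4 x (σ2 x) k2 hlt (s2.maps x k3).2.1]
          have hcard : (C.filter fun y => y < x).card = C1.card + (C2.filter fun y => y < x).card := by
            rw [← Finset.card_filter_add_card_filter_not (s := C.filter fun y => y < x)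
              (fun y => y < b)]
            congr 1
            · congr 1
              ext y
              rw [Finset.mem_filter, Finset.mem_filter, Finset.mem_filter]
              constructor
              · rintro ⟨⟨m1, _⟩, m2⟩
                exact ⟨m1, m2⟩
              · rintro ⟨m1, m2⟩
                exact ⟨⟨m1, m2.trans k2⟩, m2⟩
            · congr 1
              ext y
              rw [Finset.mem_filter, Finset.mem_filter, Finset.mem_filter, Finset.mem_filter]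
              tauto
          rw [hcard, pow_add, hev.neg_one_pow, one_mul]
        · rw [if_neg hlt, if_neg hlt]
    rw [hsum]
    exact ⟨add_nonneg a1.1 a2.1, add_le_add a1.2 a2.2⟩

end U3

theorem t_concatL : S_concatL := by
  intro θ a b c f1 f2 KF K1 K2 Bad1 Bad2 σ1 σ2 hab hbc hF s1 s2
  refine U3.concat θ a b c f1 f2 KF f1 f2 KF 1 0 0 K1 K2 Bad1 Bad2 σ1 σ2 hab hbc
    (fun x _ _ => Iff.rfl) ?_ (fun x y _ _ _ => rfl) ?_ s1 s2
  · intro x hx _
    refine ⟨fun _ h => by linarith [h.1, h.2], fun _ h => ?_⟩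
    rcases hF with ⟨h1, _⟩ | ⟨_, _, h3⟩
    · linarith [h.1, h.2]
    · linarith [h.2]
  · intro x y hx _ _
    rw [ite_self]
    rcases hF with ⟨_, h1⟩ | ⟨h1, h2, h3⟩
    · rw [h1, ite_self]
    · rw [if_neg]
      intro h
      linarith [h.1]

theorem t_concatR : S_concatR := by
  intro θ a b c f1 f2 KF K1 K2 Bad1 Bad2 σ1 σ2 hab hbc hF s1 s2
  refine U3.concat θ a b c f1 f2 KF 1 0 0 f1 f2 KF K1 K2 Bad1 Bad2 σ1 σ2 hab hbc
    ?_ (fun x _ _ => Iff.rfl) ?_ (fun x y _ _ _ => rfl) s1 s2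
  · intro x _ hx
    refine ⟨fun _ h => by linarith [h.1, h.2], fun _ h => ?_⟩
    rcases hF with ⟨h1, _⟩ | ⟨h1, _, _⟩
    · linarith [h.1, h.2]
    · linarith [h.1]
  · intro x y _ _ hy
    rw [ite_self]
    rcases hF with ⟨_, h1⟩ | ⟨h1, h2, h3⟩
    · rw [h1, ite_self]
    · rw [if_neg]
      intro h
      linarith [h.2]

end Pool.Agent.H586R2.AF
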