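import Pool.Agent.H586R2.AF.Stm

/-!
# Wrapping a system in outer pairs
-/

set_option autoImplicit false

namespace Pool.Agent.H586R2.AF

open Real Finset

namespace U5

open Classical in
/-- the sum over all points -/
theorem Alt_eq (θ : ℝ → ℝ) (σ : ℝ → ℝ) (f1 f2 KF : ℝ) (C : Finset ℝ) :
    Alt θ σ f1 f2 KF C = ∑ x ∈ C, if x < σ x then
      (-1 : ℝ) ^ ((C.filter (fun y => y < x)).card) *
        (π + θ (σ x) - θ x - if x < f1 ∧ f2 < σ x then KF else 0) else 0 := by
  unfold Alt
  rw [Finset.sum_filter]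

open Classical in
theorem alt_ones (L : Finset ℝ) :
    ∑ x ∈ L, (-1 : ℝ) ^ ((L.filter (fun y => y < x)).card) = if Odd L.card then 1 else 0 := by
  induction L using Finset.induction_on_max with
  | empty => simp
  | insert m s hm ih =>
    have hms : m ∉ s := fun h => lt_irrefl _ (hm m h)
    rw [Finset.sum_insert hms, Finset.card_insert_of_notMem hms]
    have e1 : (insert m s).filter (fun y => y < m) = s := by
      ext y
      rw [Finset.mem_filter, Finset.mem_insert]
      constructor
      · rintro ⟨h | h, h'⟩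
        · exact absurd h' (by rw [h]; exact lt_irrefl _)
        · exact h
      · intro h
        exact ⟨Or.inr h, hm y h⟩
    have e2 : ∀ x ∈ s, (-1 : ℝ) ^ (((insert m s).filter (fun y => y < x)).card) =
        (-1 : ℝ) ^ ((s.filter (fun y => y < x)).card) := by
      intro x hx
      congr 2
      ext y
      rw [Finset.mem_filter, Finset.mem_filter, Finset.mem_insert]
      constructor
      · rintro ⟨h | h, h'⟩
        · exact absurd (h ▸ h') (not_lt.2 (hm x hx).le)
        · exact ⟨h, h'⟩
      · rintro ⟨h, h'⟩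
        exact ⟨Or.inr h, h'⟩
    rw [e1, Finset.sum_congr rfl e2, ih]
    rcases Nat.even_or_odd s.card with h | h
    · have h1 : ¬ Odd s.card := Nat.not_odd_iff_even.2 h
      have h2 : Odd (s.card + 1) := h.add_one
      rw [h.neg_one_pow, if_neg h1, if_pos h2, add_zero]
    · have h2 : ¬ Odd (s.card + 1) := Nat.not_odd_iff_even.2 h.add_one
      rw [h.neg_one_pow, if_pos h, if_neg h2]
      ring

end U5

theorem t_wrap : S_wrap := by
  classical
  intro θ a a' b' b ta tb f1 f2 KF K' Bad' σ' haa hab hbb hsym hF hta htb hK0 hKV s'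
  set V : ℝ := π + tb - ta - KF with hV
  set Bad : Finset ℝ := (Bad'.filter fun x => a' < x ∧ x < b') ∪ {a', b'} with hBad
  set σ : ℝ → ℝ := fun x => if a' < x ∧ x < b' then σ' x else a + b - x with hσ
  have σm : ∀ x, a' < x → x < b' → σ x = σ' x := fun x h1 h2 => if_pos ⟨h1, h2⟩
  have σl : ∀ x, x < a' → σ x = a + b - x := fun x hx =>
    if_neg fun h => absurd h.1 (not_lt.2 hx.le)
  have σr : ∀ x, b' < x → σ x = a + b - x := fun x hx =>
    if_neg fun h => absurd h.2 (not_lt.2 hx.le)
  have mB : ∀ x, x ∉ Bad ↔ (a' < x → x < b' → x ∉ Bad') ∧ x ≠ a' ∧ x ≠ b' := by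
    intro x
    rw [hBad, Finset.mem_union, Finset.mem_filter, Finset.mem_insert, Finset.mem_singleton]
    tauto
  have fl : ∀ x, x < a' → ¬ (f1 ≤ x ∧ x ≤ f2) := by
    intro x hx h
    rcases hF with ⟨h1, _⟩ | ⟨h1, _, _⟩
    · linarith [h.1, h.2]
    · linarith [h.1]
  have fr : ∀ x, b' < x → ¬ (f1 ≤ x ∧ x ≤ f2) := by
    intro x hx h
    rcases hF with ⟨h1, _⟩ | ⟨_, _, h1⟩
    · linarith [h.1, h.2]
    · linarith [h.2]
  have omm : ∀ x, a' < x → x < b' → (x ∈ Om a b f1 f2 Bad ↔ x ∈ Om a' b' f1 f2 Bad') := by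
    intro x h1 h2
    constructor
    · rintro ⟨k1, k2, k3, k4⟩
      exact ⟨h1, h2, k3, ((mB x).1 k4).1 h1 h2⟩
    · rintro ⟨k1, k2, k3, k4⟩
      exact ⟨haa.trans h1, h2.trans hbb, k3, (mB x).2 ⟨fun _ _ => k4, h1.ne', h2.ne⟩⟩
  have oml : ∀ x, x < a' → (x ∈ Om a b f1 f2 Bad ↔ a < x) := by
    intro x hx
    refine ⟨fun h => h.1, fun h => ⟨h, by linarith, fl x hx, (mB x).2
      ⟨fun h' => absurd h' (not_lt.2 hx.le), hx.ne, by linarith⟩⟩⟩
  have omr : ∀ x, b' < x → (x ∈ Om a b f1 f2 Bad ↔ x < b) := by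
    intro x hx
    refine ⟨fun h => h.2.1, fun h => ⟨by linarith, h, fr x hx, (mB x).2
      ⟨fun _ h' => absurd h' (not_lt.2 hx.le), (lt_of_le_of_lt hab hx).ne', hx.ne'⟩⟩⟩
  have tri : ∀ x ∈ Om a b f1 f2 Bad, x < a' ∨ (a' < x ∧ x < b') ∨ b' < x := by
    intro x hx
    have h := (mB x).1 hx.2.2.2
    rcases lt_or_gt_of_ne h.2.1 with h1 | h1
    · exact Or.inl h1
    · rcases lt_or_gt_of_ne h.2.2 with h2 | h2
      · exact Or.inr (Or.inl ⟨h1, h2⟩)
      · exact Or.inr (Or.inr h2)
  have mm : ∀ x, a' < x → x < b' → x ∈ Om a b f1 f2 Bad →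
      (a' < σ x ∧ σ x < b') ∧ σ x ∈ Om a b f1 f2 Bad := by
    intro x h1 h2 hm
    have h := s'.maps x ((omm x h1 h2).1 hm)
    rw [σm x h1 h2]
    exact ⟨⟨h.1, h.2.1⟩, (omm _ h.1 h.2.1).2 h⟩
  have mlr : ∀ x, x < a' → a < x → b' < σ x ∧ σ x < b := by
    intro x hx hax
    rw [σl x hx]
    constructor <;> linarith
  have mrl : ∀ x, b' < x → x < b → a < σ x ∧ σ x < a' := by
    intro x hx hxb
    rw [σr x hx]
    constructor <;> linarith
  have hmaps : ∀ x ∈ Om a b f1 f2 Bad, σ x ∈ Om a b f1 f2 Bad := by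
    intro x hm
    rcases tri x hm with hx | ⟨h1, h2⟩ | hx
    · have h := mlr x hx hm.1
      exact (omr _ h.1).2 h.2
    · exact (mm x h1 h2 hm).2
    · have h := mrl x hx hm.2.1
      exact (oml _ h.2).2 h.1
  have hinv : ∀ x ∈ Om a b f1 f2 Bad, σ (σ x) = x := by
    intro x hm
    rcases tri x hm with hx | ⟨h1, h2⟩ | hx
    · rw [σr _ (mlr x hx hm.1).1, σl x hx]
      ring
    · have h := mm x h1 h2 hm
      rw [σm _ h.1.1 h.1.2, σm x h1 h2]
      exact s'.inv x ((omm x h1 h2).1 hm)
    · rw [σl _ (mrl x hx hm.2.1).2, σr x hx]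
      ring
  refine ⟨Bad, σ, hmaps, hinv, ?_, ?_, ?_, ?_⟩
  · intro x hm
    rcases tri x hm with hx | ⟨h1, h2⟩ | hx
    · have h := (mlr x hx hm.1).1
      exact (lt_trans (lt_of_lt_of_le hx hab) h).ne'
    · rw [σm x h1 h2]
      exact s'.ne x ((omm x h1 h2).1 hm)
    · have h := (mrl x hx hm.2.1).2
      exact (lt_trans (lt_of_lt_of_le h hab) hx).ne
  · intro x hm
    rcases tri x hm with hx | ⟨h1, h2⟩ | hx
    · filter_upwards [Iio_mem_nhds hx] with y hy
      rw [σl y hy, σl x hx]
      ring
    · filter_upwards [s'.loc x ((omm x h1 h2).1 hm), Ioi_mem_nhds h1, Iio_mem_nhds h2]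
        with y hy hy1 hy2
      rw [σm y hy1 hy2, σm x h1 h2]
      exact hy
    · filter_upwards [Ioi_mem_nhds hx] with y hy
      rw [σr y hy, σr x hx]
      ring
  · intro x hm y hy hxy hyx
    rcases tri x hm with hx | ⟨h1, h2⟩ | hx
    · have hl := mlr x hx hm.1
      rw [σl x hx] at hyx
      rcases tri y hy with hy' | ⟨g1, g2⟩ | hy'
      · rw [σl y hy', σl x hx]
        constructor <;> linarith
      · have h := mm y g1 g2 hy
        exact ⟨hx.trans h.1.1, h.1.2.trans hl.1⟩
      · rw [σr y hy', σl x hx]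
        constructor <;> linarith
    · have h := mm x h1 h2 hm
      have g1 : a' < y := h1.trans hxy
      have g2 : y < b' := hyx.trans h.1.2
      rw [σm y g1 g2, σm x h1 h2]
      rw [σm x h1 h2] at hyx
      exact s'.nc x ((omm x h1 h2).1 hm) y ((omm y g1 g2).1 hy) hxy hyx
    · have h := (mrl x hx hm.2.1).2
      linarith
  · intro C hC hCσ
    set L := C.filter fun x => x < a' with hL
    set C0 := C.filter fun x => a' < x ∧ x < b' with hC0
    have cL : ∀ x ∈ L, x ∈ C ∧ x < a' ∧ a < x := fun x hx => by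
      obtain ⟨k1, k2⟩ := Finset.mem_filter.1 hx
      exact ⟨k1, k2, (hC x k1).1⟩
    have cM : ∀ x ∈ C0, x ∈ C ∧ a' < x ∧ x < b' ∧ x ∈ Om a' b' f1 f2 Bad' := fun x hx => by
      obtain ⟨k1, k2, k3⟩ := Finset.mem_filter.1 hx
      exact ⟨k1, k2, k3, (omm x k2 k3).1 (hC x k1)⟩
    have iM : ∀ x ∈ C0, σ' x ∈ C0 := by
      intro x hx
      obtain ⟨k1, k2, k3, k4⟩ := cM x hx
      rw [← σm x k2 k3]
      exact Finset.mem_filter.2 ⟨hCσ x k1, (mm x k2 k3 (hC x k1)).1⟩
    have a0 := s'.alt C0 (fun x hx => (cM x hx).2.2.2) iM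
    have hsum : Alt θ σ f1 f2 KF C = (if Odd L.card then V else 0) +
        (-1) ^ L.card * Alt θ σ' f1 f2 KF C0 := by
      rw [U5.Alt_eq, U5.Alt_eq, ← Finset.sum_filter_add_sum_filter_not C (fun x => x < a')]
      congr 1
      · have e : ∀ x ∈ L, (if x < σ x then
            (-1 : ℝ) ^ ((C.filter (fun y => y < x)).card) *
              (π + θ (σ x) - θ x - if x < f1 ∧ f2 < σ x then KF else 0) else 0) =
            (-1 : ℝ) ^ ((L.filter (fun y => y < x)).card) * V := by
          intro x hx
          obtain ⟨k1, k2, k3⟩ := cL x hx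
          have h := mlr x k2 k3
          have hlt : x < σ x := lt_trans (lt_of_lt_of_le k2 hab) h.1
          rw [if_pos hlt, htb _ h.1 h.2, hta x k3 k2]
          have hK : (if x < f1 ∧ f2 < σ x then KF else 0) = KF := by
            rcases hF with ⟨_, h0⟩ | ⟨h1, _, h3⟩
            · rw [h0, ite_self]
            · rw [if_pos]
              exact ⟨by linarith, by linarith [h.1]⟩
          rw [hK, ← hV]
          congr 3
          ext y
          rw [Finset.mem_filter, Finset.mem_filter, Finset.mem_filter]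
          constructor
          · rintro ⟨m1, m2⟩
            exact ⟨⟨m1, m2.trans k2⟩, m2⟩
          · rintro ⟨⟨m1, _⟩, m2⟩
            exact ⟨m1, m2⟩
        rw [Finset.sum_congr rfl e, ← Finset.sum_mul, U5.alt_ones]
        split_ifs <;> ring
      · rw [Finset.mul_sum]
        have hsub : C0 ⊆ C.filter fun x => ¬ x < a' := by
          intro x hx
          obtain ⟨k1, k2, k3, k4⟩ := cM x hx
          exact Finset.mem_filter.2 ⟨k1, not_lt.2 k2.le⟩
        rw [← Finset.sum_subset hsub]
        · refine Finset.sum_congr rfl fun x hx => ?_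
          obtain ⟨k1, k2, k3, k4⟩ := cM x hx
          rw [σm x k2 k3]
          by_cases hlt : x < σ' x
          · rw [if_pos hlt, if_pos hlt]
            have hcard : (C.filter fun y => y < x).card =
                L.card + (C0.filter fun y => y < x).card := by
              rw [← Finset.card_filter_add_card_filter_not (s := C.filter fun y => y < x)
                (fun y => y < a')]
              congr 1
              · congr 1
                ext y
                rw [Finset.mem_filter, Finset.mem_filter, Finset.mem_filter]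
                constructor
                · rintro ⟨⟨m1, _⟩, m2⟩
                  exact ⟨m1, m2⟩
                · rintro ⟨m1, m2⟩
                  exact ⟨⟨m1, m2.trans k2⟩, m2⟩
              · congr 1
                ext y
                rw [Finset.mem_filter, Finset.mem_filter, Finset.mem_filter, Finset.mem_filter]
                constructor
                · rintro ⟨⟨m1, m2⟩, m3⟩
                  refine ⟨⟨m1, ?_, m2.trans k3⟩, m2⟩
                  rcases tri y (hC y m1) with h | h | h
                  · exact absurd h m3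
                  · exact h.1
                  · exact lt_of_le_of_lt hab h
                · rintro ⟨⟨m1, m2, _⟩, m3⟩
                  exact ⟨⟨m1, m3⟩, not_lt.2 m2.le⟩
            rw [hcard, pow_add, mul_assoc]
          · rw [if_neg hlt, if_neg hlt, mul_zero]
        · intro x hx hx0
          obtain ⟨k1, k2⟩ := Finset.mem_filter.1 hx
          rcases tri x (hC x k1) with h | h | h
          · exact absurd h k2
          · exact absurd (Finset.mem_filter.2 ⟨k1, h⟩) hx0
          · have h' := (mrl x h (hC x k1).2.1).2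
            rw [if_neg]
            intro h''
            linarith
    rw [hsum]
    rcases Nat.even_or_odd L.card with h | h
    · rw [if_neg (Nat.not_odd_iff_even.2 h), h.neg_one_pow, zero_add, one_mul]
      exact ⟨a0.1, a0.2.trans hKV⟩
    · rw [if_pos h, h.neg_one_pow]
      constructor <;> linarith [a0.1, a0.2]

end Pool.Agent.H586R2.AF
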