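import Pool.Agent.H586R2.AF.Stm

/-!
# U6: every derivation gives systems on all windows
-/

set_option autoImplicit false

namespace Pool.Agent.H586R2.AF

open Real Finset

namespace U6

theorem sys_shift {θ θ' : ℝ → ℝ} {a b K t : ℝ} {Bad : Finset ℝ} {σ : ℝ → ℝ}
    (h : ∀ x, a < x → x < b → θ' x = θ x + t) (hs : Sys θ a b 1 0 0 K Bad σ) :
    Sys θ' a b 1 0 0 K Bad σ := by
  refine ⟨hs.maps, hs.inv, hs.ne, hs.loc, hs.nc, fun C hC hC' => ?_⟩
  have h0 : Alt θ' σ 1 0 0 C = Alt θ σ 1 0 0 C := by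
    unfold Alt
    refine Finset.sum_congr rfl fun x hx => ?_
    have hx1 := hC x (Finset.mem_filter.1 hx).1
    have hx2 := hs.maps x hx1
    rw [h x hx1.1 hx1.2.1, h _ hx2.1 hx2.2.1]
    ring
  rw [h0]
  exact hs.alt C hC hC'

theorem sys_empty (θ : ℝ → ℝ) {a b K : ℝ} (hab : b ≤ a) (hK : 0 ≤ K) :
    Sys θ a b 1 0 0 K ∅ id := by
  have hno : ∀ x, x ∉ Om a b 1 0 ∅ := fun x hx => by
    have h1 := hx.1
    have h2 := hx.2.1
    linarith
  refine ⟨fun x hx => absurd hx (hno x), fun x hx => absurd hx (hno x),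
    fun x hx => absurd hx (hno x), fun x hx => absurd hx (hno x),
    fun x hx => absurd hx (hno x), fun C hC _ => ?_⟩
  have h0 : C = ∅ := Finset.eq_empty_of_forall_notMem fun x hx => hno x (hC x hx)
  subst h0
  simp [Alt, hK]

/-- there is a system without removed arc -/
def Ex (θ : ℝ → ℝ) (a b K : ℝ) : Prop :=
  ∃ (Bad : Finset ℝ) (σ : ℝ → ℝ), Sys θ a b 1 0 0 K Bad σ

theorem Ex.shift {θ θ' : ℝ → ℝ} {a b K : ℝ} (t : ℝ)
    (h : ∀ x, a < x → x < b → θ' x = θ x + t) (hs : Ex θ a b K) : Ex θ' a b K := by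
  obtain ⟨Bad, σ, hs⟩ := hs
  exact ⟨Bad, σ, sys_shift h hs⟩

theorem Ex.concat (h1 : S_concatL) {θ : ℝ → ℝ} {a b c K1 K2 : ℝ} (hab : a ≤ b) (hbc : b ≤ c)
    (hs : Ex θ a b K1) (ht : Ex θ b c K2) : Ex θ a c (K1 + K2) := by
  obtain ⟨Bad1, σ1, hs⟩ := hs
  obtain ⟨Bad2, σ2, ht⟩ := ht
  exact h1 θ a b c 1 0 0 K1 K2 Bad1 Bad2 σ1 σ2 hab hbc (Or.inl ⟨by norm_num, rfl⟩) hs ht

theorem Ex.wrap (h3 : S_wrap) {θ : ℝ → ℝ} {a a' b' b K' : ℝ} (ta tb : ℝ)
    (h1 : a < a') (h2 : a' ≤ b') (h4 : b' < b) (h5 : b - b' = a' - a)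
    (h6 : ∀ x, a < x → x < a' → θ x = ta) (h7 : ∀ x, b' < x → x < b → θ x = tb)
    (h8 : 0 ≤ K') (h9 : K' ≤ π + tb - ta) (hs : Ex θ a' b' K') :
    Ex θ a b (π + tb - ta) := by
  obtain ⟨Bad, σ, hs⟩ := hs
  have h := h3 θ a a' b' b ta tb 1 0 0 K' Bad σ h1 h2 h4 h5 (Or.inl ⟨by norm_num, rfl⟩) h6 h7 h8
    (by linarith) hs
  rw [sub_zero] at h
  exact h

/-! ### positions and sums -/

variable {X : Dat}

theorem s_le (hX : X.Good) {a b : ℕ} (hab : a ≤ b) (hb : b ≤ X.n) : X.s a ≤ X.s b := by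
  induction b, hab using Nat.le_induction with
  | base => exact le_rfl
  | succ b hab ih => exact (ih (by omega)).trans (hX.s_lt b (by omega)).le

theorem s_lt (hX : X.Good) {a b : ℕ} (hab : a < b) (hb : b ≤ X.n) : X.s a < X.s b :=
  (hX.s_lt a (by omega)).trans_le (s_le hX (show a + 1 ≤ b by omega) hb)

/-- sum of the turning angles of the vertices `p+1, ..., q` -/
noncomputable def g (X : Dat) (p q : ℕ) : ℝ := ∑ k ∈ Ioc p q, (π - X.al k)

theorem g_add (X : Dat) {p q r : ℕ} (h1 : p ≤ q) (h2 : q ≤ r) : g X p q + g X q r = g X p r :=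
  Finset.sum_Ioc_consecutive _ h1 h2

theorem g_succ (X : Dat) (p : ℕ) : g X p (p + 1) = π - X.al (p + 1) := by
  unfold g
  rw [show Ioc p (p + 1) = {p + 1} by ext k; simp, Finset.sum_singleton]

theorem kap_eq (X : Dat) (i j : ℕ) : Kap X i j = π + g X i j := rfl

theorem kch_eq (X : Dat) {p q : ℕ} (h : p ≤ q) (θ : ℝ) :
    Kch X p q θ = g X p q - X.al p + θ := by
  unfold Kch g
  have h1 : Icc p q = insert p (Ioc p q) := by
    ext k
    simp only [Finset.mem_Icc, Finset.mem_insert, Finset.mem_Ioc]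
    omega
  rw [h1, Finset.sum_insert (by simp)]
  ring

theorem dir_eq (X : Dat) {i p q j : ℕ} (hip : i ≤ p) (hpq : p ≤ q) (hqj : q ≤ j) (x : ℝ)
    (h1 : ∀ k, i < k → k ≤ p → X.s k < x) (h2 : ∀ k, q < k → k ≤ j → x ≤ X.s k) :
    dir X i j x = dir X p q x + g X i p := by
  classical
  unfold dir g
  rw [Finset.sum_filter, Finset.sum_filter, ← Finset.sum_Ioc_consecutive _ hip (hpq.trans hqj),
    ← Finset.sum_Ioc_consecutive _ hpq hqj]
  have e1 : ∑ k ∈ Ioc i p, (if X.s k < x then π - X.al k else 0) = ∑ k ∈ Ioc i p, (π - X.al k) := by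
    refine Finset.sum_congr rfl fun k hk => ?_
    rw [Finset.mem_Ioc] at hk
    rw [if_pos (h1 k hk.1 hk.2)]
  have e2 : ∑ k ∈ Ioc q j, (if X.s k < x then π - X.al k else 0) = 0 := by
    refine Finset.sum_eq_zero fun k hk => ?_
    rw [Finset.mem_Ioc] at hk
    rw [if_neg (not_lt.2 (h2 k hk.1 hk.2))]
  rw [e1, e2]
  ring

theorem dir_self (X : Dat) (i : ℕ) (x : ℝ) : dir X i i x = 0 := by
  unfold dir; simp

/-- before the first vertex the direction is zero -/
theorem dir_lo (hX : X.Good) {i j : ℕ} (hij : i ≤ j) (hj : j ≤ X.n) {x : ℝ}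
    (hx : x ≤ X.s (i + 1)) : dir X i j x = 0 := by
  have h := dir_eq X (le_refl i) (le_refl i) hij x (fun k h1 h2 => by omega)
    (fun k h1 h2 => hx.trans (s_le hX h1 (h2.trans hj)))
  rw [h, dir_self, zero_add]
  unfold g; simp

/-- after the last vertex the direction is the full sum -/
theorem dir_hi (hX : X.Good) {i j : ℕ} (hij : i ≤ j) (hj : j ≤ X.n) {x : ℝ}
    (hx : X.s j < x) : dir X i j x = g X i j := by
  have h := dir_eq X hij (le_refl j) (le_refl j) x
    (fun k h1 h2 => (s_le hX h2 hj).trans_lt hx) (fun k h1 h2 => by omega)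
  rw [h, dir_self, zero_add]

/-- what has to be proved for an item -/
def Mot (X : Dat) : Item → Prop
  | .sg i j c => ∀ a, a < X.s (i + 1) → X.s j < c - a → a < c - a →
      Ex (dir X i j) a (c - a) (Kap X i j)
  | .ch p q θ => Ex (dir X p q) (X.s p) (X.s q) (Kch X p q θ)

theorem main (h1 : S_concatL) (h3 : S_wrap) (h4 : S_range) (h5 : S_curv) (hX : X.Good)
    (A : ℕ → ℕ → Prop) (it : Item) (hd : Der X A it) : Mot X it := by
  obtain ⟨hr1, hr2⟩ := h4 X hX A
  obtain ⟨hc1, hc2⟩ := h5 X hX A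
  induction hd with
  | fold i c hi hA hlo hhi =>
    intro a ha1 ha2 ha3
    have h := Ex.wrap h3 (θ := dir X i i) (a := a) (a' := c / 2) (b' := c / 2) (b := c - a)
      (K' := 0) 0 0 (by linarith) le_rfl (by linarith) (by ring) (fun x _ _ => dir_self X i x)
      (fun x _ _ => dir_self X i x) le_rfl (by have := Real.pi_pos; linarith)
      ⟨∅, id, sys_empty _ le_rfl le_rfl⟩
    rw [kap_eq]
    have hg : g X i i = 0 := by unfold g; simp
    rw [hg]
    simpa using h
  | term i j θ hij hj hA hch hθ ih =>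
    intro a ha1 ha2 ha3
    have h0 := hc2 _ _ _ hch
    have hle := s_le hX (show i + 1 ≤ j by omega) hj.le
    have e1 := g_add X (show i ≤ i + 1 by omega) (show i + 1 ≤ j by omega)
    have e2 := g_succ X i
    have hs : Ex (dir X i j) (X.s (i + 1)) (X.s j) (Kch X (i + 1) j θ) := by
      refine Ex.shift (g X i (i + 1)) (fun x hx1 hx2 => ?_) ih
      exact dir_eq X (by omega) (by omega) le_rfl x
        (fun k hk1 hk2 => (s_le hX hk2 (by omega)).trans_lt hx1) (fun k hk1 hk2 => by omega)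
    have h := Ex.wrap h3 (θ := dir X i j) (a := a) (a' := X.s (i + 1)) (b' := X.s j)
      (b := X.s (i + 1) + X.s j - a) (K' := Kch X (i + 1) j θ) 0 (g X i j) ha1 hle ha2 (by ring)
      (fun x _ hx => dir_lo hX hij.le hj.le hx.le) (fun x hx _ => dir_hi hX hij.le hj.le hx)
      h0 (by rw [kch_eq X (show i + 1 ≤ j by omega)]; linarith) hs
    rw [sub_zero] at h
    exact h
  | right i j p c θ hip hpj hj hA hlo hhi hch hθ hsg ih1 ih2 =>
    intro a ha1 ha2 ha3
    have h01 := hc2 _ _ _ hch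
    have h02 := hc1 _ _ _ hsg
    have hle := s_le hX (show i + 1 ≤ p by omega) (by omega)
    have hle2 := s_le hX hpj hj.le
    have hlt := s_lt hX (show p < p + 1 by omega) (by omega)
    have e1 := g_add X (show i ≤ i + 1 by omega) (show i + 1 ≤ p by omega)
    have e2 := g_succ X i
    have e3 := g_add X (show i ≤ p by omega) hpj
    have k1 := kch_eq X (show i + 1 ≤ p by omega) θ
    have k2 := kap_eq X p j
    have hs1 : Ex (dir X i j) (X.s (i + 1)) (X.s p) (Kch X (i + 1) p θ) := by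
      refine Ex.shift (g X i (i + 1)) (fun x hx1 hx2 => ?_) ih1
      exact dir_eq X (by omega) (by omega) hpj x
        (fun k hk1 hk2 => (s_le hX hk2 (by omega)).trans_lt hx1)
        (fun k hk1 hk2 => hx2.le.trans (s_le hX hk1.le (by omega)))
    have hs2 : Ex (dir X i j) (X.s p) (c - X.s (i + 1)) (Kap X p j) := by
      have h := ih2 (X.s p) hlt (by linarith) (by linarith)
      rw [show c - X.s (i + 1) + X.s p - X.s p = c - X.s (i + 1) by ring] at h
      refine Ex.shift (g X i p) (fun x hx1 hx2 => ?_) h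
      exact dir_eq X (by omega) hpj le_rfl x
        (fun k hk1 hk2 => (s_le hX hk2 (by omega)).trans_lt hx1) (fun k hk1 hk2 => by omega)
    have hs := Ex.concat h1 hle (by linarith) hs1 hs2
    have h := Ex.wrap h3 (θ := dir X i j) (a := a) (a' := X.s (i + 1)) (b' := c - X.s (i + 1))
      (b := c - a) (K' := Kch X (i + 1) p θ + Kap X p j) 0 (g X i j) ha1 (by linarith)
      (by linarith) (by ring)
      (fun x _ hx => dir_lo hX (by omega) hj.le hx.le)
      (fun x hx _ => dir_hi hX (by omega) hj.le (by linarith))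
      (by linarith) (by linarith) hs
    rw [sub_zero] at h
    exact h
  | left i j p c θ hip hpj hj hA hlo hhi hch hθ hsg ih1 ih2 =>
    intro a ha1 ha2 ha3
    have h01 := hc2 _ _ _ hch
    have h02 := hc1 _ _ _ hsg
    have hle := s_le hX (show p + 1 ≤ j by omega) (by omega)
    have hle2 := s_le hX (show i + 1 ≤ p + 1 by omega) (by omega)
    have hlt := s_lt hX (show p < p + 1 by omega) (by omega)
    have e1 := g_add X (show p ≤ p + 1 by omega) (show p + 1 ≤ j by omega)
    have e2 := g_succ X p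
    have e3 := g_add X hip hpj.le
    have k1 := kch_eq X (show p + 1 ≤ j by omega) θ
    have k2 := kap_eq X i p
    have hs2 : Ex (dir X i j) (X.s (p + 1)) (X.s j) (Kch X (p + 1) j θ) := by
      refine Ex.shift (g X i (p + 1)) (fun x hx1 hx2 => ?_) ih1
      exact dir_eq X (by omega) (by omega) le_rfl x
        (fun k hk1 hk2 => (s_le hX hk2 (by omega)).trans_lt hx1) (fun k hk1 hk2 => by omega)
    have hs1 : Ex (dir X i j) (c - X.s j) (X.s (p + 1)) (Kap X i p) := by
      have h := ih2 (c - X.s j) (by linarith) (by linarith) (by linarith)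
      rw [show c - X.s j + X.s (p + 1) - (c - X.s j) = X.s (p + 1) by ring] at h
      refine Ex.shift 0 (fun x hx1 hx2 => ?_) h
      have h' := dir_eq X (le_refl i) hip hpj.le x (fun k hk1 hk2 => by omega)
        (fun k hk1 hk2 => hx2.le.trans (s_le hX (show p + 1 ≤ k by omega) (by omega)))
      rw [h']
      unfold g; simp
    have hs := Ex.concat h1 (by linarith) hle hs1 hs2
    have h := Ex.wrap h3 (θ := dir X i j) (a := a) (a' := c - X.s j) (b' := X.s j)
      (b := c - a) (K' := Kap X i p + Kch X (p + 1) j θ) 0 (g X i j) (by linarith) (by linarith)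
      (by linarith) (by ring)
      (fun x _ hx => dir_lo hX (by omega) hj.le (by linarith))
      (fun x hx _ => dir_hi hX (by omega) hj.le hx)
      (by linarith) (by linarith) hs
    rw [sub_zero] at h
    exact h
  | refl p hp =>
    refine ⟨∅, id, sys_empty _ le_rfl ?_⟩
    rw [kch_eq X le_rfl]
    unfold g; simp
  | vv p r q θ hrq hq hch hsg ih1 ih2 =>
    have hpr := (hr2 _ _ _ hch).1
    have hlt := s_lt hX (show r < r + 1 by omega) (by omega)
    have hlt2 := s_lt hX (show q < q + 1 by omega) (by omega)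
    have hle := s_le hX hpr (by omega)
    have hle2 := s_le hX (show r + 1 ≤ q + 1 by omega) (by omega)
    have e1 := g_add X hpr hrq
    have e2 := g_succ X q
    have e3 := g_add X (show p ≤ q by omega) (show q ≤ q + 1 by omega)
    have k1 := kch_eq X hpr θ
    have k2 := kap_eq X r q
    have k3 := kch_eq X (show p ≤ q + 1 by omega) (θ + X.al (q + 1))
    have hs1 : Ex (dir X p (q + 1)) (X.s p) (X.s r) (Kch X p r θ) := by
      refine Ex.shift 0 (fun x hx1 hx2 => ?_) ih1
      have h' := dir_eq X (le_refl p) hpr (show r ≤ q + 1 by omega) x (fun k hk1 hk2 => by omega)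
        (fun k hk1 hk2 => hx2.le.trans (s_le hX hk1.le (by omega)))
      rw [h']
      unfold g; simp
    have hs2 : Ex (dir X p (q + 1)) (X.s r) (X.s (q + 1)) (Kap X r q) := by
      have h := ih2 (X.s r) hlt (by linarith) (by linarith)
      rw [show X.s r + X.s (q + 1) - X.s r = X.s (q + 1) by ring] at h
      refine Ex.shift (g X p r) (fun x hx1 hx2 => ?_) h
      exact dir_eq X hpr hrq (show q ≤ q + 1 by omega) x
        (fun k hk1 hk2 => (s_le hX hk2 (by omega)).trans_lt hx1)
        (fun k hk1 hk2 => hx2.le.trans (s_le hX (show q + 1 ≤ k by omega) (by omega)))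
    have hs := Ex.concat h1 hle (by linarith) hs1 hs2
    show Ex _ _ _ _
    rw [show Kch X p (q + 1) (θ + X.al (q + 1)) = Kch X p r θ + Kap X r q by linarith]
    exact hs
  | fl p r e q x θ hre heq hq hx1 hx2 hch hsg1 hsg2 ih1 ih2 ih3 =>
    have hpr := (hr2 _ _ _ hch).1
    have hlt := s_lt hX (show r < r + 1 by omega) (by omega)
    have hlt2 := s_lt hX (show q < q + 1 by omega) (by omega)
    have hle := s_le hX hpr (by omega)
    have hle2 := s_le hX hre (by omega)
    have hle3 := s_le hX (show e + 1 ≤ q + 1 by omega) (by omega)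
    have e1 := g_add X hpr hre
    have e2 := g_succ X q
    have e3 := g_add X (show p ≤ q by omega) (show q ≤ q + 1 by omega)
    have e4 := g_add X (show p ≤ e by omega) heq
    have k1 := kch_eq X hpr θ
    have k2 := kap_eq X r e
    have k4 := kap_eq X e q
    have k3 := kch_eq X (show p ≤ q + 1 by omega) (θ + π + X.al (q + 1))
    have hs1 : Ex (dir X p (q + 1)) (X.s p) (X.s r) (Kch X p r θ) := by
      refine Ex.shift 0 (fun y hy1 hy2 => ?_) ih1
      have h' := dir_eq X (le_refl p) hpr (show r ≤ q + 1 by omega) y (fun k hk1 hk2 => by omega)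
        (fun k hk1 hk2 => hy2.le.trans (s_le hX hk1.le (by omega)))
      rw [h']
      unfold g; simp
    have hs2 : Ex (dir X p (q + 1)) (X.s r) x (Kap X r e) := by
      have h := ih2 (X.s r) hlt (by linarith) (by linarith)
      rw [show X.s r + x - X.s r = x by ring] at h
      refine Ex.shift (g X p r) (fun y hy1 hy2 => ?_) h
      exact dir_eq X hpr hre (show e ≤ q + 1 by omega) y
        (fun k hk1 hk2 => (s_le hX hk2 (by omega)).trans_lt hy1)
        (fun k hk1 hk2 => (hy2.trans hx2).le.trans (s_le hX (show e + 1 ≤ k by omega) (by omega)))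
    have hs3 : Ex (dir X p (q + 1)) x (X.s (q + 1)) (Kap X e q) := by
      have h := ih3 x hx2 (by linarith) (by linarith)
      rw [show x + X.s (q + 1) - x = X.s (q + 1) by ring] at h
      refine Ex.shift (g X p e) (fun y hy1 hy2 => ?_) h
      exact dir_eq X (show p ≤ e by omega) heq (show q ≤ q + 1 by omega) y
        (fun k hk1 hk2 => ((s_le hX hk2 (by omega)).trans_lt hx1).trans hy1)
        (fun k hk1 hk2 => hy2.le.trans (s_le hX (show q + 1 ≤ k by omega) (by omega)))
    have hs := Ex.concat h1 (by linarith) (by linarith)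
      (Ex.concat h1 hle (by linarith) hs1 hs2) hs3
    show Ex _ _ _ _
    rw [show Kch X p (q + 1) (θ + π + X.al (q + 1)) = Kch X p r θ + Kap X r e + Kap X e q by
      linarith]
    exact hs

end U6

theorem t_sysDer (h1 : S_concatL) (h2 : S_concatR) (h3 : S_wrap) (h4 : S_range) (h5 : S_curv) :
    S_sysDer := by
  intro X hX A
  refine ⟨fun i j c hd => ?_, fun p q θ hd => ?_⟩
  · exact U6.main h1 h3 h4 h5 hX A _ hd
  · exact U6.main h1 h3 h4 h5 hX A _ hd

end Pool.Agent.H586R2.AF
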