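import Pool.Agent.H586R2.AF.Stm

/-!
# Every walk gives systems on all windows, the inner arc removed
-/

set_option autoImplicit false

namespace Pool.Agent.H586R2.AF

open Real Finset

namespace U7h

lemma s_mono {X : Dat} (hX : X.Good) {k l : ℕ} (hkl : k ≤ l) (hl : l ≤ X.n) : X.s k ≤ X.s l := by
  induction l, hkl using Nat.le_induction with
  | base => exact le_refl _
  | succ l hkl ih =>
    have h1 := ih (by omega)
    have h2 := hX.s_lt l (by omega)
    linarith

lemma dir_shift {X : Dat} (hX : X.Good) {i i2 j2 j : ℕ} (h1 : i ≤ i2) (h2 : i2 ≤ j2) (h3 : j2 ≤ j)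
    (hj : j ≤ X.n) {x : ℝ} (hlo : i2 = i ∨ X.s i2 < x) (hhi : j2 = j ∨ x ≤ X.s (j2 + 1)) :
    dir X i j x = dir X i2 j2 x + ∑ k ∈ Ioc i i2, (π - X.al k) := by
  unfold dir
  rw [Finset.sum_filter, Finset.sum_filter, ← Finset.sum_Ioc_consecutive _ h1 (h2.trans h3),
    ← Finset.sum_Ioc_consecutive _ h2 h3]
  have e1 : ∑ k ∈ Ioc i i2, (if X.s k < x then (π - X.al k) else 0) =
      ∑ k ∈ Ioc i i2, (π - X.al k) := by
    refine Finset.sum_congr rfl fun k hk => ?_
    rw [Finset.mem_Ioc] at hk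
    rcases hlo with h | h
    · omega
    · have := s_mono hX hk.2 (by omega)
      rw [if_pos (by linarith)]
  have e2 : ∑ k ∈ Ioc j2 j, (if X.s k < x then (π - X.al k) else 0) = 0 := by
    refine Finset.sum_eq_zero fun k hk => ?_
    rw [Finset.mem_Ioc] at hk
    rcases hhi with h | h
    · omega
    · have := s_mono hX (show j2 + 1 ≤ k by omega) (by omega)
      rw [if_neg (by linarith)]
  rw [e1, e2]
  ring

lemma dir_low {X : Dat} (hX : X.Good) {i j : ℕ} (hj : j ≤ X.n) {x : ℝ} (hx : x ≤ X.s (i + 1)) :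
    dir X i j x = 0 := by
  unfold dir
  rw [Finset.sum_filter]
  refine Finset.sum_eq_zero fun k hk => ?_
  rw [Finset.mem_Ioc] at hk
  have := s_mono hX (show i + 1 ≤ k by omega) (by omega)
  rw [if_neg (by linarith)]

lemma dir_high {X : Dat} (hX : X.Good) {i j : ℕ} (hj : j ≤ X.n) {x : ℝ} (hx : X.s j < x) :
    dir X i j x = ∑ k ∈ Ioc i j, (π - X.al k) := by
  unfold dir
  rw [Finset.sum_filter]
  refine Finset.sum_congr rfl fun k hk => ?_
  rw [Finset.mem_Ioc] at hk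
  have := s_mono hX hk.2 hj
  rw [if_pos (by linarith)]

lemma sys_congr {θ θ' : ℝ → ℝ} {a b f1 f2 KF KT : ℝ} {Bad : Finset ℝ} {σ : ℝ → ℝ} (k : ℝ)
    (hθ : ∀ x, a < x → x < b → θ' x = θ x + k) (h : Sys θ a b f1 f2 KF KT Bad σ) :
    Sys θ' a b f1 f2 KF KT Bad σ := by
  refine ⟨h.maps, h.inv, h.ne, h.loc, h.nc, ?_⟩
  intro C hC hσ
  have e : Alt θ' σ f1 f2 KF C = Alt θ σ f1 f2 KF C := by
    unfold Alt
    refine Finset.sum_congr rfl fun x hx => ?_
    rw [Finset.mem_filter] at hx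
    have h1 := hC x hx.1
    have h2 := hC _ (hσ x hx.1)
    rw [hθ x h1.1 h1.2.1, hθ (σ x) h2.1 h2.2.1]
    ring
  rw [e]
  exact h.alt C hC hσ

lemma sys_empty (θ σ : ℝ → ℝ) (f1 f2 KF : ℝ) : Sys θ f1 f2 f1 f2 KF 0 ∅ σ := by
  have hO : ∀ x, ¬ x ∈ Om f1 f2 f1 f2 (∅ : Finset ℝ) := by
    intro x hx
    exact hx.2.2.1 ⟨hx.1.le, hx.2.1.le⟩
  refine ⟨fun x hx => absurd hx (hO x), fun x hx => absurd hx (hO x), fun x hx => absurd hx (hO x),
    fun x hx => absurd hx (hO x), fun x hx => absurd hx (hO x), ?_⟩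
  intro C hC _
  have hC0 : C = ∅ := by
    rw [Finset.eq_empty_iff_forall_notMem]
    intro x hx
    exact hO x (hC x hx)
  subst hC0
  unfold Alt
  simp

lemma sys_nonneg {θ : ℝ → ℝ} {a b f1 f2 KF KT : ℝ} {Bad : Finset ℝ} {σ : ℝ → ℝ}
    (h : Sys θ a b f1 f2 KF KT Bad σ) : 0 ≤ KT := by
  have h1 := h.alt ∅ (by simp) (by simp)
  have h2 : Alt θ σ f1 f2 KF ∅ = 0 := by unfold Alt; simp
  rw [h2] at h1
  exact h1.2

section
variable {X : Dat} {A : ℕ → ℕ → Prop} {i' j' : ℕ} {c' : ℝ}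

lemma s_le_F : X.s i' ≤ F1 X i' j' c' := le_max_left _ _

lemma c_le_F : c' - X.s (j' + 1) ≤ F1 X i' j' c' := le_max_right _ _

lemma walk (hX : X.Good) (hi : i' ≤ j') (hj' : j' < X.n) {i j : ℕ} {c : ℝ}
    (h : Pth X A i' j' c' i j c) :
    i ≤ i' ∧ j' ≤ j ∧ i ≤ j ∧ j < X.n ∧ c - X.s (j + 1) ≤ F1 X i' j' c' := by
  induction h with
  | refl => exact ⟨le_refl _, le_refl _, hi, hj', c_le_F⟩
  | right i j p c θ hip hpj hj hA hc1 hc2 hD hθ _ ih =>
    obtain ⟨h1, h2, h3, h4, h5⟩ := ih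
    refine ⟨by omega, h2, by omega, hj, ?_⟩
    have h6 : X.s (i + 1) ≤ X.s i' := s_mono hX (by omega) (by omega)
    have h7 : X.s i' ≤ F1 X i' j' c' := s_le_F
    linarith
  | left i j p c θ hip hpj hj hA hc1 hc2 hD hθ _ ih =>
    obtain ⟨h1, h2, h3, h4, h5⟩ := ih
    refine ⟨h1, by omega, by omega, hj, ?_⟩
    have h6 := hX.s_lt j hj
    linarith

lemma walkG (hX : X.Good) (hi : i' ≤ j') (hj' : j' < X.n) {i j : ℕ} {c : ℝ}
    (h : Pth X A i' j' c' i j c) :
    ∀ a, a < X.s (i + 1) → X.s j < c - a → a ≤ F1 X i' j' c' → c' - F1 X i' j' c' ≤ c - a := by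
  induction h with
  | refl =>
    intro a _ _ h3
    linarith
  | right i j p c θ hip hpj hj hA hc1 hc2 hD hθ hP ih =>
    intro a ha1 ha2 ha3
    have hw := walk hX hi hj' hP
    have h1 : X.s p ≤ X.s i' := s_mono hX hw.1 (by omega)
    have h2 : X.s i' ≤ F1 X i' j' c' := s_le_F
    have h3 := ih (X.s p) (hX.s_lt p (by omega)) (by linarith) (by linarith)
    linarith
  | left i j p c θ hip hpj hj hA hc1 hc2 hD hθ hP ih =>
    intro a ha1 ha2 ha3
    have hw := walk hX hi hj' hP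
    have h0 := hX.s_lt p (by omega)
    have h3 := ih (c - X.s j) (by linarith) (by linarith) (by linarith [hw.2.2.2.2])
    have h4 : X.s (p + 1) ≤ X.s j := s_mono hX (by omega) (by omega)
    linarith

end

end U7h

open U7h

theorem t_sysPth (h1 : S_concatL) (h2 : S_concatR) (h3 : S_wrap) (h4 : S_sysDer) (h5 : S_range)
    (h6 : S_curv) : S_sysPth := by
  have _ := h5
  have _ := h6
  intro X hX A i' j' c' hij' hj' hc1' hc2' i j c hP
  have hsi' := hX.s_lt i' (by omega)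
  have hsj' := hX.s_lt j' (by omega)
  have hF1 : F1 X i' j' c' < X.s (i' + 1) := max_lt hsi' (by linarith)
  have hF2 : X.s j' < c' - F1 X i' j' c' := by
    have : F1 X i' j' c' < c' - X.s j' := max_lt (by linarith) (by linarith)
    linarith
  have hF12 : F1 X i' j' c' < c' - F1 X i' j' c' := by
    rcases hij'.lt_or_eq with h | h
    · have := s_mono hX (show i' + 1 ≤ j' by omega) (by omega)
      linarith
    · subst h
      unfold F1
      rcases max_cases (X.s i') (c' - X.s (i' + 1)) with ⟨e, _⟩ | ⟨e, _⟩ <;> rw [e] <;> linarith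
  induction hP with
  | refl =>
    intro a ha1 ha2 ha3 ha4
    have hK : Kap X i' j' - Kap X i' j' = 0 := sub_self _
    rw [hK]
    rcases ha4.lt_or_eq with h | h
    · have hw := h3 (dir X i' j') a (F1 X i' j' c') (c' - F1 X i' j' c') (c' - a) 0
        (∑ k ∈ Ioc i' j', (π - X.al k)) (F1 X i' j' c') (c' - F1 X i' j' c') (Kap X i' j') 0 ∅ id h
        hF12.le (by linarith) (by ring) (Or.inr ⟨le_refl _, hF12.le, le_refl _⟩)
        (fun x _ hx => dir_low hX hj'.le (by linarith))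
        (fun x hx _ => dir_high hX hj'.le (by linarith)) (le_refl _)
        (by unfold Kap; linarith) (sys_empty _ _ _ _ _)
      have e : π + ∑ k ∈ Ioc i' j', (π - X.al k) - 0 - Kap X i' j' = 0 := by unfold Kap; ring
      rw [e] at hw
      exact hw
    · rw [h]
      exact ⟨∅, id, sys_empty _ _ _ _ _⟩
  | right i j p c θ hip hpj hj hA hc1 hc2 hD hθ hP ih =>
    intro a ha1 ha2 ha3 ha4
    obtain ⟨hw1, hw2, hw3, hw4, hw5⟩ := walk hX hij' hj' hP
    have hsp := hX.s_lt p (by omega)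
    have hpi : X.s p ≤ X.s i' := s_mono hX hw1 (by omega)
    have hip' : X.s (i + 1) ≤ X.s p := s_mono hX (by omega) (by omega)
    have hpj' : X.s p ≤ X.s j := s_mono hX (by omega) (by omega)
    have hsF : X.s i' ≤ F1 X i' j' c' := s_le_F
    obtain ⟨Bad2, σ2, hS2⟩ := ih (X.s p) hsp (by linarith) (by linarith) (by linarith)
    obtain ⟨Bad1, σ1, hS1⟩ := (h4 X hX A).2 (i + 1) p θ hD
    have hG := walkG hX hij' hj' hP (X.s p) hsp (by linarith) (by linarith)
    have e1 : c - X.s (i + 1) + X.s p - X.s p = c - X.s (i + 1) := by ring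
    rw [e1] at hS2 hG
    have hT1 : Sys (dir X i j) (X.s (i + 1)) (X.s p) 1 0 0 (Kch X (i + 1) p θ) Bad1 σ1 :=
      sys_congr _ (fun x hx1 hx2 => dir_shift hX (by omega) (by omega) hpj hj.le
        (Or.inr hx1) (Or.inr (by linarith))) hS1
    have hT2 : Sys (dir X i j) (X.s p) (c - X.s (i + 1)) (F1 X i' j' c') (c' - F1 X i' j' c')
        (Kap X i' j') (Kap X p j - Kap X i' j') Bad2 σ2 :=
      sys_congr _ (fun x hx1 hx2 => dir_shift hX (by omega) (by omega) le_rfl hj.le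
        (Or.inr hx1) (Or.inl rfl)) hS2
    obtain ⟨Bad', σ', hS'⟩ := h2 (dir X i j) (X.s (i + 1)) (X.s p) (c - X.s (i + 1))
      (F1 X i' j' c') (c' - F1 X i' j' c') (Kap X i' j') _ _ Bad1 Bad2 σ1 σ2 hip' (by linarith)
      (Or.inr ⟨by linarith, hF12.le, hG⟩) hT1 hT2
    have hsum : ∑ k ∈ Ioc i j, (π - X.al k) =
        ∑ k ∈ Icc (i + 1) p, (π - X.al k) + ∑ k ∈ Ioc p j, (π - X.al k) := by
      rw [← Finset.sum_Ioc_consecutive _ (show i ≤ p by omega) hpj]
      congr 1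
      refine Finset.sum_congr ?_ (fun _ _ => rfl)
      ext k
      rw [Finset.mem_Ioc, Finset.mem_Icc, Nat.succ_le_iff]
    have hw := h3 (dir X i j) a (X.s (i + 1)) (c - X.s (i + 1)) (c - a) 0
        (∑ k ∈ Ioc i j, (π - X.al k)) (F1 X i' j' c') (c' - F1 X i' j' c') (Kap X i' j') _ Bad' σ'
        ha1 (by linarith) (by linarith) (by ring) (Or.inr ⟨by linarith, hF12.le, hG⟩)
        (fun x _ hx => dir_low hX hj.le (by linarith))
        (fun x hx _ => dir_high hX hj.le (by linarith)) (sys_nonneg hS')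
        (by
          have : Kch X (i + 1) p θ + (Kap X p j - Kap X i' j') =
            ∑ k ∈ Ioc i j, (π - X.al k) + θ - Kap X i' j' := by
            rw [hsum]; unfold Kch; unfold Kap; ring
          linarith) hS'
    have e : π + ∑ k ∈ Ioc i j, (π - X.al k) - 0 - Kap X i' j' = Kap X i j - Kap X i' j' := by
      unfold Kap; ring
    rw [e] at hw
    exact hw
  | left i j p c θ hip hpj hj hA hc1 hc2 hD hθ hP ih =>
    intro a ha1 ha2 ha3 ha4
    obtain ⟨hw1, hw2, hw3, hw4, hw5⟩ := walk hX hij' hj' hP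
    have hsp := hX.s_lt p (by omega)
    have hpj' : X.s (p + 1) ≤ X.s j := s_mono hX (by omega) (by omega)
    have hip' : X.s (i + 1) ≤ X.s (p + 1) := s_mono hX (by omega) (by omega)
    have hcF : c - X.s j ≤ F1 X i' j' c' := by linarith
    obtain ⟨Bad2, σ2, hS2⟩ := ih (c - X.s j) (by linarith) (by linarith) (by linarith) hcF
    obtain ⟨Bad1, σ1, hS1⟩ := (h4 X hX A).2 (p + 1) j θ hD
    have hG := walkG hX hij' hj' hP (c - X.s j) (by linarith) (by linarith) hcF
    have e1 : c - X.s j + X.s (p + 1) - (c - X.s j) = X.s (p + 1) := by ring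
    rw [e1] at hS2 hG
    have hT1 : Sys (dir X i j) (X.s (p + 1)) (X.s j) 1 0 0 (Kch X (p + 1) j θ) Bad1 σ1 :=
      sys_congr _ (fun x hx1 hx2 => dir_shift hX (by omega) (by omega) le_rfl hj.le
        (Or.inr hx1) (Or.inl rfl)) hS1
    have hT2 : Sys (dir X i j) (c - X.s j) (X.s (p + 1)) (F1 X i' j' c') (c' - F1 X i' j' c')
        (Kap X i' j') (Kap X i p - Kap X i' j') Bad2 σ2 :=
      sys_congr _ (fun x hx1 hx2 => dir_shift hX le_rfl hip (by omega) hj.le
        (Or.inl rfl) (Or.inr hx2.le)) hS2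
    obtain ⟨Bad', σ', hS'⟩ := h1 (dir X i j) (c - X.s j) (X.s (p + 1)) (X.s j)
      (F1 X i' j' c') (c' - F1 X i' j' c') (Kap X i' j') _ _ Bad2 Bad1 σ2 σ1 (by linarith) hpj'
      (Or.inr ⟨hcF, hF12.le, hG⟩) hT2 hT1
    have hsum : ∑ k ∈ Ioc i j, (π - X.al k) =
        ∑ k ∈ Ioc i p, (π - X.al k) + ∑ k ∈ Icc (p + 1) j, (π - X.al k) := by
      rw [← Finset.sum_Ioc_consecutive _ hip (show p ≤ j by omega)]
      congr 1
      refine Finset.sum_congr ?_ (fun _ _ => rfl)
      ext k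
      rw [Finset.mem_Ioc, Finset.mem_Icc, Nat.succ_le_iff]
    have hw := h3 (dir X i j) a (c - X.s j) (X.s j) (c - a) 0
        (∑ k ∈ Ioc i j, (π - X.al k)) (F1 X i' j' c') (c' - F1 X i' j' c') (Kap X i' j') _ Bad' σ'
        (by linarith) (by linarith) ha2 (by ring) (Or.inr ⟨hcF, hF12.le, by linarith⟩)
        (fun x _ hx => dir_low hX hj.le (by linarith))
        (fun x hx _ => dir_high hX hj.le (by linarith)) (sys_nonneg hS')
        (by
          have : Kap X i p - Kap X i' j' + Kch X (p + 1) j θ =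
            ∑ k ∈ Ioc i j, (π - X.al k) + θ - Kap X i' j' := by
            rw [hsum]; unfold Kch; unfold Kap; ring
          linarith) hS'
    have e : π + ∑ k ∈ Ioc i j, (π - X.al k) - 0 - Kap X i' j' = Kap X i j - Kap X i' j' := by
      unfold Kap; ring
    rw [e] at hw
    exact hw

end Pool.Agent.H586R2.AF
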