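import Pool.Agent.H586R2.AF.Stm

set_option autoImplicit false

namespace Pool.Agent.H586R2.AF

open Real Finset

namespace U8

theorem s_mono (X : Dat) (hX : X.Good) (k l : ℕ) (hkl : k ≤ l) (hl : l ≤ X.n) : X.s k ≤ X.s l := by
  induction l, hkl using Nat.le_induction with
  | base => exact le_rfl
  | succ l hkl ih => exact (ih (by omega)).trans (hX.s_lt l (by omega)).le

theorem pth_lt (X : Dat) (A : ℕ → ℕ → Prop) (i' j' : ℕ) (c' : ℝ) (hj' : j' < X.n) (i j : ℕ) (c : ℝ)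
    (h : Pth X A i' j' c' i j c) : j < X.n := by
  cases h with
  | refl => exact hj'
  | right => assumption
  | left => assumption

theorem dir_const (X : Dat) (hX : X.Good) (i j : ℕ) (hj : j ≤ X.n) (x y : ℝ) (hx : X.s j < x)
    (hy : X.s j < y) : dir X i j x = dir X i j y := by
  unfold dir
  have h : ∀ z, X.s j < z → (Ioc i j).filter (fun k => X.s k < z) = Ioc i j := by
    intro z hz
    rw [filter_eq_self]
    intro k hk
    rw [mem_Ioc] at hk
    exact lt_of_le_of_lt (s_mono X hX k j hk.2 hj) hz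
  have e1 := h x hx
  have e2 := h y hy
  simp only [e1, e2]

theorem key (h1 : S_rec) (h2 : S_par) (h3 : S_sysPth) (X : Dat) (hX : X.Good) (A : ℕ → ℕ → Prop)
    (i' j' : ℕ) (c' : ℝ) (hij : i' ≤ j') (hj' : j' < X.n) (hc1 : X.s i' + X.s j' < c')
    (hc2 : c' < X.s (i' + 1) + X.s (j' + 1)) (i j : ℕ) (c1 c2 : ℝ) (hp1 : Pth X A i' j' c' i j c1)
    (hp2 : Pth X A i' j' c' i j c2) (hK : Kap X i j - Kap X i' j' < π) (hlt : c1 < c2) : False := by
  have hj : j < X.n := pth_lt X A i' j' c' hj' i j c1 hp1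
  have hs1 : X.s i' ≤ X.s j' := s_mono X hX i' j' hij hj'.le
  have hs2 : X.s (i' + 1) ≤ X.s (j' + 1) := s_mono X hX (i' + 1) (j' + 1) (by omega) (by omega)
  have hF : 2 * F1 X i' j' c' ≤ c' := by
    unfold F1
    rcases max_cases (X.s i') (c' - X.s (j' + 1)) with ⟨h, _⟩ | ⟨h, _⟩ <;> rw [h] <;> linarith
  obtain ⟨a, ha1, ha2, ha3, ha4, ha5⟩ : ∃ a : ℝ, a < X.s (i + 1) ∧ a < c1 - X.s j ∧ 2 * a < c1 ∧
      a < F1 X i' j' c' ∧ a < c1 - (c' - F1 X i' j' c') := by
    refine ⟨min (min (X.s (i + 1)) (c1 - X.s j)) (min (c1 / 2) (min (F1 X i' j' c')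
      (c1 - (c' - F1 X i' j' c')))) - 1, ?_, ?_, ?_, ?_, ?_⟩
    · have := min_le_left (min (X.s (i + 1)) (c1 - X.s j)) (min (c1 / 2) (min (F1 X i' j' c')
        (c1 - (c' - F1 X i' j' c'))))
      have := min_le_left (X.s (i + 1)) (c1 - X.s j)
      linarith
    · have := min_le_left (min (X.s (i + 1)) (c1 - X.s j)) (min (c1 / 2) (min (F1 X i' j' c')
        (c1 - (c' - F1 X i' j' c'))))
      have := min_le_right (X.s (i + 1)) (c1 - X.s j)
      linarith
    · have := min_le_right (min (X.s (i + 1)) (c1 - X.s j)) (min (c1 / 2) (min (F1 X i' j' c')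
        (c1 - (c' - F1 X i' j' c'))))
      have := min_le_left (c1 / 2) (min (F1 X i' j' c') (c1 - (c' - F1 X i' j' c')))
      linarith
    · have := min_le_right (min (X.s (i + 1)) (c1 - X.s j)) (min (c1 / 2) (min (F1 X i' j' c')
        (c1 - (c' - F1 X i' j' c'))))
      have := min_le_right (c1 / 2) (min (F1 X i' j' c') (c1 - (c' - F1 X i' j' c')))
      have := min_le_left (F1 X i' j' c') (c1 - (c' - F1 X i' j' c'))
      linarith
    · have := min_le_right (min (X.s (i + 1)) (c1 - X.s j)) (min (c1 / 2) (min (F1 X i' j' c')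
        (c1 - (c' - F1 X i' j' c'))))
      have := min_le_right (c1 / 2) (min (F1 X i' j' c') (c1 - (c' - F1 X i' j' c')))
      have := min_le_right (F1 X i' j' c') (c1 - (c' - F1 X i' j' c'))
      linarith
  obtain ⟨Bad1, σ1, hσ1⟩ := h3 X hX A i' j' c' hij hj' hc1 hc2 i j c1 hp1 a ha1 (by linarith)
    (by linarith) ha4.le
  obtain ⟨Bad2, σ2, hσ2⟩ := h3 X hX A i' j' c' hij hj' hc1 hc2 i j c2 hp2 a ha1 (by linarith)
    (by linarith) ha4.le
  obtain ⟨C, u1, u2, hC⟩ := h1 (dir X i j) a (c1 - a) (c2 - a) (F1 X i' j' c') (c' - F1 X i' j' c')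
    (Kap X i' j') _ _ Bad1 Bad2 σ1 σ2 ha4 (by linarith) (by linarith) (by linarith) hσ1 hσ2
  refine h2 (dir X i j) a (c1 - a) (c2 - a) (F1 X i' j' c') (c' - F1 X i' j' c')
    (Kap X i' j') _ _ Bad1 Bad2 σ1 σ2 ha4 (by linarith) (by linarith) (by linarith) hσ1 hσ2 hK hK
    ?_ C u1 u2 hC
  intro x y hx _ hy _
  exact dir_const X hX i j hj.le x y (by linarith) (by linarith)

end U8

theorem t_uniq (h1 : S_rec) (h2 : S_par) (h3 : S_sysPth) : S_uniq := by
  intro X hX A i' j' c' hij hj' hc1 hc2 i j c1 c2 hp1 hp2 hK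
  rcases lt_trichotomy c1 c2 with h | h | h
  · exact (U8.key h1 h2 h3 X hX A i' j' c' hij hj' hc1 hc2 i j c1 c2 hp1 hp2 hK h).elim
  · exact h
  · exact (U8.key h1 h2 h3 X hX A i' j' c' hij hj' hc1 hc2 i j c2 c1 hp2 hp1 hK h).elim

end Pool.Agent.H586R2.AF
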