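import Pool.Agent.H586R2.AF.Asm
import Pool.Agent.H586R2.AF.T_A2
import Pool.Agent.H586R2.AF.T_A3
import Pool.Agent.H586R2.AF.T_A5
import Pool.Agent.H586R2.AF.T_A6
import Pool.Agent.H586R2.AF.T_A7
import Pool.Agent.H586R2.AF.T_A8
import Pool.Agent.H586R2.AF.T_C1
import Pool.Agent.H586R2.AF.T_C5
import Pool.Agent.H586R2.AF.T_C6
import Pool.Agent.H586R2.AF.T_C8
import Pool.Agent.H586R2.AF.T_DET
import Pool.Agent.H586R2.AF.T_G1
import Pool.Agent.H586R2.AF.T_G2
import Pool.Agent.H586R2.AF.T_G3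
import Pool.Agent.H586R2.AF.T_G4
import Pool.Agent.H586R2.AF.T_L1a
import Pool.Agent.H586R2.AF.T_L1b
import Pool.Agent.H586R2.AF.T_L2
import Pool.Agent.H586R2.AF.T_L3a
import Pool.Agent.H586R2.AF.T_L3b
import Pool.Agent.H586R2.AF.T_L3c
import Pool.Agent.H586R2.AF.T_M10
import Pool.Agent.H586R2.AF.T_M11
import Pool.Agent.H586R2.AF.T_M4
import Pool.Agent.H586R2.AF.T_M5
import Pool.Agent.H586R2.AF.T_M6
import Pool.Agent.H586R2.AF.T_M7
import Pool.Agent.H586R2.AF.T_M8
import Pool.Agent.H586R2.AF.T_M9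
import Pool.Agent.H586R2.AF.T_U1
import Pool.Agent.H586R2.AF.T_U2
import Pool.Agent.H586R2.AF.T_U3
import Pool.Agent.H586R2.AF.T_U5
import Pool.Agent.H586R2.AF.T_U6
import Pool.Agent.H586R2.AF.T_U7
import Pool.Agent.H586R2.AF.T_U8

set_option autoImplicit false

namespace Pool.Agent.H586R2.AF

open Real

theorem lib1 : PTLib where
  id := pt_id
  comp := pt_comp
  pair := pt_pair
  fst := pt_fst
  snd := pt_snd
  ite := pt_ite
  cNat := pt_cNat
  cInt := pt_cInt
  cBool := pt_cBool
  cUnit := pt_cUnit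
  cNil := pt_cNil
  cNone := pt_cNone
  add := pt_add
  sub := pt_sub
  mul := pt_mul
  div := pt_div
  sqrt := pt_sqrt
  pos := pt_pos
  cons := pt_cons
  casesList := pt_casesList
  some := pt_some
  casesOpt := pt_casesOpt
  succ := pt_succ
  casesNat := pt_casesNat
  foldl := pt_foldl

theorem lib2 : S_lib2 := fun L =>
  { map := pt2_map L
    filterMap := pt2_filterMap L
    filter := pt2_filter L
    flatMap := pt2_flatMap L
    any := pt2_any L
    find := pt2_find L
    append := pt2_append L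
    reverse := pt2_reverse L
    length := pt2_length L
    getD := pt2_getD L
    take := pt2_take L
    range := pt2_range L
    nadd := pt2_nadd L
    nsub := pt2_nsub L
    nmul := pt2_nmul L
    npow := pt2_npow L
    neq := pt2_neq L
    nle := pt2_nle L
    nlt := pt2_nlt L
    neg := pt2_neg L
    rlt := pt2_rlt L
    rle := pt2_rle L
    rmin := pt2_rmin L
    rmax := pt2_rmax L
    and := pt2_and L
    or := pt2_or L
    not := pt2_not L }

theorem u_sysDer : S_sysDer := t_sysDer t_concatL t_concatR t_wrap t_range t_curv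

theorem u_uniq : S_uniq :=
  t_uniq t_rec t_par (t_sysPth t_concatL t_concatR t_wrap u_sysDer t_range t_curv)

theorem u_len : S_len := t_len t_split t_open (t_count u_uniq t_curv t_range)

theorem u_table : S_table :=
  t_table (t_entryA t_range t_ang t_ivClip)
    (t_entryI t_range t_ang t_ivUnion t_ivClip (t_closed t_range t_app) u_len) t_ang

open Classical in
theorem final : ∃ (p : Prog) (C k : ℕ), ∀ P : List (ℝ × ℝ), IsPolygon P →
    ∃ t : ℕ, t ≤ C * P.length ^ k ∧
      ∀ (y : D) (t' : ℕ), Ev p (enc P) y t' ↔ (t' = t ∧ y = if Foldable P then D.tt else D.nil) := by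
  obtain ⟨p, C, k, h⟩ := main lib1 lib2 t_ptAng t_ptIv t_ptLook t_ptEntryA t_ptEntryI t_ptTable
    t_ptInput t_ptAlgo t_sphere (t_glu2der t_datGood) t_der2glu t_prune u_table t_input t_datGood
  refine ⟨p, C, k, fun P hP => ?_⟩
  obtain ⟨t, ht, h2⟩ := h P hP
  refine ⟨t, ht, fun y t' => ?_⟩
  rcases h2 with ⟨hf, he⟩ | ⟨hf, he⟩
  · rw [if_pos hf]
    constructor
    · intro h3
      obtain ⟨h4, h5⟩ := ev_det h3 he
      exact ⟨h5, h4⟩
    · rintro ⟨rfl, rfl⟩
      exact he
  · rw [if_neg hf]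
    constructor
    · intro h3
      obtain ⟨h4, h5⟩ := ev_det h3 he
      exact ⟨h5, h4⟩
    · rintro ⟨rfl, rfl⟩
      exact he

end Pool.Agent.H586R2.AF
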