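import Mathlib

/-!
# Simple polygons and Alexandrov gluings
-/

set_option autoImplicit false

namespace Pool.Agent.H586R2.AF

open Real Finset

/-- the `k`-th vertex of the polygon given by the list `P` (indices modulo the length), as a
complex number -/
noncomputable def vtx (P : List (ℝ × ℝ)) (k : ℕ) : ℂ :=
  ⟨(P.getD (k % P.length) (0, 0)).1, (P.getD (k % P.length) (0, 0)).2⟩

/-- the interior angle at vertex `k` of a polygon listed counterclockwise: the angle in `[0, 2π)`
through which the outgoing edge has to be turned counterclockwise to reach the incoming edge -/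
noncomputable def intAngle (P : List (ℝ × ℝ)) (k : ℕ) : ℝ :=
  toIcoMod Real.two_pi_pos 0
    (Complex.arg ((vtx P (k + (P.length - 1)) - vtx P k) / (vtx P (k + 1) - vtx P k)))

/-- `P` lists the vertices of a simple polygon in counterclockwise order: at least three vertices;
two different edges meet only if they are consecutive, and then only in their common vertex;
the sum of the exterior angles is `+2π` (for the clockwise order it would be `-2π`). -/
structure IsPolygon (P : List (ℝ × ℝ)) : Prop where
  three : 3 ≤ P.length
  ne : ∀ k, vtx P k ≠ vtx P (k + 1)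
  disj : ∀ k l, k < l → l < P.length → l ≠ k + 1 → ¬ (k = 0 ∧ l + 1 = P.length) →
    Disjoint (segment ℝ (vtx P k) (vtx P (k + 1))) (segment ℝ (vtx P l) (vtx P (l + 1)))
  adj : ∀ k, segment ℝ (vtx P k) (vtx P (k + 1)) ∩ segment ℝ (vtx P (k + 1)) (vtx P (k + 2)) =
    {vtx P (k + 1)}
  ccw : ∑ k ∈ range P.length, (π - intAngle P k) = 2 * π

/-- position of vertex `k` on the boundary, measured by arc length from vertex `0` -/
noncomputable def spos (P : List (ℝ × ℝ)) (k : ℕ) : ℝ :=
  ∑ l ∈ range k, ‖vtx P (l + 1) - vtx P l‖

open Classical in
/-- the polygon angle at the boundary point at arc length `x` (`0 ≤ x <` perimeter) -/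
noncomputable def angAt (P : List (ℝ × ℝ)) (x : ℝ) : ℝ :=
  if h : ∃ k, k < P.length ∧ spos P k = x then intAngle P h.choose else π

/-- A gluing of `P`: the boundary is cut at the points `q 0 = 0 < q 1 < ... < q (2N) =` perimeter
(among them all vertices) into `2N` segments, which are matched in pairs of equal length by the
fixed-point-free involution `m`.  Matched segments are glued reversing the orientation of the
boundary: the beginning of segment `k` is glued to the end of segment `m k`, which is the
beginning of segment `m k + 1` (cyclically). -/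
structure Gluing (P : List (ℝ × ℝ)) (N : ℕ) where
  q : ℕ → ℝ
  m : Equiv.Perm (Fin (2 * N))
  q_zero : q 0 = 0
  q_last : q (2 * N) = spos P P.length
  q_lt : ∀ k, k < 2 * N → q k < q (k + 1)
  q_vertex : ∀ i, i < P.length → ∃ k, k < 2 * N ∧ q k = spos P i
  m_invol : ∀ k, m (m k) = k
  m_ne : ∀ k, m k ≠ k
  m_len : ∀ k : Fin (2 * N), q ((m k : ℕ) + 1) - q (m k) = q ((k : ℕ) + 1) - q k

/-- the permutation of the cut points whose cycles are the classes of identified cut points:
`k ↦ m k + 1` (cyclically) -/
def Gluing.rho {P : List (ℝ × ℝ)} {N : ℕ} (G : Gluing P N) : Equiv.Perm (Fin (2 * N)) :=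
  G.m.trans (finRotate (2 * N))

open Classical in
/-- the quotient surface is a sphere: it is a closed orientable surface with one face, `N` edges
and as many vertices as there are classes of cut points, so it is a sphere iff the Euler
characteristic is `2` -/
def Gluing.Sphere {P : List (ℝ × ℝ)} {N : ℕ} (G : Gluing P N) : Prop :=
  (Fintype.card (Quotient (Equiv.Perm.SameCycle.setoid G.rho)) : ℤ) - N + 1 = 2

open Classical in
/-- at every point of the quotient the polygon angles add up to at most `2π` (points that are not
cut points are inner points of two matched segments, with angle sum `π + π`) -/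
def Gluing.AngleCond {P : List (ℝ × ℝ)} {N : ℕ} (G : Gluing P N) : Prop :=
  ∀ k : Fin (2 * N), ∑ l ∈ univ.filter (fun l => G.rho.SameCycle k l), angAt P (G.q l) ≤ 2 * π

/-- `P` has an Alexandrov gluing -/
def Foldable (P : List (ℝ × ℝ)) : Prop :=
  ∃ (N : ℕ) (G : Gluing P N), 1 ≤ N ∧ G.Sphere ∧ G.AngleCond

end Pool.Agent.H586R2.AF
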