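import Pool.Agent.H586R2.AF.Der

/-!
# Partner functions of glued arcs and their alternating sums
-/

set_option autoImplicit false

namespace Pool.Agent.H586R2.AF

open Real Finset

/-- the generic points of the window `(a, b)` outside the closed arc `[f1, f2]` -/
def Om (a b f1 f2 : ℝ) (Bad : Finset ℝ) : Set ℝ :=
  {x | a < x ∧ x < b ∧ ¬ (f1 ≤ x ∧ x ≤ f2) ∧ x ∉ Bad}

open Classical in
/-- alternating sum of the curvatures enclosed by the pairs `(x, σ x)`, `x < σ x`, of `C`; the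
curvature is computed from the direction function `θ`; pairs around the arc `[f1, f2]` are
diminished by `KF` -/
noncomputable def Alt (θ : ℝ → ℝ) (σ : ℝ → ℝ) (f1 f2 KF : ℝ) (C : Finset ℝ) : ℝ :=
  ∑ x ∈ C.filter (fun x => x < σ x), (-1 : ℝ) ^ ((C.filter (fun y => y < x)).card) *
    (π + θ (σ x) - θ x - if x < f1 ∧ f2 < σ x then KF else 0)

/-- `σ` is the partner function of a gluing of the window `(a, b)` without `[f1, f2]`: an
involution without fixed points, locally a reflection, non-crossing, and the alternating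
curvature sums of finite invariant sets are between `0` and `KT` -/
structure Sys (θ : ℝ → ℝ) (a b f1 f2 KF KT : ℝ) (Bad : Finset ℝ) (σ : ℝ → ℝ) : Prop where
  maps : ∀ x ∈ Om a b f1 f2 Bad, σ x ∈ Om a b f1 f2 Bad
  inv : ∀ x ∈ Om a b f1 f2 Bad, σ (σ x) = x
  ne : ∀ x ∈ Om a b f1 f2 Bad, σ x ≠ x
  loc : ∀ x ∈ Om a b f1 f2 Bad, ∀ᶠ y in nhds x, σ y = σ x + x - y
  nc : ∀ x ∈ Om a b f1 f2 Bad, ∀ y ∈ Om a b f1 f2 Bad, x < y → y < σ x → x < σ y ∧ σ y < σ x
  alt : ∀ C : Finset ℝ, (∀ x ∈ C, x ∈ Om a b f1 f2 Bad) → (∀ x ∈ C, σ x ∈ C) →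
    0 ≤ Alt θ σ f1 f2 KF C ∧ Alt θ σ f1 f2 KF C ≤ KT

open Classical in
/-- direction function of the boundary with the vertices `i+1, ..., j` -/
noncomputable def dir (X : Dat) (i j : ℕ) (x : ℝ) : ℝ :=
  ∑ k ∈ (Ioc i j).filter (fun k => X.s k < x), (π - X.al k)

end Pool.Agent.H586R2.AF
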