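import Pool.Agent.H586R2.AF.Model
import Pool.Agent.H586R2.AF.Geo
import Pool.Agent.H586R2.AF.Der
import Pool.Agent.H586R2.AF.Sys
import Pool.Agent.H586R2.AF.Algo

/-!
# Statements of all tasks
-/

set_option autoImplicit false

namespace Pool.Agent.H586R2.AF

open Real Finset

/-! ## Part U: uniqueness (meander argument) -/

/-- conditions on the finite set `C` -/
structure CloC (A B1 B2 f1 f2 : ℝ) (Bad1 Bad2 : Finset ℝ) (σ1 σ2 : ℝ → ℝ) (C : Finset ℝ)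
    (u1 u2 : ℝ) : Prop where
  m1 : u1 ∈ C
  m2 : u2 ∈ C
  lt : u1 < u2
  lo : B1 < u1
  hi : u2 < B2
  om : ∀ x ∈ C, x ∈ Om A B2 f1 f2 Bad2
  cl : ∀ x ∈ C, σ2 x ∈ C
  cl1 : ∀ x ∈ C, x ≠ u1 → x ≠ u2 → x ∈ Om A B1 f1 f2 Bad1 ∧ σ1 x ∈ C ∧ σ1 x ≠ u1 ∧ σ1 x ≠ u2

def S_rec : Prop :=
  ∀ (θ : ℝ → ℝ) (A B1 B2 f1 f2 KF K1 K2 : ℝ) (Bad1 Bad2 : Finset ℝ) (σ1 σ2 : ℝ → ℝ),
    A < f1 → f1 ≤ f2 → f2 < B1 → B1 < B2 →
    Sys θ A B1 f1 f2 KF K1 Bad1 σ1 → Sys θ A B2 f1 f2 KF K2 Bad2 σ2 →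
    ∃ (C : Finset ℝ) (u1 u2 : ℝ), CloC A B1 B2 f1 f2 Bad1 Bad2 σ1 σ2 C u1 u2

def S_par : Prop :=
  ∀ (θ : ℝ → ℝ) (A B1 B2 f1 f2 KF K1 K2 : ℝ) (Bad1 Bad2 : Finset ℝ) (σ1 σ2 : ℝ → ℝ),
    A < f1 → f1 ≤ f2 → f2 < B1 → B1 < B2 →
    Sys θ A B1 f1 f2 KF K1 Bad1 σ1 → Sys θ A B2 f1 f2 KF K2 Bad2 σ2 →
    K1 < π → K2 < π →
    (∀ x y, B1 < x → x < B2 → B1 < y → y < B2 → θ x = θ y) →
    ∀ (C : Finset ℝ) (u1 u2 : ℝ), CloC A B1 B2 f1 f2 Bad1 Bad2 σ1 σ2 C u1 u2 → False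

def S_concatL : Prop :=
  ∀ (θ : ℝ → ℝ) (a b c f1 f2 KF K1 K2 : ℝ) (Bad1 Bad2 : Finset ℝ) (σ1 σ2 : ℝ → ℝ),
    a ≤ b → b ≤ c → ((f2 < f1 ∧ KF = 0) ∨ (a ≤ f1 ∧ f1 ≤ f2 ∧ f2 ≤ b)) →
    Sys θ a b f1 f2 KF K1 Bad1 σ1 → Sys θ b c 1 0 0 K2 Bad2 σ2 →
    ∃ (Bad : Finset ℝ) (σ : ℝ → ℝ), Sys θ a c f1 f2 KF (K1 + K2) Bad σ

def S_concatR : Prop :=
  ∀ (θ : ℝ → ℝ) (a b c f1 f2 KF K1 K2 : ℝ) (Bad1 Bad2 : Finset ℝ) (σ1 σ2 : ℝ → ℝ),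
    a ≤ b → b ≤ c → ((f2 < f1 ∧ KF = 0) ∨ (b ≤ f1 ∧ f1 ≤ f2 ∧ f2 ≤ c)) →
    Sys θ a b 1 0 0 K1 Bad1 σ1 → Sys θ b c f1 f2 KF K2 Bad2 σ2 →
    ∃ (Bad : Finset ℝ) (σ : ℝ → ℝ), Sys θ a c f1 f2 KF (K1 + K2) Bad σ

def S_wrap : Prop :=
  ∀ (θ : ℝ → ℝ) (a a' b' b ta tb f1 f2 KF K' : ℝ) (Bad' : Finset ℝ) (σ' : ℝ → ℝ),
    a < a' → a' ≤ b' → b' < b → b - b' = a' - a →
    ((f2 < f1 ∧ KF = 0) ∨ (a' ≤ f1 ∧ f1 ≤ f2 ∧ f2 ≤ b')) →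
    (∀ x, a < x → x < a' → θ x = ta) → (∀ x, b' < x → x < b → θ x = tb) →
    0 ≤ K' → K' ≤ π + tb - ta - KF → Sys θ a' b' f1 f2 KF K' Bad' σ' →
    ∃ (Bad : Finset ℝ) (σ : ℝ → ℝ), Sys θ a b f1 f2 KF (π + tb - ta - KF) Bad σ

/-- every derivation gives systems on all windows -/
def S_sysDer : Prop :=
  ∀ (X : Dat), X.Good → ∀ (A : ℕ → ℕ → Prop),
    (∀ i j c, Der X A (.sg i j c) → ∀ a, a < X.s (i + 1) → X.s j < c - a → a < c - a →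
      ∃ (Bad : Finset ℝ) (σ : ℝ → ℝ), Sys (dir X i j) a (c - a) 1 0 0 (Kap X i j) Bad σ) ∧
    (∀ p q θ, Der X A (.ch p q θ) →
      ∃ (Bad : Finset ℝ) (σ : ℝ → ℝ), Sys (dir X p q) (X.s p) (X.s q) 1 0 0 (Kch X p q θ) Bad σ)

/-- left end of the removed inner arc -/
noncomputable def F1 (X : Dat) (i' j' : ℕ) (c' : ℝ) : ℝ := max (X.s i') (c' - X.s (j' + 1))

/-- every walk gives systems on all windows, the inner arc removed -/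
def S_sysPth : Prop :=
  ∀ (X : Dat), X.Good → ∀ (A : ℕ → ℕ → Prop) (i' j' : ℕ) (c' : ℝ), i' ≤ j' → j' < X.n →
    X.s i' + X.s j' < c' → c' < X.s (i' + 1) + X.s (j' + 1) →
    ∀ (i j : ℕ) (c : ℝ), Pth X A i' j' c' i j c →
    ∀ a, a < X.s (i + 1) → X.s j < c - a → a < c - a → a ≤ F1 X i' j' c' →
      ∃ (Bad : Finset ℝ) (σ : ℝ → ℝ), Sys (dir X i j) a (c - a) (F1 X i' j' c')
        (c' - F1 X i' j' c') (Kap X i' j') (Kap X i j - Kap X i' j') Bad σ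

/-- uniqueness of the outer sum in a region of curvature less than `π` -/
def S_uniq : Prop :=
  ∀ (X : Dat), X.Good → ∀ (A : ℕ → ℕ → Prop) (i' j' : ℕ) (c' : ℝ), i' ≤ j' → j' < X.n →
    X.s i' + X.s j' < c' → c' < X.s (i' + 1) + X.s (j' + 1) →
    ∀ (i j : ℕ) (c1 c2 : ℝ), Pth X A i' j' c' i j c1 → Pth X A i' j' c' i j c2 →
      Kap X i j - Kap X i' j' < π → c1 = c2

/-! ## Part C: closedness and counting -/

def S_range : Prop :=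
  ∀ (X : Dat), X.Good → ∀ (A : ℕ → ℕ → Prop),
    (∀ i j c, Der X A (.sg i j c) → i ≤ j ∧ j < X.n ∧ A i j ∧ X.s i + X.s j < c ∧
      c < X.s (i + 1) + X.s (j + 1)) ∧
    (∀ p q θ, Der X A (.ch p q θ) → p ≤ q ∧ q ≤ X.n ∧ X.al p ≤ θ ∧ X.al q ≤ θ ∧
      (p < q → X.al p + X.al q ≤ θ))

def S_split : Prop :=
  ∀ (X : Dat), X.Good → ∀ (A : ℕ → ℕ → Prop) (i j : ℕ) (c : ℝ),
    Der X A (.sg i j c) ↔ Rg X A i j c ∨ Fx X A i j c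

def S_open : Prop :=
  ∀ (X : Dat), X.Good → ∀ (A : ℕ → ℕ → Prop) (i j : ℕ) (c : ℝ),
    Fx X A i j c → ∃ ε, 0 < ε ∧ ∀ c', |c' - c| < ε → Fx X A i j c'

/-- appending chains -/
def S_app : Prop :=
  ∀ (X : Dat), X.Good → ∀ (A : ℕ → ℕ → Prop) (a b b' c : ℕ) (θ θ' : ℝ), b ≤ b' →
    Der X A (.ch a b θ) → Der X A (.sg b b' (X.s b + X.s (b' + 1))) →
    Der X A (.ch (b' + 1) c θ') → Der X A (.ch a c (θ + θ'))

/-- the set of glued sums is closed in its open domain -/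
def S_closed : Prop :=
  ∀ (X : Dat), X.Good → ∀ (A : ℕ → ℕ → Prop) (i j : ℕ) (c : ℝ), i ≤ j → j < X.n →
    X.s i + X.s j < c → c < X.s (i + 1) + X.s (j + 1) →
    c ∈ closure {c' | Der X A (.sg i j c')} → Der X A (.sg i j c)

def S_curv : Prop :=
  ∀ (X : Dat), X.Good → ∀ (A : ℕ → ℕ → Prop),
    (∀ i j c, Der X A (.sg i j c) → 0 ≤ Kap X i j) ∧
    (∀ p q θ, Der X A (.ch p q θ) → 0 ≤ Kch X p q θ)

def S_prune : Prop :=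
  ∀ (X : Dat), X.Good →
    (∀ i j c, Der X All (.sg i j c) → Kap X i j ≤ 4 * π → Der X (Bd X) (.sg i j c)) ∧
    (∀ p q θ, Der X All (.ch p q θ) → Kch X p q θ ≤ 4 * π → Der X (Bd X) (.ch p q θ))

/-- number of rigid sums -/
def S_count : Prop :=
  ∀ (X : Dat), X.Good → ∀ i j, i < j → j < X.n →
    {c | Rg X (Bd X) i j c}.Finite ∧ {c | Rg X (Bd X) i j c}.ncard ≤ (X.n + 1) ^ 25

/-! ## Part G: gluings and derivations -/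

/-- the abstract data of a polygon -/
noncomputable def datOf (P : List (ℝ × ℝ)) : Dat :=
  ⟨P.length, spos P, fun k => if k < P.length then intAngle P k else 0⟩

def S_datGood : Prop := ∀ P : List (ℝ × ℝ), IsPolygon P → (datOf P).Good

/-- no two matched pairs of segments cross -/
def NonCr {P : List (ℝ × ℝ)} {N : ℕ} (G : Gluing P N) : Prop :=
  ∀ k l : Fin (2 * N), k < l → l < G.m k → G.m k < G.m l → False

def S_sphere : Prop :=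
  ∀ (P : List (ℝ × ℝ)) (N : ℕ) (G : Gluing P N), 1 ≤ N → (G.Sphere ↔ NonCr G)

def S_glu2der : Prop :=
  ∀ (P : List (ℝ × ℝ)), IsPolygon P → ∀ (N : ℕ) (G : Gluing P N), 1 ≤ N → NonCr G →
    G.AngleCond → ∃ θ, Der (datOf P) All (.ch 0 P.length θ) ∧ θ ≤ 2 * π

def S_der2glu : Prop :=
  ∀ (P : List (ℝ × ℝ)), IsPolygon P → ∀ θ, Der (datOf P) All (.ch 0 P.length θ) → θ ≤ 2 * π →
    ∃ (N : ℕ) (G : Gluing P N), 1 ≤ N ∧ NonCr G ∧ G.AngleCond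

/-! ## Part A: correctness of the algorithm -/

/-- the lists `S`, `al` represent the data -/
def Rep (X : Dat) (S : List ℝ) (al : List Ang) : Prop :=
  (∀ k, k ≤ X.n → S.getD k 0 = X.s k) ∧ (∀ k, k ≤ X.n → AngOK (al.getD k ang0) (X.al k))

def S_input : Prop :=
  ∀ P : List (ℝ × ℝ), IsPolygon P → Rep (datOf P) (posL P) (angL P)

def S_ang : Prop :=
  (∀ (x y : Ang) (v w : ℝ), AngOK x v → AngOK y w → AngOK (angAdd x y) (v + w)) ∧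
  (∀ (x y : Ang) (v w : ℝ), AngOK x v → AngOK y w → (angLe x y = true ↔ v ≤ w)) ∧
  (∀ (x : Ang) (v : ℝ), AngOK x v → ∀ m : ℕ, (m ≤ x.1 ↔ m * π ≤ v)) ∧
  AngOK ang0 0 ∧ AngOK angPi π ∧ AngOK ang2Pi (2 * π)

/-- a list of pairwise disjoint closed intervals -/
def DisjL (L : IS) : Prop :=
  (∀ x ∈ L, x.1 ≤ x.2) ∧ L.Pairwise (fun x y => x.2 < y.1 ∨ y.2 < x.1)

/-- membership in the union -/
def InL (c : ℝ) (L : IS) : Prop := ∃ x ∈ L, x.1 ≤ c ∧ c ≤ x.2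

/-- all intervals lie in `[A, B]` and meet `(A, B)` -/
def WinL (A B : ℝ) (L : IS) : Prop := ∀ x ∈ L, A ≤ x.1 ∧ x.2 ≤ B ∧ x.1 < B ∧ A < x.2

def S_ivUnion : Prop :=
  ∀ (L M : IS), DisjL L → (∀ x ∈ M, x.1 ≤ x.2) →
    DisjL (ivUnion L M) ∧ (∀ c, InL c (ivUnion L M) ↔ InL c L ∨ InL c M) ∧
    (∀ A B, WinL A B L → WinL A B M → WinL A B (ivUnion L M)) ∧
    (ivUnion L M).length ≤ L.length + M.length

def S_ivClip : Prop :=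
  ∀ (A B sh : ℝ) (L : IS), A < B → (∀ x ∈ L, x.1 ≤ x.2) →
    (∀ x ∈ ivClip A B sh L, x.1 ≤ x.2) ∧ WinL A B (ivClip A B sh L) ∧
    (∀ c, A < c → c < B → (InL c (ivClip A B sh L) ↔ InL (c - sh) L)) ∧
    (ivClip A B sh L).length ≤ L.length

/-- specification of the first component of a table entry -/
def AOK (X : Dat) (i j : ℕ) (oa : Option Ang) : Prop :=
  (∀ a, oa = some a → ∃ v, AngOK a v ∧ Der X (Bd X) (.ch i j v) ∧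
    ∀ θ, Der X (Bd X) (.ch i j θ) → v ≤ θ) ∧
  (oa = none → ∀ θ, Der X (Bd X) (.ch i j θ) → 3 * π ≤ θ)

/-- specification of the second component of a table entry -/
def IOK (X : Dat) (i j : ℕ) (L : IS) : Prop :=
  DisjL L ∧ WinL (X.s i + X.s j) (X.s (i + 1) + X.s (j + 1)) L ∧
  ∀ c, X.s i + X.s j < c → c < X.s (i + 1) + X.s (j + 1) →
    (Der X (Bd X) (.sg i j c) ↔ InL c L)

/-- the table is correct for all pairs with difference less than `m` -/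
def TabOK (X : Dat) (T : List Row) (m : ℕ) : Prop :=
  ∀ i j, i ≤ j → j ≤ X.n → j - i < m →
    AOK X i j (look T i j).1 ∧ (j < X.n → IOK X i j (look T i j).2)

/-- at most `(n+1)^25 + 1` intervals -/
def S_len : Prop :=
  ∀ (X : Dat), X.Good → ∀ (i j : ℕ) (L : IS), i ≤ j → j < X.n → IOK X i j L →
    L.length ≤ capN X.n

def S_entryA : Prop :=
  ∀ (X : Dat), X.Good → ∀ (S : List ℝ) (al : List Ang), Rep X S al → ∀ (T : List Row) (i j : ℕ),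
    i ≤ j → j ≤ X.n → TabOK X T (j - i) → AOK X i j (entryA S al T i j)

def S_entryI : Prop :=
  ∀ (X : Dat), X.Good → ∀ (S : List ℝ) (al : List Ang), Rep X S al → ∀ (T : List Row) (i j : ℕ),
    i ≤ j → j < X.n → TabOK X T (j - i) → IOK X i j (entryI X.n (capN X.n) S al T i j)

def S_table : Prop :=
  ∀ (X : Dat), X.Good → ∀ (S : List ℝ) (al : List Ang), Rep X S al →
    (decideDat X.n S al = true ↔ ∃ θ, Der X (Bd X) (.ch 0 X.n θ) ∧ θ ≤ 2 * π)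

end Pool.Agent.H586R2.AF
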