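import Pool.Agent.H586R2.AF.Stm

set_option autoImplicit false

namespace Pool.Agent.H586R2.AF

open Real Finset

namespace G3

/-- chains of cut points -/
inductive Lk (μ : ℕ → ℕ) (an : ℕ → ℝ) (a : ℕ) : ℕ → ℝ → Prop
  | refl : Lk μ an a a (an a)
  | step (b : ℕ) (θ : ℝ) : Lk μ an a b θ → b < μ b → Lk μ an a (μ b + 1) (θ + an (μ b + 1))

theorem Lk.le {μ : ℕ → ℕ} {an : ℕ → ℝ} {a b : ℕ} {θ : ℝ} (h : Lk μ an a b θ) : a ≤ b := by
  induction h with
  | refl => exact le_refl _
  | step b θ _ hb ih => omega

theorem Lk.cons {μ : ℕ → ℕ} {an : ℕ → ℝ} {a e : ℕ} {θ : ℝ} (ha : a < μ a)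
    (h : Lk μ an (μ a + 1) e θ) : Lk μ an a e (an a + θ) := by
  induction h with
  | refl => exact Lk.step a _ Lk.refl ha
  | step b θ _ hb ih =>
    rw [← add_assoc]
    exact Lk.step b _ ih hb

theorem Lk.uncons {μ : ℕ → ℕ} {an : ℕ → ℝ} {a b : ℕ} {θ : ℝ} (h : Lk μ an a b θ) :
    (b = a ∧ θ = an a) ∨ ∃ θ', a < μ a ∧ Lk μ an (μ a + 1) b θ' ∧ θ = an a + θ' := by
  induction h with
  | refl => exact Or.inl ⟨rfl, rfl⟩
  | step b θ _ hb ih =>
    right
    rcases ih with ⟨rfl, h2⟩ | ⟨θ', h1, h2, h3⟩
    · exact ⟨_, hb, Lk.refl, by rw [h2]⟩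
    · exact ⟨_, h1, Lk.step b _ h2 hb, by rw [h3]; ring⟩

/-- the data -/
structure Dt (X : Dat) (M : ℕ) (q : ℕ → ℝ) (μ : ℕ → ℕ) (an : ℕ → ℝ) : Prop where
  good : X.Good
  Mpos : 0 < M
  q0 : q 0 = 0
  qM : q M = X.s X.n
  qlt : ∀ k, k < M → q k < q (k + 1)
  qv : ∀ i, i ≤ X.n → ∃ k, k ≤ M ∧ q k = X.s i
  lt : ∀ k, k < M → μ k < M
  inv : ∀ k, k < M → μ (μ k) = k
  ne : ∀ k, k < M → μ k ≠ k
  out : ∀ k, M ≤ k → μ k = 0
  len : ∀ k, k < M → q (μ k + 1) - q (μ k) = q (k + 1) - q k
  nc : ∀ k l, k < M → l < M → k < l → l < μ k → μ k < μ l → False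
  anv : ∀ k v, k ≤ M → v ≤ X.n → q k = X.s v → an k = X.al v
  anf : ∀ k, k ≤ M → (∀ v, v ≤ X.n → q k ≠ X.s v) → an k = π
  sum : ∀ a b θ, a < M → b ≤ M → Lk μ an a b θ → θ ≤ 2 * π

variable {X : Dat} {M : ℕ} {q : ℕ → ℝ} {μ : ℕ → ℕ} {an : ℕ → ℝ}

theorem Dt.qmono (D : Dt X M q μ an) {a b : ℕ} (hab : a < b) (hb : b ≤ M) : q a < q b := by
  induction b, hab using Nat.le_induction with
  | base => exact D.qlt a (by omega)
  | succ b hab ih => exact (ih (by omega)).trans (D.qlt b (by omega))

theorem smono (g : X.Good) {a b : ℕ} (hab : a < b) (hb : b ≤ X.n) : X.s a < X.s b := by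
  induction b, hab using Nat.le_induction with
  | base => exact g.s_lt a (by omega)
  | succ b hab ih => exact (ih (by omega)).trans (g.s_lt b (by omega))

theorem slt (g : X.Good) {a b : ℕ} (ha : a ≤ X.n) (hb : b ≤ X.n) (h : X.s a < X.s b) : a < b := by
  by_contra hc
  rcases Nat.lt_or_ge b a with h1 | h1
  · exact absurd (smono g h1 ha) (by linarith)
  · have : a = b := by omega
    subst this
    exact lt_irrefl _ h

theorem sle (g : X.Good) {a b : ℕ} (ha : a ≤ X.n) (hb : b ≤ X.n) (h : X.s a ≤ X.s b) : a ≤ b := by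
  by_contra hc
  have := smono g (Nat.lt_of_not_le hc) ha
  linarith

theorem Dt.qlt' (D : Dt X M q μ an) {a b : ℕ} (ha : a ≤ M) (hb : b ≤ M) (h : q a < q b) :
    a < b := by
  by_contra hc
  rcases Nat.lt_or_ge b a with h1 | h1
  · exact absurd (D.qmono h1 ha) (by linarith)
  · have : a = b := by omega
    subst this
    exact lt_irrefl _ h

theorem loc (g : X.Good) {x : ℝ} (h0 : 0 ≤ x) (h1 : x ≤ X.s X.n) :
    (∃ v, v ≤ X.n ∧ x = X.s v) ∨ ∃ e, e < X.n ∧ X.s e < x ∧ x < X.s (e + 1) := by
  have key : ∀ m, m ≤ X.n → x ≤ X.s m →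
      (∃ v, v ≤ X.n ∧ x = X.s v) ∨ ∃ e, e < X.n ∧ X.s e < x ∧ x < X.s (e + 1) := by
    intro m
    induction m with
    | zero =>
      intro _ h
      left
      refine ⟨0, by omega, ?_⟩
      rw [g.s_zero] at h ⊢
      linarith
    | succ m ih =>
      intro hm h
      rcases le_or_gt x (X.s m) with h2 | h2
      · exact ih (by omega) h2
      · rcases eq_or_lt_of_le h with h3 | h3
        · exact Or.inl ⟨m + 1, hm, h3⟩
        · exact Or.inr ⟨m, by omega, h2, h3⟩
  exact key X.n (le_refl _) h1

/-- every cut point is a vertex or flat -/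
theorem Dt.dich (D : Dt X M q μ an) {k : ℕ} (hk : k ≤ M) :
    (∃ v, v ≤ X.n ∧ q k = X.s v ∧ an k = X.al v) ∨
      ∃ e, e < X.n ∧ X.s e < q k ∧ q k < X.s (e + 1) ∧ an k = π := by
  have h0 : 0 ≤ q k := by
    rcases Nat.eq_zero_or_pos k with h | h
    · rw [h, D.q0]
    · have := D.qmono h hk
      rw [D.q0] at this
      exact this.le
  have h1 : q k ≤ X.s X.n := by
    rw [← D.qM]
    rcases Nat.lt_or_ge k M with h | h
    · exact (D.qmono h (le_refl _)).le
    · have : k = M := by omega
      rw [this]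
  rcases loc D.good h0 h1 with ⟨v, hv, hx⟩ | ⟨e, he, h2, h3⟩
  · exact Or.inl ⟨v, hv, hx, D.anv k v hk hv hx⟩
  · refine Or.inr ⟨e, he, h2, h3, D.anf k hk ?_⟩
    intro v hv hc
    rw [hc] at h2 h3
    have a1 := slt D.good (by omega) hv h2
    have a2 := slt D.good hv (by omega) h3
    omega

theorem Dt.lt_M (D : Dt X M q μ an) {b : ℕ} (h : b < μ b) : b < M := by
  by_contra hc
  rw [D.out b (by omega)] at h
  omega

theorem alnn (g : X.Good) {v : ℕ} (hv : v ≤ X.n) : 0 ≤ X.al v := by
  rcases Nat.lt_or_ge v X.n with h | h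
  · exact (g.al_pos v h).le
  · have : v = X.n := by omega
    rw [this, g.al_n]

theorem Dt.annn (D : Dt X M q μ an) {k : ℕ} (hk : k ≤ M) : 0 ≤ an k := by
  rcases D.dich hk with ⟨v, hv, _, h⟩ | ⟨e, _, _, _, h⟩
  · rw [h]; exact alnn D.good hv
  · rw [h]; exact Real.pi_pos.le

theorem Dt.anpos (D : Dt X M q μ an) {k : ℕ} (hk : k < M) : 0 < an k := by
  rcases D.dich hk.le with ⟨v, hv, h1, h⟩ | ⟨e, _, _, _, h⟩
  · rw [h]
    refine D.good.al_pos v ?_
    refine slt D.good hv (le_refl _) ?_
    rw [← h1, ← D.qM]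
    exact D.qmono hk (le_refl _)
  · rw [h]; exact Real.pi_pos

theorem Dt.lepos (D : Dt X M q μ an) {a b : ℕ} {θ : ℝ} (ha : a < M) (hb : b ≤ M)
    (h : Lk μ an a b θ) : an a ≤ θ ∧ (a < b → an a + an b ≤ θ) := by
  induction h with
  | refl => exact ⟨le_refl _, fun h => absurd h (lt_irrefl _)⟩
  | step b θ hl hb' ih =>
    have h1 := ih (by have := D.lt_M hb'; omega)
    have h2 := D.annn hb
    exact ⟨by linarith [h1.1], fun _ => by linarith [h1.1]⟩

/-- the claim for a pair of segments -/
def Cl (X : Dat) (q : ℕ → ℝ) (μ : ℕ → ℕ) (l : ℕ) : Prop :=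
  ∀ i j, i < X.n → j < X.n → X.s i ≤ q l → q l < X.s (i + 1) → X.s j < q (μ l + 1) →
    q (μ l + 1) ≤ X.s (j + 1) → Der X All (.sg i j (q l + q (μ l + 1)))

/-- invariant along the chain starting at a vertex -/
theorem Dt.inva (D : Dt X M q μ an) {a e : ℕ} (he : e ≤ M) (ha : a < M)
    (hC : ∀ l, a ≤ l → l < μ l → μ l < e → Cl X q μ l) {p : ℕ} (hp : p ≤ X.n)
    (hap : q a = X.s p) {b : ℕ} {θ : ℝ} (h : Lk μ an a b θ) (hb : b ≤ e) :
    (∃ v, v ≤ X.n ∧ q b = X.s v ∧ Der X All (.ch p v θ)) ∨
    ∃ r f θ', r < X.n ∧ f < X.n ∧ p ≤ r ∧ r ≤ f ∧ X.s f < q b ∧ q b < X.s (f + 1) ∧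
      0 < θ' ∧ θ = θ' + π ∧
      Der X All (.ch p r θ') ∧ Der X All (.sg r f (X.s r + q b)) := by
  have hpn : p < X.n := by
    refine slt D.good hp (le_refl _) ?_
    rw [← hap, ← D.qM]
    exact D.qmono ha (le_refl _)
  have g := D.good
  induction h with
  | refl =>
    left
    refine ⟨p, hp, hap, ?_⟩
    rw [D.anv a p ha.le hp hap]
    exact Der.refl p hp
  | step b θ hl hb' ih =>
    have hbM : b < M := D.lt_M hb'
    have hcl := hC b hl.le hb' (by omega)
    have hqb : q b < q (μ b + 1) := D.qmono (by omega) (by omega)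
    have hqab : q a ≤ q b := by
      rcases Nat.lt_or_ge a b with h | h
      · exact (D.qmono h hbM.le).le
      · have : a = b := by have := hl.le; omega
        rw [this]
    rcases ih (by omega) with ⟨v, hv, hv1, hd⟩ | ⟨r, f, θ', hr, hf, hpr, hrf, hf1, hf2, hpos, hθ, hd1, hd2⟩
    · have hvn : v < X.n := by
        refine slt g hv (le_refl _) ?_
        rw [← hv1, ← D.qM]
        exact D.qmono hbM (le_refl _)
      have hs1 : X.s v < X.s (v + 1) := g.s_lt v hvn
      have hpv : p ≤ v := sle g hp hv (by rw [← hap, ← hv1]; exact hqab)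
      rcases D.dich (show μ b + 1 ≤ M by omega) with ⟨w, hw, hw1, hw2⟩ | ⟨f, hf, hf1, hf2, hf3⟩
      · left
        have hvw : v < w := slt g hv hw (by rw [← hv1, ← hw1]; exact hqb)
        obtain ⟨w', rfl⟩ : ∃ w', w = w' + 1 := ⟨w - 1, by omega⟩
        refine ⟨w' + 1, hw, hw1, ?_⟩
        rw [hw2]
        refine Der.vv p v w' θ (by omega) (by omega) hd ?_
        have := hcl v w' hvn (by omega) hv1.ge (by rw [hv1]; exact hs1)
          (by rw [hw1]; exact g.s_lt w' (by omega)) hw1.le
        rw [hv1, hw1] at this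
        exact this
      · right
        have hvf : v ≤ f := by
          have : X.s v < X.s (f + 1) := by rw [← hv1]; linarith
          have := slt g hv (by omega) this
          omega
        refine ⟨v, f, θ, hvn, hf, hpv, hvf, hf1, hf2, ?_, by rw [hf3], hd, ?_⟩
        · have := (D.lepos ha hbM.le hl).1
          have h2 := D.anpos ha
          linarith
        · have := hcl v f hvn hf hv1.ge (by rw [hv1]; exact hs1) hf1 hf2.le
          rw [hv1] at this
          exact this
    · rcases D.dich (show μ b + 1 ≤ M by omega) with ⟨w, hw, hw1, hw2⟩ | ⟨f', hf', hf1', hf2', hf3'⟩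
      · left
        have hfw : f < w := slt g (by omega) hw (by rw [← hw1]; linarith)
        obtain ⟨w', rfl⟩ : ∃ w', w = w' + 1 := ⟨w - 1, by omega⟩
        refine ⟨w' + 1, hw, hw1, ?_⟩
        rw [hw2, hθ]
        refine Der.fl p r f w' (q b) θ' hrf (by omega) (by omega) hf1 hf2 hd1 hd2 ?_
        have := hcl f w' hf (by omega) hf1.le hf2 (by rw [hw1]; exact g.s_lt w' (by omega)) hw1.le
        rw [hw1] at this
        exact this
      · exfalso
        have h1 := D.sum a (μ b + 1) _ ha (by omega) (Lk.step b θ hl hb')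
        rw [hf3', hθ] at h1
        linarith

/-- existence of chains in closed regions -/
theorem Dt.exch (D : Dt X M q μ an) : ∀ (d a e : ℕ), e - a = d → a ≤ e → e ≤ M →
    (∀ x, a ≤ x → x < e → a ≤ μ x ∧ μ x < e) → ∃ θ, Lk μ an a e θ := by
  intro d
  induction d using Nat.strong_induction_on with
  | _ d ih =>
    intro a e hd hae he hcl
    rcases Nat.eq_or_lt_of_le hae with h | h
    · subst h
      exact ⟨_, Lk.refl⟩
    · obtain ⟨h1, h2⟩ := hcl a (le_refl _) h
      have h3 := D.ne a (by omega)
      have haM : a < M := by omega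
      obtain ⟨θ, hθ⟩ := ih (e - (μ a + 1)) (by omega) (μ a + 1) e rfl (by omega) he (by
        intro x hx1 hx2
        obtain ⟨hx3, hx4⟩ := hcl x (by omega) hx2
        refine ⟨?_, hx4⟩
        by_contra hc
        have hxM : x < M := by omega
        have c1 : μ x ≠ μ a := by
          intro hcc
          have := congrArg μ hcc
          rw [D.inv x hxM, D.inv a haM] at this
          omega
        have c2 : μ x ≠ a := by
          intro hcc
          have := congrArg μ hcc
          rw [D.inv x hxM] at this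
          omega
        refine D.nc a (μ x) haM (by omega) (by omega) (by omega) ?_
        rw [D.inv x hxM]
        omega)
      exact ⟨_, Lk.cons (by omega) hθ⟩

theorem Dt.inner (D : Dt X M q μ an) {k : ℕ} (hk : k < μ k) :
    ∃ θ, Lk μ an (k + 1) (μ k) θ := by
  have hkM := D.lt_M hk
  have hmM := D.lt k hkM
  refine D.exch _ (k + 1) (μ k) rfl (by omega) (by omega) ?_
  intro x h1 h2
  have hxM : x < M := by omega
  have e1 := D.inv x hxM
  have e2 := D.inv k hkM
  have c1 : μ x ≠ k := by
    intro h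
    rw [h] at e1
    omega
  have c2 : μ x ≠ μ k := by
    intro h
    rw [h, e2] at e1
    omega
  constructor
  · by_contra hc
    -- μ x < k < x < μ k : pair (μ x, x) and (k, μ k) cross
    refine D.nc (μ x) k (by omega) hkM (by omega) (by rw [e1]; omega) (by rw [e1]; omega)
  · by_contra hc
    refine D.nc k x hkM hxM (by omega) h2 (by omega)

/-- all pairs satisfy the claim -/
theorem Dt.claim (D : Dt X M q μ an) : ∀ (d k : ℕ), μ k - k = d → k < μ k → Cl X q μ k := by
  intro d
  induction d using Nat.strong_induction_on with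
  | _ d ih =>
    intro k hd hk i j hi hj h1 h2 h3 h4
    have g := D.good
    have hkM := D.lt_M hk
    have hmM := D.lt k hkM
    have hC : ∀ l, k + 1 ≤ l → l < μ l → μ l < μ k → Cl X q μ l := by
      intro l hl1 hl2 hl3
      exact ih (μ l - l) (by omega) l rfl hl2
    have hlen := D.len k hkM
    have hsum : q k + q (μ k + 1) = q (k + 1) + q (μ k) := by linarith
    have hq1 : q k < q (k + 1) := D.qlt k hkM
    have hq2 : q (μ k) < q (μ k + 1) := D.qlt _ hmM
    have hb1 : q (k + 1) ≤ X.s (i + 1) := by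
      obtain ⟨l, hl, hl1⟩ := D.qv (i + 1) (by omega)
      rw [← hl1] at h2 ⊢
      have := D.qlt' hkM.le hl h2
      rcases Nat.eq_or_lt_of_le (show k + 1 ≤ l by omega) with h | h
      · rw [h]
      · exact (D.qmono h hl).le
    have hb2 : X.s j ≤ q (μ k) := by
      obtain ⟨l, hl, hl1⟩ := D.qv j (by omega)
      rw [← hl1] at h3 ⊢
      have := D.qlt' hl (by omega) h3
      rcases Nat.eq_or_lt_of_le (show l ≤ μ k by omega) with h | h
      · rw [h]
      · exact (D.qmono h (by omega)).le
    have hq3 : q (k + 1) ≤ q (μ k) := by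
      rcases Nat.eq_or_lt_of_le (show k + 1 ≤ μ k by omega) with h | h
      · rw [h]
      · exact (D.qmono h (by omega)).le
    obtain ⟨θ, hθ⟩ := D.inner hk
    have hθ2 := D.sum (k + 1) (μ k) θ (by omega) (by omega) hθ
    rw [hsum]
    -- first cut point
    rcases eq_or_lt_of_le hb1 with hv | hf
    · -- vertex `i + 1`
      rcases D.inva (by omega) (show k + 1 < M by omega) hC (show i + 1 ≤ X.n by omega) hv hθ
        (le_refl _) with ⟨v, hvn, hv1, hd1⟩ | ⟨r, f, θ', hr, hf, hpr, hrf, hf1, hf2, hpos, hθ', hd1, hd2⟩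
      · have hvj : v = j := by
          have a1 : j ≤ v := sle g (by omega) hvn (by rw [← hv1]; exact hb2)
          have a2 : v < j + 1 := slt g hvn (by omega) (by rw [← hv1]; linarith)
          omega
        subst hvj
        have hiv : i + 1 ≤ v := sle g (by omega) hvn (by rw [← hv, ← hv1]; exact hq3)
        rw [hv, hv1]
        exact Der.term i v θ (by omega) hj trivial hd1 hθ2
      · have hfj : f = j := by
          have a1 : j < f + 1 := slt g (by omega) (by omega) (by linarith)
          have a2 : f < j + 1 := slt g (by omega) (by omega) (by linarith)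
          omega
        subst hfj
        refine Der.right i f r _ θ' (by omega) hrf hj trivial (by rw [hv]; linarith)
          (by rw [hv]; linarith) hd1 (by linarith) ?_
        have e1 : q (k + 1) + q (μ k) - X.s (i + 1) + X.s r = X.s r + q (μ k) := by
          rw [hv]; ring
        rw [e1]
        exact hd2
    · -- flat
      have hsi : X.s i < q (k + 1) := by linarith
      have hank : an (k + 1) = π := by
        refine D.anf _ (by omega) ?_
        intro v hv hc
        rw [hc] at hf hsi
        have a1 := slt g (by omega) hv hsi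
        have a2 := slt g hv (by omega) hf
        omega
      rcases hθ.uncons with ⟨h5, h6⟩ | ⟨θ', h5, h6, h7⟩
      · -- fold
        have hij : i = j := by
          rw [h5] at hb2 hq2
          have a1 : j < i + 1 := slt g (by omega) (by omega) (by linarith)
          have a2 : i < j + 1 := slt g (by omega) (by omega) (by linarith)
          omega
        subst hij
        rw [h5]
        exact Der.fold i _ hi trivial (by linarith) (by linarith)
      · have hle := h6.le
        have hM1 : μ (k + 1) + 1 < M := by omega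
        have hcl1 := hC (k + 1) (le_refl _) h5 (by omega)
        have hq4 : q (k + 1) < q (μ (k + 1) + 1) := D.qmono (by omega) (by omega)
        rcases D.dich hM1.le with ⟨w, hw, hw1, hw2⟩ | ⟨f', hf', hf1', hf2', hf3'⟩
        · -- second cut point is the vertex `w = p + 1`
          have hiw : i < w := slt g (by omega) hw (by rw [← hw1]; linarith)
          obtain ⟨p, rfl⟩ : ∃ p, w = p + 1 := ⟨w - 1, by omega⟩
          have hlink := hcl1 i p hi (by omega) hsi.le hf (by rw [hw1]; exact g.s_lt p (by omega))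
            hw1.le
          rw [hw1] at hlink
          rcases D.inva (by omega) hM1 (fun l hl1 hl2 hl3 => hC l (by omega) hl2 hl3) hw hw1 h6
            (le_refl _) with ⟨v, hvn, hv1, hd1⟩ | ⟨r, f, θ'', hr, hf3, hpr, hrf, hf1, hf2, hpos, hθ', hd1, hd2⟩
          · have hvj : v = j := by
              have a1 : j ≤ v := sle g (by omega) hvn (by rw [← hv1]; exact hb2)
              have a2 : v < j + 1 := slt g hvn (by omega) (by rw [← hv1]; linarith)
              omega
            subst hvj
            have hpv : p + 1 ≤ v := by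
              refine sle g hw hvn ?_
              rw [← hw1, ← hv1]
              rcases Nat.eq_or_lt_of_le hle with h | h
              · rw [h]
              · exact (D.qmono h (by omega)).le
            refine Der.left i v p _ θ' (by omega) (by omega) hj trivial (by rw [hv1]; linarith)
              (by rw [hv1]; linarith) hd1 (by linarith) ?_
            have e1 : q (k + 1) + q (μ k) - X.s v + X.s (p + 1) = q (k + 1) + X.s (p + 1) := by
              rw [hv1]; ring
            rw [e1]
            exact hlink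
          · exfalso
            linarith
        · -- second cut point is flat
          have hl0 := D.lepos hM1 (show μ k ≤ M by omega) h6
          rcases h6.uncons with ⟨h8, h9⟩ | ⟨θ3, h8, h9, h10⟩
          · have hfj : f' = j := by
              rw [← h8] at hf1' hf2'
              have a1 : j < f' + 1 := slt g (by omega) (by omega) (by linarith)
              have a2 : f' < j + 1 := slt g (by omega) (by omega) (by linarith)
              omega
            subst hfj
            have := hcl1 i f' hi hj hsi.le hf hf1' hf2'.le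
            rw [← h8] at this
            exact this
          · exfalso
            have hle2 := h9.le
            have h11 := (D.lepos (show μ (μ (k + 1) + 1) + 1 < M by omega) (by omega) h9).1
            have h12 := D.anpos (show μ (μ (k + 1) + 1) + 1 < M by omega)
            rw [hf3'] at h10
            linarith

theorem Dt.final (D : Dt X M q μ an) : ∃ θ, Der X All (.ch 0 X.n θ) ∧ θ ≤ 2 * π := by
  obtain ⟨θ, hθ⟩ := D.exch M 0 M (by omega) (by omega) (le_refl _)
    (fun x _ hx => ⟨Nat.zero_le _, D.lt x hx⟩)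
  have hs := D.sum 0 M θ D.Mpos (le_refl _) hθ
  have g := D.good
  refine ⟨θ, ?_, hs⟩
  rcases D.inva (le_refl _) D.Mpos (fun l _ hl _ => D.claim _ l rfl hl) (Nat.zero_le _)
    (by rw [D.q0, g.s_zero]) hθ (le_refl _) with ⟨v, hvn, hv1, hd1⟩ |
      ⟨r, f, θ', hr, hf, hpr, hrf, hf1, hf2, hpos, hθ', hd1, hd2⟩
  · have : v = X.n := by
      have : X.n ≤ v := sle g (le_refl _) hvn (by rw [← hv1, D.qM])
      omega
    rw [← this]
    exact hd1
  · exfalso
    rw [D.qM] at hf2
    have := slt g (le_refl _) (by omega) hf2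
    omega

/-- the involution on natural numbers -/
def mu {P : List (ℝ × ℝ)} {N : ℕ} (G : Gluing P N) (k : ℕ) : ℕ :=
  if h : k < 2 * N then (G.m ⟨k, h⟩ : ℕ) else 0

open Classical in
/-- the angle at a cut point -/
noncomputable def ang {P : List (ℝ × ℝ)} {N : ℕ} (G : Gluing P N) (k : ℕ) : ℝ :=
  if k < 2 * N then angAt P (G.q k) else 0

theorem mu_of {P : List (ℝ × ℝ)} {N : ℕ} (G : Gluing P N) (k : Fin (2 * N)) :
    mu G k = G.m k := by
  unfold mu
  rw [dif_pos k.2]

theorem rho_of {P : List (ℝ × ℝ)} {N : ℕ} (G : Gluing P N) (k : Fin (2 * N))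
    (h : (G.m k : ℕ) + 1 < 2 * N) : (G.rho k : ℕ) = (G.m k : ℕ) + 1 := by
  unfold Gluing.rho
  rw [Equiv.trans_apply]
  obtain ⟨M, hM⟩ : ∃ M, 2 * N = M + 1 := ⟨2 * N - 1, by have := k.2; omega⟩
  generalize G.m k = x at *
  revert x
  rw [hM]
  intro x hx
  rw [finRotate_succ_apply]
  rw [Fin.val_add_one]
  rw [if_neg]
  intro hc
  rw [hc] at hx
  simp at hx

/-- the elements of a chain, as a set of cut points in one class -/
theorem chain_set {P : List (ℝ × ℝ)} {N : ℕ} (G : Gluing P N) (a : Fin (2 * N)) {b : ℕ} {θ : ℝ}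
    (hb : b ≤ 2 * N) (h : Lk (mu G) (ang G) a b θ) :
    ∃ T : Finset (Fin (2 * N)), (∀ x ∈ T, G.rho.SameCycle a x ∧ (x : ℕ) ≤ b) ∧
      θ = ∑ x ∈ T, angAt P (G.q x) ∧ (∀ hb' : b < 2 * N, (⟨b, hb'⟩ : Fin (2 * N)) ∈ T) := by
  induction h with
  | refl =>
    refine ⟨{a}, ?_, ?_, ?_⟩
    · intro x hx
      rw [mem_singleton] at hx
      subst hx
      exact ⟨Equiv.Perm.SameCycle.refl _ _, le_refl _⟩
    · rw [sum_singleton]
      unfold ang
      rw [if_pos a.2]
    · intro hb'
      rw [mem_singleton]
  | step b θ hl hb' ih =>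
    have hbM : b < 2 * N := by
      by_contra hc
      unfold mu at hb'
      rw [dif_neg hc] at hb'
      omega
    obtain ⟨T, h1, h2, h3⟩ := ih hbM.le
    have hmu : mu G b = G.m ⟨b, hbM⟩ := mu_of G ⟨b, hbM⟩
    by_cases hlast : mu G b + 1 < 2 * N
    · refine ⟨insert ⟨mu G b + 1, hlast⟩ T, ?_, ?_, ?_⟩
      · intro x hx
        rw [mem_insert] at hx
        rcases hx with rfl | hx
        · refine ⟨?_, le_refl _⟩
          have e1 : (⟨mu G b + 1, hlast⟩ : Fin (2 * N)) = G.rho ⟨b, hbM⟩ := by
            apply Fin.ext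
            rw [rho_of G ⟨b, hbM⟩ (by rw [← hmu]; exact hlast), ← hmu]
          rw [e1]
          exact (Equiv.Perm.sameCycle_apply_right).2 (h1 _ (h3 hbM)).1
        · exact ⟨(h1 x hx).1, by have := (h1 x hx).2; omega⟩
      · rw [sum_insert, h2, add_comm]
        · congr 1
          unfold ang
          rw [if_pos hlast]
        · intro hc
          have := (h1 _ hc).2
          simp only at this
          omega
      · intro hb''
        exact mem_insert_self _ _
    · refine ⟨T, ?_, ?_, ?_⟩
      · intro x hx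
        exact ⟨(h1 x hx).1, by have := (h1 x hx).2; omega⟩
      · have : ang G (mu G b + 1) = 0 := by
          unfold ang
          rw [if_neg hlast]
        rw [this, add_zero, h2]
      · intro hb''
        exact absurd hb'' hlast

theorem sposinj {P : List (ℝ × ℝ)} (g : (datOf P).Good) {a b : ℕ} (ha : a ≤ P.length)
    (hb : b ≤ P.length) (h : spos P a = spos P b) : a = b := by
  rcases Nat.lt_trichotomy a b with h1 | h1 | h1
  · have := smono g h1 hb
    change spos P a < spos P b at this
    linarith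
  · exact h1
  · have := smono g h1 ha
    change spos P b < spos P a at this
    linarith

theorem angAt_spos {P : List (ℝ × ℝ)} (g : (datOf P).Good) {v : ℕ} (hv : v < P.length) :
    angAt P (spos P v) = intAngle P v := by
  unfold angAt
  have h : ∃ k, k < P.length ∧ spos P k = spos P v := ⟨v, hv, rfl⟩
  rw [dif_pos h]
  have h1 := h.choose_spec
  rw [sposinj g h1.1.le hv.le h1.2]

theorem angAt_flat {P : List (ℝ × ℝ)} {x : ℝ} (h : ∀ v, v < P.length → spos P v ≠ x) :
    angAt P x = π := by
  unfold angAt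
  rw [dif_neg]
  rintro ⟨k, hk, hk2⟩
  exact h k hk hk2

end G3

open G3 in
theorem t_glu2der (h1 : S_datGood) : S_glu2der := by
  intro P hP N G hN hnc hang
  have g := h1 P hP
  have hM : 0 < 2 * N := by omega
  have hqmono : ∀ a b, a < b → b ≤ 2 * N → G.q a < G.q b := by
    intro a b hab hb
    induction b, hab using Nat.le_induction with
    | base => exact G.q_lt a (by omega)
    | succ b hab ih => exact (ih (by omega)).trans (G.q_lt b (by omega))
  have hnn : ∀ x : Fin (2 * N), 0 ≤ angAt P (G.q x) := by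
    intro x
    by_cases h : ∃ v, v < P.length ∧ spos P v = G.q x
    · obtain ⟨v, hv, hv2⟩ := h
      rw [← hv2, angAt_spos g hv]
      have := g.al_pos v hv
      change 0 < (if v < P.length then intAngle P v else 0) at this
      rw [if_pos hv] at this
      exact this.le
    · rw [angAt_flat]
      · exact Real.pi_pos.le
      · intro v hv hc
        exact h ⟨v, hv, hc⟩
  have D : Dt (datOf P) (2 * N) G.q (mu G) (ang G) := by
    refine ⟨g, hM, G.q_zero, G.q_last, G.q_lt, ?_, ?_, ?_, ?_, ?_, ?_, ?_, ?_, ?_, ?_⟩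
    · intro i hi
      rcases Nat.lt_or_ge i P.length with h | h
      · obtain ⟨k, hk, hk2⟩ := G.q_vertex i h
        exact ⟨k, hk.le, hk2⟩
      · have : i = P.length := le_antisymm hi h
        exact ⟨2 * N, le_refl _, by rw [this]; exact G.q_last⟩
    · intro k hk
      rw [mu_of G ⟨k, hk⟩]
      exact (G.m ⟨k, hk⟩).2
    · intro k hk
      rw [mu_of G ⟨k, hk⟩, mu_of G, G.m_invol]
    · intro k hk hc
      rw [mu_of G ⟨k, hk⟩] at hc
      exact G.m_ne ⟨k, hk⟩ (Fin.ext hc)
    · intro k hk
      unfold mu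
      rw [dif_neg (by omega)]
    · intro k hk
      rw [mu_of G ⟨k, hk⟩]
      exact G.m_len ⟨k, hk⟩
    · intro k l hk hl hkl h2 h3
      rw [mu_of G ⟨k, hk⟩] at h2 h3
      rw [mu_of G ⟨l, hl⟩] at h3
      exact hnc ⟨k, hk⟩ ⟨l, hl⟩ hkl h2 h3
    · intro k v hk hv hq
      rcases Nat.lt_or_ge k (2 * N) with h | h
      · have hvn : v < P.length := by
          have h2 := hqmono k (2 * N) h (le_refl _)
          rw [hq, G.q_last] at h2
          exact slt g hv (le_refl _) h2
        unfold ang
        rw [if_pos h, hq]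
        change angAt P (spos P v) = (if v < P.length then intAngle P v else 0)
        rw [angAt_spos g hvn, if_pos hvn]
      · have hk2 : k = 2 * N := by omega
        have hvn : v = P.length := by
          rw [hk2, G.q_last] at hq
          exact (sposinj g (le_refl _) hv hq).symm
        unfold ang
        rw [if_neg (by omega)]
        change (0 : ℝ) = (if v < P.length then intAngle P v else 0)
        rw [if_neg (by omega)]
    · intro k hk hne
      have hk2 : k < 2 * N := by
        by_contra hc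
        have hk3 : k = 2 * N := by omega
        exact hne P.length (le_refl _) (by rw [hk3]; exact G.q_last)
      unfold ang
      rw [if_pos hk2, angAt_flat]
      intro v hv hc
      exact hne v hv.le hc.symm
    · intro a b θ ha hb hl
      obtain ⟨T, h2, h3, _⟩ := chain_set G ⟨a, ha⟩ hb hl
      rw [h3]
      refine le_trans ?_ (hang ⟨a, ha⟩)
      refine sum_le_sum_of_subset_of_nonneg ?_ (fun x _ _ => hnn x)
      intro x hx
      rw [mem_filter]
      exact ⟨mem_univ _, (h2 x hx).1⟩
  exact D.final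

end Pool.Agent.H586R2.AF
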