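import Pool.Agent.H586R2.AF.PTStm

/-!
# Task M9: the table is computed in polynomial time
-/

set_option autoImplicit false

namespace Pool.Agent.H586R2.AF

open Real

namespace M9

/-! ### sizes -/

theorem sz_nat (k : ℕ) : sz k = 2 * k + 1 := by
  induction k with
  | zero => rfl
  | succ k ih =>
    have : sz (k + 1) = 1 + sz k + 1 := rfl
    rw [this, ih]; ring

theorem sz_real (r : ℝ) : sz r = 1 := rfl

theorem sz_pair {α β : Type} [Enc α] [Enc β] (x : α × β) : sz x = sz x.1 + sz x.2 + 1 := rfl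

theorem sz_nil {α : Type} [Enc α] : sz ([] : List α) = 1 := rfl

theorem sz_cons {α : Type} [Enc α] (a : α) (l : List α) : sz (a :: l) = sz a + sz l + 1 := rfl

theorem sz_none {α : Type} [Enc α] : sz (none : Option α) = 1 := rfl

theorem sz_some {α : Type} [Enc α] (a : α) : sz (some a) = sz a + 1 + 1 := rfl

theorem sz_IS (L : IS) : sz L = 4 * L.length + 1 := by
  induction L with
  | nil => rfl
  | cons a l ih =>
    rw [sz_cons, ih, sz_pair, sz_real, sz_real, List.length_cons]; ring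

theorem sz_oCap (x : Option Ang) : sz (oCap x) ≤ 11 := by
  unfold oCap
  rcases x with _ | a
  · simp only [sz_none]; norm_num
  · simp only
    split_ifs with h
    · rw [sz_some, sz_pair, sz_pair, sz_real, sz_real, sz_nat]
      omega
    · rw [sz_none]; norm_num

theorem len_entryI (n cap : ℕ) (S : List ℝ) (al : List Ang) (T : List Row) (i j : ℕ) :
    (entryI n cap S al T i j).length ≤ cap + 1 := by
  unfold entryI
  split_ifs
  · simp
  · simp
  · simp
  · exact (List.length_take_le _ _).trans (Nat.le_succ _)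

theorem sz_step (n cap : ℕ) (S : List ℝ) (al : List Ang) (T : List Row) (c : ℕ × ℕ)
    (h1 : c.1 ≤ n) (h2 : c.2 ≤ n) :
    sz (stepT n cap S al T c) ≤ sz T + (4 * n + 4 * cap + 22) := by
  unfold stepT
  rw [sz_cons, sz_pair, sz_pair, sz_pair, sz_nat, sz_nat, sz_IS]
  simp only
  have h3 : sz (entryA S al T c.1 c.2) ≤ 11 := by
    unfold entryA
    exact sz_oCap _
  have h4 := len_entryI n cap S al T c.1 c.2
  omega

theorem sz_fold (n cap : ℕ) (S : List ℝ) (al : List Ang) : ∀ (pre : List (ℕ × ℕ)) (T : List Row),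
    (∀ c ∈ pre, c.1 ≤ n ∧ c.2 ≤ n) →
    sz (pre.foldl (stepT n cap S al) T) ≤ sz T + pre.length * (4 * n + 4 * cap + 22) := by
  intro pre
  induction pre with
  | nil => intro T _; simp
  | cons c pre ih =>
    intro T h
    rw [List.foldl_cons]
    have h1 := ih (stepT n cap S al T c) (fun d hd => h d (List.mem_cons_of_mem _ hd))
    have h2 := h c List.mem_cons_self
    have h3 := sz_step n cap S al T c h2.1 h2.2
    rw [List.length_cons]
    have h4 : (pre.length + 1) * (4 * n + 4 * cap + 22) =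
      pre.length * (4 * n + 4 * cap + 22) + (4 * n + 4 * cap + 22) := by ring
    omega

theorem mem_pairs (n : ℕ) (c : ℕ × ℕ) (h : c ∈ pairs n) : c.1 ≤ n ∧ c.2 ≤ n := by
  unfold pairs at h
  simp only [List.mem_flatMap, List.mem_map, List.mem_range] at h
  obtain ⟨d, hd, i, hi, rfl⟩ := h
  simp only
  omega

theorem len_pairs (n : ℕ) : (pairs n).length ≤ (n + 1) * (n + 1) := by
  unfold pairs
  rw [List.length_flatMap]
  have : ∀ l : List ℕ, ((l.map fun d => ((List.range (n + 1 - d)).map fun i => (i, i + d)).length).sum)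
      ≤ l.length * (n + 1) := by
    intro l
    induction l with
    | nil => simp
    | cons a l ih =>
      rw [List.map_cons, List.sum_cons, List.length_cons, List.length_map, List.length_range]
      have : (l.length + 1) * (n + 1) = l.length * (n + 1) + (n + 1) := by ring
      omega
  have h := this (List.range (n + 1))
  rw [List.length_range] at h
  exact h

/-! ### the input of the entries -/

abbrev In := (ℕ × ℕ) × List ℝ × List Ang

theorem pt_pairs (h1 : PTLib) (h2 : PTLib2) : PT (fun x : In => pairs x.1.1) := by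
  have hn : PT (fun x : In => x.1.1) := h1.comp h1.fst h1.fst
  have hn1 : PT (fun x : In => x.1.1 + 1) := h1.comp hn h1.succ
  have hr : PT (fun x : In => List.range (x.1.1 + 1)) := h1.comp hn1 h2.range
  have hA0 : PT (fun y : In × ℕ => y.1.1.1 + 1) :=
    h1.comp (f := fun y : In × ℕ => y.1) (g := fun x : In => x.1.1 + 1) h1.fst hn1
  have hA : PT (fun y : In × ℕ => (y.1.1.1 + 1, y.2)) := h1.pair hA0 h1.snd
  have hB : PT (fun y : In × ℕ => y.1.1.1 + 1 - y.2) := h1.comp hA h2.nsub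
  have hC : PT (fun y : In × ℕ => List.range (y.1.1.1 + 1 - y.2)) := h1.comp hB h2.range
  have hi : PT (fun z : (In × ℕ) × ℕ => z.2) := h1.snd
  have hd : PT (fun z : (In × ℕ) × ℕ => z.1.2) := h1.comp h1.fst h1.snd
  have hid : PT (fun z : (In × ℕ) × ℕ => z.2 + z.1.2) := h1.comp (h1.pair hi hd) h2.nadd
  have hg : PT (fun z : (In × ℕ) × ℕ => (z.2, z.2 + z.1.2)) := h1.pair hi hid
  have hm := h2.map (f := fun y : In × ℕ => List.range (y.1.1.1 + 1 - y.2))
    (g := fun z : (In × ℕ) × ℕ => (z.2, z.2 + z.1.2)) hC hg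
  have := h2.flatMap (f := fun x : In => List.range (x.1.1 + 1))
    (g := fun y : In × ℕ => (List.range (y.1.1.1 + 1 - y.2)).map fun i => (i, i + y.2)) hr hm
  exact this

theorem pt_step (h1 : PTLib)
    (hA : PT (fun x : Arg => entryA x.2.1 x.2.2.1 x.2.2.2.1 x.2.2.2.2.1 x.2.2.2.2.2))
    (hI : PT (fun x : Arg =>
      entryI x.1.1 x.1.2 x.2.1 x.2.2.1 x.2.2.2.1 x.2.2.2.2.1 x.2.2.2.2.2)) :
    PT (fun y : In × List Row × (ℕ × ℕ) =>
      stepT y.1.1.1 y.1.1.2 y.1.2.1 y.1.2.2 y.2.1 y.2.2) := by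
  have a1 : PT (fun y : In × List Row × (ℕ × ℕ) => y.1.1) := h1.comp h1.fst h1.fst
  have a2 : PT (fun y : In × List Row × (ℕ × ℕ) => y.1.2.1) :=
    h1.comp (h1.comp h1.fst h1.snd) h1.fst
  have a3 : PT (fun y : In × List Row × (ℕ × ℕ) => y.1.2.2) :=
    h1.comp (h1.comp h1.fst h1.snd) h1.snd
  have a4 : PT (fun y : In × List Row × (ℕ × ℕ) => y.2.1) := h1.comp h1.snd h1.fst
  have a5 : PT (fun y : In × List Row × (ℕ × ℕ) => y.2.2) := h1.comp h1.snd h1.snd
  have a6 : PT (fun y : In × List Row × (ℕ × ℕ) => y.2.2.1) := h1.comp a5 h1.fst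
  have a7 : PT (fun y : In × List Row × (ℕ × ℕ) => y.2.2.2) := h1.comp a5 h1.snd
  have b : PT (fun y : In × List Row × (ℕ × ℕ) =>
      ((y.1.1, y.1.2.1, y.1.2.2, y.2.1, y.2.2.1, y.2.2.2) : Arg)) :=
    h1.pair a1 (h1.pair a2 (h1.pair a3 (h1.pair a4 (h1.pair a6 a7))))
  have cA := h1.comp b hA
  have cI := h1.comp b hI
  have d : PT (fun y : In × List Row × (ℕ × ℕ) => (((y.2.2.1, y.2.2.2),
      (entryA y.1.2.1 y.1.2.2 y.2.1 y.2.2.1 y.2.2.2,
        entryI y.1.1.1 y.1.1.2 y.1.2.1 y.1.2.2 y.2.1 y.2.2.1 y.2.2.2)) : Row)) :=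
    h1.pair (h1.pair a6 a7) (h1.pair cA cI)
  exact h1.comp (h1.pair d a4) h1.cons

end M9

open M9

theorem t_ptTable : S_ptTable := by
  intro h1 h2 hA hI
  have hl := pt_pairs h1 h2
  have hs := pt_step h1 hA hI
  have hi : PT (fun _ : In => ([] : List Row)) := h1.cNil
  have := h1.foldl (l := fun x : In => pairs x.1.1) (init := fun _ : In => ([] : List Row))
    (g := fun y : In × List Row × (ℕ × ℕ) =>
      stepT y.1.1.1 y.1.1.2 y.1.2.1 y.1.2.2 y.2.1 y.2.2) hl hi hs ?_
  · exact this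
  · refine ⟨23, 3, fun x pre hpre => ?_⟩
    have h3 := sz_fold x.1.1 x.1.2 x.2.1 x.2.2 pre []
      (fun c hc => mem_pairs _ c (hpre.subset hc))
    have h4 : pre.length ≤ (x.1.1 + 1) * (x.1.1 + 1) := hpre.length_le.trans (len_pairs _)
    have h5 : 2 * x.1.1 + 2 * x.1.2 + 5 ≤ sz x := by
      have e1 : sz x = (sz x.1.1 + sz x.1.2 + 1) + sz x.2 + 1 := rfl
      have e2 : 1 ≤ sz x.2 := by
        have : sz x.2 = sz x.2.1 + sz x.2.2 + 1 := rfl
        omega
      rw [sz_nat, sz_nat] at e1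
      omega
    have h6 : sz (pre.foldl (stepT x.1.1 x.1.2 x.2.1 x.2.2) []) ≤ 23 * (sz x + 1) ^ 3 := by
      rw [sz_nil] at h3
      set s := sz x + 1 with hs
      have k1 : x.1.1 + 1 ≤ s := by omega
      have k2 : 4 * x.1.1 + 4 * x.1.2 + 22 ≤ 22 * s := by omega
      have k3 : 1 ≤ s := by omega
      calc sz (pre.foldl (stepT x.1.1 x.1.2 x.2.1 x.2.2) []) ≤
          1 + pre.length * (4 * x.1.1 + 4 * x.1.2 + 22) := h3
        _ ≤ 1 + (s * s) * (22 * s) := by
          have : pre.length ≤ s * s := h4.trans (Nat.mul_le_mul k1 k1)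
          exact Nat.add_le_add_left (Nat.mul_le_mul this k2) 1
        _ = 1 + 22 * s ^ 3 := by ring
        _ ≤ 23 * s ^ 3 := by
          have : 1 ≤ s ^ 3 := Nat.one_le_pow _ _ k3
          omega
    exact h6

end Pool.Agent.H586R2.AF
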